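import Pool.Agent.R863.TG.Stm2

set_option autoImplicit false
set_option maxRecDepth 100000

namespace Pool.Agent.R863.TG

/-- certificate for graph number 0 -/
def cert0 : Cert where
  h := [-8,1,-2,2,4,0,-1,5,3,-4,-6,0,1,-10,2,5,-1,2,-1,-8,3,7,3,6,4,-1,1,3,-1,-9]
  cells := [
  ((7,10,9,-8,-4), [0,1,3,6,20], [1,67,66,2,70]),
  ((4,7,6,-5,-1), [1,3,6,7,20], [3,66,4,0,70]),
  ((9,10,9,-8,-6), [0,1,3,10,20], [5,67,66,0,65]),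
  ((1,4,6,-2,2), [3,6,7,8,20], [6,7,67,1,70]),
  ((4,5,4,-3,-1), [1,3,7,20,21], [8,66,9,10,1]),
  ((9,8,7,-6,-6), [1,3,10,14,20], [67,11,9,2,65]),
  ((-2,4,6,1,5), [6,7,8,20,26], [12,67,66,13,3]),
  ((1,3,5,-1,2), [3,7,8,20,23], [12,67,8,14,3]),
  ((2,3,4,-1,1), [3,7,20,21,23], [15,16,17,7,4]),
  ((6,5,4,-3,-3), [1,3,14,20,21], [16,18,4,19,5]),
  ((4,3,2,-1,1), [1,3,4,7,21], [17,20,4,21,70]),
  ((9,8,6,-5,-6), [1,10,11,14,20], [69,18,5,66,65]),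
  ((-2,3,5,2,5), [7,8,20,23,26], [67,15,22,6,7]),
  ((-3,4,6,2,7), [6,7,8,9,26], [23,67,66,6,70]),
  ((1,0,2,2,5), [3,4,7,8,23], [24,7,25,17,70]),
  ((-2,3,4,3,5), [7,20,21,23,26], [69,26,12,66,8]),
  ((4,3,4,-1,-1), [3,14,20,21,23], [69,8,27,67,9]),
  ((2,1,2,1,3), [3,4,7,21,23], [28,8,29,14,10]),
  ((7,6,4,-3,-4), [1,11,14,20,21], [69,9,66,30,11]),
  ((6,4,3,-2,-2), [1,3,14,15,21], [27,30,21,9,65]),
  ((4,3,-2,3,5), [1,4,7,12,21], [31,66,32,10,33]),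
  ((5,3,2,-1,0), [1,3,4,15,21], [29,32,19,10,65]),
  ((-5,0,2,8,11), [7,8,23,26,27], [34,26,23,35,12]),
  ((-7,0,2,10,15), [7,8,9,26,27], [36,66,22,68,13]),
  ((-3,-4,-2,10,13), [4,7,8,23,24], [35,37,28,68,14]),
  ((1,-2,2,4,7), [3,4,5,8,23], [37,67,14,38,70]),
  ((-4,1,2,7,9), [7,21,23,26,27], [69,22,66,39,15]),
  ((4,2,3,0,0), [3,14,15,21,23], [69,29,16,40,19]),
  ((-2,-3,-2,9,11), [4,7,21,23,24], [39,41,24,42,17]),
  ((3,1,2,1,2), [3,4,15,21,23], [41,27,17,43,21]),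
  ((7,5,3,-2,-3), [1,11,14,15,21], [69,19,44,18,65]),
  ((2,1,-4,7,9), [4,7,12,21,22], [66,45,42,46,20]),
  ((5,3,-1,2,3), [1,4,12,15,21], [45,44,21,20,65]),
  ((4,3,-3,4,7), [1,2,4,7,12], [46,20,66,65,70]),
  ((-7,-2,2,12,15), [8,23,26,27,28], [69,36,47,67,22]),
  ((-5,-4,-2,12,15), [7,8,23,24,27], [47,39,68,22,24]),
  ((-9,-2,2,14,19), [8,9,26,27,28], [48,34,68,67,23]),
  ((-3,-6,-2,12,15), [4,5,8,23,24], [49,24,50,68,25]),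
  ((2,-2,2,4,6), [3,4,5,17,23], [50,67,43,25,65]),
  ((-4,-3,-2,11,13), [7,21,23,24,27], [69,35,51,26,28]),
  ((4,0,3,2,2), [3,14,15,17,23], [69,43,67,27,65]),
  ((-1,-3,-2,9,10), [4,15,21,23,24], [69,28,52,53,29]),
  ((-2,-3,-4,11,13), [4,7,21,22,24], [51,53,68,28,31]),
  ((3,-1,2,3,4), [3,4,15,17,23], [52,40,38,29,65]),
  ((7,5,1,0,-1), [1,11,12,15,21], [69,32,30,66,65]),
  ((2,0,-4,8,9), [4,12,15,21,22], [69,53,31,54,32]),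
  ((2,1,-5,8,11), [2,4,7,12,22], [31,66,55,68,33]),
  ((-7,-6,-2,16,19), [8,23,24,27,28], [69,68,34,56,35]),
  ((-10,-2,2,16,21), [9,26,27,28,29], [69,68,67,66,36]),
  ((-4,-7,-2,14,17), [5,8,23,24,25], [56,57,68,67,37]),
  ((-2,-6,-2,12,14), [4,5,17,23,24], [57,52,37,58,38]),
  ((-4,-3,-4,13,15), [7,21,22,24,27], [69,68,39,66,42]),
  ((-1,-5,-2,11,12), [4,15,17,23,24], [69,50,41,59,43]),
  ((-1,-3,-4,11,12), [4,15,21,22,24], [69,42,60,41,45]),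
  ((2,-2,-6,12,13), [4,12,15,16,22], [69,60,55,45,65]),
  ((2,-2,-8,14,17), [2,4,12,16,22], [54,61,68,46,65]),
  ((-7,-7,-2,17,20), [8,23,24,25,28], [69,68,67,47,49]),
  ((-3,-7,-2,14,16), [5,17,23,24,25], [69,49,62,67,50]),
  ((-2,-7,-3,14,16), [4,5,17,18,24], [62,59,68,50,65]),
  ((-1,-6,-3,13,14), [4,15,17,18,24], [69,58,63,52,65]),
  ((-1,-5,-6,15,16), [4,15,16,22,24], [69,68,53,63,54]),
  ((2,-2,-11,20,23), [2,12,13,16,22], [69,68,55,66,65]),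
  ((-3,-8,-3,16,18), [5,17,18,24,25], [69,68,57,64,58]),
  ((-1,-6,-6,16,17), [4,15,16,18,24], [69,68,59,60,65]),
  ((-3,-10,-3,20,22), [5,17,18,19,25], [69,68,67,62,65])]

/-- skeleton certificate for graph number 0 -/
def gcert0 : GCert where
  adj := [[],[],[5],[],[8,9],[2,9],[12],[8,12],[4,7,17],[4,5,19],[],[],[6,7,22],[],[],[],[],[8,28,29],[],[9,21],[31,32],[19,29,32],[12,23,35],[22,36],[28,35,37],[],[],[],[17,24,42],[17,21,43],[],[20,42,46],[20,21],[],[],[22,24],[23],[24,49,50],[43,50],[],[],[],[28,31],[29,38],[],[],[31,55],[],[],[37],[37,38,58],[],[],[],[],[46],[],[],[50],[],[],[],[],[],[]]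
  core := [4,7,8,9,12,17,19,20,21,22,24,28,29,31,32,35,37,38,42,43,50]
  rk := [1,2,3,4,0,5,6,0,0,0,7,8,0,9,10,11,12,0,13,0,0,0,0,21,0,14,15,16,0,0,17,0,0,18,19,0,20,0,0,22,23,24,0,0,25,26,35,27,28,29,0,30,31,32,33,34,36,37,38,39,40,41,42,43,44]
  ph := [8,17,21,24,28,29]

theorem chk0 : chk cert0 = true := by decide +kernel
theorem achk0 : achk cert0 gcert0 = true := by decide +kernel
theorem gchk0 : gchk gcert0 (canon 0) = true := by decide +kernel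

end Pool.Agent.R863.TG
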