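import Pool.Agent.R863.TG.Stm2

set_option autoImplicit false
set_option maxRecDepth 100000

namespace Pool.Agent.R863.TG

/-- certificate for graph number 1 -/
def cert1 : Cert where
  h := [-10,-1,-4,3,5,-2,0,4,5,0,-4,2,1,-9,3,6,1,2,-1,-9,1,6,2,3,5,0,0,1,-2,-8]
  cells := [
  ((10,13,9,-10,-4), [0,1,3,6,10], [1,67,66,65,70]),
  ((7,10,6,-7,-4), [1,3,6,10,11], [2,66,65,3,0]),
  ((5,8,6,-5,-4), [3,6,10,11,20], [66,4,5,67,1]),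
  ((5,8,4,-5,-2), [1,3,6,7,11], [6,66,7,1,70]),
  ((5,7,6,-4,-4), [3,10,11,14,20], [69,8,67,2,65]),
  ((4,7,5,-4,-3), [3,6,11,20,21], [66,8,9,6,2]),
  ((4,7,4,-4,-2), [3,6,7,11,21], [66,10,5,11,3]),
  ((5,6,2,-3,0), [1,3,4,7,11], [10,12,3,65,70]),
  ((4,6,5,-3,-3), [3,11,14,20,21], [69,13,5,14,4]),
  ((2,5,5,-2,-1), [3,6,8,20,21], [15,13,5,11,67]),
  ((4,5,2,-2,0), [3,4,7,11,21], [16,6,17,18,7]),
  ((2,5,4,-2,0), [3,6,7,8,21], [19,18,9,6,70]),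
  ((5,6,-1,0,3), [1,4,7,11,12], [16,66,65,20,7]),
  ((2,4,5,-1,-1), [3,8,14,20,21], [21,8,9,22,67]),
  ((4,4,3,-1,-1), [3,11,14,15,21], [69,22,17,8,65]),
  ((0,5,5,0,1), [6,8,9,20,21], [23,66,9,19,67]),
  ((4,5,-1,1,3), [4,7,11,12,21], [66,24,25,10,12]),
  ((4,4,2,-1,0), [3,4,11,15,21], [24,14,26,10,65]),
  ((2,3,2,0,2), [3,4,7,8,21], [27,11,26,10,70]),
  ((0,5,4,0,2), [6,7,8,9,21], [28,15,66,11,70]),
  ((5,6,-3,2,7), [1,2,4,7,12], [29,12,66,65,70]),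
  ((0,2,5,3,1), [8,14,20,21,23], [69,30,31,67,13]),
  ((2,2,3,1,1), [3,8,14,15,21], [31,14,26,13,32]),
  ((-1,4,5,2,2), [8,9,20,21,26], [66,30,33,67,15]),
  ((4,4,-1,2,3), [4,11,12,15,21], [69,34,17,16,65]),
  ((1,2,-4,7,9), [4,7,12,21,22], [66,34,35,29,16]),
  ((2,2,2,1,2), [3,4,8,15,21], [36,22,17,18,37]),
  ((-2,-1,-2,8,10), [4,7,8,21,24], [38,36,35,68,18]),
  ((-5,0,-1,10,12), [7,8,9,21,27], [33,66,38,68,19]),
  ((1,2,-7,10,15), [2,4,7,12,22], [25,66,39,68,20]),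
  ((-1,2,5,4,2), [8,20,21,23,26], [69,40,67,23,21]),
  ((0,0,3,5,3), [8,14,15,21,23], [69,41,21,42,22]),
  ((2,-1,3,4,4), [3,8,14,15,17], [42,65,37,67,22]),
  ((-5,0,1,10,10), [8,9,21,26,27], [66,43,44,28,23]),
  ((1,1,-4,8,9), [4,12,15,21,22], [69,45,25,46,24]),
  ((-2,-1,-4,10,12), [4,7,21,22,24], [47,45,68,27,25]),
  ((-1,-1,-1,7,8), [4,8,15,21,24], [41,45,27,48,26]),
  ((2,-2,2,5,6), [3,4,8,15,17], [48,32,65,49,26]),
  ((-5,-1,-2,11,13), [7,8,21,24,27], [43,47,68,28,27]),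
  ((1,0,-9,14,19), [2,4,12,16,22], [46,50,68,29,65]),
  ((-4,-1,2,10,8), [8,21,23,24,26], [69,51,43,30,41]),
  ((-1,-1,2,7,5), [8,15,21,23,24], [69,40,52,36,31]),
  ((0,-1,3,6,4), [8,14,15,17,23], [69,52,67,31,32]),
  ((-5,-1,1,11,10), [8,21,24,26,27], [69,53,33,38,40]),
  ((-7,-2,1,14,14), [8,9,26,27,28], [54,53,68,67,33]),
  ((-1,-1,-4,10,11), [4,15,21,22,24], [69,35,55,36,34]),
  ((1,0,-5,10,11), [4,12,15,16,22], [69,55,39,34,65]),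
  ((-5,-1,-4,13,15), [7,21,22,24,27], [69,68,38,66,35]),
  ((-1,-5,-1,11,12), [4,8,15,17,24], [52,56,57,36,37]),
  ((2,-5,2,8,12), [3,4,5,8,17], [58,67,37,65,70]),
  ((1,0,-10,16,21), [2,12,13,16,22], [69,68,39,66,65]),
  ((-5,-2,2,12,10), [8,23,24,26,28], [69,53,67,59,40]),
  ((-1,-2,2,8,6), [8,15,17,23,24], [69,60,41,48,42]),
  ((-6,-2,1,13,12), [8,24,26,27,28], [69,44,68,51,43]),
  ((-8,-2,1,16,16), [9,26,27,28,29], [69,68,67,66,44]),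
  ((-1,-2,-5,12,13), [4,15,16,22,24], [69,68,45,61,46]),
  ((-1,-7,-3,15,16), [4,15,17,18,24], [69,62,61,48,65]),
  ((-2,-7,-2,14,16), [4,8,17,24,25], [60,62,68,58,48]),
  ((-2,-9,-2,16,20), [4,5,8,17,25], [67,57,63,68,49]),
  ((-5,-3,2,13,11), [8,23,24,25,28], [69,68,67,51,60]),
  ((-2,-3,2,10,8), [8,17,23,24,25], [69,59,57,67,52]),
  ((-1,-7,-5,17,18), [4,15,16,18,24], [69,68,56,55,65]),
  ((-2,-8,-3,16,18), [4,17,18,24,25], [69,68,57,63,56]),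
  ((-2,-10,-3,18,22), [4,5,17,18,25], [64,62,68,58,65]),
  ((-2,-11,-3,20,24), [5,17,18,19,25], [69,68,67,63,65])]

/-- skeleton certificate for graph number 1 -/
def gcert1 : GCert where
  adj := [[],[2],[1,5],[],[],[2,6,9],[5,10],[],[],[5,13,15],[6,16,17],[],[16],[9,22],[],[9,23],[10,12,25],[10,26],[],[],[],[],[13,26,32],[15,33],[],[16,29,35],[17,22,36],[35,36,38],[33,38],[25,39],[],[],[22,37],[23,28,44],[],[25,27],[26,27,48],[32,48],[27,28],[29],[],[],[],[],[33],[],[],[],[36,37,57],[],[],[],[],[],[],[],[],[48,58],[57,63],[],[],[],[],[58],[]]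
  core := [5,6,9,10,13,15,16,17,22,23,25,26,27,28,32,33,35,36,37,38,48]
  rk := [1,2,3,4,5,0,0,6,7,0,0,8,9,0,10,0,0,0,11,12,13,14,0,0,15,0,0,0,0,20,16,17,0,0,18,0,0,0,0,19,21,22,23,24,25,26,27,28,0,29,30,31,32,33,34,35,36,43,42,37,38,39,40,41,44]
  ph := [9,10,27,22,26,36]

theorem chk1 : chk cert1 = true := by decide +kernel
theorem achk1 : achk cert1 gcert1 = true := by decide +kernel
theorem gchk1 : gchk gcert1 (canon 1) = true := by decide +kernel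

end Pool.Agent.R863.TG
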