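import Pool.Agent.R863.TG.Stm2

set_option autoImplicit false
set_option maxRecDepth 100000

namespace Pool.Agent.R863.TG

/-- certificate for graph number 10 -/
def cert10 : Cert where
  h := [-25,-19,-29,7,1,15,23,-2,30,-1,5,9,2,-9,1,9,-4,-6,-6,-18,-3,15,29,2,15,-1,-12,9,-11,-26]
  cells := [
  ((48,32,6,-25,5), [0,1,3,6,10], [1,67,66,65,70]),
  ((46,30,4,-23,5), [1,3,6,10,11], [2,66,65,3,0]),
  ((24,8,4,-1,5), [3,5,6,10,11], [4,1,65,5,67]),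
  ((36,20,-6,-13,15), [1,3,4,6,11], [6,7,1,65,70]),
  ((22,7,4,1,5), [5,6,8,10,11], [8,9,2,10,67]),
  ((24,8,-4,-1,13), [3,5,6,11,22], [10,6,11,12,2]),
  ((26,10,-6,-3,15), [3,4,6,11,22], [13,5,11,12,3]),
  ((35,20,-7,-12,16), [1,4,6,11,12], [13,66,65,14,3]),
  ((16,7,4,7,5), [6,8,10,11,22], [9,66,10,15,4]),
  ((16,1,4,13,5), [5,8,10,11,22], [8,16,10,17,4]),
  ((22,7,-2,1,11), [5,6,8,11,22], [8,9,5,18,4]),
  ((26,8,-6,-1,15), [3,4,5,11,22], [19,5,6,12,65]),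
  ((24,8,-6,-1,17), [3,4,5,6,22], [18,5,6,11,70]),
  ((27,12,-7,-4,16), [4,6,11,12,22], [66,19,20,6,7]),
  ((32,20,-10,-9,22), [1,2,4,6,12], [21,7,66,65,70]),
  ((-4,7,14,27,5), [6,8,10,21,22], [22,66,23,8,24]),
  ((16,0,4,15,5), [5,10,11,15,22], [69,25,17,9,65]),
  ((14,-1,5,17,5), [5,8,10,15,22], [26,16,27,9,28]),
  ((22,7,-7,1,21), [4,5,6,8,22], [10,29,68,12,70]),
  ((27,7,-7,1,16), [4,5,11,12,22], [25,13,30,11,65]),
  ((27,16,-11,-4,24), [4,6,12,13,22], [66,30,31,13,21]),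
  ((30,19,-11,-7,24), [2,4,6,12,13], [20,66,65,31,14]),
  ((-4,1,14,33,5), [8,10,21,22,23], [69,32,33,34,15]),
  ((-6,7,14,29,7), [6,8,21,22,27], [32,66,35,24,15]),
  ((-6,7,16,29,5), [6,8,10,21,27], [34,66,23,36,15]),
  ((27,0,-7,15,16), [5,11,12,15,22], [69,37,16,19,65]),
  ((8,-4,8,26,5), [8,10,14,15,22], [69,38,17,39,28]),
  ((6,-9,5,33,13), [5,8,15,22,24], [38,40,68,41,17]),
  ((11,-4,8,23,5), [5,8,10,14,15], [26,65,42,17,67]),
  ((6,7,-23,17,69), [2,4,6,8,22], [18,43,68,31,70]),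
  ((27,3,-11,9,24), [4,5,12,13,22], [37,20,68,19,65]),
  ((24,16,-14,-1,33), [2,4,6,13,22], [20,66,68,29,21]),
  ((-6,1,14,35,7), [8,21,22,23,27], [69,44,34,23,22]),
  ((-2,-1,13,33,5), [8,10,22,23,24], [69,44,45,39,22]),
  ((-6,3,16,33,5), [8,10,21,23,27], [69,32,46,24,22]),
  ((-24,7,-4,47,61), [6,8,9,22,27], [68,66,23,47,48]),
  ((-8,7,20,31,5), [6,8,10,20,27], [46,66,49,24,67]),
  ((27,-4,-11,23,24), [5,12,13,15,22], [69,50,25,30,65]),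
  ((6,-6,8,30,7), [8,14,15,22,24], [69,27,39,51,26]),
  ((4,-4,10,30,5), [8,10,14,22,24], [69,38,33,52,26]),
  ((6,-13,1,41,21), [5,15,19,22,24], [69,68,27,53,54]),
  ((6,-9,6,33,12), [5,8,15,17,24], [51,53,55,27,42]),
  ((8,-7,8,29,8), [5,8,14,15,17], [51,65,41,67,28]),
  ((2,7,-25,21,77), [2,6,7,8,22], [48,68,29,66,70]),
  ((-7,-1,13,38,10), [8,22,23,24,27], [69,56,68,32,33]),
  ((0,-3,13,33,5), [8,10,23,24,25], [69,56,52,67,33]),
  ((-8,5,20,33,5), [8,10,20,23,27], [69,57,34,36,67]),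
  ((-24,7,11,47,46), [6,8,9,27,29], [68,66,58,67,35]),
  ((-24,7,-25,47,103), [6,7,8,9,22], [68,35,66,43,70]),
  ((-9,7,21,32,6), [6,8,20,26,27], [57,66,58,36,67]),
  ((25,-8,-13,31,30), [5,13,15,16,22], [69,59,68,37,65]),
  ((6,-7,8,31,8), [8,14,15,17,24], [69,41,60,38,42]),
  ((2,-4,12,32,5), [8,10,14,24,25], [69,60,45,67,39]),
  ((6,-12,3,39,18), [5,15,17,19,24], [69,61,40,41,65]),
  ((8,-15,-3,45,27), [5,15,18,19,22], [69,68,40,59,65]),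
  ((5,-10,6,35,14), [5,8,17,24,25], [60,61,68,67,41]),
  ((-9,-3,13,42,14), [8,23,24,25,27], [69,68,62,44,45]),
  ((-9,5,21,34,6), [8,20,23,26,27], [69,63,49,46,67]),
  ((-14,7,21,37,16), [6,8,26,27,29], [64,66,47,67,49]),
  ((18,-15,-13,45,37), [5,15,16,18,22], [69,68,54,50,65]),
  ((5,-7,9,32,8), [8,14,17,24,25], [69,55,52,67,51]),
  ((5,-12,4,39,18), [5,17,19,24,25], [69,68,55,67,53]),
  ((-13,-3,17,46,18), [8,23,25,27,28], [69,68,63,67,56]),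
  ((-13,1,21,42,14), [8,23,26,27,28], [69,64,62,67,57]),
  ((-14,1,21,43,16), [8,26,27,28,29], [69,68,67,58,63])]

/-- skeleton certificate for graph number 10 -/
def gcert10 : GCert where
  adj := [[],[2],[1,4],[],[2,8,9],[6,10,11],[5,11,13],[13],[4,10,15],[4,10,17],[5,8,9],[5,6,19],[],[6,7,20],[],[8,23,24],[],[9,27,28],[],[11,30],[13,21,31],[20],[],[15,24,35],[15,23,36],[],[],[17,41],[17,42],[],[19],[20],[],[],[],[23],[24,49],[],[],[],[],[27,42,55],[28,41],[],[],[],[],[58],[],[36,58],[],[],[],[],[],[41],[],[],[47,49],[],[],[],[],[],[]]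
  core := [4,5,6,8,9,10,11,15,17,23,24,27,28,41,42]
  rk := [1,2,3,4,0,0,0,5,0,0,0,0,6,19,7,0,8,0,9,16,18,10,11,0,0,12,13,0,0,14,15,17,20,21,22,23,44,24,25,26,27,0,0,28,29,30,31,32,33,43,34,35,36,37,38,39,40,41,42,45,46,47,48,49,50]
  ph := [5,10,8,9,15,17]

theorem chk10 : chk cert10 = true := by decide +kernel
theorem achk10 : achk cert10 gcert10 = true := by decide +kernel
theorem gchk10 : gchk gcert10 (canon 10) = true := by decide +kernel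

end Pool.Agent.R863.TG
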