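import Pool.Agent.R863.TG.Stm2

set_option autoImplicit false
set_option maxRecDepth 100000

namespace Pool.Agent.R863.TG

/-- certificate for graph number 11 -/
def cert11 : Cert where
  h := [-8,-11,-18,7,22,4,-1,-5,10,0,-7,-3,-7,-15,10,10,3,-3,-1,-20,3,11,14,8,15,-6,3,23,-13,-25]
  cells := [
  ((7,33,-3,-8,13), [0,1,4,6,22], [1,2,66,3,70]),
  ((6,33,-4,-7,16), [1,4,6,7,22], [4,66,5,0,70]),
  ((7,32,-2,-8,11), [0,4,6,22,27], [4,66,6,7,0]),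
  ((20,33,-3,-8,0), [0,1,4,11,22], [8,9,66,0,65]),
  ((5,32,-4,-6,17), [4,6,7,22,27], [66,68,2,10,1]),
  ((6,33,-7,-4,22), [1,2,4,7,22], [68,1,66,11,70]),
  ((12,27,3,-8,-4), [0,4,21,22,27], [12,66,2,13,9]),
  ((7,17,13,-8,-4), [0,4,6,20,27], [14,66,15,2,16]),
  ((21,33,-4,-7,1), [1,4,11,12,22], [17,66,11,3,65]),
  ((14,27,3,-8,-6), [0,4,11,21,22], [18,66,6,3,19]),
  ((1,28,-4,-2,25), [4,6,7,9,27], [66,68,20,4,70]),
  ((21,33,-7,-4,7), [1,2,4,12,22], [21,8,66,5,65]),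
  ((12,14,3,5,-4), [4,14,21,22,27], [69,6,22,23,18]),
  ((12,24,6,-8,-7), [0,4,10,21,27], [23,66,6,15,19]),
  ((5,13,15,-6,-2), [3,4,6,20,27], [7,24,25,26,16]),
  ((10,20,10,-8,-7), [0,4,10,20,27], [27,66,7,13,28]),
  ((7,15,15,-8,-4), [0,3,4,6,20], [14,7,67,29,70]),
  ((21,13,-4,13,1), [4,11,12,15,22], [69,30,31,8,65]),
  ((14,16,3,3,-6), [4,11,14,21,22], [69,12,9,31,32]),
  ((14,26,4,-8,-7), [0,4,10,11,21], [32,66,9,13,65]),
  ((1,11,13,-2,8), [4,6,8,9,27], [33,68,10,26,70]),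
  ((21,32,-8,-2,9), [2,4,12,13,22], [34,66,68,11,65]),
  ((9,5,0,17,5), [4,14,15,22,27], [69,35,12,36,31]),
  ((12,17,6,-1,-7), [4,10,14,21,27], [69,12,13,27,32]),
  ((3,11,17,-4,0), [3,6,8,20,27], [33,37,14,26,67]),
  ((5,12,15,-5,-2), [3,4,14,20,27], [27,37,14,38,29]),
  ((3,11,15,-4,2), [3,4,6,8,27], [20,24,38,14,70]),
  ((10,17,10,-5,-7), [4,10,14,20,27], [69,25,15,23,28]),
  ((10,17,13,-8,-7), [0,4,10,14,20], [27,67,29,15,65]),
  ((8,15,15,-8,-5), [0,3,4,14,20], [25,28,67,16,65]),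
  ((21,10,-7,19,7), [4,12,15,16,22], [69,39,34,17,65]),
  ((17,13,0,9,-3), [4,11,14,15,22], [69,22,17,18,65]),
  ((14,17,4,1,-7), [4,10,11,14,21], [69,18,23,19,65]),
  ((1,11,19,-2,2), [6,8,9,20,27], [40,66,24,20,67]),
  ((21,10,-8,20,9), [4,12,13,16,22], [69,68,30,21,65]),
  ((5,-3,-4,29,17), [4,15,22,24,27], [69,68,36,22,39]),
  ((5,-3,0,25,13), [4,14,15,24,27], [69,35,41,22,42]),
  ((3,10,17,-3,0), [3,8,14,20,27], [43,25,24,38,67]),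
  ((3,8,15,-1,2), [3,4,8,14,27], [44,37,25,26,45]),
  ((5,-6,-7,35,23), [4,15,16,22,24], [69,68,35,46,30]),
  ((0,10,20,0,3), [8,9,20,26,27], [66,43,47,33,67]),
  ((-2,-10,7,25,20), [4,14,23,24,27], [69,48,36,44,49]),
  ((5,-11,0,33,21), [4,14,15,18,24], [69,46,50,36,65]),
  ((0,7,20,3,3), [8,14,20,26,27], [69,40,51,37,67]),
  ((-2,-7,10,19,17), [4,8,14,23,27], [51,41,52,38,53]),
  ((3,-3,15,10,13), [3,4,5,8,14], [53,67,38,65,70]),
  ((5,-11,-7,40,28), [4,15,16,18,24], [69,68,42,39,65]),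
  ((-26,-16,20,52,55), [8,9,26,27,28], [54,55,68,67,40]),
  ((-3,-11,7,26,22), [4,5,23,24,27], [56,41,68,52,49]),
  ((-2,-11,7,26,21), [4,5,14,23,24], [57,41,48,58,53]),
  ((3,-13,2,33,23), [4,14,17,18,24], [69,59,42,58,65]),
  ((-2,3,20,9,7), [8,14,23,26,27], [69,60,43,44,67]),
  ((-3,-9,9,22,20), [4,5,8,23,27], [61,44,48,68,53]),
  ((-2,-8,10,20,18), [4,5,8,14,23], [67,44,49,52,45]),
  ((-28,-16,20,56,59), [9,26,27,28,29], [69,68,67,66,47]),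
  ((-23,-16,20,49,49), [8,25,26,27,28], [69,47,68,67,60]),
  ((-6,-14,7,32,28), [5,23,24,25,27], [69,68,61,48,62]),
  ((-2,-13,7,30,23), [5,14,17,23,24], [69,62,49,58,67]),
  ((0,-13,5,30,23), [4,5,14,17,24], [57,50,59,49,65]),
  ((0,-16,2,36,29), [4,5,17,18,24], [63,50,68,58,65]),
  ((-19,-14,20,43,41), [8,23,25,26,27], [69,55,51,61,67]),
  ((-8,-14,9,32,30), [5,8,23,25,27], [60,56,68,52,67]),
  ((-3,-14,7,32,25), [5,17,23,24,25], [69,56,64,67,57]),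
  ((-1,-17,2,38,31), [5,17,18,19,24], [69,68,64,59,65]),
  ((-3,-17,4,38,31), [5,17,19,24,25], [69,68,62,67,63])]

/-- skeleton certificate for graph number 11 -/
def gcert11 : GCert where
  adj := [[],[],[4,6],[8,9],[2],[],[2,9,13],[14,15],[3,11],[3,6,19],[],[8,21],[],[6,15,19],[7,24,25],[7,13,28],[],[],[],[9,13],[],[11],[],[],[14,33,37],[14,29,38],[],[],[15,29],[25,28],[],[],[],[24,40],[],[],[],[24,38],[25,37,44],[],[33,47],[],[],[],[38,52,53],[],[],[40],[49,52],[48,53,58],[],[],[44,48,61],[44,49],[],[],[],[],[49,59],[58],[],[52],[],[],[]]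
  core := [6,7,9,13,14,15,19,24,25,28,29,37,38,44,48,49,52,53]
  rk := [1,2,4,15,3,5,0,0,14,0,6,13,7,0,0,0,8,9,10,0,11,12,16,17,0,0,18,19,0,0,20,21,22,34,23,24,25,0,0,26,33,27,28,29,0,30,31,32,0,0,35,36,0,0,37,38,39,40,42,41,43,44,45,46,47]
  ph := [13,15,14,25,38,44]

theorem chk11 : chk cert11 = true := by decide +kernel
theorem achk11 : achk cert11 gcert11 = true := by decide +kernel
theorem gchk11 : gchk gcert11 (canon 11) = true := by decide +kernel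

end Pool.Agent.R863.TG
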