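import Pool.Agent.R863.TG.Stm2

set_option autoImplicit false
set_option maxRecDepth 100000

namespace Pool.Agent.R863.TG

/-- certificate for graph number 12 -/
def cert12 : Cert where
  h := [-8,-11,-19,9,19,1,1,2,6,0,-12,-6,-6,-11,14,19,0,-1,1,-23,4,11,9,9,13,-8,-3,17,-6,-21]
  cells := [
  ((13,30,-3,-8,2), [0,1,4,7,22], [1,2,66,3,70]),
  ((13,30,-7,-4,10), [1,4,7,13,22], [68,66,4,0,5]),
  ((12,29,-2,-8,1), [0,4,7,21,22], [6,66,7,0,8]),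
  ((15,30,-3,-8,0), [0,1,4,12,22], [4,7,66,0,65]),
  ((15,30,-5,-6,4), [1,4,12,13,22], [9,66,1,3,65]),
  ((13,30,-8,-3,13), [1,2,4,7,13], [68,1,66,65,70]),
  ((6,23,-2,-2,7), [4,7,21,22,27], [66,10,68,11,2]),
  ((15,29,-2,-8,-2), [0,4,12,21,22], [12,66,2,3,13]),
  ((9,26,1,-8,1), [0,4,6,7,21], [11,66,2,14,70]),
  ((15,20,-5,4,4), [4,12,13,15,22], [69,15,12,4,65]),
  ((6,14,-2,7,7), [4,15,21,22,27], [69,6,16,17,12]),
  ((6,23,1,-5,4), [4,6,7,21,27], [66,6,18,19,8]),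
  ((15,23,-2,-2,-2), [4,12,15,21,22], [69,10,7,9,20]),
  ((17,27,0,-8,-6), [0,4,11,12,21], [20,66,7,21,65]),
  ((9,20,7,-8,-5), [0,4,6,20,21], [18,66,22,8,23]),
  ((1,-8,-19,46,46), [4,13,15,16,22], [69,24,68,9,65]),
  ((-6,-10,-14,43,43), [4,15,22,24,27], [69,68,25,10,24]),
  ((6,14,5,0,0), [4,14,15,21,27], [69,10,26,27,28]),
  ((6,17,7,-5,-2), [4,6,20,21,27], [66,26,11,29,14]),
  ((-1,16,1,2,18), [4,6,7,9,27], [66,68,30,11,70]),
  ((17,25,0,-6,-6), [4,11,12,15,21], [69,12,21,13,65]),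
  ((17,25,2,-8,-8), [0,4,11,15,21], [20,31,28,13,65]),
  ((10,20,7,-8,-6), [0,4,14,20,21], [26,32,14,28,23]),
  ((9,19,8,-8,-5), [0,4,6,14,20], [29,67,22,14,33]),
  ((-6,-15,-19,53,53), [4,15,16,22,24], [69,68,16,34,15]),
  ((-6,-10,4,25,25), [4,15,23,24,27], [69,35,16,27,36]),
  ((6,16,7,-4,-2), [4,14,20,21,27], [69,18,17,29,22]),
  ((-5,-8,5,22,22), [4,14,15,23,27], [69,25,37,17,38]),
  ((14,22,5,-8,-8), [0,4,14,15,21], [17,31,21,22,65]),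
  ((5,15,8,-4,-1), [4,6,14,20,27], [39,26,18,40,23]),
  ((-1,7,10,2,9), [3,4,6,9,27], [19,41,42,40,70]),
  ((17,25,5,-8,-11), [0,11,14,15,21], [69,28,21,43,65]),
  ((16,26,7,-8,-12), [0,10,14,20,21], [69,22,66,43,67]),
  ((9,17,10,-8,-3), [0,3,4,6,14], [40,23,67,65,70]),
  ((-6,-18,-19,56,56), [4,15,16,18,24], [69,68,44,24,65]),
  ((-9,-13,4,28,31), [4,8,23,24,27], [45,25,68,37,46]),
  ((-6,-14,4,29,29), [4,5,15,23,24], [47,25,46,44,38]),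
  ((-5,-5,8,16,19), [4,8,14,23,27], [48,27,35,49,50]),
  ((-5,-13,5,27,27), [4,5,14,15,23], [51,27,36,50,65]),
  ((-1,9,14,2,5), [6,9,14,20,27], [52,29,66,41,67]),
  ((1,9,10,0,5), [3,4,6,14,27], [29,41,49,30,33]),
  ((-1,7,12,2,7), [3,6,9,14,27], [39,53,40,30,67]),
  ((-3,3,10,6,13), [3,4,8,9,27], [68,53,30,49,70]),
  ((17,26,6,-8,-12), [0,10,11,14,21], [69,31,32,66,65]),
  ((-6,-18,0,37,37), [4,5,15,18,24], [54,34,68,36,65]),
  ((-13,-17,4,36,39), [8,23,24,25,27], [69,68,55,35,56]),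
  ((-9,-14,4,29,32), [4,5,8,23,24], [56,35,36,68,50]),
  ((-6,-16,4,33,31), [5,15,17,23,24], [69,57,36,54,51]),
  ((-5,1,14,10,13), [8,9,14,23,27], [52,37,58,53,67]),
  ((-3,1,10,8,13), [3,4,8,14,27], [37,53,40,42,59]),
  ((-5,-10,8,21,24), [4,5,8,14,23], [67,37,38,46,59]),
  ((-5,-15,5,31,29), [5,14,15,17,23], [69,47,67,38,65]),
  ((-5,5,18,10,9), [9,14,20,23,27], [69,60,48,39,67]),
  ((-3,3,12,6,11), [3,8,9,14,27], [48,41,49,42,67]),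
  ((-6,-18,2,37,35), [5,15,17,18,24], [69,61,44,47,65]),
  ((-15,-17,6,38,41), [8,23,25,27,28], [69,68,58,67,45]),
  ((-12,-17,4,35,38), [5,8,23,24,25], [45,57,68,67,46]),
  ((-7,-17,4,35,33), [5,17,23,24,25], [69,56,61,67,47]),
  ((-15,-9,14,30,33), [8,9,23,27,28], [62,55,68,67,48]),
  ((-3,-8,10,17,22), [3,4,5,8,14], [50,67,49,65,70]),
  ((-7,5,20,14,11), [9,20,23,26,27], [69,62,66,52,67]),
  ((-7,-19,2,39,37), [5,17,18,24,25], [69,68,57,63,54]),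
  ((-15,-3,20,30,27), [9,23,26,27,28], [69,64,58,67,60]),
  ((-7,-22,2,45,43), [5,17,18,19,25], [69,68,67,61,65]),
  ((-18,-3,20,36,33), [9,26,27,28,29], [69,68,67,66,62])]

/-- skeleton certificate for graph number 12 -/
def gcert12 : GCert where
  adj := [[],[4],[6,7],[4,7],[1,3],[],[2,11],[2,3,13],[],[],[],[6,18],[],[7,21],[18,22],[],[],[],[11,14,29],[],[],[13,28],[14,23,28],[22,29],[],[],[],[],[21,22],[18,23,40],[],[],[],[],[],[37,46],[38,44,46],[35,49,50],[36,50],[41],[29,41,49],[39,40,53],[],[],[36],[],[35,36,56],[],[53,58],[37,40,53],[37,38],[],[],[41,48,49],[],[],[46],[],[48],[],[],[],[],[],[]]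
  core := [2,6,7,11,13,14,18,21,22,23,28,29,35,36,37,38,40,41,46,49,50,53]
  rk := [1,2,0,4,3,5,0,0,6,7,8,0,9,0,0,10,11,12,0,13,14,0,0,0,15,16,17,18,0,0,19,20,21,22,23,0,0,0,0,24,0,0,25,26,27,28,0,29,37,0,0,30,31,0,32,33,34,35,36,38,39,40,41,42,43]
  ph := [37,49,40,29,18,22]

theorem chk12 : chk cert12 = true := by decide +kernel
theorem achk12 : achk cert12 gcert12 = true := by decide +kernel
theorem gchk12 : gchk gcert12 (canon 12) = true := by decide +kernel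

end Pool.Agent.R863.TG
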