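import Pool.Agent.R863.TG.Stm2

set_option autoImplicit false
set_option maxRecDepth 100000

namespace Pool.Agent.R863.TG

/-- certificate for graph number 13 -/
def cert13 : Cert where
  h := [-4,6,0,-5,17,-12,3,6,-5,-6,-20,-7,-10,-24,21,16,4,10,16,-23,0,5,-3,10,20,-14,5,11,-9,-8]
  cells := [
  ((7,11,10,-4,10), [0,1,4,6,14], [1,2,3,65,70]),
  ((0,11,3,3,10), [1,4,6,7,14], [4,5,6,0,70]),
  ((7,-1,22,-4,22), [0,3,4,6,14], [7,0,67,65,70]),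
  ((7,28,10,-4,-7), [0,1,6,14,20], [8,67,9,66,0]),
  ((-2,9,3,5,12), [4,6,7,14,27], [5,6,10,11,1]),
  ((0,13,3,3,8), [1,6,7,14,27], [4,6,12,66,1]),
  ((0,11,1,5,10), [1,4,7,14,27], [4,5,13,14,1]),
  ((1,-7,22,2,28), [3,4,5,6,14], [15,67,2,65,70]),
  ((5,26,8,-2,-5), [1,6,14,20,26], [67,16,66,12,3]),
  ((17,38,10,-4,-17), [0,1,11,14,20], [17,18,3,66,65]),
  ((-6,3,5,9,18), [4,6,14,24,27], [19,13,20,4,21]),
  ((-9,2,3,12,26), [4,6,7,9,27], [66,68,20,4,70]),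
  ((3,22,6,0,-1), [1,6,14,26,27], [19,16,66,5,8]),
  ((2,11,-3,9,10), [1,4,14,24,27], [10,22,23,6,24]),
  ((0,11,-6,12,17), [1,2,4,7,27], [68,6,66,23,70]),
  ((-1,-8,21,4,29), [4,5,6,8,14], [67,25,26,7,70]),
  ((5,26,6,0,-5), [1,14,20,26,27], [69,66,12,27,8]),
  ((12,33,5,1,-12), [1,11,14,20,21], [69,27,66,28,9]),
  ((20,41,13,-4,-20), [0,10,11,14,20], [69,9,67,66,65]),
  ((-7,2,6,10,19), [6,14,24,26,27], [69,29,12,10,30]),
  ((-9,0,5,12,24), [4,6,9,24,27], [29,68,10,11,21]),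
  ((-9,-3,8,12,24), [4,6,9,14,24], [30,31,10,20,25]),
  ((4,13,-5,11,8), [1,14,15,24,27], [69,32,13,33,24]),
  ((2,11,-6,12,13), [1,2,4,24,27], [68,13,32,14,34]),
  ((4,11,-5,11,10), [1,4,14,15,24], [35,22,34,13,65]),
  ((-9,-8,13,12,29), [4,6,8,9,14], [67,36,21,15,70]),
  ((-4,-11,18,10,32), [4,5,8,14,17], [67,37,65,38,15]),
  ((6,27,5,1,-6), [1,14,20,21,27], [69,66,33,16,17]),
  ((12,25,-3,9,-4), [1,11,12,14,21], [69,39,17,66,65]),
  ((-9,0,6,12,23), [6,9,24,26,27], [40,19,66,20,30]),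
  ((-9,-2,8,12,23), [6,9,14,24,26], [41,19,29,67,21]),
  ((-11,-9,10,16,30), [4,9,14,23,24], [41,42,43,21,36]),
  ((4,13,-6,12,9), [1,2,15,24,27], [44,22,23,45,34]),
  ((6,17,-5,11,4), [1,14,15,21,27], [69,45,27,22,39]),
  ((4,11,-6,12,11), [1,2,4,15,24], [46,24,32,23,65]),
  ((4,0,-5,22,21), [4,14,15,18,24], [69,47,48,24,65]),
  ((-11,-10,11,16,31), [4,8,9,14,23], [67,31,37,43,25]),
  ((-11,-11,11,17,32), [4,8,14,17,23], [67,42,49,36,26]),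
  ((-16,-23,6,34,56), [4,5,8,17,18], [50,51,65,68,26]),
  ((10,21,-5,11,0), [1,12,14,15,21], [69,33,52,28,65]),
  ((-13,-4,6,20,31), [9,24,26,27,29], [69,66,68,53,29]),
  ((-11,-6,10,16,27), [9,14,23,24,26], [69,53,30,67,31]),
  ((-11,-11,10,18,32), [4,14,17,23,24], [69,49,31,48,37]),
  ((-12,-11,10,18,33), [4,8,9,23,24], [54,31,49,68,36]),
  ((4,13,-10,20,13), [2,15,22,24,27], [69,68,32,55,56]),
  ((6,17,-6,12,5), [1,2,15,21,27], [55,33,66,32,52]),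
  ((4,5,-12,24,23), [2,4,15,16,24], [47,56,68,34,65]),
  ((4,0,-12,29,28), [4,15,16,18,24], [69,68,35,46,65]),
  ((-7,-11,6,22,32), [4,14,17,18,24], [69,51,35,42,65]),
  ((-12,-12,10,19,34), [4,8,17,23,24], [57,42,43,51,37]),
  ((-24,-31,6,50,72), [5,8,17,18,25], [58,59,68,67,38]),
  ((-16,-20,6,31,50), [4,8,17,18,24], [60,48,68,49,38]),
  ((9,20,-6,12,2), [1,2,12,15,21], [61,39,45,66,65]),
  ((-13,-8,10,20,31), [9,23,24,26,29], [69,40,67,54,41]),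
  ((-17,-16,10,28,43), [8,9,23,24,29], [53,57,68,67,43]),
  ((6,17,-8,16,7), [2,15,21,22,27], [69,66,44,45,61]),
  ((4,11,-12,24,17), [2,15,16,22,24], [69,68,44,46,62]),
  ((-18,-18,10,31,46), [8,17,23,24,29], [69,54,63,67,49]),
  ((-24,-29,6,48,68), [8,17,18,25,28], [69,68,67,60,50]),
  ((-24,-33,6,54,76), [5,17,18,19,25], [69,68,67,50,65]),
  ((-23,-27,6,45,64), [8,17,18,24,28], [69,68,63,58,51]),
  ((7,18,-8,16,6), [2,12,15,21,22], [69,55,66,62,52]),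
  ((7,14,-12,24,14), [2,12,15,16,22], [69,56,64,61,65]),
  ((-20,-21,9,36,52), [8,17,24,28,29], [69,68,67,57,60]),
  ((7,14,-14,28,18), [2,12,13,16,22], [69,68,62,66,65])]

/-- skeleton certificate for graph number 13 -/
def gcert13 : GCert where
  adj := [[],[],[],[8,9],[5,6,10],[4,6,12],[4,5,13],[],[3,12],[3],[4,20,21],[],[5,8],[6,23,24],[],[],[],[],[],[],[10,29],[10,30,31],[],[13,32],[13,34],[],[37],[],[],[20,30],[21,29],[21,36,43],[23,34,45],[],[24,32,46],[],[31,37],[26,36,49],[50,51],[],[],[],[],[31,49,54],[],[32,52],[34],[],[],[37,43,51],[38],[38,49],[45],[],[43],[],[],[],[],[],[],[],[],[],[]]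
  core := [4,5,6,10,13,20,21,23,24,29,30,31,32,34,36,37,43,49]
  rk := [1,2,3,6,0,0,0,4,7,5,0,8,9,0,10,11,12,13,14,15,0,0,16,0,0,17,18,19,20,0,0,0,0,21,0,22,0,0,32,23,24,25,26,0,27,35,28,29,30,0,31,33,34,36,37,38,39,40,41,42,43,44,45,46,47]
  ph := [13,6,4,10,21,31]

theorem chk13 : chk cert13 = true := by decide +kernel
theorem achk13 : achk cert13 gcert13 = true := by decide +kernel
theorem gchk13 : gchk gcert13 (canon 13) = true := by decide +kernel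

end Pool.Agent.R863.TG
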