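import Pool.Agent.R863.TG.Stm2

set_option autoImplicit false
set_option maxRecDepth 100000

namespace Pool.Agent.R863.TG

/-- certificate for graph number 2 -/
def cert2 : Cert where
  h := [-9,-3,-3,1,5,0,1,6,6,-4,-8,3,1,-10,6,5,-1,2,-2,-10,1,8,3,7,5,-2,0,3,0,-11]
  cells := [
  ((10,10,6,-9,-3), [0,1,3,6,11], [1,2,66,65,70]),
  ((9,9,5,-8,-2), [1,3,6,7,11], [3,66,4,0,70]),
  ((10,10,7,-9,-4), [0,3,6,11,14], [3,5,65,67,0]),
  ((8,8,5,-7,-2), [3,6,7,11,14], [6,7,2,8,1]),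
  ((9,8,4,-7,-1), [1,3,4,7,11], [7,9,1,65,70]),
  ((10,14,11,-9,-8), [0,6,10,11,14], [10,65,2,67,66]),
  ((5,8,5,-4,-2), [6,7,11,14,21], [11,12,13,66,3]),
  ((8,7,4,-6,-1), [3,4,7,11,14], [11,3,65,14,4]),
  ((5,5,5,-4,1), [3,6,7,8,14], [13,14,67,3,70]),
  ((9,8,0,-3,3), [1,2,4,7,11], [15,4,66,65,70]),
  ((9,14,11,-8,-8), [6,10,11,14,20], [69,12,67,66,5]),
  ((5,4,1,0,2), [4,7,11,14,21], [6,16,17,18,7]),
  ((5,10,7,-4,-4), [6,11,14,20,21], [69,19,66,6,10]),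
  ((2,5,5,-1,1), [6,7,8,14,21], [17,20,6,21,8]),
  ((5,4,4,-3,2), [3,4,7,8,14], [17,8,22,7,70]),
  ((7,6,-2,1,5), [2,4,7,11,12], [18,66,65,23,9]),
  ((5,2,-1,4,4), [4,11,14,15,21], [69,24,25,11,65]),
  ((2,1,1,3,5), [4,7,8,14,21], [13,26,11,27,14]),
  ((5,4,-2,3,5), [4,7,11,12,21], [66,25,28,11,15]),
  ((1,6,7,0,0), [6,14,20,21,23], [69,29,20,67,12]),
  ((1,5,6,0,1), [6,8,14,21,23], [26,19,30,67,13]),
  ((-3,5,5,4,6), [6,7,8,21,26], [31,30,66,32,13]),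
  ((5,-1,4,2,7), [3,4,5,8,14], [33,67,14,65,70]),
  ((2,1,-7,11,15), [2,4,7,12,22], [28,66,34,68,15]),
  ((1,-2,-1,8,8), [4,14,15,21,23], [69,35,26,36,16]),
  ((5,2,-2,5,5), [4,11,12,15,21], [69,37,16,18,65]),
  ((1,-1,0,6,7), [4,8,14,21,23], [20,24,38,39,17]),
  ((-2,-3,-3,11,13), [4,7,8,21,24], [40,38,41,68,17]),
  ((2,1,-5,9,11), [4,7,12,21,22], [66,37,41,23,18]),
  ((-1,6,7,2,2), [6,20,21,23,26], [69,30,67,66,19]),
  ((-2,5,6,3,4), [6,8,21,23,26], [42,29,67,21,20]),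
  ((-5,3,3,8,10), [7,8,21,26,27], [42,66,43,40,21]),
  ((-5,5,5,6,10), [6,7,8,9,26], [43,67,66,21,70]),
  ((2,-4,1,8,10), [4,5,8,14,17], [67,39,65,44,22]),
  ((2,-2,-10,17,21), [2,4,12,16,22], [45,46,68,23,65]),
  ((0,-3,-2,10,10), [4,15,21,23,24], [69,38,47,48,24]),
  ((1,-4,-1,10,10), [4,14,15,17,23], [69,47,39,24,65]),
  ((2,-1,-5,11,11), [4,12,15,21,22], [69,48,28,45,25]),
  ((-1,-3,-2,10,11), [4,8,21,23,24], [49,35,50,27,26]),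
  ((1,-4,0,9,10), [4,8,14,17,23], [67,36,50,26,33]),
  ((-5,-3,-3,14,16), [7,8,21,24,27], [49,51,68,31,27]),
  ((-2,-3,-5,13,15), [4,7,21,22,24], [51,48,68,27,28]),
  ((-5,2,3,9,10), [8,21,23,26,27], [69,52,31,49,30]),
  ((-7,3,3,10,14), [7,8,9,26,27], [53,66,31,68,32]),
  ((-2,-8,-3,16,18), [4,5,8,17,24], [54,50,55,68,33]),
  ((2,-2,-6,13,13), [4,12,15,16,22], [69,56,34,37,65]),
  ((2,-2,-11,19,23), [2,12,13,16,22], [69,68,34,66,65]),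
  ((0,-5,-2,12,12), [4,15,17,23,24], [69,50,35,57,36]),
  ((0,-3,-5,13,13), [4,15,21,22,24], [69,41,56,35,37]),
  ((-5,-3,-2,14,15), [8,21,23,24,27], [69,58,40,42,38]),
  ((-1,-6,-2,13,14), [4,8,17,23,24], [59,47,38,44,39]),
  ((-5,-3,-5,16,18), [7,21,22,24,27], [69,68,40,66,41]),
  ((-7,0,3,13,14), [8,23,26,27,28], [69,53,58,67,42]),
  ((-10,0,3,16,20), [8,9,26,27,28], [60,52,68,67,43]),
  ((-4,-10,-3,20,22), [5,8,17,24,25], [59,61,68,67,44]),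
  ((-2,-9,-4,18,20), [4,5,17,18,24], [61,57,68,44,65]),
  ((0,-4,-6,15,15), [4,15,16,22,24], [69,68,48,62,45]),
  ((0,-7,-4,16,16), [4,15,17,18,24], [69,55,62,47,65]),
  ((-7,-5,-2,18,19), [8,23,24,27,28], [69,68,52,63,49]),
  ((-4,-9,-2,19,20), [8,17,23,24,25], [69,63,54,67,50]),
  ((-11,0,3,18,22), [9,26,27,28,29], [69,68,67,66,53]),
  ((-4,-11,-4,22,24), [5,17,18,24,25], [69,68,54,64,55]),
  ((0,-7,-6,18,18), [4,15,16,18,24], [69,68,57,56,65]),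
  ((-7,-9,-2,22,23), [8,23,24,25,28], [69,68,67,58,59]),
  ((-4,-12,-4,24,26), [5,17,18,19,25], [69,68,67,61,65])]

/-- skeleton certificate for graph number 2 -/
def gcert2 : GCert where
  adj := [[],[],[3,5],[2,6,7],[],[2],[3,13],[3,11],[],[],[],[7,17,18],[],[6,17,20],[],[18],[],[11,13,26],[11,15,28],[],[13,30],[30,31],[],[28,34],[],[],[17,38,39],[38,40,41],[18,23,41],[],[20,21],[21,40,43],[],[39],[23],[],[],[],[26,27,50],[26,33,50],[27,31],[27,28],[],[31,53],[50,54,55],[],[],[],[],[],[38,39,44],[],[],[43],[44],[44],[],[],[],[],[],[],[],[],[]]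
  core := [3,6,7,11,13,17,18,20,21,26,27,28,30,31,38,39,40,41,50]
  rk := [1,2,5,0,3,4,0,0,6,7,8,0,9,0,10,11,12,0,0,13,0,0,14,21,15,16,0,0,0,17,0,0,18,19,20,22,23,24,0,0,0,0,25,34,37,26,27,28,29,30,0,31,32,33,35,36,38,39,40,41,42,43,44,45,46]
  ph := [26,38,17,27,11,13]

theorem chk2 : chk cert2 = true := by decide +kernel
theorem achk2 : achk cert2 gcert2 = true := by decide +kernel
theorem gchk2 : gchk gcert2 (canon 2) = true := by decide +kernel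

end Pool.Agent.R863.TG
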