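import Pool.Agent.R863.TG.Stm2

set_option autoImplicit false
set_option maxRecDepth 100000

namespace Pool.Agent.R863.TG

/-- certificate for graph number 3 -/
def cert3 : Cert where
  h := [-10,-6,-6,-2,0,0,6,15,3,0,-8,4,-1,-9,1,8,-2,6,0,-6,5,6,4,7,5,-4,0,5,-6,-15]
  cells := [
  ((21,8,4,-10,0), [0,1,3,7,11], [1,2,66,65,70]),
  ((21,6,2,-8,2), [1,3,4,7,11], [3,4,0,65,70]),
  ((16,8,9,-10,-5), [0,3,6,7,11], [5,66,0,6,70]),
  ((19,4,2,-6,2), [3,4,7,11,15], [7,8,65,9,1]),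
  ((21,6,0,-6,4), [1,2,4,7,11], [7,1,66,65,70]),
  ((14,6,9,-8,-5), [3,6,7,11,14], [10,11,6,12,2]),
  ((16,8,11,-10,-7), [0,3,6,11,14], [5,13,65,67,2]),
  ((19,4,-2,-2,6), [2,4,7,11,15], [3,14,65,15,4]),
  ((15,4,6,-6,-2), [3,7,11,15,17], [16,65,17,11,3]),
  ((17,2,2,-4,4), [3,4,5,7,15], [18,17,3,65,70]),
  ((10,6,9,-4,-5), [6,7,11,14,20], [19,20,21,66,5]),
  ((14,5,8,-7,-4), [3,7,11,14,17], [19,65,12,8,5]),
  ((13,5,9,-7,-4), [3,6,7,14,17], [21,11,67,22,5]),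
  ((16,9,12,-10,-8), [0,6,10,11,14], [20,65,6,67,66]),
  ((16,4,-5,4,9), [2,7,11,12,15], [23,65,24,7,66]),
  ((11,-4,-10,14,22), [2,4,7,15,16], [25,26,65,68,7]),
  ((7,4,6,2,-2), [7,11,15,17,20], [69,27,19,28,8]),
  ((15,2,4,-4,2), [3,5,7,15,17], [29,8,65,22,9]),
  ((7,-8,-8,16,24), [4,5,7,15,18], [29,25,65,68,9]),
  ((9,5,8,-2,-4), [7,11,14,17,20], [69,21,16,10,11]),
  ((13,9,12,-7,-8), [6,10,11,14,20], [69,10,67,66,13]),
  ((9,5,9,-3,-4), [6,7,14,17,20], [19,67,30,10,12]),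
  ((10,2,9,-4,2), [3,5,6,7,17], [31,12,17,67,70]),
  ((5,4,-5,15,9), [7,11,12,15,22], [69,32,33,66,14]),
  ((13,1,-8,10,15), [2,7,12,13,15], [32,65,26,14,66]),
  ((7,-8,-10,18,26), [4,7,15,16,18], [34,65,68,18,15]),
  ((11,-3,-10,14,21), [2,7,13,15,16], [35,65,15,68,24]),
  ((3,2,4,8,2), [7,15,17,20,23], [69,30,36,37,16]),
  ((2,4,1,12,3), [7,11,15,20,21], [69,36,66,33,16]),
  ((5,-8,-6,16,22), [5,7,15,17,18], [38,65,39,18,17]),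
  ((3,2,9,3,2), [6,7,17,20,23], [27,67,40,41,21]),
  ((0,-3,9,6,12), [5,6,7,8,17], [41,42,67,22,70]),
  ((5,1,-8,18,15), [7,12,13,15,22], [69,35,23,66,24]),
  ((2,4,-2,15,6), [7,11,15,21,22], [69,43,66,23,28]),
  ((-2,-8,-10,27,26), [7,15,16,18,22], [69,68,44,35,25]),
  ((3,-3,-10,22,21), [7,13,15,16,22], [69,34,68,32,26]),
  ((0,2,1,14,5), [7,15,20,21,23], [69,45,46,27,28]),
  ((-3,-4,-2,20,14), [7,15,17,23,24], [69,47,48,38,27]),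
  ((-3,-8,-6,24,22), [7,15,17,18,24], [69,49,44,37,29]),
  ((-3,-12,-6,24,30), [5,7,17,18,19], [49,65,68,42,29]),
  ((-5,2,9,11,10), [6,7,20,23,26], [50,67,51,66,30]),
  ((-2,-3,9,8,12), [6,7,8,17,23], [52,67,30,53,31]),
  ((-9,-12,0,24,30), [5,7,8,17,19], [54,67,39,68,31]),
  ((-1,1,-2,18,9), [7,15,21,22,27], [69,66,55,46,33]),
  ((-3,-8,-9,27,25), [7,15,18,22,24], [69,68,55,38,34]),
  ((-1,2,1,15,6), [7,20,21,23,27], [69,46,50,66,36]),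
  ((-1,1,0,16,7), [7,15,21,23,27], [69,45,48,43,36]),
  ((-10,-11,-2,27,28), [7,17,23,24,25], [69,56,57,52,37]),
  ((-3,-3,-2,20,13), [7,15,23,24,27], [69,56,55,46,37]),
  ((-7,-12,-6,28,30), [7,17,18,19,24], [69,68,57,38,39]),
  ((-5,2,5,15,10), [7,20,23,26,27], [69,58,66,45,40]),
  ((-6,1,9,12,12), [6,7,9,23,26], [58,67,40,66,53]),
  ((-10,-11,1,24,28), [7,8,17,23,25], [67,47,59,54,41]),
  ((-6,-3,9,12,16), [6,7,8,9,23], [60,67,51,41,70]),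
  ((-10,-12,0,25,30), [7,8,17,19,25], [67,57,68,52,42]),
  ((-3,-3,-4,22,15), [7,15,22,24,27], [69,68,48,43,44]),
  ((-11,-11,-2,28,29), [7,23,24,25,27], [69,68,61,48,47]),
  ((-10,-12,-3,28,30), [7,17,19,24,25], [69,68,47,54,49]),
  ((-10,-3,5,20,20), [7,9,23,26,27], [62,50,66,63,51]),
  ((-13,-11,1,27,31), [7,8,23,25,28], [67,61,68,60,52]),
  ((-13,-10,2,26,30), [7,8,9,23,28], [67,63,59,68,53]),
  ((-13,-11,0,28,31), [7,23,25,27,28], [69,68,63,59,56]),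
  ((-13,-6,5,26,26), [9,23,26,27,28], [69,64,63,67,58]),
  ((-13,-9,2,26,29), [7,9,23,27,28], [62,61,68,60,58]),
  ((-15,-6,5,30,30), [9,26,27,28,29], [69,68,67,66,62])]

/-- skeleton certificate for graph number 3 -/
def gcert3 : GCert where
  adj := [[],[],[],[7,8],[],[6,10,11],[5,13],[3,14],[3,11,17],[],[5,21],[5,8,12],[11,21],[6],[7,24],[25,26],[],[8,29],[25,29],[],[],[10,12,30],[],[],[14,26],[15,18],[15,24],[],[],[17,18,39],[21,40,41],[],[],[],[],[],[],[],[],[29,42],[30,51],[30,52],[39,54],[],[],[],[],[],[],[],[],[40,58],[41,54,59],[],[42,52],[],[],[],[51,63],[52,60],[59,63],[],[],[58,60],[]]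
  core := [3,5,7,8,10,11,12,14,15,17,18,21,24,25,26,29,30,39,40,41,42,51,52,54,58,59,60,63]
  rk := [1,2,3,0,4,0,7,0,0,5,0,0,0,6,0,0,8,0,0,9,10,0,11,12,0,0,0,13,14,0,0,15,16,17,18,19,20,21,22,0,0,0,0,23,24,25,26,27,28,29,30,0,0,31,0,32,33,34,0,0,0,35,36,0,37]
  ph := [8,29,11,52,21,30]

theorem chk3 : chk cert3 = true := by decide +kernel
theorem achk3 : achk cert3 gcert3 = true := by decide +kernel
theorem gchk3 : gchk gcert3 (canon 3) = true := by decide +kernel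

end Pool.Agent.R863.TG
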