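import Pool.Agent.R863.TG.Stm2

set_option autoImplicit false
set_option maxRecDepth 100000

namespace Pool.Agent.R863.TG

/-- certificate for graph number 4 -/
def cert4 : Cert where
  h := [-5,-4,-11,14,13,-14,12,8,-5,-8,-14,0,-3,-13,1,12,7,1,4,-10,1,9,-2,6,7,-3,1,8,-1,-11]
  cells := [
  ((17,19,1,-5,-1), [0,1,3,6,11], [1,2,66,65,70]),
  ((15,17,-1,-3,1), [1,3,4,6,11], [3,4,0,65,70]),
  ((17,19,14,-5,-14), [0,3,6,10,11], [5,66,65,0,67]),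
  ((10,12,-1,2,1), [3,4,6,11,15], [6,7,65,8,1]),
  ((13,17,-3,-1,3), [1,4,6,11,12], [9,66,65,10,1]),
  ((15,17,14,-3,-14), [3,6,10,11,20], [66,11,7,67,2]),
  ((9,12,-2,3,2), [4,6,11,15,21], [12,13,14,9,3]),
  ((10,12,9,2,-9), [3,6,11,15,20], [12,15,16,5,3]),
  ((-2,0,-1,14,13), [3,4,6,15,27], [14,17,18,19,3]),
  ((9,13,-3,3,3), [4,6,11,12,21], [66,13,20,6,4]),
  ((12,17,-4,0,5), [1,4,6,7,12], [20,66,21,4,70]),
  ((15,15,14,-1,-14), [3,10,11,14,20], [69,15,67,5,65]),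
  ((9,12,8,3,-8), [6,11,15,20,21], [69,22,66,6,7]),
  ((9,12,-3,4,3), [4,11,12,15,21], [69,23,6,9,65]),
  ((-1,2,-2,13,12), [4,6,15,21,27], [24,25,26,8,6]),
  ((12,12,11,2,-11), [3,11,14,15,20], [69,27,7,11,65]),
  ((3,5,9,9,-2), [3,6,15,20,23], [22,27,67,17,7]),
  ((-2,0,4,14,8), [3,6,15,23,27], [24,28,29,8,16]),
  ((-5,-6,-1,20,19), [3,4,15,24,27], [30,28,31,8,32]),
  ((-12,-10,-1,24,33), [3,4,6,27,28], [33,29,31,34,8]),
  ((8,13,-4,4,5), [4,6,7,12,21], [66,35,9,26,10]),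
  ((12,17,-7,3,11), [1,2,4,7,12], [36,10,66,65,70]),
  ((2,5,8,10,-1), [6,15,20,21,23], [69,37,24,16,12]),
  ((7,10,-5,8,7), [4,12,15,16,21], [69,25,35,13,65]),
  ((-1,2,5,13,5), [6,15,21,23,27], [69,38,17,14,22]),
  ((-1,2,-5,16,15), [4,15,16,21,27], [69,39,14,30,23]),
  ((-1,4,-4,13,14), [4,6,7,21,27], [66,39,14,33,20]),
  ((5,5,11,9,-4), [3,14,15,20,23], [69,16,67,40,15]),
  ((-5,-6,1,20,17), [3,15,23,24,27], [69,41,18,17,42]),
  ((-7,-5,4,19,18), [3,6,23,27,28], [43,41,19,67,17]),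
  ((-5,-6,-5,24,23), [4,15,16,24,27], [69,68,18,25,44]),
  ((-9,-10,-1,24,27), [3,4,24,27,28], [68,41,19,45,18]),
  ((-5,-8,-1,22,21), [3,4,15,18,24], [44,42,46,18,65]),
  ((-18,-13,-4,30,48), [4,6,7,27,28], [47,68,19,48,26]),
  ((-19,-17,-1,31,54), [3,4,6,8,28], [49,67,50,19,70]),
  ((5,10,-7,10,11), [4,7,12,16,21], [51,23,39,20,52]),
  ((9,14,-10,9,17), [2,4,7,12,13], [52,66,65,68,21]),
  ((0,5,8,12,1), [6,20,21,23,26], [69,38,67,66,22]),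
  ((-1,4,7,13,3), [6,21,23,26,27], [69,43,66,24,37]),
  ((-1,4,-7,16,17), [4,7,16,21,27], [53,25,26,68,35]),
  ((5,0,11,14,1), [3,14,15,17,23], [69,54,67,27,65]),
  ((-7,-8,1,22,21), [3,23,24,27,28], [69,31,29,55,28]),
  ((-5,-8,1,22,19), [3,15,18,23,24], [69,56,28,32,54]),
  ((-7,-2,7,19,15), [6,23,26,27,28], [69,57,29,67,38]),
  ((-5,-8,-5,26,25), [4,15,16,18,24], [69,68,32,30,65]),
  ((-9,-11,-1,25,28), [3,4,24,25,28], [68,55,50,31,46]),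
  ((-8,-11,-1,25,27), [3,4,18,24,25], [68,56,45,58,32]),
  ((-20,-13,-4,32,52), [6,7,9,27,28], [68,59,33,48,66]),
  ((-20,-15,-4,32,54), [4,6,7,9,28], [47,68,49,33,70]),
  ((-20,-17,-2,32,56), [4,6,8,9,28], [67,68,48,34,70]),
  ((-19,-21,-1,35,58), [3,4,8,25,28], [68,67,45,34,60]),
  ((2,10,-10,16,17), [7,12,13,16,21], [69,61,35,66,52]),
  ((5,10,-10,13,17), [4,7,12,13,16], [51,65,68,35,36]),
  ((-1,8,-11,20,21), [7,16,21,22,27], [69,66,68,39,61]),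
  ((-3,-8,3,22,17), [3,15,17,18,23], [69,62,42,40,65]),
  ((-7,-9,1,23,22), [3,23,24,25,28], [69,45,67,41,56]),
  ((-6,-9,1,23,21), [3,18,23,24,25], [69,55,46,62,42]),
  ((-12,-2,7,24,25), [6,26,27,28,29], [69,59,67,66,43]),
  ((-8,-15,-1,29,35), [3,4,18,19,25], [68,63,60,46,65]),
  ((-20,-10,-1,32,49), [6,9,27,28,29], [68,57,67,66,47]),
  ((-19,-26,-1,40,68), [3,4,8,19,25], [68,67,58,50,64]),
  ((0,9,-11,19,20), [7,13,16,21,22], [69,53,66,68,51]),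
  ((-4,-9,3,23,19), [3,17,18,23,25], [69,56,67,63,54]),
  ((-4,-11,3,25,23), [3,17,18,19,25], [69,58,67,62,65]),
  ((-19,-28,-1,42,74), [3,4,5,8,19], [68,67,60,65,70])]

/-- skeleton certificate for graph number 4 -/
def gcert4 : GCert where
  adj := [[],[],[5],[6,7],[9],[2,7],[3,9,14],[3,5,16],[14,17,18],[4,6,20],[],[],[],[],[6,8,26],[],[7,17],[8,16,29],[8,31,32],[29,31,33],[9,35],[],[],[],[],[],[14,39],[],[],[17,19],[],[18,19,45],[18,46],[19,47],[],[20,39,52],[52],[],[],[26,35],[],[],[],[],[],[31,46,50],[32,45,58],[33,59],[],[],[45],[],[35,36],[],[],[],[],[],[46,60],[47],[58],[],[],[],[]]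
  core := [3,6,7,8,9,14,16,17,18,19,20,26,29,31,32,35,39,45,46]
  rk := [1,2,3,0,4,5,0,0,0,0,6,7,8,9,0,10,0,0,0,0,0,11,12,13,14,15,0,16,17,0,18,0,0,40,19,0,20,21,22,0,23,24,25,26,27,0,0,39,28,29,30,31,32,33,34,35,36,37,42,38,41,43,44,45,46]
  ph := [6,14,17,8,31,18]

theorem chk4 : chk cert4 = true := by decide +kernel
theorem achk4 : achk cert4 gcert4 = true := by decide +kernel
theorem gchk4 : gchk gcert4 (canon 4) = true := by decide +kernel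

end Pool.Agent.R863.TG
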