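import Pool.Agent.R863.TG.Stm2

set_option autoImplicit false
set_option maxRecDepth 100000

namespace Pool.Agent.R863.TG

/-- certificate for graph number 5 -/
def cert5 : Cert where
  h := [-17,-3,7,24,-3,-14,2,14,0,-10,-21,-9,-7,-8,16,12,6,8,0,-16,7,7,-4,14,4,-5,12,-2,-3,-11]
  cells := [
  ((19,41,14,-17,-12), [0,1,3,6,20], [1,67,66,2,70]),
  ((17,39,12,-15,-10), [1,3,6,7,20], [3,66,4,0,70]),
  ((28,41,14,-17,-21), [0,1,3,10,20], [5,67,66,0,65]),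
  ((5,27,12,-3,2), [3,6,7,20,26], [66,6,67,7,1]),
  ((17,37,10,-13,-10), [1,2,3,7,20], [8,1,66,9,70]),
  ((28,39,12,-15,-21), [1,3,10,11,20], [10,66,9,2,65]),
  ((5,15,0,9,2), [3,7,20,21,26], [66,11,12,3,8]),
  ((-12,10,12,14,36), [3,6,7,9,26], [66,13,67,3,70]),
  ((7,17,0,7,0), [2,3,7,20,21], [6,66,14,15,4]),
  ((26,37,10,-13,-19), [1,2,3,11,20], [16,5,66,4,65]),
  ((28,37,12,-13,-21), [3,10,11,14,20], [69,16,67,5,65]),
  ((5,14,0,10,2), [3,14,20,21,26], [69,6,17,67,14]),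
  ((0,5,-5,19,12), [3,7,15,21,26], [18,17,6,19,15]),
  ((-23,-12,1,36,58), [3,7,9,26,29], [66,67,20,21,7]),
  ((8,17,0,7,-1), [2,3,14,20,21], [11,22,8,23,16]),
  ((2,7,-5,17,10), [2,3,7,15,21], [12,24,23,8,25]),
  ((24,33,8,-9,-17), [2,3,11,14,20], [10,26,14,9,65]),
  ((1,6,-4,18,10), [3,14,15,21,26], [69,12,11,27,23]),
  ((-1,4,-6,21,14), [7,15,16,21,26], [69,28,12,19,24]),
  ((-2,2,-6,22,16), [3,7,15,16,26], [18,29,30,12,25]),
  ((-23,-15,-2,39,58), [3,7,26,28,29], [31,67,32,13,33]),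
  ((-24,-14,0,38,61), [3,7,8,9,29], [68,67,13,32,70]),
  ((14,23,0,7,-7), [2,12,14,20,21], [69,14,66,34,26]),
  ((4,9,-4,15,7), [2,3,14,15,21], [17,35,15,14,65]),
  ((1,6,-6,19,12), [2,7,15,16,21], [18,36,37,15,25]),
  ((1,5,-6,19,13), [2,3,7,15,16], [19,24,65,38,15]),
  ((18,27,2,3,-11), [2,11,12,14,20], [69,22,16,66,65]),
  ((-2,0,-4,24,16), [3,14,15,23,26], [69,29,67,17,39]),
  ((-5,4,-10,29,22), [7,13,16,21,26], [69,18,66,40,37]),
  ((-4,-2,-6,26,20), [3,15,16,23,26], [69,30,27,19,41]),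
  ((-8,-6,-8,30,28), [3,7,16,23,26], [42,29,33,19,43]),
  ((-23,-15,-14,51,58), [7,26,27,28,29], [69,68,20,66,44]),
  ((-24,-16,-2,40,61), [3,7,8,28,29], [68,67,20,21,45]),
  ((-17,-15,-8,39,46), [3,7,23,26,28], [46,67,20,47,30]),
  ((13,21,-1,9,-5), [2,12,13,14,21], [69,35,22,66,65]),
  ((7,12,-4,15,4), [2,13,14,15,21], [69,23,36,34,65]),
  ((3,8,-6,19,10), [2,13,15,16,21], [69,24,37,35,65]),
  ((-1,6,-8,23,16), [2,7,13,16,21], [28,36,24,66,68]),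
  ((-16,-29,-23,53,81), [2,3,7,16,18], [48,68,65,49,25]),
  ((-2,-8,-4,32,24), [3,14,15,17,23], [69,41,67,27,65]),
  ((-8,2,-12,34,28), [7,13,16,22,26], [69,50,66,28,68]),
  ((-4,-10,-6,34,28), [3,15,16,17,23], [69,51,39,29,65]),
  ((-12,-10,-10,36,36), [7,16,23,24,26], [69,46,52,30,43]),
  ((-12,-12,-10,36,38), [3,7,16,23,24], [42,53,47,48,30]),
  ((-21,-15,-14,49,54), [7,24,26,27,28], [69,31,68,46,52]),
  ((-24,-26,-12,50,71), [3,7,8,25,28], [68,67,54,32,55]),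
  ((-17,-15,-10,41,46), [7,23,24,26,28], [69,44,33,47,42]),
  ((-17,-17,-10,41,48), [3,7,23,24,28], [46,56,54,33,43]),
  ((-16,-20,-14,44,54), [3,7,16,18,24], [68,53,57,43,38]),
  ((-20,-37,-27,61,101), [2,3,4,7,18], [58,68,38,65,70]),
  ((-12,-2,-14,40,36), [7,16,22,26,27], [69,66,52,68,40]),
  ((-8,-14,-8,38,36), [3,16,17,18,23], [69,59,53,41,65]),
  ((-16,-10,-14,44,44), [7,16,24,26,27], [69,44,50,68,42]),
  ((-12,-16,-10,40,42), [3,16,18,23,24], [69,60,43,48,51]),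
  ((-19,-21,-12,45,56), [3,7,24,25,28], [68,56,45,47,57]),
  ((-24,-33,-19,57,85), [3,7,8,18,25], [68,61,57,45,62]),
  ((-17,-19,-10,43,50), [3,23,24,25,28], [69,54,67,47,60]),
  ((-19,-23,-14,47,60), [3,7,18,24,25], [68,60,54,55,48]),
  ((-21,-38,-27,62,103), [3,4,5,7,18], [68,62,49,65,70]),
  ((-13,-19,-8,43,46), [3,17,18,23,25], [69,60,67,63,51]),
  ((-15,-19,-10,43,48), [3,18,23,24,25], [69,56,57,59,53]),
  ((-24,-35,-19,59,89), [3,8,18,19,25], [68,63,67,55,64]),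
  ((-24,-38,-24,62,100), [3,5,7,8,18], [68,55,64,58,70]),
  ((-13,-24,-8,48,56), [3,17,18,19,25], [69,61,67,59,65]),
  ((-24,-38,-22,62,98), [3,5,8,18,19], [68,61,65,67,62])]

/-- skeleton certificate for graph number 5 -/
def gcert5 : GCert where
  adj := [[],[],[5],[6],[],[2,9],[3,8,12],[],[6,14],[5,16],[],[],[6,15,19],[20],[8,16,23],[12,23,24],[9,14],[],[],[12,25,30],[13,32,33],[],[],[14,15],[15,25,37],[19,24],[],[],[],[],[19,33,43],[],[20],[20,30,47],[],[],[],[24],[48],[],[],[],[],[30,47,48],[],[54],[],[33,43,54],[38,43,57],[],[],[],[],[],[45,47,57],[57,61],[],[48,54,55],[],[],[],[55,64],[],[],[61]]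
  core := [6,8,12,14,15,19,23,24,25,30,33,43,47,48,54,57]
  rk := [1,2,3,4,5,6,0,7,0,8,9,10,0,11,0,0,12,13,14,0,23,15,16,0,0,0,17,18,19,20,0,21,22,0,24,25,26,27,28,29,30,31,32,0,33,34,35,0,0,36,37,38,39,40,0,49,41,0,42,43,44,48,45,46,47]
  ph := [12,15,19,30,43,47]

theorem chk5 : chk cert5 = true := by decide +kernel
theorem achk5 : achk cert5 gcert5 = true := by decide +kernel
theorem gchk5 : gchk gcert5 (canon 5) = true := by decide +kernel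

end Pool.Agent.R863.TG
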