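import Pool.Agent.R863.TG.Stm2

set_option autoImplicit false
set_option maxRecDepth 100000

namespace Pool.Agent.R863.TG

/-- certificate for graph number 6 -/
def cert6 : Cert where
  h := [-4,1,-2,8,11,7,-10,-2,10,-19,-12,8,4,-14,3,6,0,-2,-9,-19,-1,8,-1,9,10,-2,0,7,12,-7]
  cells := [
  ((2,12,5,-4,3), [0,1,3,8,11], [1,2,3,65,70]),
  ((2,10,3,-2,5), [1,3,4,8,11], [4,5,0,65,70]),
  ((2,12,11,-4,-3), [0,3,8,11,20], [6,7,8,67,0]),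
  ((0,14,5,-4,3), [0,1,8,11,21], [5,9,66,10,0]),
  ((2,3,3,5,5), [3,4,8,11,28], [11,6,12,13,1]),
  ((0,10,1,0,7), [1,4,8,11,21], [11,3,14,15,1]),
  ((2,11,11,-3,-3), [3,8,11,20,28], [16,17,67,4,2]),
  ((1,13,10,-4,-2), [0,8,11,20,26], [16,66,67,9,2]),
  ((8,12,17,-4,-9), [0,3,11,14,20], [18,19,67,2,65]),
  ((0,14,8,-4,0), [0,8,11,21,26], [20,66,21,7,3]),
  ((-1,15,5,-4,4), [0,1,8,21,27], [15,21,66,22,3]),
  ((0,5,1,5,7), [4,8,11,21,28], [20,23,24,4,5]),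
  ((3,1,3,7,5), [3,4,11,23,28], [25,17,26,4,27]),
  ((2,-1,3,9,9), [3,4,5,8,28], [68,67,4,26,70]),
  ((0,10,-3,4,11), [1,2,4,11,21], [28,5,66,29,65]),
  ((-1,10,0,1,9), [1,4,8,21,27], [24,10,29,30,5]),
  ((1,12,10,-3,-2), [8,11,20,26,28], [69,67,20,6,7]),
  ((3,10,12,-2,-4), [3,11,20,23,28], [69,67,12,6,18]),
  ((6,10,15,-2,-7), [3,11,14,20,23], [69,67,17,31,8]),
  ((11,15,20,-4,-12), [0,10,11,14,20], [69,8,67,66,65]),
  ((0,12,8,-2,0), [8,11,21,26,28], [69,32,16,11,9]),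
  ((-1,15,7,-4,2), [0,8,21,26,27], [32,66,33,10,9]),
  ((-3,17,5,-4,8), [0,1,7,8,27], [30,33,10,66,70]),
  ((0,2,-2,11,10), [4,11,21,24,28], [69,34,25,11,35]),
  ((-1,5,0,6,9), [4,8,21,27,28], [32,34,68,11,15]),
  ((3,-1,1,11,7), [4,11,23,24,28], [69,36,23,12,37]),
  ((3,-1,3,9,7), [3,4,5,23,28], [36,67,12,13,27]),
  ((5,-1,3,9,5), [3,4,5,11,23], [38,31,12,26,65]),
  ((0,9,-4,6,12), [2,4,11,12,21], [35,66,39,14,65]),
  ((-1,10,-3,4,12), [1,2,4,21,27], [39,15,66,40,14]),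
  ((-3,10,-2,3,15), [1,4,7,8,27], [68,22,15,40,70]),
  ((6,-1,4,9,4), [3,5,11,14,23], [41,18,67,27,65]),
  ((-1,12,7,-1,2), [8,21,26,27,28], [69,42,24,20,21]),
  ((-5,19,7,-4,10), [0,7,8,26,27], [43,21,66,22,44]),
  ((-1,2,-3,12,12), [4,21,24,27,28], [69,68,24,23,45]),
  ((0,2,-4,13,12), [4,11,12,21,24], [69,45,23,46,28]),
  ((3,-3,1,13,9), [4,5,23,24,28], [47,25,68,26,48]),
  ((4,-2,1,12,7), [4,11,15,23,24], [69,48,25,46,38]),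
  ((5,-2,2,11,6), [4,5,11,15,23], [41,37,48,27,65]),
  ((-1,8,-5,8,14), [2,4,12,21,27], [45,66,29,49,28]),
  ((-3,10,-3,4,16), [1,2,4,7,27], [68,30,66,29,70]),
  ((6,-2,3,11,5), [5,11,14,15,23], [69,50,38,31,65]),
  ((-7,12,7,5,14), [8,26,27,28,29], [69,68,67,43,32]),
  ((-7,19,7,-2,14), [7,8,26,27,29], [42,66,68,51,33]),
  ((-6,20,8,-4,12), [0,6,7,8,26], [51,33,67,66,70]),
  ((-1,2,-5,14,14), [4,12,21,24,27], [69,34,52,39,35]),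
  ((4,-2,-4,17,12), [4,11,12,15,24], [69,53,37,35,65]),
  ((3,-8,1,23,14), [5,17,23,24,28], [69,36,54,67,55]),
  ((4,-3,1,13,8), [4,5,15,23,24], [55,37,36,56,38]),
  ((-5,0,-13,24,30), [2,4,12,22,27], [52,66,68,39,57]),
  ((6,-5,3,17,8), [5,14,15,17,23], [69,55,67,41,65]),
  ((-7,20,8,-3,14), [6,7,8,26,29], [43,67,66,58,44]),
  ((-5,-2,-13,26,30), [4,12,22,24,27], [69,68,45,49,59]),
  ((4,-4,-6,21,16), [4,12,15,16,24], [69,56,59,46,65]),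
  ((0,-14,-2,35,26), [5,17,24,25,28], [69,68,67,47,60]),
  ((4,-7,1,21,12), [5,15,17,23,24], [69,47,48,61,50]),
  ((4,-10,-6,27,22), [4,5,15,16,24], [61,53,68,48,65]),
  ((-5,-4,-17,32,38), [2,4,12,16,22], [59,62,68,49,65]),
  ((-9,20,8,-1,20), [6,7,8,9,29], [68,67,66,51,70]),
  ((-5,-4,-15,30,34), [4,12,16,22,24], [69,68,52,53,57]),
  ((0,-17,-5,41,32), [5,17,19,24,25], [69,68,54,67,63]),
  ((4,-14,-6,35,26), [5,15,16,17,24], [69,64,55,56,65]),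
  ((-5,-4,-18,34,40), [2,12,13,16,22], [69,68,57,66,65]),
  ((2,-17,-7,41,32), [5,17,18,19,24], [69,68,60,64,65]),
  ((3,-16,-7,39,30), [5,16,17,18,24], [69,63,68,61,65])]

/-- skeleton certificate for graph number 6 -/
def gcert6 : GCert where
  adj := [[],[],[6,7,8],[5,9],[6,11,12],[3,11,14],[2,4],[2,9],[2],[3,7,21],[15,21],[4,5,24],[4,26,27],[],[5,28],[10,24,29],[],[],[],[],[],[9,10,33],[],[],[11,15],[],[12,36],[12,31,38],[14,39],[15,39],[],[27],[],[21,43],[],[],[26,48],[],[27,48],[28,29,49],[],[],[],[33,51],[],[],[],[],[36,38,56],[39,57],[],[43],[],[],[],[],[48],[49],[],[],[],[],[],[],[]]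
  core := [2,3,4,5,6,7,9,10,11,12,14,15,21,24,26,27,28,29,36,38,39,48]
  rk := [1,2,0,0,0,0,0,0,3,0,0,0,0,4,0,0,5,6,7,8,9,0,10,11,0,12,0,0,0,0,13,14,15,29,16,17,0,18,0,0,19,20,21,28,22,23,24,25,0,36,26,27,30,31,32,33,34,35,37,38,39,40,41,42,43]
  ph := [12,4,9,11,5,15]

theorem chk6 : chk cert6 = true := by decide +kernel
theorem achk6 : achk cert6 gcert6 = true := by decide +kernel
theorem gchk6 : gchk gcert6 (canon 6) = true := by decide +kernel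

end Pool.Agent.R863.TG
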