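import Pool.Agent.R863.TG.Stm2

set_option autoImplicit false
set_option maxRecDepth 100000

namespace Pool.Agent.R863.TG

/-- certificate for graph number 7 -/
def cert7 : Cert where
  h := [-7,0,1,5,23,1,-11,-3,8,-17,-2,4,1,-17,1,3,-2,2,-5,-29,0,4,3,8,16,8,-2,3,13,-9]
  cells := [
  ((-3,23,7,-7,4), [0,1,4,7,26], [1,2,66,3,70]),
  ((-3,23,5,-5,4), [1,4,7,26,27], [4,66,5,6,0]),
  ((-4,22,8,-7,6), [0,4,6,7,26], [7,66,0,8,70]),
  ((-2,23,7,-7,2), [0,1,4,20,26], [5,9,66,0,10]),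
  ((-7,19,5,-1,12), [4,7,26,27,29], [66,11,68,12,1]),
  ((-2,23,5,-5,2), [1,4,20,26,27], [13,66,1,14,3]),
  ((-3,23,1,-1,8), [1,2,4,7,27], [68,1,66,15,70]),
  ((-6,20,8,-5,10), [4,6,7,9,26], [66,12,16,2,70]),
  ((-4,19,11,-7,6), [0,4,6,8,26], [16,67,9,2,70]),
  ((-2,17,13,-7,2), [0,4,8,20,26], [17,67,3,8,18]),
  ((2,23,7,-7,-2), [0,1,4,10,20], [19,18,66,3,65]),
  ((-7,15,5,3,12), [4,26,27,28,29], [69,68,20,4,13]),
  ((-7,19,7,-3,12), [4,7,9,26,29], [66,21,4,68,7]),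
  ((-2,15,5,3,2), [4,20,26,27,28], [69,11,22,17,5]),
  ((-1,23,4,-4,1), [1,4,20,21,27], [22,66,15,5,23]),
  ((-1,23,1,-1,4), [1,2,4,21,27], [24,14,66,6,25]),
  ((-6,19,9,-5,10), [4,6,8,9,26], [67,21,7,8,70]),
  ((-2,15,13,-5,2), [4,8,20,26,28], [67,13,20,26,9]),
  ((2,13,17,-7,-2), [0,4,8,10,20], [26,67,10,9,27]),
  ((2,23,6,-6,-2), [1,4,10,11,20], [28,66,23,10,65]),
  ((-7,15,8,0,12), [4,8,26,28,29], [67,11,68,21,17]),
  ((-7,18,8,-3,12), [4,8,9,26,29], [67,12,20,68,16]),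
  ((-1,14,4,5,1), [4,20,21,27,28], [69,29,13,30,14]),
  ((0,23,4,-4,0), [1,4,11,20,21], [30,66,14,25,19]),
  ((-1,21,-1,3,6), [2,4,21,22,27], [31,66,68,15,32]),
  ((0,23,1,-1,3), [1,2,4,11,21], [32,23,66,15,65]),
  ((2,11,17,-5,-2), [4,8,10,20,28], [67,28,17,33,18]),
  ((3,12,18,-7,-2), [0,3,4,8,10], [33,18,67,65,70]),
  ((2,11,6,6,-2), [4,10,11,20,28], [69,30,26,34,19]),
  ((-1,12,2,9,3), [4,21,24,27,28], [69,68,22,35,31]),
  ((0,13,4,6,0), [4,11,20,21,28], [69,22,35,28,23]),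
  ((-1,12,-1,12,6), [4,21,22,24,27], [69,68,29,24,36]),
  ((0,21,-1,3,5), [2,4,11,21,22], [36,66,24,37,25]),
  ((3,9,18,-4,-2), [3,4,8,10,28], [26,67,38,39,27]),
  ((3,9,6,8,-2), [4,10,11,24,28], [69,35,40,28,41]),
  ((0,12,3,8,1), [4,11,21,24,28], [69,29,34,30,36]),
  ((0,12,-1,12,5), [4,11,21,22,24], [69,31,42,35,32]),
  ((2,19,-3,7,7), [2,4,11,12,22], [42,66,43,32,65]),
  ((5,5,18,0,-2), [3,4,10,23,28], [40,67,44,33,45]),
  ((3,-2,18,7,9), [3,4,8,25,28], [68,67,44,33,46]),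
  ((5,5,8,10,-2), [4,10,23,24,28], [69,47,34,38,48]),
  ((9,3,6,14,-2), [4,10,11,14,24], [69,49,48,34,65]),
  ((2,10,-3,16,7), [4,11,12,22,24], [69,50,36,51,37]),
  ((2,4,-18,37,37), [2,4,12,13,22], [52,66,68,37,65]),
  ((5,0,18,5,3), [3,4,23,25,28], [47,67,39,38,53]),
  ((7,3,18,2,-2), [3,4,10,14,23], [48,67,54,38,65]),
  ((3,-4,18,9,13), [3,4,5,8,25], [68,67,39,55,70]),
  ((5,0,8,15,3), [4,23,24,25,28], [69,68,44,40,56]),
  ((7,3,8,12,-2), [4,10,14,23,24], [69,57,40,41,45]),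
  ((11,1,4,18,0), [4,11,14,17,24], [69,57,58,41,65]),
  ((2,-3,-16,42,33), [4,12,16,22,24], [69,68,42,59,52]),
  ((13,-1,-3,27,7), [4,11,12,15,24], [69,59,58,42,65]),
  ((2,-3,-18,44,37), [4,12,13,16,22], [69,68,50,43,65]),
  ((6,0,18,5,2), [3,4,17,23,25], [56,67,44,55,54]),
  ((7,1,18,4,0), [3,4,14,17,23], [57,67,53,45,65]),
  ((6,-4,18,9,10), [3,4,5,17,25], [60,67,53,46,65]),
  ((6,0,8,15,2), [4,17,23,24,25], [69,47,61,53,57]),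
  ((7,1,8,14,0), [4,14,17,23,24], [69,56,48,49,54]),
  ((13,-1,0,24,4), [4,11,15,17,24], [69,62,49,51,65]),
  ((13,-3,-5,31,11), [4,12,15,16,24], [69,62,50,51,65]),
  ((6,-29,-7,59,60), [4,5,17,18,25], [63,61,68,55,65]),
  ((6,-15,-7,45,32), [4,17,18,24,25], [69,68,56,60,64]),
  ((13,-6,-5,34,14), [4,15,16,17,24], [69,64,58,59,65]),
  ((6,-31,-7,63,64), [5,17,18,19,25], [69,68,67,60,65]),
  ((11,-10,-7,40,22), [4,16,17,18,24], [69,61,68,62,65])]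

/-- skeleton certificate for graph number 7 -/
def gcert7 : GCert where
  adj := [[],[4,5],[],[5,9],[1,12],[1,3,14],[],[],[],[3,17],[18,19],[],[4,21],[],[5,15,23],[14,24],[],[9,20,26],[10,26],[10,23],[17,21],[12,20],[],[14,19,25],[15,32],[23,32],[17,18,33],[],[],[],[],[],[24,25,37],[26,38],[],[],[],[32,43],[33,44,45],[44],[],[],[],[37],[38,39,53],[38,54],[],[],[],[],[],[],[],[44,54,55],[45,53],[53,60],[],[],[],[],[55],[],[],[],[]]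
  core := [1,3,4,5,9,10,12,14,15,17,18,19,20,21,23,24,25,26,32,33,38,44,45,53,54]
  rk := [1,0,2,0,0,0,3,4,5,0,0,6,0,7,0,0,8,0,0,0,0,0,9,0,0,0,0,10,11,12,13,14,0,0,15,16,17,23,0,18,19,20,21,22,0,0,24,25,26,27,28,29,30,0,0,36,31,32,33,34,35,37,38,39,40]
  ph := [38,26,17,23,5,14]

theorem chk7 : chk cert7 = true := by decide +kernel
theorem achk7 : achk cert7 gcert7 = true := by decide +kernel
theorem gchk7 : gchk gcert7 (canon 7) = true := by decide +kernel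

end Pool.Agent.R863.TG
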