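import Pool.Agent.R863.TG.Stm2

set_option autoImplicit false
set_option maxRecDepth 100000

namespace Pool.Agent.R863.TG

/-- certificate for graph number 8 -/
def cert8 : Cert where
  h := [5,5,-22,10,-3,-14,23,-2,7,-9,-23,1,6,2,-8,9,3,3,1,-14,-3,3,2,24,6,6,-4,-4,2,-12]
  cells := [
  ((18,5,0,5,6), [0,1,3,6,12], [1,2,66,65,70]),
  ((14,1,-4,9,14), [1,3,6,12,13], [3,66,65,4,0]),
  ((18,5,2,5,2), [0,3,6,12,15], [3,5,65,6,0]),
  ((12,-1,-4,11,14), [3,6,12,13,15], [7,65,8,2,1]),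
  ((5,-8,-13,18,41), [1,3,4,6,13], [9,10,1,65,70]),
  ((18,6,3,5,0), [0,6,12,15,23], [7,11,6,12,2]),
  ((18,5,3,5,1), [0,3,6,15,23], [8,5,13,67,2]),
  ((11,-1,-4,12,14), [6,12,13,15,23], [69,8,5,14,3]),
  ((10,-3,-5,13,17), [3,6,13,15,23], [7,15,6,16,3]),
  ((1,-12,-13,22,41), [3,4,6,13,16], [17,16,65,18,4]),
  ((-7,-8,-25,30,77), [1,4,6,7,13], [19,66,20,4,70]),
  ((20,8,5,5,-4), [0,11,12,15,23], [69,5,21,12,65]),
  ((18,10,5,5,-4), [0,6,11,12,23], [22,11,5,23,66]),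
  ((26,5,11,5,-7), [0,3,15,17,23], [24,21,67,6,65]),
  ((-4,14,-4,27,14), [6,12,13,22,23], [69,25,26,7,66]),
  ((9,-5,-6,15,20), [3,13,15,16,23], [69,27,16,8,65]),
  ((7,-6,-7,16,23), [3,6,13,16,23], [28,15,29,8,9]),
  ((-7,-16,-17,30,53), [4,6,8,13,16], [28,68,9,30,19]),
  ((-2,-15,-13,25,44), [3,4,6,16,18], [30,29,65,31,9]),
  ((-15,-16,-25,38,77), [4,6,7,8,13], [32,68,17,10,70]),
  ((-7,-8,-27,32,83), [1,2,4,7,13], [68,10,66,65,70]),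
  ((29,8,14,5,-13), [0,11,15,17,23], [69,13,33,11,65]),
  ((2,26,5,21,-4), [6,11,12,21,23], [69,26,34,12,66]),
  ((18,27,22,5,-21), [0,6,11,20,23], [34,35,67,12,66]),
  ((13,-8,-2,18,19), [3,15,17,18,23], [69,36,27,13,65]),
  ((-18,-14,-18,41,56), [6,13,22,23,24], [69,37,38,39,14]),
  ((-4,20,-1,27,8), [6,12,21,22,23], [69,40,14,22,66]),
  ((9,-8,-6,18,23), [3,15,16,18,23], [69,29,24,15,65]),
  ((-13,-16,-17,36,53), [6,8,13,16,23], [41,16,42,38,17]),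
  ((1,-12,-10,22,35), [3,6,16,18,23], [42,27,43,16,18]),
  ((-4,-16,-14,27,47), [4,6,8,16,18], [42,68,18,31,17]),
  ((-3,-16,-13,26,46), [3,4,6,8,18], [30,43,44,18,70]),
  ((-25,-16,-25,48,77), [6,7,8,13,22], [68,39,66,45,19]),
  ((32,11,20,5,-19), [0,11,14,17,23], [69,67,21,46,65]),
  ((2,27,6,21,-5), [6,11,20,21,23], [69,47,22,23,66]),
  ((20,27,24,5,-23), [0,10,11,20,23], [69,23,67,46,66]),
  ((4,-17,-2,27,37), [3,17,18,19,23], [69,48,67,24,65]),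
  ((-22,-14,-18,45,60), [6,22,23,24,28], [69,49,50,51,25]),
  ((-16,-16,-18,39,56), [6,8,13,23,24], [41,25,49,39,28]),
  ((-20,-16,-20,43,62), [6,8,13,22,24], [68,25,50,38,32]),
  ((-7,20,-1,30,11), [6,21,22,23,27], [69,51,52,66,26]),
  ((-15,-17,-18,39,56), [8,13,16,23,24], [69,53,38,68,28]),
  ((-7,-16,-14,30,47), [6,8,16,18,23], [54,29,43,28,30]),
  ((-3,-16,-10,26,43), [3,6,8,18,23], [42,55,29,67,31]),
  ((-3,-24,-13,34,62), [3,4,5,8,18], [68,56,31,65,70]),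
  ((-31,-16,-25,54,83), [6,7,8,22,27], [68,57,66,58,32]),
  ((32,15,24,5,-23), [0,10,11,14,23], [69,33,67,35,65]),
  ((-1,27,6,24,-2), [6,20,21,23,26], [69,52,67,66,34]),
  ((2,-18,-3,28,40), [3,18,19,23,25], [69,67,55,59,36]),
  ((-22,-16,-18,45,62), [6,8,23,24,28], [60,37,50,67,38]),
  ((-24,-16,-20,47,66), [6,8,22,24,28], [68,37,49,57,39]),
  ((-22,-10,-16,45,56), [6,22,23,27,28], [69,61,57,37,40]),
  ((-7,21,0,30,10), [6,21,23,26,27], [69,62,66,40,47]),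
  ((-15,-18,-18,40,57), [8,16,23,24,25], [69,60,68,54,41]),
  ((-11,-18,-16,36,53), [8,16,18,23,25], [69,55,53,68,42]),
  ((-3,-18,-8,28,45), [3,8,18,23,25], [54,48,67,59,43]),
  ((-3,-24,-9,34,58), [3,5,8,18,19], [68,59,65,67,44]),
  ((-28,-16,-22,51,74), [6,8,22,27,28], [68,51,63,50,45]),
  ((-32,-16,-25,55,85), [6,7,8,9,27], [68,64,66,45,70]),
  ((-3,-23,-8,33,55), [3,8,18,19,25], [68,48,67,55,56]),
  ((-22,-18,-18,47,64), [8,23,24,25,28], [69,68,67,49,53]),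
  ((-22,-8,-14,45,54), [6,23,27,28,29], [69,63,67,62,51]),
  ((-8,20,0,31,12), [6,23,26,27,29], [69,66,61,67,52]),
  ((-30,-16,-22,53,78), [6,8,27,28,29], [68,61,67,64,57]),
  ((-32,-16,-24,55,84), [6,8,9,27,29], [68,66,63,67,58])]

/-- skeleton certificate for graph number 8 -/
def gcert8 : GCert where
  adj := [[],[3],[3,5],[1,2,8],[],[2,6,12],[5,8,13],[],[3,6,16],[16,17],[],[],[5,23],[6],[],[],[8,9,29],[9,28],[29,30],[],[],[],[],[12],[],[],[],[],[17,38,42],[16,18,43],[18,42],[],[39],[],[],[],[],[],[28,39,49],[32,38,50],[],[],[28,30,43],[29,42,55],[],[57],[],[],[],[38,50],[39,49,57],[],[],[],[],[43,59],[59],[45,50,63],[],[55,56],[],[],[],[57,64],[63]]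
  core := [2,3,5,6,8,9,16,17,18,28,29,30,38,39,42,43,49,50]
  rk := [1,2,0,0,3,0,0,4,0,0,5,6,15,7,8,9,0,0,0,10,11,12,13,14,16,17,18,19,0,0,0,20,21,22,23,24,25,26,0,0,27,28,0,0,29,30,31,32,33,0,0,34,35,36,37,41,38,47,39,40,42,43,44,46,45]
  ph := [8,16,29,28,42,38]

theorem chk8 : chk cert8 = true := by decide +kernel
theorem achk8 : achk cert8 gcert8 = true := by decide +kernel
theorem gchk8 : gchk gcert8 (canon 8) = true := by decide +kernel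

end Pool.Agent.R863.TG
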