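import Pool.Agent.R863.TG.Stm2

set_option autoImplicit false
set_option maxRecDepth 100000

namespace Pool.Agent.R863.TG

/-- certificate for graph number 9 -/
def cert9 : Cert where
  h := [-18,6,10,1,16,-2,-8,2,4,-11,-7,14,0,-17,3,7,-9,-5,-9,-15,1,15,-6,9,10,11,-4,0,14,-12]
  cells := [
  ((10,19,24,-18,-7), [0,1,3,6,10], [1,67,66,65,70]),
  ((8,17,22,-16,-7), [1,3,6,10,20], [67,66,2,3,0]),
  ((8,16,21,-15,-7), [1,3,10,11,20], [4,66,5,1,65]),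
  ((3,12,17,-11,-2), [1,3,6,8,20], [67,6,5,1,70]),
  ((8,10,21,-9,-7), [3,10,11,14,20], [69,7,67,2,65]),
  ((3,11,16,-10,-2), [1,3,8,11,20], [8,9,2,3,10]),
  ((1,12,15,-9,0), [1,6,8,20,28], [67,9,11,12,3]),
  ((6,8,19,-7,-5), [3,11,14,20,23], [69,67,13,14,4]),
  ((3,10,16,-9,-2), [3,8,11,20,28], [9,13,67,15,5]),
  ((2,11,15,-9,-1), [1,8,11,20,28], [8,16,6,17,5]),
  ((3,10,15,-9,-1), [1,3,4,8,11], [15,17,5,65,70]),
  ((0,13,14,-8,1), [1,6,20,21,28], [18,16,19,6,66]),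
  ((-3,12,11,-5,8), [1,6,8,9,28], [67,20,19,6,70]),
  ((5,8,18,-7,-4), [3,11,20,23,28], [69,67,21,8,7]),
  ((6,4,15,-3,-1), [3,4,11,14,23], [22,7,23,21,65]),
  ((3,9,15,-8,-1), [3,4,8,11,28], [17,8,21,24,10]),
  ((1,12,14,-8,0), [1,11,20,21,28], [69,11,25,9,66]),
  ((2,10,14,-8,0), [1,4,8,11,28], [15,9,25,26,10]),
  ((-3,16,14,-5,4), [6,9,20,21,28], [27,11,19,67,66]),
  ((-3,13,11,-5,7), [1,6,9,21,28], [18,28,11,12,66]),
  ((-4,11,9,-3,11), [1,7,8,9,28], [68,12,28,26,70]),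
  ((5,5,15,-4,-1), [3,4,11,23,28], [29,13,30,15,14]),
  ((6,2,13,1,1), [4,11,14,23,25], [69,23,29,31,14]),
  ((6,2,15,-1,1), [3,4,14,23,25], [22,67,30,32,14]),
  ((3,0,15,1,8), [3,4,8,25,28], [68,67,30,15,33]),
  ((1,10,12,-6,2), [1,4,11,21,28], [34,16,35,17,36]),
  ((-4,10,8,-2,12), [1,4,7,8,28], [68,20,17,35,70]),
  ((-5,18,14,-1,6), [9,20,21,26,28], [69,37,67,18,66]),
  ((-4,12,9,-3,10), [1,7,9,21,28], [38,19,35,20,66]),
  ((5,2,12,2,2), [4,11,23,25,28], [69,30,34,21,22]),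
  ((5,2,15,-1,2), [3,4,23,25,28], [29,67,24,21,23]),
  ((15,-7,4,19,10), [4,11,14,15,25], [69,39,40,22,65]),
  ((11,-3,15,4,6), [3,4,5,14,25], [41,67,23,33,65]),
  ((3,-3,15,4,14), [3,4,5,8,25], [68,67,24,32,70]),
  ((1,-2,0,18,14), [4,11,21,25,28], [69,42,29,25,43]),
  ((-4,10,7,-1,12), [1,4,7,21,28], [44,28,25,26,45]),
  ((1,10,4,2,10), [1,2,4,11,21], [46,25,66,45,65]),
  ((-8,18,11,5,12), [9,21,26,28,29], [69,67,38,66,27]),
  ((-14,12,-1,17,30), [7,9,21,28,29], [37,47,68,66,28]),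
  ((16,-8,4,20,11), [4,14,15,17,25], [69,48,41,31,65]),
  ((3,-7,-8,31,22), [4,11,15,24,25], [69,49,43,31,50]),
  ((16,-8,10,14,11), [4,5,14,17,25], [67,39,51,32,65]),
  ((-2,-5,-6,27,23), [4,21,24,25,28], [69,68,34,52,43]),
  ((1,-5,-6,27,20), [4,11,21,24,25], [69,42,40,34,46]),
  ((-7,7,1,8,21), [2,4,7,21,28], [35,53,52,68,45]),
  ((-4,10,4,2,15), [1,2,4,7,21], [44,35,66,36,70]),
  ((1,-5,-11,32,25), [2,4,11,21,24], [43,54,52,50,36]),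
  ((-15,11,-3,20,33), [7,21,27,28,29], [69,68,38,66,53]),
  ((16,-10,2,24,15), [4,15,17,19,25], [69,51,55,39,65]),
  ((3,-15,-16,47,38), [4,15,16,24,25], [69,68,40,56,57]),
  ((3,-7,-13,36,27), [2,4,11,15,24], [40,58,57,46,65]),
  ((16,-10,8,18,15), [4,5,17,19,25], [67,48,68,41,65]),
  ((-7,-5,-11,32,33), [2,4,21,24,28], [42,59,68,44,46]),
  ((-15,7,-7,24,37), [2,7,21,27,28], [47,59,68,44,66]),
  ((1,-5,-14,38,28), [2,11,12,21,24], [69,60,46,58,66]),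
  ((10,-16,-10,42,33), [4,15,18,19,25], [69,68,48,56,65]),
  ((4,-16,-16,48,39), [4,15,16,18,25], [69,68,55,49,65]),
  ((3,-10,-16,42,33), [2,4,15,16,24], [49,61,68,50,65]),
  ((3,-7,-14,38,28), [2,11,12,15,24], [69,61,50,54,65]),
  ((-15,-5,-19,48,49), [2,21,24,27,28], [69,68,53,52,62]),
  ((-2,-5,-17,44,34), [2,12,13,21,24], [69,63,54,64,66]),
  ((3,-9,-16,42,32), [2,12,15,16,24], [69,57,64,58,65]),
  ((-15,-5,-21,52,51), [2,21,22,24,27], [69,68,59,66,63]),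
  ((-10,-5,-21,52,46), [2,13,21,22,24], [69,62,68,60,66]),
  ((2,-9,-17,44,34), [2,12,13,16,24], [69,68,61,60,65])]

/-- skeleton certificate for graph number 9 -/
def gcert9 : GCert where
  adj := [[],[2],[1,5],[],[],[2,8,9],[9,11],[],[5,15],[5,6,17],[],[6,19],[],[],[21,23],[8,17,21],[],[9,15,25],[19],[11,18,28],[],[14,15,30],[],[14,30,32],[30],[17,35,36],[],[],[19,35,38],[],[21,23,24],[],[23,41],[],[],[25,28,44],[25,46],[],[28],[],[],[32,51],[],[],[35,52,53],[],[36,50,52],[],[],[],[46,57],[41],[44,46],[44],[],[],[],[50],[],[],[],[],[],[],[]]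
  core := [5,6,8,9,11,14,15,17,19,21,23,25,28,30,35,36,44,46,52]
  rk := [1,2,3,4,5,0,0,6,0,0,7,0,8,9,0,0,10,0,11,0,12,0,13,0,14,0,15,16,0,17,0,18,33,19,20,0,0,21,22,23,24,32,25,26,0,27,0,28,29,30,39,31,0,34,35,36,37,38,40,41,42,43,44,45,46]
  ph := [21,15,9,17,35,25]

theorem chk9 : chk cert9 = true := by decide +kernel
theorem achk9 : achk cert9 gcert9 = true := by decide +kernel
theorem gchk9 : gchk gcert9 (canon 9) = true := by decide +kernel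

end Pool.Agent.R863.TG
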