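import Pool.Agent.R863.TG.Stm

/-! Piece DIR: outward directions of a unimodular cell. -/

set_option autoImplicit false

namespace Pool.Agent.R863.TG

namespace DIR

open Finset

/-- integer version of `cay` -/
def cayZ (x : Bool × Mon) : Fin 5 → ℤ :=
  ![(x.2 0 : ℤ), (x.2 1 : ℤ), (x.2 2 : ℤ), if x.1 then 0 else 1, if x.1 then 1 else 0]

/-- the linear algebra facts that are used -/
def Good (A B : Finset Mon) : Prop :=
  (∀ (u : Fin 3 → ℤ) (m n : ℤ), (∀ a ∈ A, pr u a = m) → (∀ b ∈ B, pr u b = n) →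
    u = 0 ∧ m = 0 ∧ n = 0) ∧
  (∀ c ∈ A, ∃ (u : Fin 3 → ℤ) (m n : ℤ), (∀ a ∈ A, pr u a = m - if a = c then 1 else 0) ∧
    ∀ b ∈ B, pr u b = n) ∧
  (∀ c ∈ B, ∃ (u : Fin 3 → ℤ) (m n : ℤ), (∀ a ∈ A, pr u a = m) ∧
    ∀ b ∈ B, pr u b = n - if b = c then 1 else 0)

lemma Good.symm {A B : Finset Mon} (h : Good A B) : Good B A := by
  obtain ⟨h0, h1, h2⟩ := h
  refine ⟨?_, ?_, ?_⟩
  · intro u m n hm hn
    obtain ⟨a, b, c⟩ := h0 u n m hn hm
    exact ⟨a, c, b⟩
  · intro c hc
    obtain ⟨u, m, n, a, b⟩ := h2 c hc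
    exact ⟨u, n, m, b, a⟩
  · intro c hc
    obtain ⟨u, m, n, a, b⟩ := h1 c hc
    exact ⟨u, n, m, b, a⟩

lemma good_of_cell {A B : Finset Mon} (h : IsCell A B) : Good A B := by
  obtain ⟨-, -, -, f, finj, frange, fdet⟩ := h
  set M : Matrix (Fin 5) (Fin 5) ℤ := Matrix.of fun i => cayZ (f i) with hM
  have hmap : (Int.castRingHom ℝ).mapMatrix M = Matrix.of fun i => cay (f i) := by
    ext i j
    simp only [RingHom.mapMatrix_apply, Matrix.map_apply, hM, Matrix.of_apply, cayZ, cay]
    fin_cases j <;> simp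
  have hdet : |M.det| = 1 := by
    have h1 := (Int.castRingHom ℝ).map_det M
    rw [hmap] at h1
    rw [← h1] at fdet
    have h2 : |((M.det : ℤ) : ℝ)| = 1 := fdet
    exact_mod_cast h2
  have hunit : IsUnit M.det := by
    rw [Int.isUnit_iff]
    rcases abs_eq (by norm_num : (0 : ℤ) ≤ 1) |>.1 hdet with h | h
    · exact Or.inl h
    · exact Or.inr h
  have hne : M.det ≠ 0 := by
    intro h0
    rw [h0] at hdet
    simp at hdet
  -- values of the functional `l` at the points
  have hval : ∀ (l : Fin 5 → ℤ) (i : Fin 5), (M.mulVec l) i =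
      pr ![l 0, l 1, l 2] (f i).2 + (if (f i).1 then l 4 else l 3) := by
    intro l i
    simp only [Matrix.mulVec, dotProduct, hM, Matrix.of_apply, cayZ, pr, Fin.sum_univ_succ]
    rcases (f i).1 with _ | _ <;> simp <;> ring
  have hmemA : ∀ a ∈ A, ∃ i, f i = (false, a) := by
    intro a ha
    have : (false, a) ∈ Set.range f := by
      rw [frange]; exact Or.inl ⟨rfl, ha⟩
    exact this
  have hmemB : ∀ b ∈ B, ∃ i, f i = (true, b) := by
    intro a ha
    have : (true, a) ∈ Set.range f := by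
      rw [frange]; exact Or.inr ⟨rfl, ha⟩
    exact this
  have hcell : ∀ i, ((f i).1 = false ∧ (f i).2 ∈ A) ∨ ((f i).1 = true ∧ (f i).2 ∈ B) := by
    intro i
    have : f i ∈ Set.range f := ⟨i, rfl⟩
    rw [frange] at this
    exact this
  have hu3 : ∀ u : Fin 3 → ℤ, ![u 0, u 1, u 2] = u := by
    intro u
    ext j
    fin_cases j <;> rfl
  refine ⟨?_, ?_, ?_⟩
  · intro u m n hm hn
    have h1 : M.mulVec ![u 0, u 1, u 2, -m, -n] = 0 := by
      ext i
      rw [hval]
      have h2 : pr ![(![u 0, u 1, u 2, -m, -n] : Fin 5 → ℤ) 0,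
          (![u 0, u 1, u 2, -m, -n] : Fin 5 → ℤ) 1, (![u 0, u 1, u 2, -m, -n] : Fin 5 → ℤ) 2]
          (f i).2 = pr u (f i).2 := by
        congr 1
        ext j
        fin_cases j <;> rfl
      rw [h2]
      rcases hcell i with ⟨h3, h4⟩ | ⟨h3, h4⟩
      · rw [h3, hm _ h4]
        simp
      · rw [h3, hn _ h4]
        simp
    have h2 := Matrix.eq_zero_of_mulVec_eq_zero hne h1
    have e0 : u 0 = 0 := congrFun h2 0
    have e1 : u 1 = 0 := congrFun h2 1
    have e2 : u 2 = 0 := congrFun h2 2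
    have e3 : -m = 0 := congrFun h2 3
    have e4 : -n = 0 := congrFun h2 4
    refine ⟨?_, by linarith, by linarith⟩
    ext j
    fin_cases j
    · exact e0
    · exact e1
    · exact e2
  · intro c hc
    obtain ⟨k, hk⟩ := hmemA c hc
    set l : Fin 5 → ℤ := -(M⁻¹.mulVec (Pi.single k 1)) with hl
    have h1 : M.mulVec l = -Pi.single k 1 := by
      rw [hl, Matrix.mulVec_neg, Matrix.mulVec_mulVec, Matrix.mul_nonsing_inv M hunit,
        Matrix.one_mulVec]
    refine ⟨![l 0, l 1, l 2], -l 3, -l 4, ?_, ?_⟩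
    · intro a ha
      obtain ⟨i, hi⟩ := hmemA a ha
      have h2 := hval l i
      rw [h1, hi] at h2
      simp only [Pi.neg_apply, Pi.single_apply] at h2
      have h3 : (i = k) ↔ (a = c) := by
        constructor
        · intro h
          rw [h, hk] at hi
          exact (Prod.mk.inj hi).2.symm
        · intro h
          apply finj
          rw [hi, hk, h]
      simp only [h3] at h2
      simp at h2
      split_ifs at h2 ⊢ <;> linarith
    · intro b hb
      obtain ⟨i, hi⟩ := hmemB b hb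
      have h2 := hval l i
      rw [h1, hi] at h2
      simp only [Pi.neg_apply, Pi.single_apply] at h2
      have h3 : i ≠ k := by
        intro h
        rw [h, hk] at hi
        exact absurd (Prod.mk.inj hi).1 (by decide)
      rw [if_neg h3] at h2
      simp at h2
      linarith
  · intro c hc
    obtain ⟨k, hk⟩ := hmemB c hc
    set l : Fin 5 → ℤ := -(M⁻¹.mulVec (Pi.single k 1)) with hl
    have h1 : M.mulVec l = -Pi.single k 1 := by
      rw [hl, Matrix.mulVec_neg, Matrix.mulVec_mulVec, Matrix.mul_nonsing_inv M hunit,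
        Matrix.one_mulVec]
    refine ⟨![l 0, l 1, l 2], -l 3, -l 4, ?_, ?_⟩
    · intro b hb
      obtain ⟨i, hi⟩ := hmemA b hb
      have h2 := hval l i
      rw [h1, hi] at h2
      simp only [Pi.neg_apply, Pi.single_apply] at h2
      have h3 : i ≠ k := by
        intro h
        rw [h, hk] at hi
        exact absurd (Prod.mk.inj hi).1 (by decide)
      rw [if_neg h3] at h2
      simp at h2
      linarith
    · intro a ha
      obtain ⟨i, hi⟩ := hmemB a ha
      have h2 := hval l i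
      rw [h1, hi] at h2
      simp only [Pi.neg_apply, Pi.single_apply] at h2
      have h3 : (i = k) ↔ (a = c) := by
        constructor
        · intro h
          rw [h, hk] at hi
          exact (Prod.mk.inj hi).2.symm
        · intro h
          apply finj
          rw [hi, hk, h]
      simp only [h3] at h2
      simp at h2
      split_ifs at h2 ⊢ <;> linarith

lemma pr_add_right (u : Fin 3 → ℤ) (a b : Mon) : pr u (a + b) = pr u a + pr u b := by
  simp only [pr, Pi.add_apply, Nat.cast_add, mul_add, Finset.sum_add_distrib]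

lemma pr_sub_left (u v : Fin 3 → ℤ) (a : Mon) : pr (u - v) a = pr u a - pr v a := by
  simp only [pr, Pi.sub_apply, sub_mul, Finset.sum_sub_distrib]

lemma pr_smul_left (k : ℤ) (u : Fin 3 → ℤ) (a : Mon) : pr (k • u) a = k * pr u a := by
  simp only [pr, Pi.smul_apply, smul_eq_mul, mul_assoc, Finset.mul_sum]

lemma pr_sum_left (A : Finset Mon) (v : Mon → Fin 3 → ℤ) (a : Mon) :
    pr (∑ c ∈ A, v c) a = ∑ c ∈ A, pr (v c) a := by
  simp only [pr, Finset.sum_apply, Finset.sum_mul]
  rw [Finset.sum_comm]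

/-- values of a functional at the points of the cell -/
def Vals (A B : Finset Mon) (c : Mon) (u : Fin 3 → ℤ) (m n : ℤ) : Prop :=
  (∀ a ∈ A, pr u a = m - if a = c then 1 else 0) ∧ ∀ b ∈ B, pr u b = n

lemma dir_of_vals {A B : Finset Mon} {c : Mon} {u : Fin 3 → ℤ} {m n : ℤ}
    (h : Vals A B c u m n) : IsDir A B (A.erase c, B) u := by
  obtain ⟨h1, h2⟩ := h
  refine ⟨?_, ?_, ?_, ?_⟩
  · intro a ha a' ha'
    have ha := Finset.mem_erase.1 ha
    have ha' := Finset.mem_erase.1 ha'
    rw [h1 a ha.2, h1 a' ha'.2, if_neg ha.1, if_neg ha'.1]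
  · intro b hb b' hb'
    rw [h2 b hb, h2 b' hb']
  · intro a ha c' hc' hn
    have ha := Finset.mem_erase.1 ha
    have hc : c' = c := by
      by_contra h
      exact hn (Finset.mem_erase.2 ⟨h, hc'⟩)
    rw [h1 a ha.2, h1 c' hc', if_neg ha.1, if_pos hc]
    ring
  · intro b hb c' hc' hn
    exact absurd hc' hn

lemma vals_of_dir {A B : Finset Mon} {c : Mon} {u : Fin 3 → ℤ} (hA : 2 ≤ A.card)
    (hB : 1 ≤ B.card) (hc : c ∈ A) (h : IsDir A B (A.erase c, B) u) :
    ∃ m n, Vals A B c u m n := by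
  obtain ⟨h1, h2, h3, -⟩ := h
  have hne : (A.erase c).Nonempty := by
    rw [← Finset.card_pos, Finset.card_erase_of_mem hc]
    omega
  obtain ⟨a0, ha0⟩ := hne
  obtain ⟨b0, hb0⟩ := Finset.card_pos.1 hB
  refine ⟨pr u a0, pr u b0, ?_, fun b hb => h2 b hb b0 hb0⟩
  intro a ha
  by_cases hac : a = c
  · rw [if_pos hac]
    exact h3 a0 ha0 a ha (by rw [hac]; exact Finset.notMem_erase c A)
  · rw [if_neg hac, sub_zero]
    exact h1 a (Finset.mem_erase.2 ⟨hac, ha⟩) a0 ha0

lemma vals_uniq {A B : Finset Mon} (hG : Good A B) {c : Mon} {u u' : Fin 3 → ℤ} {m n m' n' : ℤ}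
    (h : Vals A B c u m n) (h' : Vals A B c u' m' n') : u = u' := by
  have := hG.1 (u - u') (m - m') (n - n')
    (by intro a ha; rw [pr_sub_left, h.1 a ha, h'.1 a ha]; ring)
    (by intro b hb; rw [pr_sub_left, h.2 b hb, h'.2 b hb])
  exact sub_eq_zero.1 this.1

lemma core1 {A B : Finset Mon} (hG : Good A B) (hA : 2 ≤ A.card)
    (hB : 1 ≤ B.card) {c : Mon} (hc : c ∈ A) : ∃! u, IsDir A B (A.erase c, B) u := by
  obtain ⟨u, m, n, h1, h2⟩ := hG.2.1 c hc
  refine ⟨u, dir_of_vals ⟨h1, h2⟩, ?_⟩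
  intro u' hu'
  obtain ⟨m', n', h'⟩ := vals_of_dir hA hB hc hu'
  exact vals_uniq hG h' ⟨h1, h2⟩

lemma core2 {A B : Finset Mon} (hG : Good A B) (hA : 2 ≤ A.card)
    (hB : 1 ≤ B.card) (v : Mon → Fin 3 → ℤ) (hv : ∀ c ∈ A, IsDir A B (A.erase c, B) (v c)) :
    (∀ i, ∑ c ∈ A, v c i = 0) ∧ ∀ s : Mon → Mon,
      (∀ c ∈ A, ∃ a ∈ A.erase c, ∃ b ∈ B, s c = a + b) → ∑ c ∈ A, pr (v c) (s c) = 1 := by
  have h1 : ∀ c, ∃ m n : ℤ, c ∈ A → Vals A B c (v c) m n := by
    intro c
    by_cases hc : c ∈ A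
    · obtain ⟨m, n, h⟩ := vals_of_dir hA hB hc (hv c hc)
      exact ⟨m, n, fun _ => h⟩
    · exact ⟨0, 0, fun h => absurd h hc⟩
  choose m n hmn using h1
  have h2 := hG.1 (∑ c ∈ A, v c) (∑ c ∈ A, m c - 1) (∑ c ∈ A, n c) (by
    intro a ha
    rw [pr_sum_left, Finset.sum_congr rfl (fun c hc => (hmn c hc).1 a ha), Finset.sum_sub_distrib,
      Finset.sum_ite_eq, if_pos ha]) (by
    intro b hb
    rw [pr_sum_left]
    exact Finset.sum_congr rfl (fun c hc => (hmn c hc).2 b hb))
  obtain ⟨e1, e2, e3⟩ := h2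
  refine ⟨?_, ?_⟩
  · intro i
    have := congrFun e1 i
    rw [Finset.sum_apply] at this
    exact this
  · intro s hs
    have h3 : ∀ c ∈ A, pr (v c) (s c) = m c + n c := by
      intro c hc
      obtain ⟨a, ha, b, hb, e⟩ := hs c hc
      have ha := Finset.mem_erase.1 ha
      rw [e, pr_add_right, (hmn c hc).1 a ha.2, (hmn c hc).2 b hb, if_neg ha.1]
      ring
    rw [Finset.sum_congr rfl h3, Finset.sum_add_distrib]
    linarith

/-- the directions of the rays -/
def std (i : Fin 4) : Fin 3 → ℤ := ![![1, 1, 1], ![-1, 0, 0], ![0, -1, 0], ![0, 0, -1]] i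

lemma pr_std (d : ℕ) (i : Fin 4) (a : Mon) :
    pr (std i) a = (if i = 0 then (d : ℤ) else 0) - hom d a i := by
  fin_cases i <;> simp [pr, std, hom, Fin.sum_univ_succ]

lemma std_unit (i : Fin 4) : ∃ j, std i j = 1 ∨ std i j = -1 := by
  fin_cases i
  · exact ⟨0, Or.inl rfl⟩
  · exact ⟨0, Or.inr rfl⟩
  · exact ⟨1, Or.inr rfl⟩
  · exact ⟨2, Or.inr rfl⟩

lemma std_inj : ∀ i j : Fin 4, std i = std j → i = j := by decide

lemma hom_nonneg {d : ℕ} {a : Mon} (h : ∑ i, a i ≤ d) (i : Fin 4) : 0 ≤ hom d a i := by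
  have h' : (∑ i, (a i : ℤ)) ≤ d := by exact_mod_cast h
  fin_cases i
  · simp only [hom]
    change 0 ≤ (d : ℤ) - ∑ i, (a i : ℤ)
    linarith
  · change 0 ≤ ((a 0 : ℕ) : ℤ)
    positivity
  · change 0 ≤ ((a 1 : ℕ) : ℤ)
    positivity
  · change 0 ≤ ((a 2 : ℕ) : ℤ)
    positivity

lemma core3 {A B : Finset Mon} {dA dB : ℕ} (hG : Good A B) (hdA : ∀ a ∈ A, ∑ i, a i ≤ dA)
    {c : Mon} (hc : c ∈ A) (i : Fin 4)
    (h1 : ∀ a ∈ A.erase c, hom dA a i = 0) (h2 : ∀ b ∈ B, hom dB b i = 0) :
    IsDir A B (A.erase c, B) (std i) := by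
  obtain ⟨u, m, n, hu⟩ := hG.2.1 c hc
  have hu : Vals A B c u m n := hu
  set k : ℤ := hom dA c i with hk
  have hk0 : 0 ≤ k := hom_nonneg (hdA c hc) i
  have h3 := hG.1 (std i - k • u) ((if i = 0 then (dA : ℤ) else 0) - k * m)
    ((if i = 0 then (dB : ℤ) else 0) - k * n) (by
      intro a ha
      rw [pr_sub_left, pr_smul_left, pr_std dA, hu.1 a ha]
      by_cases hac : a = c
      · rw [if_pos hac, hac, ← hk]
        ring
      · rw [if_neg hac, h1 a (Finset.mem_erase.2 ⟨hac, ha⟩)]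
        ring) (by
      intro b hb
      rw [pr_sub_left, pr_smul_left, pr_std dB, hu.2 b hb, h2 b hb]
      ring)
  have h4 : std i = k • u := sub_eq_zero.1 h3.1
  obtain ⟨j, hj⟩ := std_unit i
  have h5 : k = 1 := by
    have h6 : std i j = k * u j := by rw [h4]; rfl
    rw [h6] at hj
    have h7 : IsUnit k := by
      rcases hj with hj | hj
      · exact IsUnit.of_mul_eq_one _ hj
      · exact IsUnit.of_mul_eq_one (-u j) (by rw [mul_neg, hj, neg_neg])
    rw [Int.isUnit_iff] at h7
    rcases h7 with h7 | h7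
    · exact h7
    · linarith
  rw [h4, h5, one_smul]
  exact dir_of_vals hu

lemma isDir_swap {A B F1 F2 : Finset Mon} {u : Fin 3 → ℤ} :
    IsDir A B (F1, F2) u ↔ IsDir B A (F2, F1) u := by
  constructor
  · rintro ⟨a, b, c, d⟩
    exact ⟨b, a, d, c⟩
  · rintro ⟨a, b, c, d⟩
    exact ⟨b, a, d, c⟩

lemma erase_of_card {A F : Finset Mon} {k : ℕ} (hA : A.card = k + 1)
    (hF : F ∈ A.powersetCard k) : ∃ c ∈ A, F = A.erase c := by
  rw [Finset.mem_powersetCard] at hF
  obtain ⟨hs, hF⟩ := hF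
  have h1 : (A \ F).card = 1 := by
    rw [Finset.card_sdiff_of_subset hs]
    omega
  obtain ⟨c, hc⟩ := Finset.card_eq_one.1 h1
  have hcm : c ∈ A \ F := by rw [hc]; exact Finset.mem_singleton_self c
  have hcm := Finset.mem_sdiff.1 hcm
  refine ⟨c, hcm.1, ?_⟩
  apply Finset.eq_of_subset_of_card_le
  · intro x hx
    refine Finset.mem_erase.2 ⟨?_, hs hx⟩
    rintro rfl
    exact hcm.2 hx
  · rw [Finset.card_erase_of_mem hcm.1]
    omega

lemma sum_powersetCard {A : Finset Mon} {k : ℕ} (hA : A.card = k + 1)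
    (g : Finset Mon → ℤ) : ∑ F ∈ A.powersetCard k, g F = ∑ c ∈ A, g (A.erase c) := by
  classical
  have h1 : A.powersetCard k = A.image (fun c => A.erase c) := by
    ext F
    rw [Finset.mem_image]
    constructor
    · intro hF
      obtain ⟨c, hc, e⟩ := erase_of_card hA hF
      exact ⟨c, hc, e.symm⟩
    · rintro ⟨c, hc, rfl⟩
      rw [Finset.mem_powersetCard, Finset.card_erase_of_mem hc]
      exact ⟨Finset.erase_subset _ _, by omega⟩
  rw [h1, Finset.sum_image]
  intro c hc c' hc' h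
  by_contra hne
  have h2 : c' ∈ A.erase c := Finset.mem_erase.2 ⟨fun h => hne h.symm, hc'⟩
  have h : A.erase c = A.erase c' := h
  rw [h] at h2
  exact Finset.notMem_erase c' A h2

lemma powersetCard_two {B : Finset Mon} (hB : B.card = 2) : B.powersetCard 2 = {B} := by
  rw [← hB, Finset.powersetCard_self]

end DIR

open DIR

theorem t_DIR : S_DIR := by
  classical
  intro A B hcell
  have hG := good_of_cell hcell
  obtain ⟨hdA, hdB, hcard, -⟩ := hcell
  -- part 1 and the directions of the rays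
  have main : ∀ F ∈ A.powersetCard 2 ×ˢ B.powersetCard 2, (∃! u, IsDir A B F u) ∧
      ∀ i : Fin 4, InFacet F i → IsDir A B F (std i) := by
    intro F hF
    obtain ⟨F1, F2⟩ := F
    rw [Finset.mem_product] at hF
    simp only at hF
    obtain ⟨hF1, hF2⟩ := hF
    rcases hcard with ⟨cA, cB⟩ | ⟨cA, cB⟩
    · rw [powersetCard_two cB, Finset.mem_singleton] at hF2
      subst hF2
      obtain ⟨c, hc, rfl⟩ := erase_of_card cA hF1
      refine ⟨core1 hG (by omega) (by omega) hc, ?_⟩
      intro i hi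
      exact core3 (dA := 2) (dB := 3) hG hdA hc i hi.1 hi.2
    · rw [powersetCard_two cA, Finset.mem_singleton] at hF1
      subst hF1
      obtain ⟨c, hc, rfl⟩ := erase_of_card cB hF2
      refine ⟨?_, ?_⟩
      · have := core1 hG.symm (by omega) (by omega) hc
        simpa only [isDir_swap] using this
      · intro i hi
        rw [isDir_swap]
        exact core3 (dA := 3) (dB := 2) hG.symm hdB hc i hi.2 hi.1
  refine ⟨fun F hF => (main F hF).1, ?_, ?_⟩
  · intro u hu
    rcases hcard with ⟨cA, cB⟩ | ⟨cA, cB⟩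
    · have hmem : ∀ c ∈ A, (A.erase c, B) ∈ A.powersetCard 2 ×ˢ B.powersetCard 2 := by
        intro c hc
        rw [Finset.mem_product]
        refine ⟨?_, ?_⟩
        · rw [Finset.mem_powersetCard, Finset.card_erase_of_mem hc]
          exact ⟨Finset.erase_subset _ _, by omega⟩
        · rw [Finset.mem_powersetCard]
          exact ⟨Finset.Subset.refl _, cB⟩
      have hsum : ∀ g : Finset Mon × Finset Mon → ℤ,
          ∑ F ∈ A.powersetCard 2 ×ˢ B.powersetCard 2, g F = ∑ c ∈ A, g (A.erase c, B) := by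
        intro g
        rw [Finset.sum_product, powersetCard_two cB]
        simp only [Finset.sum_singleton]
        exact sum_powersetCard cA (fun F => g (F, B))
      have h2 := core2 hG (by omega) (by omega) (fun c => u (A.erase c, B))
        (fun c hc => hu _ (hmem c hc))
      refine ⟨fun i => ?_, fun s hs => ?_⟩
      · rw [hsum (fun F => u F i)]
        exact h2.1 i
      · rw [hsum (fun F => pr (u F) (s F))]
        exact h2.2 (fun c => s (A.erase c, B)) (fun c hc => hs _ (hmem c hc))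
    · have hmem : ∀ c ∈ B, (A, B.erase c) ∈ A.powersetCard 2 ×ˢ B.powersetCard 2 := by
        intro c hc
        rw [Finset.mem_product]
        refine ⟨?_, ?_⟩
        · rw [Finset.mem_powersetCard]
          exact ⟨Finset.Subset.refl _, cA⟩
        · rw [Finset.mem_powersetCard, Finset.card_erase_of_mem hc]
          exact ⟨Finset.erase_subset _ _, by omega⟩
      have hsum : ∀ g : Finset Mon × Finset Mon → ℤ,
          ∑ F ∈ A.powersetCard 2 ×ˢ B.powersetCard 2, g F = ∑ c ∈ B, g (A, B.erase c) := by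
        intro g
        rw [Finset.sum_product, powersetCard_two cA]
        simp only [Finset.sum_singleton]
        exact sum_powersetCard cB (fun F => g (A, F))
      have h2 := core2 hG.symm (by omega) (by omega) (fun c => u (A, B.erase c))
        (fun c hc => isDir_swap.1 (hu _ (hmem c hc)))
      refine ⟨fun i => ?_, fun s hs => ?_⟩
      · rw [hsum (fun F => u F i)]
        exact h2.1 i
      · rw [hsum (fun F => pr (u F) (s F))]
        refine h2.2 (fun c => s (A, B.erase c)) (fun c hc => ?_)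
        obtain ⟨a, ha, b, hb, e⟩ := hs _ (hmem c hc)
        exact ⟨b, hb, a, ha, by rw [e, add_comm]⟩
  · intro F hF i hi
    refine ⟨(main F hF).2 i hi, ?_⟩
    intro j hj
    exact std_inj j i ((main F hF).1.unique ((main F hF).2 j hj) ((main F hF).2 i hi))

end Pool.Agent.R863.TG
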