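import Mathlib

/-! Skeletons of smooth tropical complete intersections of degrees 2 and 3 (MP_3ce8eb_ag):
definitions and the exact statements of the pieces.  See `NOTES.md` for complete proofs. -/

set_option autoImplicit false

namespace Pool.Agent.R863.TG

open Relation

/-- exponents of monomials in `x, y, z` -/
abbrev Mon : Type := Fin 3 → ℕ
/-- points of `ℝ³` -/
abbrev Pt : Type := Fin 3 → ℝ

/-- a tropical polynomial (max convention): finitely many exponents with real coefficients -/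
structure TPoly where
  supp : Finset Mon
  coeff : Mon → ℝ

/-- the value at `w` of the monomial of exponent `a` -/
def TPoly.val (p : TPoly) (w : Pt) (a : Mon) : ℝ := p.coeff a + ∑ i, (a i : ℝ) * w i

open Classical in
/-- the exponents at which the maximum is attained -/
noncomputable def TPoly.top (p : TPoly) (w : Pt) : Finset Mon :=
  p.supp.filter fun a => ∀ b ∈ p.supp, p.val w b ≤ p.val w a

/-- the Newton polytope is `conv {0, d e₁, d e₂, d e₃}` -/
def TPoly.HasDeg (p : TPoly) (d : ℕ) : Prop :=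
  (∀ a ∈ p.supp, ∑ i, a i ≤ d) ∧ (0 : Mon) ∈ p.supp ∧ ∀ i, (Pi.single i d : Mon) ∈ p.supp

/-- homogeneous coordinates of a point of the Cayley configuration: `false` for the first
polynomial, `true` for the second -/
def cay (x : Bool × Mon) : Fin 5 → ℝ :=
  ![(x.2 0 : ℝ), (x.2 1 : ℝ), (x.2 2 : ℝ), if x.1 then 0 else 1, if x.1 then 1 else 0]

open Classical in
/-- the cell of the induced subdivision of the Cayley polytope that is dual to `w` -/
noncomputable def cell (p q : TPoly) (w : Pt) : Finset (Bool × Mon) :=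
  (p.top w).image (fun a => (false, a)) ∪ (q.top w).image (fun a => (true, a))

/-- the cell dual to `w` is full-dimensional -/
def Full (p q : TPoly) (w : Pt) : Prop :=
  Submodule.span ℝ (cay '' (cell p q w : Set (Bool × Mon))) = ⊤

/-- every maximal cell is a simplex of volume `1/24`: it has five points and their homogeneous
coordinates have determinant `±1` -/
def SmoothC (p q : TPoly) : Prop :=
  ∀ w, Full p q w → ∃ f : Fin 5 → Bool × Mon, Function.Injective f ∧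
    Set.range f = (cell p q w : Set (Bool × Mon)) ∧ |(Matrix.of fun i => cay (f i)).det| = 1

/-- vertices of the tropical curve `T(p) ∩ T(q)` -/
def IsVert (p q : TPoly) (w : Pt) : Prop :=
  Full p q w ∧ 2 ≤ (p.top w).card ∧ 2 ≤ (q.top w).card

open Classical in
/-- two vertices are joined by a bounded edge: the open segment between them is an edge, on which
two monomials of `p` and two monomials of `q` attain the maximum -/
def Adj (p q : TPoly) (w w' : Pt) : Prop :=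
  w ≠ w' ∧ IsVert p q w ∧ IsVert p q w' ∧ 2 ≤ (p.top w ∩ p.top w').card ∧
    2 ≤ (q.top w ∩ q.top w').card

section graph

variable {α : Type}

/-- what remains after repeatedly deleting vertices with at most one neighbour -/
def Core (R : α → α → Prop) : Set α :=
  {x | ∃ U : Set α, x ∈ U ∧ ∀ u ∈ U, ∃ y ∈ U, ∃ z ∈ U, y ≠ z ∧ R u y ∧ R u z}

/-- vertices of the core with at least three neighbours in the core -/
def Branch (R : α → α → Prop) (x : α) : Prop :=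
  x ∈ Core R ∧ ∃ y ∈ Core R, ∃ z ∈ Core R, ∃ t ∈ Core R,
    y ≠ z ∧ y ≠ t ∧ z ≠ t ∧ R x y ∧ R x z ∧ R x t

/-- the edge from `u` to `x` is the beginning of a path in the core, with 2-valent interior
vertices, which ends in the branch vertex `v` -/
inductive Leads (R : α → α → Prop) : α → α → α → Prop
  | stop (u x : α) : R u x → Branch R x → Leads R u x x
  | step (u x y v : α) : R u x → ¬ Branch R x → R x y → y ∈ Core R → y ≠ u →
      Leads R x y v → Leads R u x v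

/-- The graph that is obtained from the core by smoothing the 2-valent vertices has six vertices
and adjacency matrix `A` (a loop contributes 2 to the diagonal). -/
def HasSkeleton (R : α → α → Prop) (A : Matrix (Fin 6) (Fin 6) ℕ) : Prop :=
  ∃ φ : Fin 6 → α, Function.Injective φ ∧ (∀ x, Branch R x ↔ x ∈ Set.range φ) ∧
    ∀ i j, {x | x ∈ Core R ∧ Leads R (φ i) x (φ j)}.ncard = A i j

end graph

/-- adjacency matrices of connected trivalent graphs of genus 4 (six vertices, loops and multiple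
edges allowed, a loop contributes 2 to the diagonal) -/
structure Cubic4 (A : Matrix (Fin 6) (Fin 6) ℕ) : Prop where
  symm : ∀ i j, A i j = A j i
  even : ∀ i, Even (A i i)
  sum : ∀ i, ∑ j, A i j = 3
  conn : ∀ i j, ReflTransGen (fun a b => A a b ≠ 0) i j

/-- deleting some vertex leaves three connected components -/
def Sprawling (A : Matrix (Fin 6) (Fin 6) ℕ) : Prop :=
  ∃ c x y z : Fin 6, x ≠ c ∧ y ≠ c ∧ z ≠ c ∧
    ¬ ReflTransGen (fun a b => A a b ≠ 0 ∧ a ≠ c ∧ b ≠ c) x y ∧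
    ¬ ReflTransGen (fun a b => A a b ≠ 0 ∧ a ≠ c ∧ b ≠ c) x z ∧
    ¬ ReflTransGen (fun a b => A a b ≠ 0 ∧ a ≠ c ∧ b ≠ c) y z

/-- the graph with adjacency matrix `A` is the skeleton of a smooth tropical complete intersection
of degrees 2 and 3 -/
def Occurs (A : Matrix (Fin 6) (Fin 6) ℕ) : Prop :=
  ∃ p q : TPoly, p.HasDeg 2 ∧ q.HasDeg 3 ∧ SmoothC p q ∧ HasSkeleton (Adj p q) A

/-! ### Pieces: no sprawling graph occurs -/

/-- homogeneous exponent -/
def hom (d : ℕ) (a : Mon) : Fin 4 → ℤ := ![(d : ℤ) - ∑ i, (a i : ℤ), a 0, a 1, a 2]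

/-- pairing of an integral direction with an exponent -/
def pr (u : Fin 3 → ℤ) (a : Mon) : ℤ := ∑ i, u i * (a i : ℤ)

/-- all monomials of the face lie in the facet `x_i = 0` of the Cayley polytope -/
def InFacet (F : Finset Mon × Finset Mon) (i : Fin 4) : Prop :=
  (∀ a ∈ F.1, hom 2 a i = 0) ∧ ∀ b ∈ F.2, hom 3 b i = 0

/-- `u` is the primitive outward direction of the edge (or ray) dual to the face `F` of the cell
`(A, B)` -/
def IsDir (A B : Finset Mon) (F : Finset Mon × Finset Mon) (u : Fin 3 → ℤ) : Prop :=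
  (∀ a ∈ F.1, ∀ a' ∈ F.1, pr u a = pr u a') ∧ (∀ b ∈ F.2, ∀ b' ∈ F.2, pr u b = pr u b') ∧
  (∀ a ∈ F.1, ∀ c ∈ A, c ∉ F.1 → pr u c = pr u a - 1) ∧
  (∀ b ∈ F.2, ∀ c ∈ B, c ∉ F.2 → pr u c = pr u b - 1)

/-- `(A, B)` is the cell of a vertex: a unimodular simplex of type (3,2) or (2,3) -/
def IsCell (A B : Finset Mon) : Prop :=
  (∀ a ∈ A, ∑ i, a i ≤ 2) ∧ (∀ b ∈ B, ∑ i, b i ≤ 3) ∧
  ((A.card = 3 ∧ B.card = 2) ∨ (A.card = 2 ∧ B.card = 3)) ∧
  ∃ f : Fin 5 → Bool × Mon, Function.Injective f ∧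
    Set.range f = {x | (x.1 = false ∧ x.2 ∈ A) ∨ (x.1 = true ∧ x.2 ∈ B)} ∧
    |(Matrix.of fun i => cay (f i)).det| = 1

open Classical in
/-- number of rays in direction `i` at the vertex `x` -/
noncomputable def nb (p q : TPoly) (x : Pt) (i : Fin 4) : ℕ :=
  (((p.top x).powersetCard 2 ×ˢ (q.top x).powersetCard 2).filter fun F => InFacet F i).card

/-- number of rays in direction `i` at the vertices of `U` -/
noncomputable def nray (p q : TPoly) (U : Finset Pt) (i : Fin 4) : ℕ := ∑ x ∈ U, nb p q x i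

open Classical in
/-- twice the number of edges inside `U` -/
noncomputable def m2 {α : Type} (R : α → α → Prop) (U : Finset α) : ℕ :=
  ((U ×ˢ U).filter fun x => R x.1 x.2).card

/-- TG-VC: the cell of a vertex -/
def S_VC : Prop := ∀ p q : TPoly, p.HasDeg 2 → q.HasDeg 3 → SmoothC p q → ∀ w, IsVert p q w →
  IsCell (p.top w) (q.top w)

/-- TG-DIR: existence and uniqueness of outward directions, balancing -/
def S_DIR : Prop := ∀ A B : Finset Mon, IsCell A B →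
  (∀ F ∈ A.powersetCard 2 ×ˢ B.powersetCard 2, ∃! u, IsDir A B F u) ∧
  (∀ u : Finset Mon × Finset Mon → Fin 3 → ℤ,
    (∀ F ∈ A.powersetCard 2 ×ˢ B.powersetCard 2, IsDir A B F (u F)) →
    (∀ i, ∑ F ∈ A.powersetCard 2 ×ˢ B.powersetCard 2, u F i = 0) ∧
    ∀ s : Finset Mon × Finset Mon → Mon,
      (∀ F ∈ A.powersetCard 2 ×ˢ B.powersetCard 2, ∃ a ∈ F.1, ∃ b ∈ F.2, s F = a + b) →
      ∑ F ∈ A.powersetCard 2 ×ˢ B.powersetCard 2, pr (u F) (s F) = 1) ∧
  (∀ F ∈ A.powersetCard 2 ×ˢ B.powersetCard 2, ∀ i : Fin 4, InFacet F i →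
    IsDir A B F (![![1, 1, 1], ![-1, 0, 0], ![0, -1, 0], ![0, 0, -1]] i) ∧
    ∀ j : Fin 4, InFacet F j → j = i)

/-- TG-NB: neighbours.  A (2,2)-face of the cell of a vertex is in exactly one facet of the Cayley
polytope, or it is the common face with exactly one other vertex. -/
def S_NB : Prop := ∀ p q : TPoly, p.HasDeg 2 → q.HasDeg 3 → SmoothC p q → ∀ w, IsVert p q w →
  (∀ F ∈ (p.top w).powersetCard 2 ×ˢ (q.top w).powersetCard 2,
    ((∃ i, InFacet F i) ∧ ∀ w', Adj p q w w' → ¬ (F.1 ⊆ p.top w' ∧ F.2 ⊆ q.top w')) ∨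
    ((∀ i, ¬ InFacet F i) ∧ ∃! w', Adj p q w w' ∧ F.1 ⊆ p.top w' ∧ F.2 ⊆ q.top w')) ∧
  (∀ w', Adj p q w w' → ∃ F ∈ (p.top w).powersetCard 2 ×ˢ (q.top w).powersetCard 2,
    (∀ a, a ∈ F.1 ↔ a ∈ p.top w ∧ a ∈ p.top w') ∧ (∀ b, b ∈ F.2 ↔ b ∈ q.top w ∧ b ∈ q.top w') ∧
    ∃ (u : Fin 3 → ℤ) (l : ℝ), 0 < l ∧ IsDir (p.top w) (q.top w) F u ∧
      IsDir (p.top w') (q.top w') F (-u) ∧ ∀ i, w' i = w i + l * u i)

/-- TG-NBA: second half of `S_NB` -/
def S_NBA : Prop := ∀ p q : TPoly, p.HasDeg 2 → q.HasDeg 3 → SmoothC p q → ∀ w w', Adj p q w w' →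
  ∃ F ∈ (p.top w).powersetCard 2 ×ˢ (q.top w).powersetCard 2,
    (∀ a, a ∈ F.1 ↔ a ∈ p.top w ∧ a ∈ p.top w') ∧ (∀ b, b ∈ F.2 ↔ b ∈ q.top w ∧ b ∈ q.top w') ∧
    ∃ (u : Fin 3 → ℤ) (l : ℝ), 0 < l ∧ IsDir (p.top w) (q.top w) F u ∧
      IsDir (p.top w') (q.top w') F (-u) ∧ ∀ i, w' i = w i + l * u i

/-- TG-NBE: pivoting: a face that is in no facet has a neighbour -/
def S_NBE : Prop := ∀ p q : TPoly, p.HasDeg 2 → q.HasDeg 3 → SmoothC p q → ∀ w, IsVert p q w →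
  ∀ F ∈ (p.top w).powersetCard 2 ×ˢ (q.top w).powersetCard 2, (∀ i, ¬ InFacet F i) →
    ∃ w', Adj p q w w' ∧ F.1 ⊆ p.top w' ∧ F.2 ⊆ q.top w'

/-- TG-FIN: there are finitely many vertices, and `Adj` is symmetric -/
def S_FIN : Prop := ∀ p q : TPoly, p.HasDeg 2 → q.HasDeg 3 → SmoothC p q →
  {w | IsVert p q w}.Finite ∧ (∀ w w', Adj p q w w' → Adj p q w' w) ∧
  ∀ w, {w' | Adj p q w w'}.ncard ≤ 3

/-- TG-REG: regions.  If the region of `(a, b)` is bounded then its boundary curve is a cycle. -/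
def S_REG : Prop := ∀ p q : TPoly, p.HasDeg 2 → q.HasDeg 3 → SmoothC p q → ∀ v, IsVert p q v →
  ∀ a ∈ p.top v, ∀ b ∈ q.top v, (∀ i, ¬ (hom 2 a i = 0 ∧ hom 3 b i = 0)) →
  ∃ y z, y ≠ z ∧ Adj p q v y ∧ Adj p q v z ∧
    ReflTransGen (fun s t => Adj p q s t ∧ s ≠ v ∧ t ≠ v) y z

/-- `U` is a set of vertices that is joined to the rest only by the edge from `t ∈ U` to `v` -/
def Tail {α : Type} (R : α → α → Prop) (U : Finset α) (v t : α) : Prop :=
  v ∉ U ∧ t ∈ U ∧ R v t ∧ ∀ x ∈ U, ∀ y, R x y → y ∈ U ∨ (x = t ∧ y = v)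

/-- TG-TAIL: sums over a tail -/
def S_TAIL : Prop := ∀ p q : TPoly, p.HasDeg 2 → q.HasDeg 3 → SmoothC p q →
  ∀ (U : Finset Pt) (v t : Pt), Tail (Adj p q) U v t → (∀ x ∈ U, IsVert p q x) →
  ∀ (F : Finset Mon × Finset Mon) (u : Fin 3 → ℤ),
    F ∈ (p.top v).powersetCard 2 ×ˢ (q.top v).powersetCard 2 →
    F.1 ⊆ p.top t → F.2 ⊆ q.top t → IsDir (p.top v) (q.top v) F u →
    (∀ i : Fin 3, u i = (nray p q U 0 : ℤ) - nray p q U i.succ) ∧
    (∀ a ∈ F.1, ∀ b ∈ F.2, (U.card : ℤ) = 5 * nray p q U 0 - pr u (a + b)) ∧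
    3 * U.card = m2 (Adj p q) U + (∑ i, nray p q U i) + 1

/-- TG-LVL: a tail with few rays has no cycle -/
def S_LVL : Prop := ∀ p q : TPoly, p.HasDeg 2 → q.HasDeg 3 → SmoothC p q →
  ∀ (U : Finset Pt) (v t : Pt), Tail (Adj p q) U v t → (∀ x ∈ U, IsVert p q x) →
  (∃ k i j : Fin 4, k ≠ i ∧ k ≠ j ∧ i ≠ j ∧ nray p q U k = 0 ∧ nray p q U i ≤ 1 ∧
    nray p q U j ≤ 1) →
  m2 (Adj p q) U < 2 * U.card

/-- the conclusion of the finite check for the cell `(A, B)` -/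
def ENc (A B : Finset Mon) : Prop :=
  (∀ a ∈ A, ∀ b ∈ B, ∃ i, hom 2 a i = 0 ∧ hom 3 b i = 0) →
  ∀ (F : Fin 3 → Finset Mon × Finset Mon) (u : Fin 3 → Fin 3 → ℤ) (n : Fin 3 → Fin 4 → ℕ)
    (g : Fin 3 → ℤ), Function.Injective F →
    (∀ j, F j ∈ A.powersetCard 2 ×ˢ B.powersetCard 2) → (∀ j i, ¬ InFacet (F j) i) →
    (∀ j, IsDir A B (F j) (u j)) →
    (∀ j (i : Fin 3), u j i = (n j 0 : ℤ) - n j i.succ) →
    (∀ j, ∀ a ∈ (F j).1, ∀ b ∈ (F j).2,
      2 * g j - 1 + ∑ i, (n j i : ℤ) = 5 * n j 0 - pr (u j) (a + b)) →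
    (∃ k, g k = 2 ∧ ∀ j, j ≠ k → g j = 1) →
    ∃ j, 1 ≤ g j ∧ ∃ k i i' : Fin 4, k ≠ i ∧ k ≠ i' ∧ i ≠ i' ∧ n j k = 0 ∧ n j i ≤ 1 ∧ n j i' ≤ 1

/-- TG-EN: the finite check -/
def S_EN : Prop := ∀ A B : Finset Mon, IsCell A B → ENc A B

/-- TG-EN32: the finite check, type (3,2) -/
def S_EN32 : Prop := ∀ A B : Finset Mon, IsCell A B → A.card = 3 → ENc A B

/-- TG-EN23: the finite check, type (2,3) -/
def S_EN23 : Prop := ∀ A B : Finset Mon, IsCell A B → A.card = 2 → ENc A B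

/-- common hypotheses on a graph -/
structure Gph {α : Type} (R : α → α → Prop) : Prop where
  symm : ∀ x y, R x y → R y x
  irrefl : ∀ x, ¬ R x x
  fin : {x | ∃ y, R x y}.Finite
  deg : ∀ x, {y | R x y}.ncard ≤ 3

/-- `y` and `z` are connected in the complement of `v` -/
def Con {α : Type} (R : α → α → Prop) (v y z : α) : Prop :=
  ReflTransGen (fun s t => R s t ∧ s ≠ v ∧ t ≠ v) y z

/-- TG-GR1: branch vertices that are connected in `R - v` are connected in `A - c` -/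
def S_GR1 : Prop := ∀ (α : Type) (R : α → α → Prop) (A : Matrix (Fin 6) (Fin 6) ℕ)
  (φ : Fin 6 → α), Gph R → Function.Injective φ → (∀ x, Branch R x ↔ x ∈ Set.range φ) →
  (∀ i j, {x | x ∈ Core R ∧ Leads R (φ i) x (φ j)}.ncard = A i j) →
  ∀ c i j : Fin 6, i ≠ c → j ≠ c → Con R (φ c) (φ i) (φ j) →
    ReflTransGen (fun a b => A a b ≠ 0 ∧ a ≠ c ∧ b ≠ c) i j

/-- TG-GR2: every branch vertex is connected in `R - v` to a neighbour of `v` -/
def S_GR2 : Prop := ∀ (α : Type) (R : α → α → Prop) (A : Matrix (Fin 6) (Fin 6) ℕ)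
  (φ : Fin 6 → α), Gph R → Function.Injective φ → (∀ x, Branch R x ↔ x ∈ Set.range φ) →
  (∀ i j, {x | x ∈ Core R ∧ Leads R (φ i) x (φ j)}.ncard = A i j) → Cubic4 A →
  ∀ c i : Fin 6, i ≠ c → ∃ x, R (φ c) x ∧ Con R (φ c) x (φ i)

/-- TG-GR4: counting in a tail -/
def S_GR4 : Prop := ∀ (α : Type) (R : α → α → Prop) (U : Finset α) (v x : α), Gph R →
  Tail R U v x → v ∈ Core R → x ∈ Core R → (∀ y ∈ U, Con R v x y) →
  (m2 R U : ℤ) = 2 * U.card + ({y | y ∈ U ∧ Branch R y}.ncard : ℤ) - 1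

/-- TG-GR: graph theory.  A sprawling skeleton gives three tails at a vertex `v`. -/
def S_GR : Prop := ∀ (α : Type) (R : α → α → Prop) (A : Matrix (Fin 6) (Fin 6) ℕ),
  (∀ x y, R x y → R y x) → (∀ x, ¬ R x x) → {x | ∃ y, R x y}.Finite →
  (∀ x, {y | R x y}.ncard ≤ 3) → HasSkeleton R A → Cubic4 A → Sprawling A →
  ∃ (v : α) (x : Fin 3 → α) (U : Fin 3 → Finset α) (g : Fin 3 → ℤ),
    Function.Injective x ∧ (∀ j, Tail R (U j) v (x j)) ∧
    (∀ j, (m2 R (U j) : ℤ) = 2 * (U j).card + 2 * g j - 2) ∧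
    (∃ k, g k = 2 ∧ ∀ j, j ≠ k → g j = 1) ∧
    (∀ j, ∀ y ∈ U j, ∃ z, R y z) ∧
    ∀ y z, y ≠ z → R v y → R v z → ¬ ReflTransGen (fun s t => R s t ∧ s ≠ v ∧ t ≠ v) y z

/-- TG-NO: no sprawling graph occurs -/
def S_NO : Prop := ∀ A : Matrix (Fin 6) (Fin 6) ℕ, Cubic4 A → Occurs A → ¬ Sprawling A

end Pool.Agent.R863.TG
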