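import Mathlib
import Pool.Agent.R863.TG.Stm

/-! TG-EN23: the finite check for cells of type (2,3) (subtask 5968, helper55) -/

set_option autoImplicit false

namespace Pool.Agent.R863.TG

namespace EN23

/-- integer vectors -/
abbrev V := ℤ × ℤ × ℤ

def sub (x y : V) : V := (x.1 - y.1, x.2.1 - y.2.1, x.2.2 - y.2.2)
def cross (x y : V) : V :=
  (x.2.1 * y.2.2 - x.2.2 * y.2.1, x.2.2 * y.1 - x.1 * y.2.2, x.1 * y.2.1 - x.2.1 * y.1)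
def dot (x y : V) : ℤ := x.1 * y.1 + x.2.1 * y.2.1 + x.2.2 * y.2.2
def s (x : V) : ℤ := x.1 + x.2.1 + x.2.2

def LA : List V := [(0,0,0),(0,0,1),(0,0,2),(0,1,0),(0,1,1),(0,2,0),(1,0,0),(1,0,1),(1,1,0),(2,0,0)]
def LB : List V := [(0,0,0),(0,0,1),(0,0,2),(0,0,3),(0,1,0),(0,1,1),(0,1,2),(0,2,0),(0,2,1),(0,3,0),
  (1,0,0),(1,0,1),(1,0,2),(1,1,0),(1,1,1),(1,2,0),(2,0,0),(2,0,1),(2,1,0),(3,0,0)]

def cz (a b : V) : Bool :=
  (s a == 2 && s b == 3) || (a.1 == 0 && b.1 == 0) || (a.2.1 == 0 && b.2.1 == 0) ||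
    (a.2.2 == 0 && b.2.2 == 0)

def inF (a a' b b' : V) : Bool :=
  (s a == 2 && s a' == 2 && s b == 3 && s b' == 3) ||
  (a.1 == 0 && a'.1 == 0 && b.1 == 0 && b'.1 == 0) ||
  (a.2.1 == 0 && a'.2.1 == 0 && b.2.1 == 0 && b'.2.1 == 0) ||
  (a.2.2 == 0 && a'.2.2 == 0 && b.2.2 == 0 && b'.2.2 == 0)

def uv (a a' b b' c : V) : V :=
  let w := cross (sub a' a) (sub b' b)
  let d := dot w (sub c b)
  (-d * w.1, -d * w.2.1, -d * w.2.2)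

def nz (g : ℤ) (u a b : V) : ℤ := 2 * g - 1 - s u + (dot u a + dot u b)

def nn (m : ℤ) (u : V) : Bool :=
  decide (0 ≤ m) && decide (u.1 ≤ m) && decide (u.2.1 ≤ m) && decide (u.2.2 ≤ m)

def nv (m : ℤ) (u : V) : Fin 4 → ℤ := ![m, m - u.1, m - u.2.1, m - u.2.2]

def Con (n : Fin 4 → ℤ) : Prop :=
  ∃ k i i' : Fin 4, k ≠ i ∧ k ≠ i' ∧ i ≠ i' ∧ n k = 0 ∧ n i ≤ 1 ∧ n i' ≤ 1

instance (n : Fin 4 → ℤ) : Decidable (Con n) := by unfold Con; infer_instance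

def chk (a a' b0 b1 b2 : V) : Bool :=
  inF a a' b1 b2 || inF a a' b2 b0 || inF a a' b0 b1 ||
  !(nn (nz 2 (uv a a' b1 b2 b0) a b1) (uv a a' b1 b2 b0)) ||
  !(nn (nz 1 (uv a a' b2 b0 b1) a b2) (uv a a' b2 b0 b1)) ||
  !(nn (nz 1 (uv a a' b0 b1 b2) a b0) (uv a a' b0 b1 b2)) ||
  decide (Con (nv (nz 2 (uv a a' b1 b2 b0) a b1) (uv a a' b1 b2 b0)))

def all3 (a a' : V) (bs : List V) : Bool :=
  bs.all fun b0 => bs.all fun b1 => bs.all fun b2 =>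
    !(dot (cross (sub a' a) (sub b1 b0)) (sub b2 b0) == 1 ||
      dot (cross (sub a' a) (sub b1 b0)) (sub b2 b0) == -1) || chk a a' b0 b1 b2

def ALL : Bool := LA.all fun a => LA.all fun a' => all3 a a' (LB.filter fun b => cz a b && cz a' b)

end EN23

end Pool.Agent.R863.TG
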