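import Mathlib
import Pool.Agent.R863.TG.EN23a

/-! TG-EN23: soundness, part 1 (subtask 5968, helper55) -/

set_option autoImplicit false

namespace Pool.Agent.R863.TG

namespace EN23

def tv (a : Mon) : V := ((a 0 : ℤ), (a 1 : ℤ), (a 2 : ℤ))
def tu (u : Fin 3 → ℤ) : V := (u 0, u 1, u 2)

lemma pr_eq (u : Fin 3 → ℤ) (a : Mon) : pr u a = dot (tu u) (tv a) := by
  simp [pr, Fin.sum_univ_three, dot, tu, tv]

lemma dot_sub (u x y : V) : dot u (sub x y) = dot u x - dot u y := by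
  simp only [dot, sub]; ring

lemma mem_LA (a : Mon) (h : ∑ i, a i ≤ 2) : tv a ∈ LA := by
  rw [Fin.sum_univ_three] at h
  unfold tv
  generalize a 0 = x at *
  generalize a 1 = y at *
  generalize a 2 = z at *
  have hx : x ≤ 2 := by omega
  have hy : y ≤ 2 := by omega
  have hz : z ≤ 2 := by omega
  interval_cases x <;> interval_cases y <;> interval_cases z <;> first | omega | decide

lemma mem_LB (a : Mon) (h : ∑ i, a i ≤ 3) : tv a ∈ LB := by
  rw [Fin.sum_univ_three] at h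
  unfold tv
  generalize a 0 = x at *
  generalize a 1 = y at *
  generalize a 2 = z at *
  have hx : x ≤ 3 := by omega
  have hy : y ≤ 3 := by omega
  have hz : z ≤ 3 := by omega
  interval_cases x <;> interval_cases y <;> interval_cases z <;> first | omega | decide

lemma cz_of (a b : Mon) (h : ∃ i, hom 2 a i = 0 ∧ hom 3 b i = 0) : cz (tv a) (tv b) = true := by
  obtain ⟨i, h1, h2⟩ := h
  simp only [cz, tv, s, Bool.or_eq_true, Bool.and_eq_true, beq_iff_eq]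
  fin_cases i <;> simp [hom, Fin.sum_univ_three] at h1 h2 <;> omega

lemma inF_of (a a' b b' : Mon) (h : inF (tv a) (tv a') (tv b) (tv b') = true) :
    ∃ i : Fin 4, (hom 2 a i = 0 ∧ hom 2 a' i = 0) ∧ (hom 3 b i = 0 ∧ hom 3 b' i = 0) := by
  simp only [inF, tv, s, Bool.or_eq_true, Bool.and_eq_true, beq_iff_eq] at h
  rcases h with ((h | h) | h) | h
  · refine ⟨0, ?_⟩
    simp only [hom, Fin.sum_univ_three, Matrix.cons_val_zero]
    push_cast
    omega
  · refine ⟨1, ?_⟩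
    simp only [hom, Fin.sum_univ_three, Matrix.cons_val_one, Matrix.cons_val_zero]
    omega
  · refine ⟨2, ?_⟩
    simp only [hom, Fin.sum_univ_three, Matrix.cons_val]
    omega
  · refine ⟨3, ?_⟩
    simp only [hom, Fin.sum_univ_three, Matrix.cons_val]
    omega

lemma uv_eq (a a' b b' c u : V)
    (hd : dot (cross (sub a' a) (sub b' b)) (sub c b) *
      dot (cross (sub a' a) (sub b' b)) (sub c b) = 1)
    (h1 : dot u (sub a' a) = 0) (h2 : dot u (sub b' b) = 0) (h3 : dot u (sub c b) = -1) :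
    u = uv a a' b b' c := by
  unfold uv
  set p := sub a' a
  set q := sub b' b
  set r := sub c b
  obtain ⟨p1, p2, p3⟩ := p
  obtain ⟨q1, q2, q3⟩ := q
  obtain ⟨r1, r2, r3⟩ := r
  obtain ⟨u1, u2, u3⟩ := u
  simp only [dot, cross] at *
  refine Prod.ext ?_ (Prod.ext ?_ ?_)
  · simp only
    linear_combination (-u1) * hd + ((p2 * q3 - p3 * q2) * r1 + (p3 * q1 - p1 * q3) * r2 +
      (p1 * q2 - p2 * q1) * r3) * ((q2 * r3 - q3 * r2) * h1 + (r2 * p3 - r3 * p2) * h2 +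
      (p2 * q3 - p3 * q2) * h3)
  · simp only
    linear_combination (-u2) * hd + ((p2 * q3 - p3 * q2) * r1 + (p3 * q1 - p1 * q3) * r2 +
      (p1 * q2 - p2 * q1) * r3) * ((q3 * r1 - q1 * r3) * h1 + (r3 * p1 - r1 * p3) * h2 +
      (p3 * q1 - p1 * q3) * h3)
  · simp only
    linear_combination (-u3) * hd + ((p2 * q3 - p3 * q2) * r1 + (p3 * q1 - p1 * q3) * r2 +
      (p1 * q2 - p2 * q1) * r3) * ((q1 * r2 - q2 * r1) * h1 + (r1 * p2 - r2 * p1) * h2 +
      (p1 * q2 - p2 * q1) * h3)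

lemma cyc1 (a a' b0 b1 b2 : V) : dot (cross (sub a' a) (sub b2 b1)) (sub b0 b1) =
    dot (cross (sub a' a) (sub b1 b0)) (sub b2 b0) := by
  simp only [dot, cross, sub]; ring

lemma cyc2 (a a' b0 b1 b2 : V) : dot (cross (sub a' a) (sub b0 b2)) (sub b1 b2) =
    dot (cross (sub a' a) (sub b1 b0)) (sub b2 b0) := by
  simp only [dot, cross, sub]; ring

lemma core (hall : ALL = true) (a a' b0 b1 b2 u0 u1 u2 : V) (m0 m1 m2 : ℤ)
    (ha : a ∈ LA) (ha' : a' ∈ LA) (hb0 : b0 ∈ LB) (hb1 : b1 ∈ LB) (hb2 : b2 ∈ LB)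
    (c0 : cz a b0 = true ∧ cz a' b0 = true) (c1 : cz a b1 = true ∧ cz a' b1 = true)
    (c2 : cz a b2 = true ∧ cz a' b2 = true)
    (hD : dot (cross (sub a' a) (sub b1 b0)) (sub b2 b0) *
      dot (cross (sub a' a) (sub b1 b0)) (sub b2 b0) = 1)
    (f0 : ¬ inF a a' b1 b2 = true) (f1 : ¬ inF a a' b2 b0 = true) (f2 : ¬ inF a a' b0 b1 = true)
    (e0 : dot u0 (sub a' a) = 0 ∧ dot u0 (sub b2 b1) = 0 ∧ dot u0 (sub b0 b1) = -1)
    (e1 : dot u1 (sub a' a) = 0 ∧ dot u1 (sub b0 b2) = 0 ∧ dot u1 (sub b1 b2) = -1)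
    (e2 : dot u2 (sub a' a) = 0 ∧ dot u2 (sub b1 b0) = 0 ∧ dot u2 (sub b2 b0) = -1)
    (hm0 : m0 = nz 2 u0 a b1) (hm1 : m1 = nz 1 u1 a b2) (hm2 : m2 = nz 1 u2 a b0)
    (n0 : nn m0 u0 = true) (n1 : nn m1 u1 = true) (n2 : nn m2 u2 = true) : Con (nv m0 u0) := by
  have h0 : u0 = uv a a' b1 b2 b0 := uv_eq _ _ _ _ _ _ (by rw [cyc1]; exact hD) e0.1 e0.2.1 e0.2.2
  have h1 : u1 = uv a a' b2 b0 b1 := uv_eq _ _ _ _ _ _ (by rw [cyc2]; exact hD) e1.1 e1.2.1 e1.2.2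
  have h2 : u2 = uv a a' b0 b1 b2 := uv_eq _ _ _ _ _ _ hD e2.1 e2.2.1 e2.2.2
  unfold ALL at hall
  rw [List.all_eq_true] at hall
  have k1 := hall a ha
  rw [List.all_eq_true] at k1
  have k2 := k1 a' ha'
  unfold all3 at k2
  rw [List.all_eq_true] at k2
  have k3 := k2 b0 (List.mem_filter.2 ⟨hb0, by rw [c0.1, c0.2]; rfl⟩)
  rw [List.all_eq_true] at k3
  have k4 := k3 b1 (List.mem_filter.2 ⟨hb1, by rw [c1.1, c1.2]; rfl⟩)
  rw [List.all_eq_true] at k4
  have k5 := k4 b2 (List.mem_filter.2 ⟨hb2, by rw [c2.1, c2.2]; rfl⟩)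
  have hD' : dot (cross (sub a' a) (sub b1 b0)) (sub b2 b0) = 1 ∨
      dot (cross (sub a' a) (sub b1 b0)) (sub b2 b0) = -1 :=
    mul_self_eq_one_iff.1 hD
  have k6 : chk a a' b0 b1 b2 = true := by
    rcases hD' with hd | hd
    · rw [hd] at k5
      simpa using k5
    · rw [hd] at k5
      simpa using k5
  unfold chk at k6
  rw [← h0, ← h1, ← h2, ← hm0, ← hm1, ← hm2, n0, n1, n2] at k6
  simp only [Bool.or_eq_true, Bool.not_true, Bool.false_eq_true, or_false, decide_eq_true_eq] at k6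
  rcases k6 with ((k6 | k6) | k6) | k6
  · exact absurd k6 f0
  · exact absurd k6 f1
  · exact absurd k6 f2
  · exact k6

end EN23

end Pool.Agent.R863.TG
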