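import Mathlib
import Pool.Agent.R863.TG.EN23b

/-! TG-EN23: the determinant (subtask 5968, helper55) -/

set_option autoImplicit false

namespace Pool.Agent.R863.TG

namespace EN23

lemma det4 (x1 x2 x3 b1 b2 b3 c1 c2 c3 d1 d2 d3 : ℝ) :
    (!![0, 1, 1, 1; x1, b1, c1, d1; x2, b2, c2, d2; x3, b3, c3, d3] :
      Matrix (Fin 4) (Fin 4) ℝ).det =
      -(x1 * (c2 * d3 - c3 * d2) - c1 * (x2 * d3 - x3 * d2) + d1 * (x2 * c3 - x3 * c2))
      + (x1 * (b2 * d3 - b3 * d2) - b1 * (x2 * d3 - x3 * d2) + d1 * (x2 * b3 - x3 * b2))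
      - (x1 * (b2 * c3 - b3 * c2) - b1 * (x2 * c3 - x3 * c2) + c1 * (x2 * b3 - x3 * b2)) := by
  rw [Matrix.det_succ_row_zero, Fin.sum_univ_four]
  have e1 : (!![0, 1, 1, 1; x1, b1, c1, d1; x2, b2, c2, d2; x3, b3, c3, d3] :
      Matrix (Fin 4) (Fin 4) ℝ).submatrix Fin.succ (Fin.succAbove 1) =
      !![x1, c1, d1; x2, c2, d2; x3, c3, d3] := by
    ext i j; fin_cases i <;> fin_cases j <;> rfl
  have e2 : (!![0, 1, 1, 1; x1, b1, c1, d1; x2, b2, c2, d2; x3, b3, c3, d3] :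
      Matrix (Fin 4) (Fin 4) ℝ).submatrix Fin.succ (Fin.succAbove 2) =
      !![x1, b1, d1; x2, b2, d2; x3, b3, d3] := by
    ext i j; fin_cases i <;> fin_cases j <;> rfl
  have e3 : (!![0, 1, 1, 1; x1, b1, c1, d1; x2, b2, c2, d2; x3, b3, c3, d3] :
      Matrix (Fin 4) (Fin 4) ℝ).submatrix Fin.succ (Fin.succAbove 3) =
      !![x1, b1, c1; x2, b2, c2; x3, b3, c3] := by
    ext i j; fin_cases i <;> fin_cases j <;> rfl
  rw [e1, e2, e3]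
  have f0 : (!![0, 1, 1, 1; x1, b1, c1, d1; x2, b2, c2, d2; x3, b3, c3, d3] :
      Matrix (Fin 4) (Fin 4) ℝ) 0 0 = 0 := rfl
  have f1 : (!![0, 1, 1, 1; x1, b1, c1, d1; x2, b2, c2, d2; x3, b3, c3, d3] :
      Matrix (Fin 4) (Fin 4) ℝ) 0 1 = 1 := rfl
  have f2 : (!![0, 1, 1, 1; x1, b1, c1, d1; x2, b2, c2, d2; x3, b3, c3, d3] :
      Matrix (Fin 4) (Fin 4) ℝ) 0 2 = 1 := rfl
  have f3 : (!![0, 1, 1, 1; x1, b1, c1, d1; x2, b2, c2, d2; x3, b3, c3, d3] :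
      Matrix (Fin 4) (Fin 4) ℝ) 0 3 = 1 := rfl
  rw [f0, f1, f2, f3, mul_zero, zero_mul]
  simp only [Matrix.det_fin_three, Matrix.of_apply, Matrix.cons_val', Matrix.cons_val_zero, Matrix.cons_val_one,
    Matrix.cons_val, Fin.val_zero, Fin.val_one, Fin.val_two, mul_zero, zero_mul, zero_add]
  have g3 : ((3 : Fin 4) : ℕ) = 3 := rfl
  rw [g3]
  ring

lemma det5 (a1 a2 a3 a1' a2' a3' b1 b2 b3 c1 c2 c3 d1 d2 d3 : ℝ) :
    (!![1, 1, 0, 0, 0; 0, 0, 1, 1, 1; a1, a1', b1, c1, d1; a2, a2', b2, c2, d2;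
      a3, a3', b3, c3, d3] : Matrix (Fin 5) (Fin 5) ℝ).det =
      -(((a2' - a2) * (c3 - b3) - (a3' - a3) * (c2 - b2)) * (d1 - b1) +
       ((a3' - a3) * (c1 - b1) - (a1' - a1) * (c3 - b3)) * (d2 - b2) +
       ((a1' - a1) * (c2 - b2) - (a2' - a2) * (c1 - b1)) * (d3 - b3)) := by
  rw [Matrix.det_succ_row_zero, Fin.sum_univ_five]
  set M : Matrix (Fin 5) (Fin 5) ℝ := !![1, 1, 0, 0, 0; 0, 0, 1, 1, 1; a1, a1', b1, c1, d1;
    a2, a2', b2, c2, d2; a3, a3', b3, c3, d3] with hM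
  have e1 : M.submatrix Fin.succ (Fin.succAbove 0) =
      !![0, 1, 1, 1; a1', b1, c1, d1; a2', b2, c2, d2; a3', b3, c3, d3] := by
    ext i j; fin_cases i <;> fin_cases j <;> rfl
  have e2 : M.submatrix Fin.succ (Fin.succAbove 1) =
      !![0, 1, 1, 1; a1, b1, c1, d1; a2, b2, c2, d2; a3, b3, c3, d3] := by
    ext i j; fin_cases i <;> fin_cases j <;> rfl
  have f0 : M 0 0 = 1 := rfl
  have f1 : M 0 1 = 1 := rfl
  have f2 : M 0 2 = 0 := rfl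
  have f3 : M 0 3 = 0 := rfl
  have f4 : M 0 4 = 0 := rfl
  rw [e1, e2, f0, f1, f2, f3, f4, det4, det4]
  simp only [Fin.val_zero, Fin.val_one, mul_zero, zero_mul, add_zero]
  ring

end EN23

end Pool.Agent.R863.TG
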