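import Pool.Agent.R863.TG.EN32A

set_option autoImplicit false

/-!
TG-EN32 (helper760): the finite check for cells of type (3,2), soundness.
-/

namespace Pool.Agent.R863.TG

namespace EN32

theorem mem2 (x y z : ℕ) (h : x + y + z ≤ 2) : ((x, y, z) : T) ∈ l2 := by
  have hx : x ≤ 2 := by omega
  have hy : y ≤ 2 := by omega
  have hz : z ≤ 2 := by omega
  interval_cases x <;> interval_cases y <;> interval_cases z <;> first | omega | decide

theorem mem3 (x y z : ℕ) (h : x + y + z ≤ 3) : ((x, y, z) : T) ∈ l3 := by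
  have hx : x ≤ 3 := by omega
  have hy : y ≤ 3 := by omega
  have hz : z ≤ 3 := by omega
  interval_cases x <;> interval_cases y <;> interval_cases z <;> first | omega | decide

def tr (a : Mon) : T := (a 0, a 1, a 2)

theorem mem_l2 (a : Mon) (h : ∑ i, a i ≤ 2) : tr a ∈ l2 := by
  rw [Fin.sum_univ_three] at h
  exact mem2 _ _ _ h

theorem mem_l3 (a : Mon) (h : ∑ i, a i ≤ 3) : tr a ∈ l3 := by
  rw [Fin.sum_univ_three] at h
  exact mem3 _ _ _ h

theorem hom0 (d : ℕ) (a : Mon) : hom d a 0 = 0 ↔ h0 d (tr a) = true := by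
  simp only [hom, Matrix.cons_val_zero, h0, tr, beq_iff_eq, Fin.sum_univ_three]
  omega

theorem hom1 (d : ℕ) (a : Mon) : hom d a 1 = 0 ↔ a 0 = 0 := by
  simp [hom]

theorem hom2 (d : ℕ) (a : Mon) : hom d a 2 = 0 ↔ a 1 = 0 := by
  simp [hom]

theorem hom3 (d : ℕ) (a : Mon) : hom d a 3 = 0 ↔ a 2 = 0 := by
  simp [hom]

theorem cz_of (a b : Mon) (h : ∃ i, hom 2 a i = 0 ∧ hom 3 b i = 0) : cz (tr a) (tr b) = true := by
  obtain ⟨i, h1, h2⟩ := h
  unfold cz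
  fin_cases i
  · have h1 := (hom0 2 a).1 h1
    have h2 := (hom0 3 b).1 h2
    simp [h1, h2]
  · have h1 := (hom1 2 a).1 h1
    have h2 := (hom1 3 b).1 h2
    simp [tr, h1, h2]
  · have h1 := (hom2 2 a).1 h1
    have h2 := (hom2 3 b).1 h2
    simp [tr, h1, h2]
  · have h1 := (hom3 2 a).1 h1
    have h2 := (hom3 3 b).1 h2
    simp [tr, h1, h2]

theorem inF_false (p q b c : Mon)
    (h : ∀ i, ¬ (hom 2 p i = 0 ∧ hom 2 q i = 0 ∧ hom 3 b i = 0 ∧ hom 3 c i = 0)) :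
    inF (tr p) (tr q) (tr b) (tr c) = false := by
  by_contra hcon
  have hcon : inF (tr p) (tr q) (tr b) (tr c) = true := by simpa using hcon
  unfold inF at hcon
  simp only [Bool.or_eq_true, Bool.and_eq_true, beq_iff_eq] at hcon
  rcases hcon with ((⟨⟨⟨h1, h2⟩, h3⟩, h4⟩ | ⟨⟨⟨h1, h2⟩, h3⟩, h4⟩) | ⟨⟨⟨h1, h2⟩, h3⟩, h4⟩) |
    ⟨⟨⟨h1, h2⟩, h3⟩, h4⟩
  · exact h 0 ⟨(hom0 _ _).2 h1, (hom0 _ _).2 h2, (hom0 _ _).2 h3, (hom0 _ _).2 h4⟩
  · exact h 1 ⟨(hom1 _ _).2 h1, (hom1 _ _).2 h2, (hom1 _ _).2 h3, (hom1 _ _).2 h4⟩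
  · exact h 2 ⟨(hom2 _ _).2 h1, (hom2 _ _).2 h2, (hom2 _ _).2 h3, (hom2 _ _).2 h4⟩
  · exact h 3 ⟨(hom3 _ _).2 h1, (hom3 _ _).2 h2, (hom3 _ _).2 h3, (hom3 _ _).2 h4⟩

/-- the data of one tail -/
structure Face (r p q b c : Mon) (g : ℤ) (u : Fin 3 → ℤ) (n : Fin 4 → ℕ) : Prop where
  e1 : pr u p = pr u q
  e2 : pr u b = pr u c
  e3 : pr u r = pr u p - 1
  hn : ∀ i : Fin 3, u i = (n 0 : ℤ) - n i.succ
  hs : 2 * g - 1 + ∑ i, (n i : ℤ) = 5 * n 0 - pr u (p + b)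
  hF : ∀ i, ¬ (hom 2 p i = 0 ∧ hom 2 q i = 0 ∧ hom 3 b i = 0 ∧ hom 3 c i = 0)

/-- solving for the direction -/
theorem solve (u0 u1 u2 p0 p1 p2 q0 q1 q2 r0 r1 r2 b0 b1 b2 c0 c1 c2 D : ℤ)
    (hD : D = (r0 - p0) * ((p1 - q1) * (c2 - b2) - (p2 - q2) * (c1 - b1)) +
      (r1 - p1) * ((p2 - q2) * (c0 - b0) - (p0 - q0) * (c2 - b2)) +
      (r2 - p2) * ((p0 - q0) * (c1 - b1) - (p1 - q1) * (c0 - b0)))
    (hD1 : D * D = 1)
    (e1 : u0 * p0 + u1 * p1 + u2 * p2 = u0 * q0 + u1 * q1 + u2 * q2)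
    (e2 : u0 * b0 + u1 * b1 + u2 * b2 = u0 * c0 + u1 * c1 + u2 * c2)
    (e3 : u0 * r0 + u1 * r1 + u2 * r2 = u0 * p0 + u1 * p1 + u2 * p2 - 1) :
    u0 = -D * ((p1 - q1) * (c2 - b2) - (p2 - q2) * (c1 - b1)) ∧
    u1 = -D * ((p2 - q2) * (c0 - b0) - (p0 - q0) * (c2 - b2)) ∧
    u2 = -D * ((p0 - q0) * (c1 - b1) - (p1 - q1) * (c0 - b0)) := by
  have k0 : D * u0 = -((p1 - q1) * (c2 - b2) - (p2 - q2) * (c1 - b1)) := by
    rw [hD]
    linear_combination ((c1 - b1) * (r2 - p2) - (c2 - b2) * (r1 - p1)) * e1 -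
      ((r1 - p1) * (p2 - q2) - (r2 - p2) * (p1 - q1)) * e2 +
      ((p1 - q1) * (c2 - b2) - (p2 - q2) * (c1 - b1)) * e3
  have k1 : D * u1 = -((p2 - q2) * (c0 - b0) - (p0 - q0) * (c2 - b2)) := by
    rw [hD]
    linear_combination ((c2 - b2) * (r0 - p0) - (c0 - b0) * (r2 - p2)) * e1 -
      ((r2 - p2) * (p0 - q0) - (r0 - p0) * (p2 - q2)) * e2 +
      ((p2 - q2) * (c0 - b0) - (p0 - q0) * (c2 - b2)) * e3
  have k2 : D * u2 = -((p0 - q0) * (c1 - b1) - (p1 - q1) * (c0 - b0)) := by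
    rw [hD]
    linear_combination ((c0 - b0) * (r1 - p1) - (c1 - b1) * (r0 - p0)) * e1 -
      ((r0 - p0) * (p1 - q1) - (r1 - p1) * (p0 - q0)) * e2 +
      ((p0 - q0) * (c1 - b1) - (p1 - q1) * (c0 - b0)) * e3
  refine ⟨?_, ?_, ?_⟩
  · linear_combination D * k0 - u0 * hD1
  · linear_combination D * k1 - u1 * hD1
  · linear_combination D * k2 - u2 * hD1

theorem face {r p q b c : Mon} {g : ℤ} {u : Fin 3 → ℤ} {n : Fin 4 → ℕ}
    (h : Face r p q b c g u n)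
    (hD : dD (tr r) (tr p) (tr q) (tr b) (tr c) * dD (tr r) (tr p) (tr q) (tr b) (tr c) = 1) :
    ng g (tr r) (tr p) (tr q) (tr b) (tr c) = false ∧
    (n 0 : ℤ) = n0 g (tr r) (tr p) (tr q) (tr b) (tr c) ∧
    (n 1 : ℤ) = n0 g (tr r) (tr p) (tr q) (tr b) (tr c) - ux (tr r) (tr p) (tr q) (tr b) (tr c) ∧
    (n 2 : ℤ) = n0 g (tr r) (tr p) (tr q) (tr b) (tr c) - uy (tr r) (tr p) (tr q) (tr b) (tr c) ∧
    (n 3 : ℤ) = n0 g (tr r) (tr p) (tr q) (tr b) (tr c) - uz (tr r) (tr p) (tr q) (tr b) (tr c) := by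
  have e1 := h.e1
  have e2 := h.e2
  have e3 := h.e3
  have hs := h.hs
  have a0 := h.hn 0
  have a1 := h.hn 1
  have a2 := h.hn 2
  simp only [pr, Fin.sum_univ_three, Fin.sum_univ_four, Pi.add_apply, Nat.cast_add] at e1 e2 e3 hs
  have s0 : (Fin.succ 0 : Fin 4) = 1 := rfl
  have s1 : (Fin.succ 1 : Fin 4) = 2 := rfl
  have s2 : (Fin.succ 2 : Fin 4) = 3 := rfl
  rw [s0] at a0
  rw [s1] at a1
  rw [s2] at a2
  obtain ⟨k0, k1, k2⟩ := solve (u 0) (u 1) (u 2) (p 0) (p 1) (p 2) (q 0) (q 1) (q 2)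
    (r 0) (r 1) (r 2) (b 0) (b 1) (b 2) (c 0) (c 1) (c 2)
    (dD (tr r) (tr p) (tr q) (tr b) (tr c)) (by simp only [dD, wx, wy, wz, tr]) hD e1 e2 e3
  have x0 : u 0 = ux (tr r) (tr p) (tr q) (tr b) (tr c) := by
    rw [k0]; simp only [ux, wx, tr]
  have x1 : u 1 = uy (tr r) (tr p) (tr q) (tr b) (tr c) := by
    rw [k1]; simp only [uy, wy, tr]
  have x2 : u 2 = uz (tr r) (tr p) (tr q) (tr b) (tr c) := by
    rw [k2]; simp only [uz, wz, tr]
  have hn0 : (n 0 : ℤ) = n0 g (tr r) (tr p) (tr q) (tr b) (tr c) := by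
    unfold n0
    rw [← x0, ← x1, ← x2]
    simp only [tr]
    linear_combination (-1 : ℤ) * hs + a0 + a1 + a2
  refine ⟨?_, hn0, ?_, ?_, ?_⟩
  · unfold ng
    rw [← hn0, ← x0, ← x1, ← x2]
    simp only [Bool.or_eq_false_iff, decide_eq_false_iff_not, not_lt]
    refine ⟨⟨⟨?_, ?_⟩, ?_⟩, ?_⟩ <;> omega
  · rw [← hn0, ← x0]; omega
  · rw [← hn0, ← x1]; omega
  · rw [← hn0, ← x2]; omega

theorem two_spec {x y z : ℤ} (h : two x y z = true) :
    (x ≤ 1 ∧ y ≤ 1) ∨ (x ≤ 1 ∧ z ≤ 1) ∨ (y ≤ 1 ∧ z ≤ 1) := by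
  unfold two at h
  simp only [Bool.or_eq_true, Bool.and_eq_true, decide_eq_true_eq] at h
  tauto

theorem good_spec (n : Fin 4 → ℕ) (h : good (n 0) (n 1) (n 2) (n 3) = true) :
    ∃ k i i' : Fin 4, k ≠ i ∧ k ≠ i' ∧ i ≠ i' ∧ n k = 0 ∧ n i ≤ 1 ∧ n i' ≤ 1 := by
  unfold good at h
  simp only [Bool.or_eq_true, Bool.and_eq_true, decide_eq_true_eq] at h
  rcases h with ((⟨h1, h2⟩ | ⟨h1, h2⟩) | ⟨h1, h2⟩) | ⟨h1, h2⟩ <;>
    rcases two_spec h2 with ⟨h3, h4⟩ | ⟨h3, h4⟩ | ⟨h3, h4⟩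
  · exact ⟨0, 1, 2, by decide, by decide, by decide, by omega, by omega, by omega⟩
  · exact ⟨0, 1, 3, by decide, by decide, by decide, by omega, by omega, by omega⟩
  · exact ⟨0, 2, 3, by decide, by decide, by decide, by omega, by omega, by omega⟩
  · exact ⟨1, 0, 2, by decide, by decide, by decide, by omega, by omega, by omega⟩
  · exact ⟨1, 0, 3, by decide, by decide, by decide, by omega, by omega, by omega⟩
  · exact ⟨1, 2, 3, by decide, by decide, by decide, by omega, by omega, by omega⟩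
  · exact ⟨2, 0, 1, by decide, by decide, by decide, by omega, by omega, by omega⟩
  · exact ⟨2, 0, 3, by decide, by decide, by decide, by omega, by omega, by omega⟩
  · exact ⟨2, 1, 3, by decide, by decide, by decide, by omega, by omega, by omega⟩
  · exact ⟨3, 0, 1, by decide, by decide, by decide, by omega, by omega, by omega⟩
  · exact ⟨3, 0, 2, by decide, by decide, by decide, by omega, by omega, by omega⟩
  · exact ⟨3, 1, 2, by decide, by decide, by decide, by omega, by omega, by omega⟩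

/-- the check, as a statement -/
theorem core {a0 a1 a2 b c : Mon} {u0 u1 u2 : Fin 3 → ℤ} {n0' n1 n2 : Fin 4 → ℕ}
    (m0 : ∑ i, a0 i ≤ 2) (m1 : ∑ i, a1 i ≤ 2) (m2 : ∑ i, a2 i ≤ 2)
    (mb : ∑ i, b i ≤ 3) (mc : ∑ i, c i ≤ 3)
    (ra : rk (tr a1) < rk (tr a2)) (rb : rk (tr b) < rk (tr c))
    (z0 : cz (tr a0) (tr b) = true) (z1 : cz (tr a1) (tr b) = true) (z2 : cz (tr a2) (tr b) = true)
    (z3 : cz (tr a0) (tr c) = true) (z4 : cz (tr a1) (tr c) = true) (z5 : cz (tr a2) (tr c) = true)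
    (hD : dD (tr a0) (tr a1) (tr a2) (tr b) (tr c) * dD (tr a0) (tr a1) (tr a2) (tr b) (tr c) = 1)
    (f0 : Face a0 a1 a2 b c 2 u0 n0') (f1 : Face a1 a0 a2 b c 1 u1 n1)
    (f2 : Face a2 a0 a1 b c 1 u2 n2) :
    ∃ k i i' : Fin 4, k ≠ i ∧ k ≠ i' ∧ i ≠ i' ∧ n0' k = 0 ∧ n0' i ≤ 1 ∧ n0' i' ≤ 1 := by
  have h := chk0
  rw [List.all_eq_true] at h
  have h := h _ (mem_l2 a0 m0)
  unfold chk at h
  rw [List.all_eq_true] at h
  have h := h _ (mem_l2 a1 m1)
  rw [List.all_eq_true] at h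
  have h := h _ (mem_l2 a2 m2)
  have r1 : Nat.blt (rk (tr a1)) (rk (tr a2)) = true := by
    rw [Nat.blt_eq]; exact ra
  rw [r1, Bool.not_true, Bool.false_or, List.all_eq_true] at h
  have h := h _ (mem_l3 b mb)
  rw [z0, z1, z2, Bool.and_true, Bool.and_true, Bool.not_true, Bool.false_or, List.all_eq_true] at h
  have h := h _ (mem_l3 c mc)
  have r2 : Nat.blt (rk (tr b)) (rk (tr c)) = true := by
    rw [Nat.blt_eq]; exact rb
  rw [r2, z3, z4, z5, Bool.and_true, Bool.and_true, Bool.not_true, Bool.false_or,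
    Bool.false_or] at h
  have hD1 : dD (tr a1) (tr a0) (tr a2) (tr b) (tr c) * dD (tr a1) (tr a0) (tr a2) (tr b) (tr c) = 1 := by
    rw [← hD]
    simp only [dD, wx, wy, wz]
    ring
  have hD2 : dD (tr a2) (tr a0) (tr a1) (tr b) (tr c) * dD (tr a2) (tr a0) (tr a1) (tr b) (tr c) = 1 := by
    rw [← hD]
    simp only [dD, wx, wy, wz]
    ring
  obtain ⟨g0, k0, k1, k2, k3⟩ := face f0 hD
  obtain ⟨g1, -⟩ := face f1 hD1
  obtain ⟨g2, -⟩ := face f2 hD2
  unfold body at h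
  rw [inF_false a1 a2 b c f0.hF, inF_false a0 a2 b c f1.hF, inF_false a0 a1 b c f2.hF, g0, g1, g2,
    decide_eq_true hD, ← k0] at h
  simp only [Bool.not_true, Bool.false_or] at h
  rw [k0, ← k1, ← k2, ← k3, ← k0] at h
  exact good_spec n0' h

theorem rk_inj2 {a a' : Mon} (h : ∑ i, a i ≤ 2) (h' : ∑ i, a' i ≤ 2) (hne : a ≠ a') :
    rk (tr a) ≠ rk (tr a') := by
  intro hr
  apply hne
  rw [Fin.sum_univ_three] at h h'
  simp only [rk, tr] at hr
  have k0 : a 0 = a' 0 := by omega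
  have k1 : a 1 = a' 1 := by omega
  have k2 : a 2 = a' 2 := by omega
  funext i
  fin_cases i
  · exact k0
  · exact k1
  · exact k2

theorem rk_inj3 {a a' : Mon} (h : ∑ i, a i ≤ 3) (h' : ∑ i, a' i ≤ 3) (hne : a ≠ a') :
    rk (tr a) ≠ rk (tr a') := by
  intro hr
  apply hne
  rw [Fin.sum_univ_three] at h h'
  simp only [rk, tr] at hr
  have k0 : a 0 = a' 0 := by omega
  have k1 : a 1 = a' 1 := by omega
  have k2 : a 2 = a' 2 := by omega
  funext i
  fin_cases i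
  · exact k0
  · exact k1
  · exact k2

theorem mkFace {A B : Finset Mon} {F : Finset Mon × Finset Mon} {r p q b c : Mon} {g : ℤ}
    {u : Fin 3 → ℤ} {n : Fin 4 → ℕ} (hr : r ∈ A) (hrF : r ∉ F.1) (hp : p ∈ F.1) (hq : q ∈ F.1)
    (hb : b ∈ F.2) (hc : c ∈ F.2) (h1 : ∀ x ∈ F.1, x = p ∨ x = q) (h2 : ∀ x ∈ F.2, x = b ∨ x = c)
    (hnf : ∀ i, ¬ InFacet F i) (hdir : IsDir A B F u)
    (hu : ∀ i : Fin 3, u i = (n 0 : ℤ) - n i.succ)
    (hs : ∀ a ∈ F.1, ∀ b ∈ F.2, 2 * g - 1 + ∑ i, (n i : ℤ) = 5 * n 0 - pr u (a + b)) :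
    Face r p q b c g u n where
  e1 := hdir.1 p hp q hq
  e2 := hdir.2.1 b hb c hc
  e3 := hdir.2.2.1 p hp r hr hrF
  hn := hu
  hs := hs p hp b hb
  hF := by
    rintro i ⟨k1, k2, k3, k4⟩
    refine hnf i ⟨fun x hx => ?_, fun x hx => ?_⟩
    · rcases h1 x hx with rfl | rfl
      · exact k1
      · exact k2
    · rcases h2 x hx with rfl | rfl
      · exact k3
      · exact k4

theorem det5 (x0 y0 z0 x1 y1 z1 x2 y2 z2 X0 Y0 Z0 X1 Y1 Z1 : ℝ) :
    (Matrix.of ![![x0, y0, z0, 1, 0], ![x1, y1, z1, 1, 0], ![x2, y2, z2, 1, 0], ![X0, Y0, Z0, 0, 1],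
      ![X1, Y1, Z1, 0, 1]]).det ^ 2 =
    ((x0 - x1) * ((y1 - y2) * (Z1 - Z0) - (z1 - z2) * (Y1 - Y0)) +
      (y0 - y1) * ((z1 - z2) * (X1 - X0) - (x1 - x2) * (Z1 - Z0)) +
      (z0 - z1) * ((x1 - x2) * (Y1 - Y0) - (y1 - y2) * (X1 - X0))) ^ 2 := by
  simp [Matrix.det_succ_row_zero, Fin.sum_univ_succ, Fin.succAbove]
  ring

theorem detD {A B : Finset Mon} {a0 a1 a2 b c : Mon} (hcell : IsCell A B)
    (hA : A = {a0, a1, a2}) (hB : B = {b, c}) :
    dD (tr a0) (tr a1) (tr a2) (tr b) (tr c) * dD (tr a0) (tr a1) (tr a2) (tr b) (tr c) = 1 := by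
  obtain ⟨-, -, -, f, hf, hrange, hdet⟩ := hcell
  let f0 : Fin 5 → Bool × Mon := ![(false, a0), (false, a1), (false, a2), (true, b), (true, c)]
  have hmem : ∀ i, ∃ j, f0 j = f i := by
    intro i
    have h : f i ∈ Set.range f := ⟨i, rfl⟩
    rw [hrange] at h
    rcases h with ⟨h1, h2⟩ | ⟨h1, h2⟩
    · rw [hA] at h2
      simp only [Finset.mem_insert, Finset.mem_singleton] at h2
      rcases h2 with h2 | h2 | h2
      · exact ⟨0, Prod.ext h1.symm h2.symm⟩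
      · exact ⟨1, Prod.ext h1.symm h2.symm⟩
      · exact ⟨2, Prod.ext h1.symm h2.symm⟩
    · rw [hB] at h2
      simp only [Finset.mem_insert, Finset.mem_singleton] at h2
      rcases h2 with h2 | h2
      · exact ⟨3, Prod.ext h1.symm h2.symm⟩
      · exact ⟨4, Prod.ext h1.symm h2.symm⟩
  choose σ hσ using hmem
  have hσi : Function.Injective σ := by
    intro i j hij
    apply hf
    rw [← hσ i, ← hσ j, hij]
  let e : Equiv.Perm (Fin 5) := Equiv.ofBijective σ (Finite.injective_iff_bijective.1 hσi)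
  have hM : (Matrix.of fun i => cay (f i)) = (Matrix.of fun i => cay (f0 i)).submatrix e id := by
    ext i j
    simp only [Matrix.of_apply, Matrix.submatrix_apply, id]
    rw [show f0 (e i) = f i from hσ i]
  rw [hM, Matrix.det_permute] at hdet
  have h1 : (Matrix.of fun i => cay (f0 i)).det ^ 2 = 1 := by
    have hs : ((Equiv.Perm.sign e : ℤ) : ℝ) ^ 2 = 1 := by
      rcases Int.units_eq_one_or (Equiv.Perm.sign e) with h | h <;> rw [h] <;> norm_num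
    have h2 : (((Equiv.Perm.sign e : ℤ) : ℝ) * (Matrix.of fun i => cay (f0 i)).det) ^ 2 = 1 := by
      rw [← sq_abs, hdet, one_pow]
    rw [mul_pow, hs, one_mul] at h2
    exact h2
  have h3 : (Matrix.of fun i => cay (f0 i)) =
      Matrix.of ![![(a0 0 : ℝ), a0 1, a0 2, 1, 0], ![(a1 0 : ℝ), a1 1, a1 2, 1, 0],
        ![(a2 0 : ℝ), a2 1, a2 2, 1, 0], ![(b 0 : ℝ), b 1, b 2, 0, 1],
        ![(c 0 : ℝ), c 1, c 2, 0, 1]] := by
    ext i j
    fin_cases i <;> fin_cases j <;> simp [f0, cay]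
  rw [h3, det5] at h1
  have h4 : ((dD (tr a0) (tr a1) (tr a2) (tr b) (tr c) : ℤ) : ℝ) ^ 2 = 1 := by
    rw [← h1]
    simp only [dD, wx, wy, wz, tr]
    push_cast
    ring
  have h5 : (dD (tr a0) (tr a1) (tr a2) (tr b) (tr c)) ^ 2 = 1 := by exact_mod_cast h4
  rw [← h5, sq]

end EN32

open EN32 in
theorem t_EN32 : S_EN32 := by
  intro A B hcell hA3 hcz F u n g hFinj hFmem hnf hdir hu hs hg
  have hB2 : B.card = 2 := by
    rcases hcell.2.2.1 with h | h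
    · exact h.2
    · omega
  have hex : ∀ j, ∃ c ∈ A, (F j).1 = A.erase c ∧ (F j).2 = B := by
    intro j
    have h := hFmem j
    rw [Finset.mem_product, Finset.mem_powersetCard, Finset.mem_powersetCard] at h
    obtain ⟨⟨h1, h2⟩, h3, h4⟩ := h
    have h5 : (A \ (F j).1).card = 1 := by
      rw [Finset.card_sdiff_of_subset h1]
      omega
    obtain ⟨c, hc⟩ := Finset.card_eq_one.1 h5
    have hc' : c ∈ A \ (F j).1 := by rw [hc]; exact Finset.mem_singleton_self c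
    rw [Finset.mem_sdiff] at hc'
    refine ⟨c, hc'.1, ?_, Finset.eq_of_subset_of_card_le h3 (by omega)⟩
    apply Finset.eq_of_subset_of_card_le
    · intro x hx
      rw [Finset.mem_erase]
      refine ⟨?_, h1 hx⟩
      rintro rfl
      exact hc'.2 hx
    · rw [Finset.card_erase_of_mem hc'.1]
      omega
  choose cc hccA hcc1 hcc2 using hex
  have hccinj : Function.Injective cc := by
    intro i j hij
    apply hFinj
    apply Prod.ext
    · rw [hcc1 i, hcc1 j, hij]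
    · rw [hcc2 i, hcc2 j]
  obtain ⟨k, hgk, hgo⟩ := hg
  have key : ∀ (i i' : Fin 3) (b c : Mon), k ≠ i → k ≠ i' → i ≠ i' → B = {b, c} →
      rk (tr (cc i)) < rk (tr (cc i')) → rk (tr b) < rk (tr c) →
      ∃ j, 1 ≤ g j ∧ ∃ k i i' : Fin 4, k ≠ i ∧ k ≠ i' ∧ i ≠ i' ∧ n j k = 0 ∧ n j i ≤ 1 ∧
        n j i' ≤ 1 := by
    intro i i' b c hki hki' hii' hB ra rb
    refine ⟨k, by rw [hgk]; norm_num, ?_⟩
    have e0 : cc k ≠ cc i := fun h => hki (hccinj h)
    have e1 : cc k ≠ cc i' := fun h => hki' (hccinj h)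
    have e2 : cc i ≠ cc i' := fun h => hii' (hccinj h)
    have hA : A = {cc k, cc i, cc i'} := by
      symm
      apply Finset.eq_of_subset_of_card_le
      · intro x hx
        simp only [Finset.mem_insert, Finset.mem_singleton] at hx
        rcases hx with rfl | rfl | rfl
        · exact hccA k
        · exact hccA i
        · exact hccA i'
      · rw [hA3, Finset.card_eq_three.2 ⟨_, _, _, e0, e1, e2, rfl⟩]
    have hbB : b ∈ B := by rw [hB]; simp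
    have hcB : c ∈ B := by rw [hB]; simp
    have hB' : ∀ j, ∀ x ∈ (F j).2, x = b ∨ x = c := by
      intro j x hx
      rw [hcc2 j, hB] at hx
      simpa using hx
    have hmemF : ∀ j x, x ∈ (F j).1 ↔ x ≠ cc j ∧ (x = cc k ∨ x = cc i ∨ x = cc i') := by
      intro j x
      rw [hcc1 j, Finset.mem_erase]
      constructor
      · rintro ⟨h1, h2⟩
        rw [hA] at h2
        exact ⟨h1, by simpa using h2⟩
      · rintro ⟨h1, h2⟩
        refine ⟨h1, ?_⟩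
        rw [hA]
        simpa using h2
    have hgi : g i = 1 := hgo i (Ne.symm hki)
    have hgi' : g i' = 1 := hgo i' (Ne.symm hki')
    have F0 : Face (cc k) (cc i) (cc i') b c 2 (u k) (n k) :=
      mkFace (F := F k) (A := A) (B := B) (hccA k) (by rw [hmemF]; tauto) (by rw [hmemF]; tauto)
        (by rw [hmemF]; tauto) (by rw [hcc2]; exact hbB) (by rw [hcc2]; exact hcB)
        (by intro x hx; rw [hmemF] at hx; tauto) (hB' k) (hnf k) (hdir k) (hu k)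
        (by have := hs k; rw [hgk] at this; exact this)
    have F1 : Face (cc i) (cc k) (cc i') b c 1 (u i) (n i) :=
      mkFace (F := F i) (A := A) (B := B) (hccA i) (by rw [hmemF]; tauto) (by rw [hmemF]; tauto)
        (by rw [hmemF]; exact ⟨Ne.symm e2, by tauto⟩) (by rw [hcc2]; exact hbB)
        (by rw [hcc2]; exact hcB)
        (by intro x hx; rw [hmemF] at hx; tauto) (hB' i) (hnf i) (hdir i) (hu i)
        (by have := hs i; rw [hgi] at this; exact this)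
    have F2 : Face (cc i') (cc k) (cc i) b c 1 (u i') (n i') :=
      mkFace (F := F i') (A := A) (B := B) (hccA i') (by rw [hmemF]; tauto) (by rw [hmemF]; tauto)
        (by rw [hmemF]; tauto) (by rw [hcc2]; exact hbB) (by rw [hcc2]; exact hcB)
        (by intro x hx; rw [hmemF] at hx; tauto) (hB' i') (hnf i') (hdir i') (hu i')
        (by have := hs i'; rw [hgi'] at this; exact this)
    have hz : ∀ a ∈ A, ∀ b ∈ B, cz (tr a) (tr b) = true := fun a ha b hb =>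
      cz_of a b (hcz a ha b hb)
    exact core (hcell.1 _ (hccA k)) (hcell.1 _ (hccA i)) (hcell.1 _ (hccA i')) (hcell.2.1 _ hbB)
      (hcell.2.1 _ hcB) ra rb (hz _ (hccA k) _ hbB) (hz _ (hccA i) _ hbB) (hz _ (hccA i') _ hbB)
      (hz _ (hccA k) _ hcB) (hz _ (hccA i) _ hcB) (hz _ (hccA i') _ hcB) (detD hcell hA hB) F0 F1 F2
  obtain ⟨b, c, hbc, hB⟩ := Finset.card_eq_two.1 hB2
  have hbB : b ∈ B := by rw [hB]; simp
  have hcB : c ∈ B := by rw [hB]; simp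
  have hB' : B = {c, b} := by rw [hB, Finset.pair_comm]
  obtain ⟨i, i', hki, hki', hii'⟩ : ∃ i i' : Fin 3, k ≠ i ∧ k ≠ i' ∧ i ≠ i' := by
    fin_cases k
    · exact ⟨1, 2, by decide, by decide, by decide⟩
    · exact ⟨0, 2, by decide, by decide, by decide⟩
    · exact ⟨0, 1, by decide, by decide, by decide⟩
  have r1 := rk_inj2 (hcell.1 _ (hccA i)) (hcell.1 _ (hccA i')) (fun h => hii' (hccinj h))
  have r2 := rk_inj3 (hcell.2.1 _ hbB) (hcell.2.1 _ hcB) hbc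
  rcases lt_or_gt_of_ne r1 with h1 | h1 <;> rcases lt_or_gt_of_ne r2 with h2 | h2
  · exact key i i' b c hki hki' hii' hB h1 h2
  · exact key i i' c b hki hki' hii' hB' h1 h2
  · exact key i' i b c hki' hki (Ne.symm hii') hB h1 h2
  · exact key i' i c b hki' hki (Ne.symm hii') hB' h1 h2

end Pool.Agent.R863.TG
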