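import Pool.Agent.R863.TG.Stm

set_option autoImplicit false

/-!
TG-EN32 (helper760): the finite check for cells of type (3,2).
-/

namespace Pool.Agent.R863.TG

namespace EN32

/-- triples of natural numbers -/
abbrev T : Type := ℕ × ℕ × ℕ

def l2 : List T := [(0, 0, 0), (0, 0, 1), (0, 0, 2), (0, 1, 0), (0, 1, 1), (0, 2, 0), (1, 0, 0), (1, 0, 1), (1, 1, 0), (2, 0, 0)]

def l3 : List T := [(0, 0, 0), (0, 0, 1), (0, 0, 2), (0, 0, 3), (0, 1, 0), (0, 1, 1), (0, 1, 2),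
  (0, 2, 0), (0, 2, 1), (0, 3, 0), (1, 0, 0), (1, 0, 1), (1, 0, 2), (1, 1, 0),
  (1, 1, 1), (1, 2, 0), (2, 0, 0), (2, 0, 1), (2, 1, 0), (3, 0, 0)]

def rk (a : T) : ℕ := 100 * a.1 + 10 * a.2.1 + a.2.2

def h0 (d : ℕ) (a : T) : Bool := a.1 + a.2.1 + a.2.2 == d

def cz (a b : T) : Bool :=
  (h0 2 a && h0 3 b) || (a.1 == 0 && b.1 == 0) || (a.2.1 == 0 && b.2.1 == 0) ||
    (a.2.2 == 0 && b.2.2 == 0)

def inF (p q b c : T) : Bool :=
  (h0 2 p && h0 2 q && h0 3 b && h0 3 c) || (p.1 == 0 && q.1 == 0 && b.1 == 0 && c.1 == 0) ||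
    (p.2.1 == 0 && q.2.1 == 0 && b.2.1 == 0 && c.2.1 == 0) ||
    (p.2.2 == 0 && q.2.2 == 0 && b.2.2 == 0 && c.2.2 == 0)

/-- components of the cross product of `p - q` and `c - b` -/
def wx (p q b c : T) : ℤ :=
  ((p.2.1 : ℤ) - q.2.1) * ((c.2.2 : ℤ) - b.2.2) - ((p.2.2 : ℤ) - q.2.2) * ((c.2.1 : ℤ) - b.2.1)
def wy (p q b c : T) : ℤ :=
  ((p.2.2 : ℤ) - q.2.2) * ((c.1 : ℤ) - b.1) - ((p.1 : ℤ) - q.1) * ((c.2.2 : ℤ) - b.2.2)
def wz (p q b c : T) : ℤ :=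
  ((p.1 : ℤ) - q.1) * ((c.2.1 : ℤ) - b.2.1) - ((p.2.1 : ℤ) - q.2.1) * ((c.1 : ℤ) - b.1)

/-- the determinant; `r` is the omitted point -/
def dD (r p q b c : T) : ℤ :=
  ((r.1 : ℤ) - p.1) * wx p q b c + ((r.2.1 : ℤ) - p.2.1) * wy p q b c +
    ((r.2.2 : ℤ) - p.2.2) * wz p q b c

def ux (r p q b c : T) : ℤ := -(dD r p q b c) * wx p q b c
def uy (r p q b c : T) : ℤ := -(dD r p q b c) * wy p q b c
def uz (r p q b c : T) : ℤ := -(dD r p q b c) * wz p q b c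

def n0 (g : ℤ) (r p q b c : T) : ℤ :=
  2 * g - 1 + ux r p q b c * ((p.1 : ℤ) + b.1 - 1) + uy r p q b c * ((p.2.1 : ℤ) + b.2.1 - 1) +
    uz r p q b c * ((p.2.2 : ℤ) + b.2.2 - 1)

def two (x y z : ℤ) : Bool :=
  (decide (x ≤ 1) && decide (y ≤ 1)) || (decide (x ≤ 1) && decide (z ≤ 1)) ||
    (decide (y ≤ 1) && decide (z ≤ 1))

def good (a b c d : ℤ) : Bool :=
  (decide (a = 0) && two b c d) || (decide (b = 0) && two a c d) || (decide (c = 0) && two a b d) ||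
    (decide (d = 0) && two a b c)

def ng (g : ℤ) (r p q b c : T) : Bool :=
  decide (n0 g r p q b c < 0) || decide (n0 g r p q b c < ux r p q b c) ||
    decide (n0 g r p q b c < uy r p q b c) || decide (n0 g r p q b c < uz r p q b c)

def body (a0 a1 a2 b c : T) : Bool :=
  !(decide (dD a0 a1 a2 b c * dD a0 a1 a2 b c = 1)) || inF a1 a2 b c || inF a0 a2 b c || inF a0 a1 b c ||
    ng 2 a0 a1 a2 b c || ng 1 a1 a0 a2 b c || ng 1 a2 a0 a1 b c ||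
    good (n0 2 a0 a1 a2 b c) (n0 2 a0 a1 a2 b c - ux a0 a1 a2 b c)
      (n0 2 a0 a1 a2 b c - uy a0 a1 a2 b c) (n0 2 a0 a1 a2 b c - uz a0 a1 a2 b c)

def chk (a0 : T) : Bool :=
  l2.all fun a1 => l2.all fun a2 => !(Nat.blt (rk a1) (rk a2)) ||
    (l3.all fun b => !(cz a0 b && cz a1 b && cz a2 b) ||
      (l3.all fun c => !(Nat.blt (rk b) (rk c)) || !(cz a0 c && cz a1 c && cz a2 c) ||
        body a0 a1 a2 b c))

set_option maxRecDepth 100000 in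
theorem chk0 : l2.all (fun a0 => chk a0) = true := by decide +kernel


end EN32

end Pool.Agent.R863.TG
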