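import Pool.Agent.R863.TG.VC

/-!
# TG-FIN: there are finitely many vertices, and every vertex has at most three neighbours
-/

set_option autoImplicit false

namespace Pool.Agent.R863.TG

theorem FIN_val_eq {p : TPoly} {w : Pt} {a b : Mon} (ha : a ∈ p.top w) (hb : b ∈ p.top w) :
    p.val w a = p.val w b := by
  unfold TPoly.top at ha hb
  rw [Finset.mem_filter] at ha hb
  exact le_antisymm (hb.2 a ha.1) (ha.2 b hb.1)

theorem FIN_dot {p : TPoly} {w w' : Pt} {a b : Mon} (ha : a ∈ p.top w) (hb : b ∈ p.top w)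
    (ha' : a ∈ p.top w') (hb' : b ∈ p.top w') :
    ∑ i, (a i : ℝ) * (w i - w' i) = ∑ i, (b i : ℝ) * (w i - w' i) := by
  have h1 := FIN_val_eq ha hb
  have h2 := FIN_val_eq ha' hb'
  unfold TPoly.val at h1 h2
  simp only [mul_sub, Finset.sum_sub_distrib]
  linarith

/-- the cell determines the vertex -/
theorem FIN_inj {p q : TPoly} {w w' : Pt} (hw : IsVert p q w) (h1 : p.top w = p.top w')
    (h2 : q.top w = q.top w') : w = w' := by
  obtain ⟨a0, ha0⟩ : (p.top w).Nonempty := Finset.card_pos.1 (by have := hw.2.1; omega)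
  obtain ⟨b0, hb0⟩ : (q.top w).Nonempty := Finset.card_pos.1 (by have := hw.2.2; omega)
  set α : ℝ := ∑ i, (a0 i : ℝ) * (w i - w' i) with hα
  set β : ℝ := ∑ i, (b0 i : ℝ) * (w i - w' i) with hβ
  let P : Fin 5 → ((Fin 5 → ℝ) →ₗ[ℝ] ℝ) := fun i => LinearMap.proj i
  let ℓ : (Fin 5 → ℝ) →ₗ[ℝ] ℝ := (w 0 - w' 0) • P 0 + (w 1 - w' 1) • P 1 + (w 2 - w' 2) • P 2 -
    α • P 3 - β • P 4
  have hℓ : ∀ x : Fin 5 → ℝ, ℓ x = (w 0 - w' 0) * x 0 + (w 1 - w' 1) * x 1 +
      (w 2 - w' 2) * x 2 - α * x 3 - β * x 4 := fun x => rfl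
  have hker : Submodule.span ℝ (cay '' (cell p q w : Set (Bool × Mon))) ≤ LinearMap.ker ℓ := by
    rw [Submodule.span_le]
    rintro _ ⟨⟨s, a⟩, hx, rfl⟩
    rw [Finset.mem_coe, VC_mem_cell] at hx
    rw [SetLike.mem_coe, LinearMap.mem_ker, hℓ]
    rcases hx with ⟨h3, h4⟩ | ⟨h3, h4⟩
    · simp only at h3 h4
      subst h3
      have h5 := FIN_dot h4 ha0 (h1 ▸ h4) (h1 ▸ ha0)
      rw [← hα, Fin.sum_univ_three] at h5
      simp [cay]
      linarith
    · simp only at h3 h4
      subst h3
      have h5 := FIN_dot h4 hb0 (h2 ▸ h4) (h2 ▸ hb0)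
      rw [← hβ, Fin.sum_univ_three] at h5
      simp [cay]
      linarith
  have htop : ∀ x : Fin 5 → ℝ, ℓ x = 0 := by
    intro x
    have h3 : x ∈ Submodule.span ℝ (cay '' (cell p q w : Set (Bool × Mon))) := by
      have := hw.1
      unfold Full at this
      rw [this]
      trivial
    exact hker h3
  funext i
  have h0 := htop (Pi.single 0 1)
  have h1' := htop (Pi.single 1 1)
  have h2' := htop (Pi.single 2 1)
  rw [hℓ] at h0 h1' h2'
  simp at h0 h1' h2'
  fin_cases i
  · simpa using sub_eq_zero.1 h0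
  · simpa using sub_eq_zero.1 h1'
  · simpa using sub_eq_zero.1 h2'

theorem t_FIN (hVC : S_VC) (hNB : S_NB) : S_FIN := by
  classical
  intro p q hp hq hs
  refine ⟨?_, ?_, ?_⟩
  · have hfin : ((p.supp.powerset ×ˢ q.supp.powerset : Finset (Finset Mon × Finset Mon)) :
        Set (Finset Mon × Finset Mon)).Finite := Finset.finite_toSet _
    refine Set.Finite.of_finite_image (f := fun w => (p.top w, q.top w)) (hfin.subset ?_) ?_
    · rintro _ ⟨w, -, rfl⟩
      rw [Finset.mem_coe, Finset.mem_product, Finset.mem_powerset, Finset.mem_powerset]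
      exact ⟨fun a ha => VC_top_subset p w ha, fun a ha => VC_top_subset q w ha⟩
    · intro w hw w' hw' h
      have h1 := Prod.mk.inj h
      exact FIN_inj hw h1.1 h1.2
  · rintro w w' ⟨h1, h2, h3, h4, h5⟩
    refine ⟨h1.symm, h3, h2, ?_, ?_⟩
    · convert h4 using 2
      exact Finset.inter_comm _ _
    · convert h5 using 2
      exact Finset.inter_comm _ _
  · intro w
    by_cases hw : IsVert p q w
    · obtain ⟨hF, hN⟩ := hNB p q hp hq hs w hw
      have hc := (hVC p q hp hq hs w hw).2.2.1
      have h1 : {w' | Adj p q w w'}.ncard ≤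
          (((p.top w).powersetCard 2 ×ˢ (q.top w).powersetCard 2 :
            Finset (Finset Mon × Finset Mon)) : Set (Finset Mon × Finset Mon)).ncard := by
        refine Set.ncard_le_ncard_of_injOn
          (fun w' => ((p.top w).filter (fun a => a ∈ p.top w'),
            (q.top w).filter (fun a => a ∈ q.top w'))) ?_ ?_ (Finset.finite_toSet _)
        · intro w' hw'
          obtain ⟨F, hFm, hF1, hF2, -⟩ := hN w' hw'
          have e1 : F.1 = (p.top w).filter (fun a => a ∈ p.top w') := by
            ext a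
            rw [hF1, Finset.mem_filter]
          have e2 : F.2 = (q.top w).filter (fun a => a ∈ q.top w') := by
            ext a
            rw [hF2, Finset.mem_filter]
          rw [Finset.mem_coe, ← e1, ← e2]
          exact hFm
        · intro w' hw' w'' hw'' he
          obtain ⟨F, hFm, hF1, hF2, -⟩ := hN w' hw'
          have h2 := Prod.mk.inj he
          have s1 : F.1 ⊆ p.top w' := fun a ha => ((hF1 a).1 ha).2
          have s2 : F.2 ⊆ q.top w' := fun a ha => ((hF2 a).1 ha).2
          have s3 : F.1 ⊆ p.top w'' := by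
            intro a ha
            have h3 : a ∈ (p.top w).filter (fun a => a ∈ p.top w') :=
              Finset.mem_filter.2 ((hF1 a).1 ha)
            rw [h2.1] at h3
            exact (Finset.mem_filter.1 h3).2
          have s4 : F.2 ⊆ q.top w'' := by
            intro a ha
            have h3 : a ∈ (q.top w).filter (fun a => a ∈ q.top w') :=
              Finset.mem_filter.2 ((hF2 a).1 ha)
            rw [h2.2] at h3
            exact (Finset.mem_filter.1 h3).2
          rcases hF F hFm with ⟨-, h4⟩ | ⟨-, h4⟩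
          · exact absurd ⟨s1, s2⟩ (h4 w' hw')
          · exact h4.unique ⟨hw', s1, s2⟩ ⟨hw'', s3, s4⟩
      refine h1.trans ?_
      rw [Set.ncard_coe_finset, Finset.card_product, Finset.card_powersetCard,
        Finset.card_powersetCard]
      rcases hc with ⟨h2, h3⟩ | ⟨h2, h3⟩ <;> rw [h2, h3] <;> decide
    · have : {w' | Adj p q w w'} = ∅ := by
        ext w'
        constructor
        · intro h
          exact absurd h.2.1 hw
        · intro h
          exact absurd h (Set.notMem_empty _)
      rw [this, Set.ncard_empty]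
      exact Nat.zero_le _

end Pool.Agent.R863.TG
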