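import Mathlib
import Pool.Agent.R863.TG.F_EN23a
set_option autoImplicit false
namespace Pool.Agent.R863.TG.EN23
lemma row3 : (LA.all fun a' => all3 (LA.getD 3 (0,0,0)) a' (LB.filter fun b => cz (LA.getD 3 (0,0,0)) b && cz a' b)) = true := by
  decide +kernel
end Pool.Agent.R863.TG.EN23
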