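import Mathlib
import Pool.Agent.R863.TG.F_EN23d
import Pool.Agent.R863.TG.F_EN23r0
import Pool.Agent.R863.TG.F_EN23r1
import Pool.Agent.R863.TG.F_EN23r2
import Pool.Agent.R863.TG.F_EN23r3
import Pool.Agent.R863.TG.F_EN23r4
import Pool.Agent.R863.TG.F_EN23r5
import Pool.Agent.R863.TG.F_EN23r6
import Pool.Agent.R863.TG.F_EN23r7
import Pool.Agent.R863.TG.F_EN23r8
import Pool.Agent.R863.TG.F_EN23r9

/-! TG-EN23: the finite check for cells of type (2,3) (subtask 5968, helper55) -/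

set_option autoImplicit false

namespace Pool.Agent.R863.TG

namespace EN23

lemma det_sq (a a' b0 b1 b2 : Mon) (f : Fin 5 → Bool × Mon) (hf : Function.Injective f)
    (hr : ∀ i, ∃ j, (![(false, a), (false, a'), (true, b0), (true, b1), (true, b2)] :
      Fin 5 → Bool × Mon) j = f i)
    (hd : |(Matrix.of fun i => cay (f i)).det| = 1) :
    dot (cross (sub (tv a') (tv a)) (sub (tv b1) (tv b0))) (sub (tv b2) (tv b0)) *
      dot (cross (sub (tv a') (tv a)) (sub (tv b1) (tv b0))) (sub (tv b2) (tv b0)) = 1 := by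
  set p : Fin 5 → Bool × Mon := ![(false, a), (false, a'), (true, b0), (true, b1), (true, b2)]
    with hp
  choose σ hσ using hr
  have hσi : Function.Injective σ := fun i j h => hf (by rw [← hσ i, ← hσ j, h])
  let e : Equiv.Perm (Fin 5) := Equiv.ofBijective σ (Finite.injective_iff_bijective.1 hσi)
  have h1 : (Matrix.of fun i => cay (f i)) = (Matrix.of fun i => cay (p i)).submatrix e id := by
    ext i j
    simp only [Matrix.of_apply, Matrix.submatrix_apply, id]
    have : e i = σ i := rfl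
    rw [this, hσ]
  have h2 : (Matrix.of fun i => cay (p i)) =
      ((!![1, 1, 0, 0, 0; 0, 0, 1, 1, 1;
        (a 0 : ℝ), (a' 0 : ℝ), (b0 0 : ℝ), (b1 0 : ℝ), (b2 0 : ℝ);
        (a 1 : ℝ), (a' 1 : ℝ), (b0 1 : ℝ), (b1 1 : ℝ), (b2 1 : ℝ);
        (a 2 : ℝ), (a' 2 : ℝ), (b0 2 : ℝ), (b1 2 : ℝ), (b2 2 : ℝ)] :
        Matrix (Fin 5) (Fin 5) ℝ).submatrix (Equiv.addRight (2 : Fin 5)) id).transpose := by
    ext i j
    fin_cases i <;> fin_cases j <;> simp [cay, hp]
  rw [h1, Matrix.det_permute, h2, Matrix.det_transpose, Matrix.det_permute, det5] at hd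
  have h3 : (((((a' 1 : ℝ) - a 1) * ((b1 2 : ℝ) - b0 2) - ((a' 2 : ℝ) - a 2) * ((b1 1 : ℝ) - b0 1)) *
      ((b2 0 : ℝ) - b0 0) + (((a' 2 : ℝ) - a 2) * ((b1 0 : ℝ) - b0 0) -
      ((a' 0 : ℝ) - a 0) * ((b1 2 : ℝ) - b0 2)) * ((b2 1 : ℝ) - b0 1) +
      (((a' 0 : ℝ) - a 0) * ((b1 1 : ℝ) - b0 1) - ((a' 1 : ℝ) - a 1) * ((b1 0 : ℝ) - b0 0)) *
      ((b2 2 : ℝ) - b0 2))) ^ 2 = 1 := by
    rcases Int.units_eq_one_or (Equiv.Perm.sign e) with s1 | s1 <;>
    rcases Int.units_eq_one_or (Equiv.Perm.sign (Equiv.addRight (2 : Fin 5))) with s2 | s2 <;>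
    · rw [s1, s2] at hd
      simp only [Units.val_one, Int.cast_one, one_mul, Units.val_neg, Int.cast_neg, neg_mul,
        neg_neg, abs_neg] at hd
      rw [← sq_abs, hd, one_pow]
  have h4 : ((dot (cross (sub (tv a') (tv a)) (sub (tv b1) (tv b0))) (sub (tv b2) (tv b0)) : ℤ) : ℝ)
      ^ 2 = 1 := by
    rw [← h3]
    simp only [dot, cross, sub, tv]
    push_cast
    ring
  have h5 : (dot (cross (sub (tv a') (tv a)) (sub (tv b1) (tv b0))) (sub (tv b2) (tv b0))) ^ 2 = 1 := by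
    exact_mod_cast h4
  rw [← sq]
  exact h5

end EN23

open EN23

/-- TG-EN23, from the kernel check -/
theorem t_EN23' (hall : ALL = true) : S_EN23 := by
  intro A B hcell hA hcz F u n g hFinj hFmem hnF hdir hn hsum ⟨k, hk2, hk1⟩
  classical
  refine ⟨k, by omega, ?_⟩
  obtain ⟨hdA, hdB, hcard, f, hfinj, hfr, hfd⟩ := hcell
  have hB : B.card = 3 := by
    rcases hcard with h | h
    · omega
    · exact h.2
  obtain ⟨a, a', haa, hAe⟩ := Finset.card_eq_two.1 hA
  have hF1 : ∀ j, (F j).1 = A := by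
    intro j
    have h := (Finset.mem_product.1 (hFmem j)).1
    rw [Finset.mem_powersetCard] at h
    exact Finset.eq_of_subset_of_card_le h.1 (by rw [h.2, hA])
  have hF2 : ∀ j, ∃ c ∈ B, (F j).2 = B.erase c := by
    intro j
    have h := (Finset.mem_product.1 (hFmem j)).2
    rw [Finset.mem_powersetCard] at h
    have h1 : (B \ (F j).2).card = 1 := by
      rw [Finset.card_sdiff_of_subset h.1, h.2, hB]
    obtain ⟨c, hc⟩ := Finset.card_eq_one.1 h1
    have hcm : c ∈ B \ (F j).2 := by rw [hc]; exact Finset.mem_singleton_self c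
    refine ⟨c, (Finset.mem_sdiff.1 hcm).1, ?_⟩
    rw [Finset.erase_eq, ← hc, Finset.sdiff_sdiff_eq_self h.1]
  choose c hcB hc using hF2
  have hcinj : Function.Injective c := by
    intro i j hij
    apply hFinj
    apply Prod.ext
    · rw [hF1, hF1]
    · rw [hc, hc, hij]
  have hk01 : ∀ k : Fin 3, k ≠ k + 1 := by decide
  have hk12 : ∀ k : Fin 3, k + 1 ≠ k + 2 := by decide
  have hk02 : ∀ k : Fin 3, k ≠ k + 2 := by decide
  have h01 : c k ≠ c (k + 1) := fun h => hk01 k (hcinj h)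
  have h12 : c (k + 1) ≠ c (k + 2) := fun h => hk12 k (hcinj h)
  have h02 : c k ≠ c (k + 2) := fun h => hk02 k (hcinj h)
  have hBe : ({c k, c (k + 1), c (k + 2)} : Finset Mon) = B := by
    apply Finset.eq_of_subset_of_card_le
    · intro x hx
      simp only [Finset.mem_insert, Finset.mem_singleton] at hx
      rcases hx with rfl | rfl | rfl <;> exact hcB _
    · rw [hB, Finset.card_eq_three.2 ⟨c k, c (k + 1), c (k + 2), h01, h02, h12, rfl⟩]
  have haA : a ∈ A := by rw [hAe]; simp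
  have ha'A : a' ∈ A := by rw [hAe]; simp
  -- the determinant
  have hD := det_sq a a' (c k) (c (k + 1)) (c (k + 2)) f hfinj (by
    intro i
    have hi : f i ∈ Set.range f := ⟨i, rfl⟩
    rw [hfr] at hi
    rcases hi with ⟨h1, h2⟩ | ⟨h1, h2⟩
    · rw [hAe, Finset.mem_insert, Finset.mem_singleton] at h2
      rcases h2 with h2 | h2
      · exact ⟨0, Prod.ext h1.symm h2.symm⟩
      · exact ⟨1, Prod.ext h1.symm h2.symm⟩
    · rw [← hBe, Finset.mem_insert, Finset.mem_insert, Finset.mem_singleton] at h2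
      rcases h2 with h2 | h2 | h2
      · exact ⟨2, Prod.ext h1.symm h2.symm⟩
      · exact ⟨3, Prod.ext h1.symm h2.symm⟩
      · exact ⟨4, Prod.ext h1.symm h2.symm⟩) hfd
  -- directions
  have hdd : ∀ j : Fin 3, ∀ x ∈ B, ∀ y ∈ B, x ≠ c j → y ≠ c j →
      dot (tu (u j)) (sub (tv a') (tv a)) = 0 ∧ dot (tu (u j)) (sub (tv y) (tv x)) = 0 ∧
      dot (tu (u j)) (sub (tv (c j)) (tv x)) = -1 := by
    intro j x hx y hy hxc hyc
    obtain ⟨d1, d2, d3, d4⟩ := hdir j
    rw [hF1] at d1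
    rw [hc] at d2 d4
    have q1 := d1 a' ha'A a haA
    have q2 := d2 y (Finset.mem_erase.2 ⟨hyc, hy⟩) x (Finset.mem_erase.2 ⟨hxc, hx⟩)
    have q3 := d4 x (Finset.mem_erase.2 ⟨hxc, hx⟩) (c j) (hcB j) (Finset.notMem_erase _ _)
    rw [pr_eq, pr_eq] at q1 q2 q3
    rw [dot_sub, dot_sub, dot_sub]
    refine ⟨by linarith, by linarith, by linarith⟩
  have hczz : ∀ b ∈ B, cz (tv a) (tv b) = true ∧ cz (tv a') (tv b) = true := fun b hb =>
    ⟨cz_of a b (hcz a haA b hb), cz_of a' b (hcz a' ha'A b hb)⟩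
  have hinf : ∀ j : Fin 3, ∀ x y : Mon, (∀ z ∈ B, z ≠ c j → z = x ∨ z = y) →
      ¬ inF (tv a) (tv a') (tv x) (tv y) = true := by
    intro j x y hxy h
    obtain ⟨i, h1, h2⟩ := inF_of a a' x y h
    apply hnF j i
    refine ⟨fun z hz => ?_, fun z hz => ?_⟩
    · rw [hF1, hAe, Finset.mem_insert, Finset.mem_singleton] at hz
      rcases hz with rfl | rfl
      · exact h1.1
      · exact h1.2
    · rw [hc, Finset.mem_erase] at hz
      rcases hxy z hz.2 hz.1 with rfl | rfl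
      · exact h2.1
      · exact h2.2
  have hmB : ∀ z ∈ B, z = c k ∨ z = c (k + 1) ∨ z = c (k + 2) := by
    intro z hz
    rw [← hBe, Finset.mem_insert, Finset.mem_insert, Finset.mem_singleton] at hz
    exact hz
  -- the numbers
  have hm : ∀ j : Fin 3, ∀ x ∈ B, x ≠ c j →
      (n j 0 : ℤ) = nz (g j) (tu (u j)) (tv a) (tv x) ∧ nn (n j 0 : ℤ) (tu (u j)) = true := by
    intro j x hx hxc
    have q1 := hsum j a (by rw [hF1]; exact haA) x (by rw [hc]; exact Finset.mem_erase.2 ⟨hxc, hx⟩)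
    have q2 := hn j 0
    have q3 := hn j 1
    have q4 := hn j 2
    have e2 : (Fin.succ (0 : Fin 3) : Fin 4) = 1 := rfl
    have e3 : (Fin.succ (1 : Fin 3) : Fin 4) = 2 := rfl
    have e4 : (Fin.succ (2 : Fin 3) : Fin 4) = 3 := rfl
    rw [e2] at q2
    rw [e3] at q3
    rw [e4] at q4
    rw [Fin.sum_univ_four] at q1
    have q5 : pr (u j) (a + x) = dot (tu (u j)) (tv a) + dot (tu (u j)) (tv x) := by
      rw [← pr_eq, ← pr_eq]
      simp only [pr, Fin.sum_univ_three, Pi.add_apply]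
      push_cast
      ring
    rw [q5] at q1
    constructor
    · simp only [nz, s, tu] at *
      linarith
    · have w1 : (0 : ℤ) ≤ (n j 0 : ℤ) := by positivity
      have w2 : (tu (u j)).1 ≤ (n j 0 : ℤ) := by
        show u j 0 ≤ _
        have : (0 : ℤ) ≤ (n j 1 : ℤ) := by positivity
        linarith
      have w3 : (tu (u j)).2.1 ≤ (n j 0 : ℤ) := by
        show u j 1 ≤ _
        have : (0 : ℤ) ≤ (n j 2 : ℤ) := by positivity
        linarith
      have w4 : (tu (u j)).2.2 ≤ (n j 0 : ℤ) := by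
        show u j 2 ≤ _
        have : (0 : ℤ) ≤ (n j 3 : ℤ) := by positivity
        linarith
      unfold nn
      rw [decide_eq_true w1, decide_eq_true w2, decide_eq_true w3, decide_eq_true w4]
      rfl
  have r0 := hm k (c (k + 1)) (hcB _) h01.symm
  have r1 := hm (k + 1) (c (k + 2)) (hcB _) h12.symm
  have r2 := hm (k + 2) (c k) (hcB _) h02
  rw [hk2] at r0
  rw [hk1 (k + 1) (hk01 k).symm] at r1
  rw [hk1 (k + 2) (hk02 k).symm] at r2
  have final := core hall (tv a) (tv a') (tv (c k)) (tv (c (k + 1))) (tv (c (k + 2)))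
    (tu (u k)) (tu (u (k + 1))) (tu (u (k + 2))) (n k 0) (n (k + 1) 0) (n (k + 2) 0)
    (mem_LA a (hdA a haA)) (mem_LA a' (hdA a' ha'A)) (mem_LB _ (hdB _ (hcB _)))
    (mem_LB _ (hdB _ (hcB _))) (mem_LB _ (hdB _ (hcB _))) (hczz _ (hcB _)) (hczz _ (hcB _))
    (hczz _ (hcB _)) hD
    (hinf k _ _ (fun z hz hzc => by
      rcases hmB z hz with h | h | h
      · exact absurd h hzc
      · exact Or.inl h
      · exact Or.inr h))
    (hinf (k + 1) _ _ (fun z hz hzc => by
      rcases hmB z hz with h | h | h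
      · exact Or.inr h
      · exact absurd h hzc
      · exact Or.inl h))
    (hinf (k + 2) _ _ (fun z hz hzc => by
      rcases hmB z hz with h | h | h
      · exact Or.inl h
      · exact Or.inr h
      · exact absurd h hzc))
    (hdd k _ (hcB _) _ (hcB _) h01.symm h02.symm)
    (hdd (k + 1) _ (hcB _) _ (hcB _) h12.symm h01)
    (hdd (k + 2) _ (hcB _) _ (hcB _) h02 h12)
    r0.1 r1.1 r2.1 r0.2 r1.2 r2.2
  have hnv : ∀ i : Fin 4, nv (n k 0 : ℤ) (tu (u k)) i = (n k i : ℤ) := by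
    have q2 := hn k 0
    have q3 := hn k 1
    have q4 := hn k 2
    intro i
    fin_cases i
    · rfl
    · show (n k 0 : ℤ) - u k 0 = (n k 1 : ℤ)
      rw [q2]; simp
    · show (n k 0 : ℤ) - u k 1 = (n k 2 : ℤ)
      rw [q3]; simp
    · show (n k 0 : ℤ) - u k 2 = (n k 3 : ℤ)
      rw [q4]; simp
  obtain ⟨x, i, i', hxi, hxi', hii, w1, w2, w3⟩ := final
  rw [hnv] at w1 w2 w3
  exact ⟨x, i, i', hxi, hxi', hii, by exact_mod_cast w1, by exact_mod_cast w2, by exact_mod_cast w3⟩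

lemma EN23.all_true : ALL = true := by
  unfold ALL
  rw [List.all_eq_true]
  intro a ha
  simp only [LA, List.mem_cons, List.not_mem_nil, or_false] at ha
  rcases ha with rfl | rfl | rfl | rfl | rfl | rfl | rfl | rfl | rfl | rfl
  · exact row0
  · exact row1
  · exact row2
  · exact row3
  · exact row4
  · exact row5
  · exact row6
  · exact row7
  · exact row8
  · exact row9

/-- TG-EN23 -/
theorem t_EN23 : S_EN23 := t_EN23' EN23.all_true

end Pool.Agent.R863.TG
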