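import Pool.Agent.R863.TG.Stm

/-! TG-GR4: counting in a tail (second copy). -/

set_option autoImplicit false

namespace Pool.Agent.R863.TG

namespace GR4b

open Relation Finset

variable {α : Type}

open Classical in
/-- number of neighbours in `S` -/
noncomputable def dg (R : α → α → Prop) (S : Finset α) (y : α) : ℕ := (S.filter (fun z => R y z)).card

open Classical in
lemma m2_eq (R : α → α → Prop) (S : Finset α) : m2 R S = ∑ y ∈ S, dg R S y := by
  unfold m2 dg
  rw [Finset.card_filter, Finset.sum_product]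
  refine Finset.sum_congr rfl fun y _ => ?_
  rw [Finset.card_filter]

open Classical in
lemma dg_insert (R : α → α → Prop) (S : Finset α) (a y : α) (ha : a ∉ S) :
    dg R (insert a S) y = dg R S y + if R y a then 1 else 0 := by
  unfold dg
  rw [Finset.filter_insert]
  split_ifs with h
  · rw [Finset.card_insert_of_notMem]
    rw [Finset.mem_filter]
    exact fun hh => ha hh.1
  · rfl

open Classical in
lemma m2_insert {R : α → α → Prop} (hR : Gph R) (S : Finset α) (a : α) (ha : a ∉ S) :
    m2 R (insert a S) = m2 R S + 2 * dg R S a := by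
  rw [m2_eq, m2_eq, Finset.sum_insert ha]
  have h1 : ∀ y ∈ S, dg R (insert a S) y = dg R S y + if R y a then 1 else 0 :=
    fun y _ => dg_insert R S a y ha
  rw [Finset.sum_congr rfl h1, Finset.sum_add_distrib, dg_insert R S a a ha,
    if_neg (hR.irrefl a)]
  have h2 : (∑ y ∈ S, if R y a then 1 else 0) = dg R S a := by
    unfold dg
    rw [Finset.card_filter]
    refine Finset.sum_congr rfl fun y _ => ?_
    by_cases h : R y a
    · rw [if_pos h, if_pos (hR.symm _ _ h)]
    · rw [if_neg h, if_neg (fun h' => h (hR.symm _ _ h'))]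
  rw [h2]
  ring

lemma core_nb {R : α → α → Prop} {y : α} (hy : y ∈ Core R) :
    ∃ a ∈ Core R, ∃ b ∈ Core R, a ≠ b ∧ R y a ∧ R y b := by
  obtain ⟨U, hyU, hU⟩ := hy
  obtain ⟨a, ha, b, hb, hab, h1, h2⟩ := hU y hyU
  exact ⟨a, ⟨U, ha, hU⟩, b, ⟨U, hb, hU⟩, hab, h1, h2⟩

open Classical in
/-- pruning -/
lemma prune {R : α → α → Prop} (hR : Gph R) (C U : Finset α) (hC : ∀ y, y ∈ C ↔ y ∈ U ∧ y ∈ Core R) :
    ∀ (n : ℕ) (S : Finset α), S.card = n → C ⊆ S → S ⊆ U →
      (m2 R S : ℤ) - 2 * S.card ≤ (m2 R C : ℤ) - 2 * C.card := by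
  intro n
  induction n with
  | zero =>
    intro S hn hCS hSU
    have : S = ∅ := Finset.card_eq_zero.1 hn
    subst this
    have : C = ∅ := Finset.subset_empty.1 hCS
    subst this
    exact le_refl _
  | succ n ih =>
    intro S hn hCS hSU
    by_cases hSC : S ⊆ C
    · rw [Finset.Subset.antisymm hSC hCS]
    · -- find a bad vertex
      obtain ⟨y, hyS, hyC, hyd⟩ : ∃ y ∈ S, y ∉ C ∧ dg R S y ≤ 1 := by
        by_contra hcon
        push Not at hcon
        apply hSC
        intro y hyS
        rw [hC]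
        refine ⟨hSU hyS, ⟨(S : Set α) ∪ Core R, Or.inl hyS, ?_⟩⟩
        intro u hu
        by_cases huC : u ∈ Core R
        · obtain ⟨a, ha, b, hb, hab, h1, h2⟩ := core_nb huC
          exact ⟨a, Or.inr ha, b, Or.inr hb, hab, h1, h2⟩
        · rcases hu with hu | hu
          · have huC' : u ∉ C := fun h => huC ((hC u).1 h).2
            have h2 := hcon u hu huC'
            unfold dg at h2
            rw [Finset.one_lt_card] at h2
            obtain ⟨a, ha, b, hb, hab⟩ := h2
            rw [Finset.mem_filter] at ha hb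
            exact ⟨a, Or.inl ha.1, b, Or.inl hb.1, hab, ha.2, hb.2⟩
          · exact absurd hu huC
      have h1 := m2_insert hR (S.erase y) y (Finset.notMem_erase y S)
      rw [Finset.insert_erase hyS] at h1
      have h2 : dg R (S.erase y) y ≤ 1 := by
        refine le_trans (Finset.card_le_card ?_) hyd
        exact Finset.filter_subset_filter _ (Finset.erase_subset _ _)
      have hc := Finset.card_erase_of_mem hyS
      have h3 := ih (S.erase y) (by rw [hc, hn]; rfl)
        (fun z hz => Finset.mem_erase.2 ⟨fun h => hyC (h ▸ hz), hCS hz⟩)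
        ((Finset.erase_subset _ _).trans hSU)
      have h4 : S.card = (S.erase y).card + 1 := by
        rw [hc]; have := Finset.card_pos.2 ⟨y, hyS⟩; omega
      rw [h1, h4]
      push_cast
      have h2' : (dg R (S.erase y) y : ℤ) ≤ 1 := by exact_mod_cast h2
      linarith

/-- a path from `S` to the outside has a first step leaving `S` -/
lemma leave {R : α → α → Prop} {v x y : α} (S : Finset α) (hx : x ∈ S) (hy : y ∉ S)
    (h : Con R v x y) : ∃ s ∈ S, ∃ t, t ∉ S ∧ R s t ∧ t ≠ v := by
  unfold Con at h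
  by_contra hcon
  push Not at hcon
  have key : ∀ z, ReflTransGen (fun s t => R s t ∧ s ≠ v ∧ t ≠ v) x z → z ∈ S := by
    intro z hz
    induction hz with
    | refl => exact hx
    | tail h1 h2 ih =>
      by_contra hc
      exact h2.2.2 (hcon _ ih _ hc h2.1)
  exact hy (key y h)

open Classical in
/-- growing -/
lemma grow {R : α → α → Prop} (hR : Gph R) (U : Finset α) (v x : α) (hT : Tail R U v x)
    (hcon : ∀ y ∈ U, Con R v x y) :
    ∀ (n : ℕ) (S : Finset α), (U \ S).card = n → x ∈ S → S ⊆ U →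
      (m2 R S : ℤ) - 2 * S.card ≤ (m2 R U : ℤ) - 2 * U.card := by
  intro n
  induction n with
  | zero =>
    intro S hn hxS hSU
    have : U \ S = ∅ := Finset.card_eq_zero.1 hn
    have : U ⊆ S := Finset.sdiff_eq_empty_iff_subset.1 this
    rw [Finset.Subset.antisymm this hSU]
  | succ n ih =>
    intro S hn hxS hSU
    obtain ⟨y, hy⟩ : (U \ S).Nonempty := Finset.card_pos.1 (by omega)
    rw [Finset.mem_sdiff] at hy
    obtain ⟨s, hs, t, ht, hst, htv⟩ := leave S hxS hy.2 (hcon y hy.1)
    have htU : t ∈ U := by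
      rcases hT.2.2.2 s (hSU hs) t hst with h | h
      · exact h
      · exact absurd h.2 htv
    have h1 := m2_insert hR S t ht
    have h2 : 1 ≤ dg R S t := by
      unfold dg
      rw [Nat.one_le_iff_ne_zero, Finset.card_ne_zero]
      exact ⟨s, Finset.mem_filter.2 ⟨hs, hR.symm _ _ hst⟩⟩
    have h3 := ih (insert t S) (by
      rw [Finset.sdiff_insert, Finset.card_erase_of_mem (Finset.mem_sdiff.2 ⟨htU, ht⟩), hn]; rfl)
      (Finset.mem_insert_of_mem hxS) (Finset.insert_subset htU hSU)
    rw [h1, Finset.card_insert_of_notMem ht] at h3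
    push_cast at h3
    have h2' : (1 : ℤ) ≤ dg R S t := by exact_mod_cast h2
    linarith

end GR4b

open GR4b in
theorem t_GR4 : S_GR4 := by
  classical
  intro α R U v x hR hT hv hx hcon
  set C : Finset α := U.filter (fun y => y ∈ Core R) with hCdef
  have hC : ∀ y, y ∈ C ↔ y ∈ U ∧ y ∈ Core R := fun y => Finset.mem_filter
  have hxC : x ∈ C := (hC x).2 ⟨hT.2.1, hx⟩
  have hCU : C ⊆ U := Finset.filter_subset _ _
  have hvC : v ∉ C := fun h => hT.1 (hCU h)
  have e1 := prune hR C U hC U.card U rfl hCU (Finset.Subset.refl _)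
  have e2 := grow hR U v x hT hcon (U \ C).card C rfl hxC hCU
  -- degrees in the core
  have hcd : ∀ y ∈ C, dg R (insert v C) y = 2 + if Branch R y then 1 else 0 := by
    intro y hy
    have hyU := ((hC y).1 hy).1
    have hyc := ((hC y).1 hy).2
    have hmem : ∀ z, z ∈ (insert v C).filter (fun z => R y z) ↔ z ∈ Core R ∧ R y z := by
      intro z
      rw [Finset.mem_filter, Finset.mem_insert]
      constructor
      · rintro ⟨h | h, h'⟩
        · exact ⟨h ▸ hv, h'⟩
        · exact ⟨((hC z).1 h).2, h'⟩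
      · rintro ⟨h, h'⟩
        refine ⟨?_, h'⟩
        rcases hT.2.2.2 y hyU z h' with h1 | h1
        · exact Or.inr ((hC z).2 ⟨h1, h⟩)
        · exact Or.inl h1.2
    have h2 : 1 < dg R (insert v C) y := by
      unfold dg
      rw [Finset.one_lt_card]
      obtain ⟨a, ha, b, hb, hab, h1, h2⟩ := core_nb hyc
      exact ⟨a, (hmem a).2 ⟨ha, h1⟩, b, (hmem b).2 ⟨hb, h2⟩, hab⟩
    have hfin : {z | R y z}.Finite := hR.fin.subset fun z hz => ⟨y, hR.symm _ _ hz⟩
    have h3 : dg R (insert v C) y ≤ 3 := by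
      refine le_trans ?_ (hR.deg y)
      unfold dg
      rw [← Set.ncard_coe_finset]
      apply Set.ncard_le_ncard _ hfin
      intro z hz
      exact ((hmem z).1 (Finset.mem_coe.1 hz)).2
    have h4 : Branch R y ↔ 2 < dg R (insert v C) y := by
      unfold dg
      rw [Finset.two_lt_card]
      constructor
      · rintro ⟨-, a, ha, b, hb, c, hc, hab, hac, hbc, h1, h2, h3⟩
        exact ⟨a, (hmem a).2 ⟨ha, h1⟩, b, (hmem b).2 ⟨hb, h2⟩, c, (hmem c).2 ⟨hc, h3⟩, hab, hac, hbc⟩
      · rintro ⟨a, ha, b, hb, c, hc, hab, hac, hbc⟩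
        rw [hmem] at ha hb hc
        exact ⟨hyc, a, ha.1, b, hb.1, c, hc.1, hab, hac, hbc, ha.2, hb.2, hc.2⟩
    by_cases hb : Branch R y
    · rw [if_pos hb]
      have := h4.1 hb
      omega
    · rw [if_neg hb]
      have := mt h4.2 hb
      omega
  have hcd2 : ∀ y ∈ C, dg R (insert v C) y = dg R C y + if y = x then 1 else 0 := by
    intro y hy
    rw [dg_insert R C v y hvC]
    congr 1
    by_cases h : y = x
    · subst h
      rw [if_pos rfl, if_pos (hR.symm _ _ hT.2.2.1)]
    · rw [if_neg h, if_neg]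
      intro h'
      rcases hT.2.2.2 y (hCU hy) v h' with h1 | h1
      · exact hT.1 h1
      · exact h h1.1
  have s1 : ∑ y ∈ C, dg R (insert v C) y = m2 R C + 1 := by
    rw [Finset.sum_congr rfl hcd2, Finset.sum_add_distrib, ← m2_eq, Finset.sum_ite_eq' C x,
      if_pos hxC]
  have s2 : ∑ y ∈ C, dg R (insert v C) y = 2 * C.card + (C.filter (fun y => Branch R y)).card := by
    rw [Finset.sum_congr rfl hcd, Finset.sum_add_distrib, Finset.sum_const, smul_eq_mul, mul_comm]
    congr 1
    exact (Finset.card_filter (fun y => Branch R y) C).symm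
  have s3 : {y | y ∈ U ∧ Branch R y}.ncard = (C.filter (fun y => Branch R y)).card := by
    rw [← Set.ncard_coe_finset]
    congr 1
    ext y
    simp only [Set.mem_ofPred_eq, Finset.coe_filter]
    constructor
    · rintro ⟨h1, h2⟩
      exact ⟨(hC y).2 ⟨h1, h2.1⟩, h2⟩
    · rintro ⟨h1, h2⟩
      exact ⟨hCU h1, h2⟩
  rw [s3]
  have s4 : (m2 R C : ℤ) + 1 = 2 * C.card + ((C.filter (fun y => Branch R y)).card : ℤ) := by
    exact_mod_cast s1.symm.trans s2
  linarith

end Pool.Agent.R863.TG
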