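import Pool.Agent.R863.TG.F_SND2

set_option autoImplicit false

namespace Pool.Agent.R863.TG

namespace SND

/-- the cell number `i` -/
def ce (c : Cert) (i : ℕ) : V5 × List ℕ × List ℕ := c.cells.getD i default

/-- the point dual to the cell number `i` -/
noncomputable def WW (c : Cert) (i : ℕ) : Pt :=
  ![-((ce c i).1.1 : ℝ), -((ce c i).1.2.1 : ℝ), -((ce c i).1.2.2.1 : ℝ)]

noncomputable def Lr (c : Cert) (i : ℕ) : Fin 5 → ℝ := fun k => ((cz (ce c i).1 k : ℤ) : ℝ)

theorem Lr_W (c : Cert) (i : ℕ) :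
    Lr c i 0 = -WW c i 0 ∧ Lr c i 1 = -WW c i 1 ∧ Lr c i 2 = -WW c i 2 := by
  refine ⟨?_, ?_, ?_⟩ <;> simp [Lr, WW, cz]

theorem Lr_le (c : Cert) (h : chk c = true) (i : ℕ) (hi : i < 65) (j : ℕ) (hj : j < 30) :
    Hh c j ≤ dr (Lr c i) (X j) := by
  have g := good_of_chk c h i hi
  unfold Lr Hh
  rw [dr_X _ j hj]
  by_cases hc : (ce c i).2.1.contains j = true
  · exact_mod_cast (g.ge j hj hc).le
  · have hc' : (ce c i).2.1.contains j = false := Bool.eq_false_iff.2 hc
    exact_mod_cast (g.gt j hj hc').le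

theorem Lr_eq (c : Cert) (h : chk c = true) (i : ℕ) (hi : i < 65) (j : ℕ) (hj : j < 30) :
    Hh c j = dr (Lr c i) (X j) ↔ (ce c i).2.1.contains j = true := by
  have g := good_of_chk c h i hi
  unfold Lr Hh
  rw [dr_X _ j hj]
  constructor
  · intro h1
    by_contra hc
    have hc' : (ce c i).2.1.contains j = false := Bool.eq_false_iff.2 hc
    have h2 := g.gt j hj hc'
    have h3 : c.h.getD j 0 = dot (ce c i).1 (ptsZ.getD j default) := by exact_mod_cast h1
    have h4 : c.h.getD j 0 < dot (ce c i).1 (ptsZ.getD j default) := h2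
    omega
  · intro hc
    exact_mod_cast g.ge j hj hc

theorem ex2 (c : Cert) (h : chk c = true) (i : ℕ) (hi : i < 65) :
    ∃ j < 10, Hh c j = dr (Lr c i) (X j) := by
  have g := good_of_chk c h i hi
  by_contra hcon
  push Not at hcon
  obtain ⟨lam, -, he⟩ := expand g
  have h1 := he (Pi.single 3 1) 3
  rw [Finset.sum_eq_zero (fun k _ => ?_)] at h1
  · simp at h1
  · have hk : 10 ≤ ix (ce c i) k := by
      by_contra hlt
      have h2 := hcon (ix (ce c i) k) (by omega)
      apply h2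
      exact (Lr_eq c h i hi _ (g.lt k k.2)).2 ((contains_ix g _).2 ⟨k, rfl⟩)
    have h3 : X (ix (c.cells.getD i default) k) 3 = 0 := X3 _ hk
    rw [h3, mul_zero]

theorem ex3 (c : Cert) (h : chk c = true) (i : ℕ) (hi : i < 65) :
    ∃ j, 10 ≤ j ∧ j < 30 ∧ Hh c j = dr (Lr c i) (X j) := by
  have g := good_of_chk c h i hi
  by_contra hcon
  push Not at hcon
  obtain ⟨lam, -, he⟩ := expand g
  have h1 := he (Pi.single 4 1) 4
  rw [Finset.sum_eq_zero (fun k _ => ?_)] at h1
  · simp at h1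
  · have hk : ix (ce c i) k < 10 := by
      by_contra hlt
      have h2 := hcon (ix (ce c i) k) (by omega) (g.lt k k.2)
      apply h2
      exact (Lr_eq c h i hi _ (g.lt k k.2)).2 ((contains_ix g _).2 ⟨k, rfl⟩)
    have h3 : X (ix (c.cells.getD i default) k) 4 = 0 := X4 _ hk
    rw [h3, mul_zero]

theorem cellW (c : Cert) (h : chk c = true) (i : ℕ) (hi : i < 65) (j : ℕ) (hj : j < 30) :
    pt j ∈ cell (P2 c) (P3 c) (WW c i) ↔ (ce c i).2.1.contains j = true := by
  obtain ⟨l, l1, l2, l3, l4, l5⟩ := exLw c (WW c i)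
  have e : l = Lr c i := uniqLw c (WW c i) l (Lr c i) l1 (Lr_W c i) l2 (Lr_le c h i hi) l4
    (ex2 c h i hi) l5 (ex3 c h i hi)
  rw [l3 j hj, e]
  exact Lr_eq c h i hi j hj

theorem fullW (c : Cert) (h : chk c = true) (i : ℕ) (hi : i < 65) :
    Full (P2 c) (P3 c) (WW c i) := by
  have g := good_of_chk c h i hi
  obtain ⟨lam, -, he⟩ := expand g
  unfold Full
  rw [Submodule.eq_top_iff']
  intro u
  have h1 : u = ∑ k : Fin 5, dr (lam k) u • X (ix (c.cells.getD i default) k) := by
    funext b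
    rw [Finset.sum_apply]
    exact he u b
  rw [h1]
  refine Submodule.sum_mem _ (fun k _ => Submodule.smul_mem _ _ (Submodule.subset_span ?_))
  refine ⟨pt (ix (c.cells.getD i default) k), ?_, rfl⟩
  exact Finset.mem_coe.2 ((cellW c h i hi _ (g.lt k k.2)).2 ((contains_ix g _).2 ⟨k, rfl⟩))

/-- a functional that vanishes on a full cell is zero -/
theorem full_zero (c : Cert) (w : Pt) (hw : Full (P2 c) (P3 c) w) (d : Fin 5 → ℝ)
    (hd : ∀ j < 30, pt j ∈ cell (P2 c) (P3 c) w → dr d (X j) = 0) : d = 0 := by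
  obtain ⟨φ, hφ⟩ : ∃ φ : (Fin 5 → ℝ) →ₗ[ℝ] ℝ, ∀ u, φ u = dr d u := by
    refine ⟨⟨⟨fun u => dr d u, fun u v => ?_⟩, fun r u => ?_⟩, fun _ => rfl⟩
    · simp [dr, mul_add, Finset.sum_add_distrib]
    · simp only [dr, Pi.smul_apply, smul_eq_mul, RingHom.id_apply, Finset.mul_sum]
      exact Finset.sum_congr rfl (fun _ _ => by ring)
  have h1 : (⊤ : Submodule ℝ (Fin 5 → ℝ)) ≤ LinearMap.ker φ := by
    rw [← hw, Submodule.span_le]
    rintro _ ⟨x, hx, rfl⟩
    obtain ⟨j, hj, rfl⟩ := cell_pt c w x (Finset.mem_coe.1 hx)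
    show φ (X j) = 0
    rw [hφ]
    exact hd j hj (Finset.mem_coe.1 hx)
  funext k
  have h2 : φ (Pi.single k 1) = 0 := h1 Submodule.mem_top
  rw [hφ] at h2
  simpa [dr, Pi.single_apply] using h2

theorem dr_sub (l l' x : Fin 5 → ℝ) : dr (fun k => l k - l' k) x = dr l x - dr l' x := by
  simp [dr, sub_mul, Finset.sum_sub_distrib]

theorem dr_sum (l : Fin 5 → ℝ) (s : Finset ℕ) (f : ℕ → Fin 5 → ℝ) :
    dr l (fun k => ∑ j ∈ s, f j k) = ∑ j ∈ s, dr l (f j) := by
  unfold dr
  rw [Finset.sum_comm]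
  refine Finset.sum_congr rfl (fun k _ => ?_)
  rw [Finset.mul_sum]

/-- completeness -/
theorem complete (c : Cert) (h : chk c = true) (w : Pt) (hw : Full (P2 c) (P3 c) w) :
    ∃ i < 65, w = WW c i := by
  classical
  obtain ⟨l, l1, l2, l3, l4, l5⟩ := exLw c w
  obtain ⟨s, hs⟩ : ∃ s : Finset ℕ, s = (Finset.range 30).filter
    (fun j => pt j ∈ cell (P2 c) (P3 c) w) := ⟨_, rfl⟩
  have hsm : ∀ j ∈ s, j < 30 ∧ Hh c j = dr l (X j) := by
    intro j hj
    rw [hs, Finset.mem_filter, Finset.mem_range] at hj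
    exact ⟨hj.1, (l3 j hj.1).1 hj.2⟩
  obtain ⟨u, hu⟩ : ∃ u : Fin 5 → ℝ, u = fun k => ∑ j ∈ s, X j k := ⟨_, rfl⟩
  have hdu : ∀ m, dr m u = ∑ j ∈ s, dr m (X j) := by
    intro m
    rw [hu]
    exact dr_sum m s X
  obtain ⟨i, hi, hmin⟩ := (Finset.range 65).exists_min_image (fun i => dr (Lr c i) u)
    ⟨0, by simp⟩
  have hi' := Finset.mem_range.1 hi
  have g := good_of_chk c h i hi'
  obtain ⟨lam, hl1, he⟩ := expand g
  have hpos : ∀ k : Fin 5, 0 ≤ dr (lam k) u := by
    intro k
    have ht := g.tpos k k.2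
    have ht' : (0 : ℝ) < ((dot (mu c (c.cells.getD i default) k)
      (ptc (c.cells.getD i default) k) : ℤ) : ℝ) := by exact_mod_cast ht
    have h2 := hl1 k u
    have h3 : 0 ≤ dr (fun b => ((cz (mu c (c.cells.getD i default) k) b : ℤ) : ℝ)) u := by
      by_cases hn : (c.cells.getD i default).2.2.getD k 0 < 65
      · have hm : mu c (c.cells.getD i default) k =
            sub5 (c.cells.getD ((c.cells.getD i default).2.2.getD k 0) default).1
              (c.cells.getD i default).1 := by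
          unfold mu
          rw [if_pos hn]
        rw [hm]
        have h4 : (fun b => ((cz (sub5 (c.cells.getD ((c.cells.getD i default).2.2.getD k 0)
            default).1 (c.cells.getD i default).1) b : ℤ) : ℝ)) =
            fun b => Lr c ((c.cells.getD i default).2.2.getD k 0) b - Lr c i b := by
          funext b
          unfold Lr ce
          fin_cases b <;> simp [cz, sub5]
        rw [h4, dr_sub]
        have h5 := hmin _ (Finset.mem_range.2 hn)
        linarith
      · have hm : mu c (c.cells.getD i default) k =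
            bdL.getD ((c.cells.getD i default).2.2.getD k 0 - 65) default := by
          unfold mu
          rw [if_neg hn]
        rw [hm, hdu]
        refine Finset.sum_nonneg (fun j hj => ?_)
        rw [dr_X _ j (hsm j hj).1]
        exact_mod_cast bd_nonneg' _ j (hsm j hj).1
    rw [← h2] at h3
    exact nonneg_of_mul_nonneg_right (by linarith) ht'
  -- compare the two functionals
  have hexp : ∀ m : Fin 5 → ℝ, dr m u =
      ∑ k : Fin 5, dr (lam k) u * dr m (X (ix (c.cells.getD i default) k)) := by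
    intro m
    have h1 : dr m u = ∑ b, m b * ∑ k : Fin 5, dr (lam k) u *
        X (ix (c.cells.getD i default) k) b := by
      unfold dr
      refine Finset.sum_congr rfl (fun b _ => ?_)
      congr 1
      exact he u b
    rw [h1]
    simp only [Finset.mul_sum]
    rw [Finset.sum_comm]
    refine Finset.sum_congr rfl (fun k _ => ?_)
    rw [show dr m (X (ix (c.cells.getD i default) k)) =
      ∑ b, m b * X (ix (c.cells.getD i default) k) b from rfl, Finset.mul_sum]
    refine Finset.sum_congr rfl (fun b _ => ?_)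
    ring
  have hge : dr (Lr c i) u ≤ dr l u := by
    rw [hexp, hexp]
    refine Finset.sum_le_sum (fun k _ => mul_le_mul_of_nonneg_left ?_ (hpos k))
    have h1 : Hh c (ix (c.cells.getD i default) k) =
        dr (Lr c i) (X (ix (c.cells.getD i default) k)) :=
      (Lr_eq c h i hi' _ (g.lt k k.2)).2 ((contains_ix g _).2 ⟨k, rfl⟩)
    rw [← h1]
    exact l2 _ (g.lt k k.2)
  have heq : ∀ j ∈ s, dr (Lr c i) (X j) - dr l (X j) = 0 := by
    have hnn : ∀ j ∈ s, 0 ≤ dr (Lr c i) (X j) - dr l (X j) := by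
      intro j hj
      have h1 := Lr_le c h i hi' j (hsm j hj).1
      rw [(hsm j hj).2] at h1
      linarith
    have hsum : ∑ j ∈ s, (dr (Lr c i) (X j) - dr l (X j)) = 0 := by
      apply le_antisymm
      · rw [Finset.sum_sub_distrib, ← hdu, ← hdu]
        linarith
      · exact Finset.sum_nonneg hnn
    exact (Finset.sum_eq_zero_iff_of_nonneg hnn).1 hsum
  have hz := full_zero c w hw (fun k => Lr c i k - l k) (fun j hj hjc => by
    rw [dr_sub]
    exact heq j (by rw [hs, Finset.mem_filter, Finset.mem_range]; exact ⟨hj, hjc⟩))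
  refine ⟨i, hi', ?_⟩
  obtain ⟨b0, b1, b2⟩ := Lr_W c i
  obtain ⟨a0, a1, a2⟩ := l1
  funext k
  have z0 := congrFun hz 0
  have z1 := congrFun hz 1
  have z2 := congrFun hz 2
  simp only [Pi.zero_apply] at z0 z1 z2
  fin_cases k
  · show w 0 = WW c i 0
    linarith
  · show w 1 = WW c i 1
    linarith
  · show w 2 = WW c i 2
    linarith

theorem smooth (c : Cert) (h : chk c = true) : SmoothC (P2 c) (P3 c) := by
  intro w hw
  obtain ⟨i, hi, rfl⟩ := complete c h w hw
  have g := good_of_chk c h i hi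
  refine ⟨fun k => pt (ix (c.cells.getD i default) k), ?_, ?_, detY g⟩
  · intro k k' hk
    exact ix_inj g k k' (pt_inj _ (g.lt k k.2) _ (g.lt k' k'.2) hk)
  · ext x
    constructor
    · rintro ⟨k, rfl⟩
      exact Finset.mem_coe.2 ((cellW c h i hi _ (g.lt k k.2)).2 ((contains_ix g _).2 ⟨k, rfl⟩))
    · intro hx
      obtain ⟨j, hj, rfl⟩ := cell_pt c _ x (Finset.mem_coe.1 hx)
      have h1 := (cellW c h i hi j hj).1 (Finset.mem_coe.1 hx)
      obtain ⟨k, rfl⟩ := (contains_ix g j).1 h1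
      exact ⟨k, rfl⟩

theorem W_inj (c : Cert) (h : chk c = true) (hinj : ∀ i j, i < 65 → j < 65 →
    (c.cells.getD i default).1 = (c.cells.getD j default).1 → i = j) (i j : ℕ) (hi : i < 65)
    (hj : j < 65) (hW : WW c i = WW c j) : i = j := by
  have e : Lr c i = Lr c j := uniqLw c (WW c i) (Lr c i) (Lr c j) (Lr_W c i)
    (by rw [hW]; exact Lr_W c j) (Lr_le c h i hi) (Lr_le c h j hj) (ex2 c h i hi) (ex2 c h j hj)
    (ex3 c h i hi) (ex3 c h j hj)
  apply hinj i j hi hj
  have f : ∀ k, cz (ce c i).1 k = cz (ce c j).1 k := fun k => by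
    have := congrFun e k
    unfold Lr at this
    exact_mod_cast this
  exact Prod.ext (f 0) (Prod.ext (f 1) (Prod.ext (f 2) (Prod.ext (f 3) (f 4))))

/-- common points of two cells -/
def com (c : Cert) (i j : ℕ) : List ℕ :=
  (c.cells.getD i default).2.1.filter fun x => (c.cells.getD j default).2.1.contains x

theorem nodup_ce (c : Cert) (h : chk c = true) (i : ℕ) (hi : i < 65) :
    (c.cells.getD i default).2.1.Nodup := by
  have g := good_of_chk c h i hi
  rw [List.nodup_iff_injective_get]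
  intro a b hab
  have h5 := g.len
  have h1 : (⟨a, by omega⟩ : Fin 5) = ⟨b, by omega⟩ := by
    apply ix_inj g
    show (c.cells.getD i default).2.1.getD a 0 = (c.cells.getD i default).2.1.getD b 0
    rw [List.getD_eq_getElem _ _ a.2, List.getD_eq_getElem _ _ b.2]
    exact hab
  exact Fin.ext (by simpa using h1)

theorem mem_com (c : Cert) (h : chk c = true) (i j : ℕ) (hi : i < 65) (hj : j < 65) (n : ℕ) :
    n ∈ com c i j ↔ n < 30 ∧ pt n ∈ cell (P2 c) (P3 c) (WW c i) ∧
      pt n ∈ cell (P2 c) (P3 c) (WW c j) := by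
  have g := good_of_chk c h i hi
  unfold com
  rw [List.mem_filter]
  constructor
  · rintro ⟨h1, h2⟩
    have h3 : (c.cells.getD i default).2.1.contains n = true := List.contains_iff_mem.2 h1
    obtain ⟨k, rfl⟩ := (contains_ix g n).1 h3
    have hk := g.lt k k.2
    exact ⟨hk, (cellW c h i hi _ hk).2 h3, (cellW c h j hj _ hk).2 h2⟩
  · rintro ⟨h1, h2, h3⟩
    exact ⟨List.contains_iff_mem.1 ((cellW c h i hi n h1).1 h2), (cellW c h j hj n h1).1 h3⟩

theorem top2_iff (c : Cert) (w : Pt) (a : Mon) :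
    a ∈ (P2 c).top w ↔ (false, a) ∈ cell (P2 c) (P3 c) w := by
  classical
  unfold cell
  rw [Finset.mem_union, Finset.mem_image, Finset.mem_image]
  constructor
  · intro ha
    exact Or.inl ⟨a, ha, rfl⟩
  · rintro (⟨b, hb, h⟩ | ⟨b, hb, h⟩)
    · rw [← (Prod.mk.inj h).2]; exact hb
    · exact absurd (Prod.mk.inj h).1 (by simp)

theorem top3_iff (c : Cert) (w : Pt) (a : Mon) :
    a ∈ (P3 c).top w ↔ (true, a) ∈ cell (P2 c) (P3 c) w := by
  classical
  unfold cell
  rw [Finset.mem_union, Finset.mem_image, Finset.mem_image]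
  constructor
  · intro ha
    exact Or.inr ⟨a, ha, rfl⟩
  · rintro (⟨b, hb, h⟩ | ⟨b, hb, h⟩)
    · exact absurd (Prod.mk.inj h).1 (by simp)
    · rw [← (Prod.mk.inj h).2]; exact hb

theorem inter2 [DecidableEq Mon] (c : Cert) (h : chk c = true) (i j : ℕ) (hi : i < 65)
    (hj : j < 65) : ((P2 c).top (WW c i) ∩ (P2 c).top (WW c j)).card =
      ((com c i j).filter fun x => decide (x < 10)).length := by
  have hnd : ((com c i j).filter fun x => decide (x < 10)).Nodup :=
    ((nodup_ce c h i hi).filter _).filter _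
  rw [← List.toFinset_card_of_nodup hnd]
  symm
  refine Finset.card_bij (fun n _ => (pt n).2) ?_ ?_ ?_
  · intro n hn
    rw [List.mem_toFinset, List.mem_filter, mem_com c h i j hi hj] at hn
    obtain ⟨⟨h1, h2, h3⟩, h4⟩ := hn
    have h4' : n < 10 := of_decide_eq_true h4
    rw [Finset.mem_inter, top2_iff, top2_iff, ← pt_lt n h4']
    exact ⟨h2, h3⟩
  · intro n hn m hm hnm
    rw [List.mem_toFinset, List.mem_filter, mem_com c h i j hi hj] at hn hm
    have h4 : n < 10 := of_decide_eq_true hn.2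
    have h5 : m < 10 := of_decide_eq_true hm.2
    refine pt_inj n hn.1.1 m hm.1.1 ?_
    rw [pt_lt n h4, pt_lt m h5, hnm]
  · intro a ha
    rw [Finset.mem_inter, top2_iff, top2_iff] at ha
    obtain ⟨n, hn, hna⟩ := cell_pt c _ _ ha.1
    refine ⟨n, ?_, by rw [hna]⟩
    rw [List.mem_toFinset, List.mem_filter, mem_com c h i j hi hj, hna]
    refine ⟨⟨hn, ha.1, ha.2⟩, decide_eq_true ?_⟩
    rw [← pt_fst n hn, hna]

theorem inter3 [DecidableEq Mon] (c : Cert) (h : chk c = true) (i j : ℕ) (hi : i < 65)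
    (hj : j < 65) : ((P3 c).top (WW c i) ∩ (P3 c).top (WW c j)).card =
      ((com c i j).filter fun x => decide (10 ≤ x)).length := by
  have hnd : ((com c i j).filter fun x => decide (10 ≤ x)).Nodup :=
    ((nodup_ce c h i hi).filter _).filter _
  rw [← List.toFinset_card_of_nodup hnd]
  symm
  refine Finset.card_bij (fun n _ => (pt n).2) ?_ ?_ ?_
  · intro n hn
    rw [List.mem_toFinset, List.mem_filter, mem_com c h i j hi hj] at hn
    obtain ⟨⟨h1, h2, h3⟩, h4⟩ := hn
    have h4' : 10 ≤ n := of_decide_eq_true h4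
    rw [Finset.mem_inter, top3_iff, top3_iff, ← pt_ge n h4']
    exact ⟨h2, h3⟩
  · intro n hn m hm hnm
    rw [List.mem_toFinset, List.mem_filter, mem_com c h i j hi hj] at hn hm
    have h4 : 10 ≤ n := of_decide_eq_true hn.2
    have h5 : 10 ≤ m := of_decide_eq_true hm.2
    refine pt_inj n hn.1.1 m hm.1.1 ?_
    rw [pt_ge n h4, pt_ge m h5, hnm]
  · intro a ha
    rw [Finset.mem_inter, top3_iff, top3_iff] at ha
    obtain ⟨n, hn, hna⟩ := cell_pt c _ _ ha.1
    refine ⟨n, ?_, by rw [hna]⟩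
    rw [List.mem_toFinset, List.mem_filter, mem_com c h i j hi hj, hna]
    refine ⟨⟨hn, ha.1, ha.2⟩, decide_eq_true ?_⟩
    by_contra hlt
    have h6 := (pt_fst n hn).2 (by omega)
    rw [hna] at h6
    exact absurd h6 (by simp)

theorem adjB_iff (c : Cert) (i j : ℕ) : adjB c i j = true ↔ i ≠ j ∧
    2 ≤ ((com c i j).filter fun x => decide (x < 10)).length ∧
    2 ≤ ((com c i j).filter fun x => decide (10 ≤ x)).length := by
  show ((i != j) && decide (2 ≤ ((com c i j).filter fun x => decide (x < 10)).length) &&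
    decide (2 ≤ ((com c i j).filter fun x => decide (10 ≤ x)).length)) = true ↔ _
  rw [Bool.and_eq_true, Bool.and_eq_true, bne_iff_ne, decide_eq_true_iff, decide_eq_true_iff,
    and_assoc]

theorem adj_iff (c : Cert) (h : chk c = true) (hinj : ∀ i j, i < 65 → j < 65 →
    (c.cells.getD i default).1 = (c.cells.getD j default).1 → i = j) (x y : Pt) :
    Adj (P2 c) (P3 c) x y ↔ ∃ i j, i < 65 ∧ j < 65 ∧ x = WW c i ∧ y = WW c j ∧
      adjB c i j = true := by
  constructor
  · rintro ⟨h1, h2, h3, h4, h5⟩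
    obtain ⟨i, hi, rfl⟩ := complete c h x h2.1
    obtain ⟨j, hj, rfl⟩ := complete c h y h3.1
    refine ⟨i, j, hi, hj, rfl, rfl, (adjB_iff c i j).2 ⟨?_, ?_, ?_⟩⟩
    · rintro rfl
      exact h1 rfl
    · rw [← inter2 c h i j hi hj]
      convert h4
    · rw [← inter3 c h i j hi hj]
      convert h5
  · rintro ⟨i, j, hi, hj, rfl, rfl, hadj⟩
    obtain ⟨hne, h4, h5⟩ := (adjB_iff c i j).1 hadj
    classical
    rw [← inter2 c h i j hi hj] at h4
    rw [← inter3 c h i j hi hj] at h5
    refine ⟨fun hW => hne (W_inj c h hinj i j hi hj hW),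
      ⟨fullW c h i hi, h4.trans (Finset.card_le_card Finset.inter_subset_left),
        h5.trans (Finset.card_le_card Finset.inter_subset_left)⟩,
      ⟨fullW c h j hj, h4.trans (Finset.card_le_card Finset.inter_subset_right),
        h5.trans (Finset.card_le_card Finset.inter_subset_right)⟩, ?_, ?_⟩
    · convert h4
    · convert h5

end SND

open SND

theorem t_SND0 (c : Cert) (h : chk c = true) (hinj : ∀ i j, i < 65 → j < 65 →
    (c.cells.getD i default).1 = (c.cells.getD j default).1 → i = j) :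
    ∃ (p q : TPoly) (W : ℕ → Pt), p.HasDeg 2 ∧ q.HasDeg 3 ∧ SmoothC p q ∧
      (∀ i j, i < 65 → j < 65 → W i = W j → i = j) ∧
      ∀ x y, Adj p q x y ↔ ∃ i j, i < 65 ∧ j < 65 ∧ x = W i ∧ y = W j ∧ adjB c i j = true :=
  ⟨P2 c, P3 c, WW c, deg2 c, deg3 c, smooth c h, W_inj c h hinj, adj_iff c h hinj⟩

theorem t_SND : S_SND := by
  intro c h
  refine t_SND0 c h (fun i j hi hj hij => ?_)
  have h' := h
  unfold chk at h'
  simp only [Bool.and_eq_true] at h'
  obtain ⟨-, h4⟩ := h'
  have f := List.all_eq_true.1 h4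
  by_contra hne
  rcases lt_or_gt_of_ne hne with hlt | hlt
  · have g := List.all_eq_true.1 (f j (List.mem_range.2 hj)) i (List.mem_range.2 hlt)
    rw [bne_iff_ne] at g
    exact g hij.symm
  · have g := List.all_eq_true.1 (f i (List.mem_range.2 hi)) j (List.mem_range.2 hlt)
    rw [bne_iff_ne] at g
    exact g hij

end Pool.Agent.R863.TG

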