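import Pool.Agent.R863.TG.Stm2

set_option autoImplicit false

namespace Pool.Agent.R863.TG

namespace SND

def toMon (m : ℕ × ℕ × ℕ) : Mon := ![m.1, m.2.1, m.2.2]

/-- point number `j` -/
def pt (j : ℕ) : Bool × Mon :=
  if j < 10 then (false, toMon ((monL 2).getD j default))
  else (true, toMon ((monL 3).getD (j - 10) default))

def cz (x : V5) : Fin 5 → ℤ := ![x.1, x.2.1, x.2.2.1, x.2.2.2.1, x.2.2.2.2]

def cayZ (x : Bool × Mon) : V5 :=
  ((x.2 0 : ℤ), (x.2 1 : ℤ), (x.2 2 : ℤ), if x.1 then 0 else 1, if x.1 then 1 else 0)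

theorem cay_eq (x : Bool × Mon) : cay x = fun k => ((cz (cayZ x) k : ℤ) : ℝ) := by
  funext k
  rcases x with ⟨b, m⟩
  fin_cases k <;> cases b <;> simp [cay, cz, cayZ]

theorem cayZ_pt : ∀ j < 30, cayZ (pt j) = ptsZ.getD j default := by decide +kernel

theorem pt_inj : ∀ j < 30, ∀ j' < 30, pt j = pt j' → j = j' := by decide +kernel

theorem pt_fst : ∀ j < 30, ((pt j).1 = false ↔ j < 10) := by decide +kernel

theorem dot_cz (l x : V5) : dot l x = ∑ k, cz l k * cz x k := by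
  rw [Fin.sum_univ_five]
  show l.1 * x.1 + (l.2.1 * x.2.1 + (l.2.2.1 * x.2.2.1 + (l.2.2.2.1 * x.2.2.2.1 +
    l.2.2.2.2 * x.2.2.2.2))) = l.1 * x.1 + l.2.1 * x.2.1 + l.2.2.1 * x.2.2.1 +
    l.2.2.2.1 * x.2.2.2.1 + l.2.2.2.2 * x.2.2.2.2
  ring

/-- dot product -/
def dr (l x : Fin 5 → ℝ) : ℝ := ∑ k, l k * x k

theorem dr_cz (l x : V5) : dr (fun k => ((cz l k : ℤ) : ℝ)) (fun k => ((cz x k : ℤ) : ℝ)) =
    ((dot l x : ℤ) : ℝ) := by
  rw [dot_cz, dr]
  push_cast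
  rfl

/-- the real vector of point number `j` -/
noncomputable def X (j : ℕ) : Fin 5 → ℝ := cay (pt j)

theorem X_eq (j : ℕ) (hj : j < 30) : X j = fun k => ((cz (ptsZ.getD j default) k : ℤ) : ℝ) := by
  unfold X
  rw [cay_eq, cayZ_pt j hj]

theorem dr_X (l : V5) (j : ℕ) (hj : j < 30) :
    dr (fun k => ((cz l k : ℤ) : ℝ)) (X j) = ((dot l (ptsZ.getD j default) : ℤ) : ℝ) := by
  rw [X_eq j hj, dr_cz]

/-- index of a monomial -/
theorem supp2_inj : ∀ j < 30, ∀ j' < 30, (pt j).1 = (pt j').1 → (pt j).2 = (pt j').2 → j = j' := by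
  intro j hj j' hj' h1 h2
  exact pt_inj j hj j' hj' (Prod.ext h1 h2)

open Classical in
/-- the coefficient function -/
noncomputable def cf (c : Cert) (b : Bool) (a : Mon) : ℝ :=
  if h : ∃ j, j < 30 ∧ pt j = (b, a) then ((c.h.getD (Nat.find h) 0 : ℤ) : ℝ) else 0

theorem cf_pt (c : Cert) (j : ℕ) (hj : j < 30) :
    cf c (pt j).1 (pt j).2 = ((c.h.getD j 0 : ℤ) : ℝ) := by
  classical
  unfold cf
  have h : ∃ j', j' < 30 ∧ pt j' = ((pt j).1, (pt j).2) := ⟨j, hj, rfl⟩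
  rw [dif_pos h]
  have h2 := Nat.find_spec h
  have h3 : Nat.find h = j := pt_inj _ h2.1 _ hj h2.2
  rw [h3]

/-- the tropical polynomials -/
noncomputable def P2 (c : Cert) : TPoly where
  supp := (Finset.range 10).image (fun j => (pt j).2)
  coeff := cf c false

noncomputable def P3 (c : Cert) : TPoly where
  supp := (Finset.Ico 10 30).image (fun j => (pt j).2)
  coeff := cf c true

theorem deg2 (c : Cert) : (P2 c).HasDeg 2 := by
  refine ⟨?_, ?_, ?_⟩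
  · intro a ha
    obtain ⟨j, hj, rfl⟩ := Finset.mem_image.1 ha
    have : ∀ j < 10, ∑ i, (pt j).2 i ≤ 2 := by decide +kernel
    exact this j (Finset.mem_range.1 hj)
  · have : (0 : Mon) ∈ (Finset.range 10).image (fun j => (pt j).2) := by decide +kernel
    exact this
  · have : ∀ i : Fin 3, (Pi.single i 2 : Mon) ∈ (Finset.range 10).image (fun j => (pt j).2) := by
      decide +kernel
    exact this

theorem deg3 (c : Cert) : (P3 c).HasDeg 3 := by
  refine ⟨?_, ?_, ?_⟩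
  · intro a ha
    obtain ⟨j, hj, rfl⟩ := Finset.mem_image.1 ha
    have : ∀ j ∈ Finset.Ico 10 30, ∑ i, (pt j).2 i ≤ 3 := by decide +kernel
    exact this j hj
  · have : (0 : Mon) ∈ (Finset.Ico 10 30).image (fun j => (pt j).2) := by decide +kernel
    exact this
  · have : ∀ i : Fin 3, (Pi.single i 3 : Mon) ∈ (Finset.Ico 10 30).image (fun j => (pt j).2) := by
      decide +kernel
    exact this

/-- heights -/
noncomputable def Hh (c : Cert) (j : ℕ) : ℝ := ((c.h.getD j 0 : ℤ) : ℝ)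

theorem pt_lt (j : ℕ) (hj : j < 10) : pt j = (false, (pt j).2) := by
  simp [pt, hj]

theorem pt_ge (j : ℕ) (hj : 10 ≤ j) : pt j = (true, (pt j).2) := by
  simp [pt, not_lt.2 hj]

theorem val2 (c : Cert) (w : Pt) (j : ℕ) (hj : j < 10) :
    (P2 c).val w (pt j).2 = Hh c j + ∑ i, ((pt j).2 i : ℝ) * w i := by
  unfold TPoly.val Hh
  have h := cf_pt c j (by omega)
  have h1 : (pt j).1 = false := by rw [pt_lt j hj]
  rw [h1] at h
  show cf c false (pt j).2 + _ = _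
  rw [h]

theorem val3 (c : Cert) (w : Pt) (j : ℕ) (hj : 10 ≤ j) (hj' : j < 30) :
    (P3 c).val w (pt j).2 = Hh c j + ∑ i, ((pt j).2 i : ℝ) * w i := by
  unfold TPoly.val Hh
  have h := cf_pt c j hj'
  have h1 : (pt j).1 = true := by rw [pt_ge j hj]
  rw [h1] at h
  show cf c true (pt j).2 + _ = _
  rw [h]

theorem drX2 (l : Fin 5 → ℝ) (w : Pt) (h0 : l 0 = -w 0) (h1 : l 1 = -w 1) (h2 : l 2 = -w 2)
    (j : ℕ) (hj : j < 10) : dr l (X j) = l 3 - ∑ i, ((pt j).2 i : ℝ) * w i := by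
  unfold X dr
  rw [pt_lt j hj]
  simp only [Fin.sum_univ_five, Fin.sum_univ_three, cay, h0, h1, h2]
  simp
  ring

theorem drX3 (l : Fin 5 → ℝ) (w : Pt) (h0 : l 0 = -w 0) (h1 : l 1 = -w 1) (h2 : l 2 = -w 2)
    (j : ℕ) (hj : 10 ≤ j) : dr l (X j) = l 4 - ∑ i, ((pt j).2 i : ℝ) * w i := by
  unfold X dr
  rw [pt_ge j hj]
  simp only [Fin.sum_univ_five, Fin.sum_univ_three, cay, h0, h1, h2]
  simp
  ring

theorem mem_cell2 (c : Cert) (w : Pt) (j : ℕ) (hj : j < 10) :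
    pt j ∈ cell (P2 c) (P3 c) w ↔ ∀ j' < 10, (P2 c).val w (pt j').2 ≤ (P2 c).val w (pt j).2 := by
  classical
  have h : pt j ∈ cell (P2 c) (P3 c) w ↔ (pt j).2 ∈ (P2 c).top w := by
    unfold cell
    rw [Finset.mem_union, Finset.mem_image, Finset.mem_image]
    constructor
    · rintro (⟨a, ha, h⟩ | ⟨a, ha, h⟩)
      · rw [← h]; exact ha
      · rw [pt_lt j hj] at h
        exact absurd (congrArg Prod.fst h) (by simp)
    · intro ha
      left
      exact ⟨(pt j).2, ha, (pt_lt j hj).symm⟩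
  rw [h]
  unfold TPoly.top
  rw [Finset.mem_filter]
  constructor
  · rintro ⟨-, h2⟩ j' hj'
    exact h2 _ (Finset.mem_image_of_mem _ (Finset.mem_range.2 hj'))
  · intro h2
    refine ⟨Finset.mem_image_of_mem _ (Finset.mem_range.2 hj), ?_⟩
    intro b hb
    obtain ⟨j', hj', rfl⟩ := Finset.mem_image.1 hb
    exact h2 j' (Finset.mem_range.1 hj')

theorem mem_cell3 (c : Cert) (w : Pt) (j : ℕ) (hj : 10 ≤ j) (hj30 : j < 30) :
    pt j ∈ cell (P2 c) (P3 c) w ↔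
      ∀ j', 10 ≤ j' → j' < 30 → (P3 c).val w (pt j').2 ≤ (P3 c).val w (pt j).2 := by
  classical
  have h : pt j ∈ cell (P2 c) (P3 c) w ↔ (pt j).2 ∈ (P3 c).top w := by
    unfold cell
    rw [Finset.mem_union, Finset.mem_image, Finset.mem_image]
    constructor
    · rintro (⟨a, ha, h⟩ | ⟨a, ha, h⟩)
      · rw [pt_ge j hj] at h
        exact absurd (congrArg Prod.fst h) (by simp)
      · rw [← h]; exact ha
    · intro ha
      right
      exact ⟨(pt j).2, ha, (pt_ge j hj).symm⟩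
  rw [h]
  unfold TPoly.top
  rw [Finset.mem_filter]
  constructor
  · rintro ⟨-, h2⟩ j' hj' hj''
    exact h2 _ (Finset.mem_image_of_mem _ (Finset.mem_Ico.2 ⟨hj', hj''⟩))
  · intro h2
    refine ⟨Finset.mem_image_of_mem _ (Finset.mem_Ico.2 ⟨hj, hj30⟩), ?_⟩
    intro b hb
    obtain ⟨j', hj', rfl⟩ := Finset.mem_image.1 hb
    exact h2 j' (Finset.mem_Ico.1 hj').1 (Finset.mem_Ico.1 hj').2

/-- the functional of a point `w` -/
theorem exLw (c : Cert) (w : Pt) : ∃ l : Fin 5 → ℝ, (l 0 = -w 0 ∧ l 1 = -w 1 ∧ l 2 = -w 2) ∧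
    (∀ j < 30, Hh c j ≤ dr l (X j)) ∧
    (∀ j < 30, (pt j ∈ cell (P2 c) (P3 c) w ↔ Hh c j = dr l (X j))) ∧
    (∃ j < 10, Hh c j = dr l (X j)) ∧ (∃ j, 10 ≤ j ∧ j < 30 ∧ Hh c j = dr l (X j)) := by
  obtain ⟨a, ha, ha2⟩ := (Finset.range 10).exists_max_image (fun j => (P2 c).val w (pt j).2)
    ⟨0, by simp⟩
  obtain ⟨b, hb, hb2⟩ := (Finset.Ico 10 30).exists_max_image (fun j => (P3 c).val w (pt j).2)
    ⟨10, by simp⟩
  have ha' := Finset.mem_range.1 ha
  have hb' := Finset.mem_Ico.1 hb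
  obtain ⟨l, hl⟩ : ∃ l : Fin 5 → ℝ, l = ![-w 0, -w 1, -w 2, (P2 c).val w (pt a).2,
    (P3 c).val w (pt b).2] := ⟨_, rfl⟩
  have l0 : l 0 = -w 0 := by rw [hl]; rfl
  have l1 : l 1 = -w 1 := by rw [hl]; rfl
  have l2 : l 2 = -w 2 := by rw [hl]; rfl
  have l3 : l 3 = (P2 c).val w (pt a).2 := by rw [hl]; rfl
  have l4 : l 4 = (P3 c).val w (pt b).2 := by rw [hl]; rfl
  have e2 : ∀ j < 10, dr l (X j) = Hh c j + ((P2 c).val w (pt a).2 - (P2 c).val w (pt j).2) := by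
    intro j hj
    rw [drX2 l w l0 l1 l2 j hj, l3, val2 c w j hj]
    ring
  have e3 : ∀ j, 10 ≤ j → j < 30 →
      dr l (X j) = Hh c j + ((P3 c).val w (pt b).2 - (P3 c).val w (pt j).2) := by
    intro j hj hj'
    rw [drX3 l w l0 l1 l2 j hj, l4, val3 c w j hj hj']
    ring
  refine ⟨l, ⟨l0, l1, l2⟩, ?_, ?_, ⟨a, ha', ?_⟩, ⟨b, hb'.1, hb'.2, ?_⟩⟩
  · intro j hj
    by_cases h : j < 10
    · have := ha2 j (Finset.mem_range.2 h)
      rw [e2 j h]
      linarith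
    · have := hb2 j (Finset.mem_Ico.2 ⟨by omega, hj⟩)
      rw [e3 j (by omega) hj]
      linarith
  · intro j hj
    by_cases h : j < 10
    · rw [mem_cell2 c w j h, e2 j h]
      constructor
      · intro h2
        have h3 := h2 a ha'
        have h4 := ha2 j (Finset.mem_range.2 h)
        linarith
      · intro h2 j' hj'
        have h4 := ha2 j' (Finset.mem_range.2 hj')
        linarith
    · rw [mem_cell3 c w j (by omega) hj, e3 j (by omega) hj]
      constructor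
      · intro h2
        have h3 := h2 b hb'.1 hb'.2
        have h4 := hb2 j (Finset.mem_Ico.2 ⟨by omega, hj⟩)
        linarith
      · intro h2 j' hj' hj''
        have h4 := hb2 j' (Finset.mem_Ico.2 ⟨hj', hj''⟩)
        linarith
  · rw [e2 a ha']; ring
  · rw [e3 b hb'.1 hb'.2]; ring

/-- uniqueness of the functional -/
theorem uniqLw (c : Cert) (w : Pt) (l l' : Fin 5 → ℝ) (h : l 0 = -w 0 ∧ l 1 = -w 1 ∧ l 2 = -w 2)
    (h' : l' 0 = -w 0 ∧ l' 1 = -w 1 ∧ l' 2 = -w 2) (g : ∀ j < 30, Hh c j ≤ dr l (X j))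
    (g' : ∀ j < 30, Hh c j ≤ dr l' (X j)) (t : ∃ j < 10, Hh c j = dr l (X j))
    (t' : ∃ j < 10, Hh c j = dr l' (X j)) (s : ∃ j, 10 ≤ j ∧ j < 30 ∧ Hh c j = dr l (X j))
    (s' : ∃ j, 10 ≤ j ∧ j < 30 ∧ Hh c j = dr l' (X j)) : l = l' := by
  obtain ⟨a0, a1, a2⟩ := h
  obtain ⟨b0, b1, b2⟩ := h'
  have e3 : l 3 = l' 3 := by
    obtain ⟨j, hj, hj2⟩ := t
    obtain ⟨k, hk, hk2⟩ := t'
    have x1 := g' j (by omega)
    have x2 := g k (by omega)
    rw [drX2 l' w b0 b1 b2 j hj] at x1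
    rw [drX2 l w a0 a1 a2 j hj] at hj2
    rw [drX2 l' w b0 b1 b2 k hk] at hk2
    rw [drX2 l w a0 a1 a2 k hk] at x2
    linarith
  have e4 : l 4 = l' 4 := by
    obtain ⟨j, hj, hj', hj2⟩ := s
    obtain ⟨k, hk, hk', hk2⟩ := s'
    have x1 := g' j (by omega)
    have x2 := g k (by omega)
    rw [drX3 l' w b0 b1 b2 j hj] at x1
    rw [drX3 l w a0 a1 a2 j hj] at hj2
    rw [drX3 l' w b0 b1 b2 k hk] at hk2
    rw [drX3 l w a0 a1 a2 k hk] at x2
    linarith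
  funext k
  fin_cases k
  · exact a0.trans b0.symm
  · exact a1.trans b1.symm
  · exact a2.trans b2.symm
  · exact e3
  · exact e4

theorem cell_pt (c : Cert) (w : Pt) (x : Bool × Mon) (hx : x ∈ cell (P2 c) (P3 c) w) :
    ∃ j < 30, pt j = x := by
  classical
  unfold cell at hx
  rw [Finset.mem_union, Finset.mem_image, Finset.mem_image] at hx
  rcases hx with ⟨a, ha, rfl⟩ | ⟨a, ha, rfl⟩
  · have h1 := (Finset.mem_filter.1 ha).1
    obtain ⟨j, hj, rfl⟩ := Finset.mem_image.1 h1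
    have := Finset.mem_range.1 hj
    exact ⟨j, by omega, pt_lt j this⟩
  · have h1 := (Finset.mem_filter.1 ha).1
    obtain ⟨j, hj, rfl⟩ := Finset.mem_image.1 h1
    have := Finset.mem_Ico.1 hj
    exact ⟨j, this.2, pt_ge j this.1⟩

end SND

end Pool.Agent.R863.TG
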