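import Pool.Agent.R863.TG.F_SND1

set_option autoImplicit false

namespace Pool.Agent.R863.TG

namespace SND

/-- index of the `k`-th point of the cell `x` -/
def ix (x : V5 × List ℕ × List ℕ) (k : ℕ) : ℕ := x.2.1.getD k 0

structure Good (c : Cert) (x : V5 × List ℕ × List ℕ) : Prop where
  len : x.2.1.length = 5
  lt : ∀ k < 5, ix x k < 30
  ge : ∀ j < 30, x.2.1.contains j = true → c.h.getD j 0 = dot x.1 (ptsZ.getD j default)
  gt : ∀ j < 30, x.2.1.contains j = false → c.h.getD j 0 < dot x.1 (ptsZ.getD j default)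
  tpos : ∀ k < 5, 0 < dot (mu c x k) (ptc x k)
  dvd : ∀ k < 5, ∀ b : Fin 5, dot (mu c x k) (ptc x k) ∣ cz (mu c x k) b
  orth : ∀ k < 5, ∀ j < 5, j ≠ k → dot (mu c x k) (ptc x j) = 0

theorem good_of_chk (c : Cert) (h : chk c = true) (i : ℕ) (hi : i < 65) :
    Good c (c.cells.getD i default) := by
  unfold chk at h
  simp only [Bool.and_eq_true] at h
  obtain ⟨⟨⟨h1, h2⟩, h3⟩, h4⟩ := h
  have hlen : c.cells.length = 65 := by simpa using h2
  have hmem : c.cells.getD i default ∈ c.cells := by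
    rw [List.getD_eq_getElem _ _ (by omega)]
    exact List.getElem_mem _
  have hx := List.all_eq_true.1 h3 _ hmem
  generalize c.cells.getD i default = x at hx
  unfold chkC at hx
  simp only [Bool.and_eq_true] at hx
  obtain ⟨⟨⟨e1, e2⟩, e3⟩, e4⟩ := hx
  have f2 := List.all_eq_true.1 e2
  have f3 := List.all_eq_true.1 e3
  have f4 := List.all_eq_true.1 e4
  refine ⟨by simpa using e1, fun k hk => ?_, fun j hj hc => ?_, fun j hj hc => ?_,
    fun k hk => ?_, fun k hk b => ?_, fun k hk j hj hjk => ?_⟩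
  · have := f2 k (List.mem_range.2 hk)
    exact of_decide_eq_true this
  · have := f3 j (List.mem_range.2 hj)
    simp only [hc, if_true] at this
    exact eq_of_beq this
  · have := f3 j (List.mem_range.2 hj)
    simp only [hc] at this
    simpa using this
  · have := f4 k (List.mem_range.2 hk)
    simp only [Bool.and_eq_true] at this
    exact of_decide_eq_true this.1.1.1.1.1.1
  · have := f4 k (List.mem_range.2 hk)
    simp only [Bool.and_eq_true] at this
    obtain ⟨⟨⟨⟨⟨⟨a0, a1⟩, a2⟩, a3⟩, a4⟩, a5⟩, a6⟩ := this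
    fin_cases b
    · exact Int.dvd_of_emod_eq_zero (eq_of_beq a1)
    · exact Int.dvd_of_emod_eq_zero (eq_of_beq a2)
    · exact Int.dvd_of_emod_eq_zero (eq_of_beq a3)
    · exact Int.dvd_of_emod_eq_zero (eq_of_beq a4)
    · exact Int.dvd_of_emod_eq_zero (eq_of_beq a5)
  · have := f4 k (List.mem_range.2 hk)
    simp only [Bool.and_eq_true] at this
    have h6 := List.all_eq_true.1 this.2 j (List.mem_range.2 hj)
    simp only [Bool.or_eq_true, beq_iff_eq] at h6
    rcases h6 with h6 | h6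
    · exact absurd h6 hjk
    · exact h6

theorem mat {c : Cert} {x : V5 × List ℕ × List ℕ} (g : Good c x) :
    ∃ Λ : Matrix (Fin 5) (Fin 5) ℤ,
    (∀ (k : Fin 5) (b : Fin 5), dot (mu c x k) (ptc x k) * Λ k b = cz (mu c x k) b) ∧
    Λ * (Matrix.of fun k b : Fin 5 => cz (ptc x k) b).transpose = 1 := by
  choose Λ hΛ using fun k : Fin 5 => fun b : Fin 5 => g.dvd k k.2 b
  refine ⟨Matrix.of Λ, fun k b => (hΛ k b).symm, ?_⟩
  ext k j
  rw [Matrix.mul_apply]
  have hk := g.tpos k k.2
  apply mul_left_cancel₀ hk.ne'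
  rw [Finset.mul_sum]
  have : ∀ b : Fin 5, dot (mu c x k) (ptc x k) * (Matrix.of Λ k b *
      (Matrix.of fun k b : Fin 5 => cz (ptc x k) b).transpose b j) =
      cz (mu c x k) b * cz (ptc x j) b := by
    intro b
    rw [← mul_assoc]
    show dot (mu c x k) (ptc x k) * Λ k b * cz (ptc x j) b = _
    rw [← hΛ]
  rw [Finset.sum_congr rfl (fun b _ => this b), ← dot_cz]
  by_cases hjk : j = k
  · subst hjk
    rw [Matrix.one_apply_eq, mul_one]
  · rw [Matrix.one_apply_ne (Ne.symm hjk), mul_zero]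
    exact g.orth k k.2 j j.2 (fun h => hjk (Fin.ext h))

theorem X_ix {c : Cert} {x : V5 × List ℕ × List ℕ} (g : Good c x) (k : Fin 5) :
    X (ix x k) = fun b => ((cz (ptc x k) b : ℤ) : ℝ) := by
  rw [X_eq _ (g.lt k k.2)]
  rfl

theorem detY {c : Cert} {x : V5 × List ℕ × List ℕ} (g : Good c x) :
    |(Matrix.of fun k : Fin 5 => X (ix x k)).det| = 1 := by
  obtain ⟨Λ, -, h⟩ := mat g
  have h1 := congrArg Matrix.det h
  rw [Matrix.det_mul, Matrix.det_transpose, Matrix.det_one, mul_comm] at h1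
  have h2 : (Matrix.of fun k : Fin 5 => X (ix x k)) =
      (Int.castRingHom ℝ).mapMatrix (Matrix.of fun k b : Fin 5 => cz (ptc x k) b) := by
    ext k b
    rw [Matrix.of_apply, X_ix g k]
    rfl
  rw [h2, ← RingHom.map_det]
  rcases Int.eq_one_or_neg_one_of_mul_eq_one h1 with h3 | h3 <;> rw [h3] <;> simp

theorem expand {c : Cert} {x : V5 × List ℕ × List ℕ} (g : Good c x) :
    ∃ lam : Fin 5 → Fin 5 → ℝ,
    (∀ (k : Fin 5) (u : Fin 5 → ℝ), ((dot (mu c x k) (ptc x k) : ℤ) : ℝ) * dr (lam k) u =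
      dr (fun b => ((cz (mu c x k) b : ℤ) : ℝ)) u) ∧
    (∀ (u : Fin 5 → ℝ) (b : Fin 5), u b = ∑ k : Fin 5, dr (lam k) u * X (ix x k) b) := by
  obtain ⟨Λ, h1, h⟩ := mat g
  have h' := mul_eq_one_comm.1 h
  refine ⟨fun k b => (Λ k b : ℝ), fun k u => ?_, fun u b => ?_⟩
  · unfold dr
    rw [Finset.mul_sum]
    refine Finset.sum_congr rfl (fun b _ => ?_)
    have h9 : ((dot (mu c x k) (ptc x k) : ℤ) : ℝ) * ((Λ k b : ℤ) : ℝ) =
        ((cz (mu c x k) b : ℤ) : ℝ) := by
      rw [← h1, Int.cast_mul]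
    rw [← mul_assoc]
    exact congrArg (fun z => z * u b) h9
  · have h2 : ∀ b b' : Fin 5, ∑ k : Fin 5, ((cz (ptc x k) b : ℤ) : ℝ) * (Λ k b' : ℝ) =
        if b = b' then 1 else 0 := by
      intro b b'
      have h3 := congrFun (congrFun h' b) b'
      rw [Matrix.mul_apply, Matrix.one_apply] at h3
      have h4 := congrArg (fun z : ℤ => (z : ℝ)) h3
      simp only [Matrix.transpose_apply, Matrix.of_apply] at h4
      push_cast at h4
      exact h4
    symm
    calc ∑ k : Fin 5, dr (fun b => (Λ k b : ℝ)) u * X (ix x k) b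
        = ∑ k : Fin 5, ∑ b' : Fin 5, (((cz (ptc x k) b : ℤ) : ℝ) * (Λ k b' : ℝ)) * u b' := by
          refine Finset.sum_congr rfl (fun k _ => ?_)
          rw [X_ix g k]
          unfold dr
          rw [Finset.sum_mul]
          refine Finset.sum_congr rfl (fun b' _ => ?_)
          ring
      _ = ∑ b' : Fin 5, (∑ k : Fin 5, ((cz (ptc x k) b : ℤ) : ℝ) * (Λ k b' : ℝ)) * u b' := by
          rw [Finset.sum_comm]
          refine Finset.sum_congr rfl (fun b' _ => ?_)
          rw [Finset.sum_mul]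
      _ = u b := by
          simp [h2]

theorem contains_ix {c : Cert} {x : V5 × List ℕ × List ℕ} (g : Good c x) (j : ℕ) :
    x.2.1.contains j = true ↔ ∃ k : Fin 5, ix x k = j := by
  rw [List.contains_iff_mem]
  constructor
  · intro hj
    obtain ⟨n, hn, h⟩ := List.mem_iff_getElem.1 hj
    have h5 := g.len
    refine ⟨⟨n, by omega⟩, ?_⟩
    show x.2.1.getD n 0 = j
    rw [List.getD_eq_getElem _ _ hn, h]
  · rintro ⟨k, rfl⟩
    have h5 := g.len
    have hk := k.2
    show x.2.1.getD k 0 ∈ x.2.1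
    rw [List.getD_eq_getElem _ _ (by omega)]
    exact List.getElem_mem _

theorem ix_inj {c : Cert} {x : V5 × List ℕ × List ℕ} (g : Good c x) (k k' : Fin 5)
    (h : ix x k = ix x k') : k = k' := by
  by_contra hne
  have h1 := detY g
  rw [Matrix.det_zero_of_row_eq hne (by
    funext b
    show X (ix x k) b = X (ix x k') b
    rw [h]), abs_zero] at h1
  exact zero_ne_one h1

theorem bd_nonneg : ∀ m < 6, ∀ j < 30, 0 ≤ dot (bdL.getD m default) (ptsZ.getD j default) := by
  decide +kernel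

theorem bd_nonneg' (m j : ℕ) (hj : j < 30) :
    0 ≤ dot (bdL.getD m default) (ptsZ.getD j default) := by
  by_cases hm : m < 6
  · exact bd_nonneg m hm j hj
  · have h : bdL.getD m default = default := by
      apply List.getD_eq_default
      show bdL.length ≤ m
      have : bdL.length = 6 := by decide
      omega
    rw [h]
    show 0 ≤ dot (0, 0, 0, 0, 0) _
    simp [dot]

theorem X3 (j : ℕ) (hj : 10 ≤ j) : X j 3 = 0 := by
  unfold X
  rw [pt_ge j hj]
  simp [cay]

theorem X4 (j : ℕ) (hj : j < 10) : X j 4 = 0 := by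
  unfold X
  rw [pt_lt j hj]
  simp [cay]

end SND

end Pool.Agent.R863.TG
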