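import Pool.Agent.R863.TG.Stm

/-! TG-GR: a sprawling skeleton gives three tails at a vertex (helper327). -/

set_option autoImplicit false

namespace Pool.Agent.R863.TG

open Relation

namespace GrP

variable {α : Type} {R : α → α → Prop} {v : α}

theorem con_symm (hs : ∀ x y, R x y → R y x) {y z : α} (h : Con R v y z) : Con R v z y := by
  unfold Con at h ⊢
  induction h with
  | refl => exact ReflTransGen.refl
  | tail _ h2 ih => exact ReflTransGen.head ⟨hs _ _ h2.1, h2.2.2, h2.2.1⟩ ih

theorem con_ne {y z : α} (hy : y ≠ v) (h : Con R v y z) : z ≠ v := by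
  rcases ReflTransGen.cases_tail h with h1 | ⟨s, _, h2⟩
  · rw [h1]
    exact hy
  · exact h2.2.2

theorem con_adj (hs : ∀ x y, R x y → R y x) {y z : α} (hy : R v y) (h : Con R v y z) :
    ∃ u, R z u := by
  rcases ReflTransGen.cases_tail h with h1 | ⟨s, _, h2⟩
  · exact ⟨v, by rw [h1]; exact hs _ _ hy⟩
  · exact ⟨s, hs _ _ h2.1⟩

theorem m2_even (hs : ∀ x y, R x y → R y x) (hi : ∀ x, ¬ R x x) (U : Finset α) :
    Even (m2 R U) := by
  classical
  unfold m2
  rw [even_iff_two_dvd, ← ZMod.natCast_eq_zero_iff, Finset.card_eq_sum_ones, Nat.cast_sum]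
  refine Finset.sum_involution (fun a _ => (a.2, a.1)) ?_ ?_ ?_ ?_
  · intro a _
    decide
  · intro a ha _ hne
    have h1 := (Finset.mem_filter.1 ha).2
    have h2 : a.2 = a.1 := congrArg Prod.fst hne
    rw [h2] at h1
    exact hi _ h1
  · intro a ha
    rw [Finset.mem_filter, Finset.mem_product] at ha ⊢
    exact ⟨⟨ha.1.2, ha.1.1⟩, hs _ _ ha.2⟩
  · intro a _
    rfl

end GrP

open GrP in
theorem t_GR : S_GR1 → S_GR2 → S_GR4 → S_GR := by
  intro h1 h2 h4 α R A hs hi hf hd hsk hc hsp
  classical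
  have hG : Gph R := ⟨hs, hi, hf, hd⟩
  obtain ⟨φ, hφ, hbr, hA⟩ := hsk
  obtain ⟨c, x0, x1, x2, hx0, hx1, hx2, n01, n02, n12⟩ := hsp
  obtain ⟨v, hv⟩ : ∃ v, v = φ c := ⟨_, rfl⟩
  -- the neighbours of v
  obtain ⟨hvC, y0, hy0, y1, hy1, y2, hy2, d01, d02, d12, r0, r1, r2⟩ := (hbr v).2 ⟨c, hv.symm⟩
  have hNf : {y | R v y}.Finite := hf.subset fun y hy => ⟨v, hs _ _ hy⟩
  obtain ⟨a, ha⟩ : ∃ a : Fin 3 → Fin 6, a = ![x0, x1, x2] := ⟨_, rfl⟩
  have hac : ∀ j, a j ≠ c := by
    intro j
    rw [ha]
    fin_cases j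
    · exact hx0
    · exact hx1
    · exact hx2
  have hw : ∀ j, ∃ x, R v x ∧ Con R v x (φ (a j)) := by
    intro j
    rw [hv]
    exact h2 α R A φ hG hφ hbr hA hc c (a j) (hac j)
  choose w hw1 hw2 using hw
  have nA : ∀ i j, i ≠ j → ¬ Con R v (φ (a i)) (φ (a j)) := by
    have key : ∀ i j : Fin 3, i < j → ¬ Con R v (φ (a i)) (φ (a j)) := by
      intro i j hij h
      rw [hv] at h
      have h' := h1 α R A φ hG hφ hbr hA c (a i) (a j) (hac i) (hac j) h
      rw [ha] at h'
      fin_cases i <;> fin_cases j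
      · exact absurd hij (by decide)
      · exact n01 h'
      · exact n02 h'
      · exact absurd hij (by decide)
      · exact absurd hij (by decide)
      · exact n12 h'
      · exact absurd hij (by decide)
      · exact absurd hij (by decide)
      · exact absurd hij (by decide)
    intro i j hij h
    rcases lt_or_gt_of_ne hij with h' | h'
    · exact key i j h' h
    · exact key j i h' (con_symm hs h)
  have nW : ∀ i j, i ≠ j → ¬ Con R v (w i) (w j) := by
    intro i j hij h
    exact nA i j hij (((con_symm hs (hw2 i)).trans h).trans (hw2 j))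
  have hwinj : Function.Injective w := by
    intro i j hij
    by_contra hne
    refine nW i j hne ?_
    rw [hij]
    exact ReflTransGen.refl
  have hrange : ∀ y, R v y → ∃ j, y = w j := by
    have hsub : Set.range w ⊆ {y | R v y} := by
      rintro _ ⟨j, rfl⟩
      exact hw1 j
    have hcard : {y | R v y}.ncard ≤ (Set.range w).ncard := by
      have h3 : (Set.range w).ncard = 3 := by
        rw [← Set.image_univ, Set.ncard_image_of_injective _ hwinj, Set.ncard_univ]
        simp
      rw [h3]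
      exact hd v
    have heq := Set.eq_of_subset_of_ncard_le hsub hcard hNf
    intro y hy
    have h3 : y ∈ Set.range w := by
      rw [heq]
      exact hy
    obtain ⟨j, hj⟩ := h3
    exact ⟨j, hj.symm⟩
  have hNC : ∀ y, R v y → y ∈ Core R := by
    have hsub : ({y0, y1, y2} : Set α) ⊆ {y | R v y} := by
      intro y hy
      rcases hy with rfl | rfl | rfl
      · exact r0
      · exact r1
      · exact r2
    have hcard : {y | R v y}.ncard ≤ ({y0, y1, y2} : Set α).ncard := by
      rw [Set.ncard_eq_three.2 ⟨y0, y1, y2, d01, d02, d12, rfl⟩]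
      exact hd v
    have heq := Set.eq_of_subset_of_ncard_le hsub hcard hNf
    intro y hy
    have h3 : y ∈ ({y0, y1, y2} : Set α) := by
      rw [heq]
      exact hy
    rcases h3 with rfl | rfl | rfl
    · exact hy0
    · exact hy1
    · exact hy2
  have hwv : ∀ j, w j ≠ v := by
    intro j h
    have h3 := hw1 j
    rw [h] at h3
    exact hi v h3
  have hUf : ∀ j, {y | Con R v (w j) y}.Finite := fun j =>
    hf.subset fun y hy => con_adj hs (hw1 j) hy
  obtain ⟨U, hU⟩ : ∃ U : Fin 3 → Finset α, U = fun j => (hUf j).toFinset := ⟨_, rfl⟩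
  have mU : ∀ j y, y ∈ U j ↔ Con R v (w j) y := by
    intro j y
    rw [hU]
    exact Set.Finite.mem_toFinset _
  have tail : ∀ j, Tail R (U j) v (w j) := by
    intro j
    refine ⟨?_, ?_, hw1 j, ?_⟩
    · rw [mU]
      exact fun h => con_ne (hwv j) h rfl
    · rw [mU]
      exact ReflTransGen.refl
    · intro x hx y hxy
      rw [mU] at hx
      by_cases hyv : y = v
      · right
        rw [hyv] at hxy
        obtain ⟨i, hi'⟩ := hrange x (hs _ _ hxy)
        refine ⟨?_, hyv⟩
        by_contra hne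
        have hij : j ≠ i := by
          rintro rfl
          exact hne hi'
        rw [hi'] at hx
        exact nW j i hij hx
      · left
        rw [mU]
        exact ReflTransGen.tail hx ⟨hxy, con_ne (hwv j) hx, hyv⟩
  obtain ⟨b, hb⟩ : ∃ b : Fin 3 → ℕ, ∀ j, b j = {y | y ∈ U j ∧ Branch R y}.ncard :=
    ⟨_, fun _ => rfl⟩
  have hm : ∀ j, (m2 R (U j) : ℤ) = 2 * (U j).card + (b j : ℤ) - 1 := by
    intro j
    rw [hb j]
    exact h4 α R (U j) v (w j) hG (tail j) hvC (hNC _ (hw1 j)) (fun y hy => (mU j y).1 hy)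
  have hodd : ∀ j, ∃ g : ℤ, (b j : ℤ) = 2 * g - 1 := by
    intro j
    obtain ⟨k, hk⟩ := m2_even hs hi (U j)
    have h3 := hm j
    rw [hk] at h3
    push_cast at h3
    exact ⟨k - (U j).card + 1, by linarith⟩
  have hJ' : ∀ i : Fin 6, ∃ j : Fin 3, i ≠ c → Con R v (w j) (φ i) := by
    intro i
    by_cases hic : i = c
    · exact ⟨0, fun h => absurd hic h⟩
    · obtain ⟨x, hx1', hx2'⟩ := h2 α R A φ hG hφ hbr hA hc c i hic
      rw [← hv] at hx1' hx2'
      obtain ⟨j, rfl⟩ := hrange x hx1'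
      exact ⟨j, fun _ => hx2'⟩
  choose J hJ using hJ'
  have hbc : ∀ j, b j = ((Finset.univ.erase c).filter fun i => J i = j).card := by
    intro j
    have hset : {y | y ∈ U j ∧ Branch R y} =
        φ '' (((Finset.univ.erase c).filter fun i => J i = j : Finset (Fin 6)) :
          Set (Fin 6)) := by
      ext y
      constructor
      · rintro ⟨hy, hyb⟩
        obtain ⟨i, rfl⟩ := (hbr y).1 hyb
        rw [mU] at hy
        have hic : i ≠ c := by
          rintro rfl
          exact con_ne (hwv j) hy hv.symm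
        refine ⟨i, ?_, rfl⟩
        rw [Finset.mem_coe, Finset.mem_filter, Finset.mem_erase]
        refine ⟨⟨hic, Finset.mem_univ _⟩, ?_⟩
        by_contra hne
        exact nW (J i) j hne ((hJ i hic).trans (con_symm hs hy))
      · rintro ⟨i, hi', rfl⟩
        rw [Finset.mem_coe, Finset.mem_filter, Finset.mem_erase] at hi'
        obtain ⟨⟨hic, -⟩, rfl⟩ := hi'
        exact ⟨(mU _ _).2 (hJ i hic), (hbr _).2 ⟨i, rfl⟩⟩
    rw [hb, hset, Set.ncard_image_of_injective _ hφ, Set.ncard_coe_finset]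
  have hsum : b 0 + b 1 + b 2 = 5 := by
    have h5 : (Finset.univ.erase c).card = 5 := by
      rw [Finset.card_erase_of_mem (Finset.mem_univ c)]
      rfl
    have h6 := Finset.card_eq_sum_card_fiberwise (f := J) (s := Finset.univ.erase c)
      (t := Finset.univ) (fun _ _ => Finset.mem_coe.2 (Finset.mem_univ _))
    rw [h5, Fin.sum_univ_three] at h6
    rw [hbc 0, hbc 1, hbc 2]
    exact h6.symm
  have hpos : ∀ j, 1 ≤ b j := by
    intro j
    have hne : {y | y ∈ U j ∧ Branch R y}.Nonempty :=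
      ⟨φ (a j), (mU _ _).2 (hw2 j), (hbr _).2 ⟨a j, rfl⟩⟩
    rw [hb]
    exact (Set.ncard_pos ((U j).finite_toSet.subset fun y hy => hy.1)).2 hne
  choose g hg using hodd
  refine ⟨v, w, U, g, hwinj, tail, ?_, ?_, ?_, ?_⟩
  · intro j
    rw [hm j, hg j]
    ring
  · have e0 := hg 0
    have e1 := hg 1
    have e2 := hg 2
    have p0 := hpos 0
    have p1 := hpos 1
    have p2 := hpos 2
    have h7 : (g 0 = 2 ∧ g 1 = 1 ∧ g 2 = 1) ∨ (g 0 = 1 ∧ g 1 = 2 ∧ g 2 = 1) ∨
        (g 0 = 1 ∧ g 1 = 1 ∧ g 2 = 2) := by omega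
    rcases h7 with ⟨q0, q1, q2⟩ | ⟨q0, q1, q2⟩ | ⟨q0, q1, q2⟩
    · refine ⟨0, q0, ?_⟩
      intro j hj
      fin_cases j
      · exact absurd rfl hj
      · exact q1
      · exact q2
    · refine ⟨1, q1, ?_⟩
      intro j hj
      fin_cases j
      · exact q0
      · exact absurd rfl hj
      · exact q2
    · refine ⟨2, q2, ?_⟩
      intro j hj
      fin_cases j
      · exact q0
      · exact q1
      · exact absurd rfl hj
  · intro j y hy
    exact con_adj hs (hw1 j) ((mU j y).1 hy)
  · intro y z hyz hy hz h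
    obtain ⟨i, rfl⟩ := hrange y hy
    obtain ⟨j, rfl⟩ := hrange z hz
    exact nW i j (fun h' => hyz (by rw [h'])) h

end Pool.Agent.R863.TG
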