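import Pool.Agent.R863.TG.Stm

/-! TG-GR1: branch vertices that are connected in `R - v` are connected in `A - c`. -/

set_option autoImplicit false

namespace Pool.Agent.R863.TG

open Relation

namespace GR1

variable {α : Type} {R : α → α → Prop}

theorem core_two {u : α} (hu : u ∈ Core R) :
    ∃ y ∈ Core R, ∃ z ∈ Core R, y ≠ z ∧ R u y ∧ R u z := by
  obtain ⟨U, huU, hU⟩ := hu
  obtain ⟨y, hy, z, hz, h⟩ := hU u huU
  exact ⟨y, ⟨U, hy, hU⟩, z, ⟨U, hz, hU⟩, h⟩

/-- the graph `R - v` -/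
def gr (hR : Gph R) (v : α) : SimpleGraph α where
  Adj s t := R s t ∧ s ≠ v ∧ t ≠ v
  symm := ⟨fun _ _ h => ⟨hR.symm _ _ h.1, h.2.2, h.2.1⟩⟩
  loopless := ⟨fun _ h => hR.irrefl _ h.1⟩

theorem supp_ne (hR : Gph R) (v : α) {x y : α} (p : (gr hR v).Walk x y) (hx : x ≠ v) :
    ∀ w ∈ p.support, w ≠ v := by
  induction p with
  | nil => intro w hw; simp only [SimpleGraph.Walk.support_nil, List.mem_singleton] at hw; rwa [hw]
  | cons h p ih =>
    intro w hw
    rw [SimpleGraph.Walk.support_cons, List.mem_cons] at hw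
    rcases hw with rfl | hw
    · exact hx
    · exact ih h.2.2 w hw

theorem supp_core (hR : Gph R) (v : α) {x y : α} (p : (gr hR v).Walk x y) (hp : p.IsPath)
    (hx : x ∈ Core R) (hy : y ∈ Core R) : ∀ w ∈ p.support, w ∈ Core R := by
  intro w hw
  refine ⟨Core R ∪ {w | w ∈ p.support}, Or.inr hw, ?_⟩
  intro u hu
  have hcore : u ∈ Core R → ∃ y ∈ Core R ∪ {w | w ∈ p.support},
      ∃ z ∈ Core R ∪ {w | w ∈ p.support}, y ≠ z ∧ R u y ∧ R u z := by
    intro h
    obtain ⟨a, ha, b, hb, h⟩ := core_two h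
    exact ⟨a, Or.inl ha, b, Or.inl hb, h⟩
  rcases hu with hu | hu
  · exact hcore hu
  · obtain ⟨k, hk, hkl⟩ := (SimpleGraph.Walk.mem_support_iff_exists_getVert).1 hu
    by_cases h0 : k = 0
    · subst h0
      rw [SimpleGraph.Walk.getVert_zero] at hk
      exact hcore (hk ▸ hx)
    by_cases h1 : k = p.length
    · subst h1
      rw [SimpleGraph.Walk.getVert_length] at hk
      exact hcore (hk ▸ hy)
    have hlt : k < p.length := lt_of_le_of_ne hkl h1
    refine ⟨p.getVert (k - 1), Or.inr (p.getVert_mem_support _), p.getVert (k + 1),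
      Or.inr (p.getVert_mem_support _), ?_, ?_, ?_⟩
    · intro he
      have := hp.getVert_injOn (show k - 1 ∈ {i | i ≤ p.length} by simp; omega)
        (show k + 1 ∈ {i | i ≤ p.length} by simp; omega) he
      omega
    · have h2 := p.adj_getVert_succ (i := k - 1) (by omega)
      rw [show k - 1 + 1 = k by omega, hk] at h2
      exact hR.symm _ _ h2.1
    · have h2 := p.adj_getVert_succ (i := k) hlt
      rw [hk] at h2
      exact h2.1

/-- branch vertices joined by a path of the core -/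
def Rel (R : α → α → Prop) (v s t : α) : Prop :=
  Branch R s ∧ s ≠ v ∧ t ≠ v ∧ ∃ x ∈ Core R, Leads R s x t

theorem main (hR : Gph R) (v : α) {x y : α} (p : (gr hR v).Walk x y) (hp : p.IsPath)
    (hc : ∀ w ∈ p.support, w ∈ Core R) (hv : ∀ w ∈ p.support, w ≠ v) (hy : Branch R y) :
    (Branch R x → ReflTransGen (Rel R v) x y) ∧
    ∀ u, R u x → u ∉ p.support → ∃ b, Leads R u x b ∧ b ≠ v ∧
      ReflTransGen (Rel R v) b y := by
  induction p with
  | nil =>
    refine ⟨fun _ => ReflTransGen.refl, fun u hu _ => ⟨_, Leads.stop u _ hu hy, ?_,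
      ReflTransGen.refl⟩⟩
    exact hv _ (by simp)
  | @cons x z y h p ih =>
    rw [SimpleGraph.Walk.cons_isPath_iff] at hp
    rw [SimpleGraph.Walk.support_cons] at hc hv
    obtain ⟨-, ih2⟩ := ih hp.1 (fun w hw => hc w (List.mem_cons_of_mem _ hw))
      (fun w hw => hv w (List.mem_cons_of_mem _ hw)) hy
    obtain ⟨b, hb, hbv, hby⟩ := ih2 x h.1 hp.2
    have hzc : z ∈ Core R := hc z (List.mem_cons_of_mem _ p.start_mem_support)
    have hxv : x ≠ v := hv x (List.mem_cons_self)
    have h1 : Branch R x → ReflTransGen (Rel R v) x y := fun hx =>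
      ReflTransGen.head ⟨hx, hxv, hbv, z, hzc, hb⟩ hby
    refine ⟨h1, fun u hu hus => ?_⟩
    rw [SimpleGraph.Walk.support_cons, List.mem_cons, not_or] at hus
    by_cases hx : Branch R x
    · exact ⟨x, Leads.stop u x hu hx, hxv, h1 hx⟩
    · refine ⟨b, Leads.step u x z b hu hx h.1 hzc ?_ hb, hbv, hby⟩
      rintro rfl
      exact hus.2 p.start_mem_support

theorem leads_adj {u x v : α} (h : Leads R u x v) : R u x := by
  cases h <;> assumption

end GR1

theorem t_GR1 : S_GR1 := by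
  intro α R A φ hR hφ hbr hA c i j hi hj hcon
  have hbi : Branch R (φ i) := (hbr _).2 ⟨i, rfl⟩
  have hbj : Branch R (φ j) := (hbr _).2 ⟨j, rfl⟩
  have hreach : (GR1.gr hR (φ c)).Reachable (φ i) (φ j) := by
    rw [SimpleGraph.reachable_iff_reflTransGen]
    exact hcon
  obtain ⟨p, hp⟩ := hreach.exists_isPath
  have hv := GR1.supp_ne hR (φ c) p (fun h => hi (hφ h))
  have hc := GR1.supp_core hR (φ c) p hp hbi.1 hbj.1
  have hmain := (GR1.main hR (φ c) p hp hc hv hbj).1 hbi
  have key : ∀ t, ReflTransGen (GR1.Rel R (φ c)) (φ i) t → ∀ j, t = φ j →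
      ReflTransGen (fun a b => A a b ≠ 0 ∧ a ≠ c ∧ b ≠ c) i j := by
    intro t ht
    induction ht with
    | refl => intro j h; rw [hφ h]
    | @tail s t _ hst ih =>
      intro j h
      obtain ⟨hbs, hs, ht, x, hx, hl⟩ := hst
      obtain ⟨a, rfl⟩ := (hbr s).1 hbs
      subst h
      refine (ih a rfl).tail ⟨?_, fun h => hs (by rw [h]), fun h => ht (by rw [h])⟩
      rw [← hA a j]
      have hfin : {x | x ∈ Core R ∧ Leads R (φ a) x (φ j)}.Finite := by
        refine hR.fin.subset ?_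
        rintro w ⟨-, hw⟩
        exact ⟨φ a, hR.symm _ _ (GR1.leads_adj hw)⟩
      have hne : {x | x ∈ Core R ∧ Leads R (φ a) x (φ j)}.Nonempty := ⟨x, hx, hl⟩
      exact ((Set.ncard_pos hfin).2 hne).ne'
  exact key _ hmain j rfl

end Pool.Agent.R863.TG
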