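import Pool.Agent.R863.TG.Stm

set_option autoImplicit false

namespace Pool.Agent.R863.TG

open Relation

namespace GR2

theorem con_symm {α : Type} {R : α → α → Prop} (hs : ∀ x y, R x y → R y x) {v y z : α}
    (h : Con R v y z) : Con R v z y := by
  induction h with
  | refl => exact ReflTransGen.refl
  | tail _ h ih => exact ReflTransGen.head ⟨hs _ _ h.1, h.2.2, h.2.1⟩ ih

theorem leads_ne {α : Type} {R : α → α → Prop} {u x w v : α} (hv : Branch R v)
    (h : Leads R u x w) : u ≠ v → w ≠ v → Con R v u w := by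
  induction h with
  | stop u x h1 h2 =>
    intro hu hw
    exact ReflTransGen.single ⟨h1, hu, hw⟩
  | step u x y w h1 h2 _ _ _ _ ih =>
    intro hu hw
    have hx : x ≠ v := fun e => h2 (e ▸ hv)
    exact ReflTransGen.head ⟨h1, hu, hx⟩ (ih hx hw)

theorem leads_eq {α : Type} {R : α → α → Prop} (hs : ∀ x y, R x y → R y x) {u x w v : α}
    (hv : Branch R v) (h : Leads R u x w) : u ≠ v → w = v → ∃ x', R v x' ∧ Con R v x' u := by
  induction h with
  | stop u x h1 h2 =>
    intro hu hw
    subst hw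
    exact ⟨u, hs _ _ h1, ReflTransGen.refl⟩
  | step u x y w h1 h2 _ _ _ _ ih =>
    intro hu hw
    have hx : x ≠ v := fun e => h2 (e ▸ hv)
    obtain ⟨x', h3, h4⟩ := ih hx hw
    exact ⟨x', h3, ReflTransGen.tail h4 ⟨hs _ _ h1, hx, hu⟩⟩

end GR2

theorem t_GR2 : S_GR2 := by
  intro α R A φ hG hφ hB hA hC c i hic
  have hv : Branch R (φ c) := (hB _).2 ⟨c, rfl⟩
  have key : ∀ a, ReflTransGen (fun a b => A a b ≠ 0) a c →
      a ≠ c → ∃ x, R (φ c) x ∧ Con R (φ c) x (φ a) := by
    intro a ha
    induction ha using ReflTransGen.head_induction_on with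
    | refl => exact fun h => absurd rfl h
    | head hab hbc0 ih =>
      rename_i a b
      intro hac
      have h1 : {x | x ∈ Core R ∧ Leads R (φ a) x (φ b)}.ncard ≠ 0 := by
        rw [hA]
        exact hab
      obtain ⟨x, _, hx⟩ := Set.nonempty_of_ncard_ne_zero h1
      have hne : φ a ≠ φ c := fun h => hac (hφ h)
      by_cases hbc : b = c
      · exact GR2.leads_eq hG.symm hv hx hne (by rw [hbc])
      · obtain ⟨y, hy1, hy2⟩ := ih hbc
        have h2 := GR2.leads_ne hv hx hne fun h => hbc (hφ h)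
        exact ⟨y, hy1, hy2.trans (GR2.con_symm hG.symm h2)⟩
  exact key i (hC.conn i c) hic

end Pool.Agent.R863.TG
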