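import Pool.Agent.R863.TG.Stm

set_option autoImplicit false

namespace Pool.Agent.R863.TG

open Relation

open Classical in
/-- number of neighbours in `S` -/
noncomputable def GR4_d {α : Type} (R : α → α → Prop) (S : Finset α) (y : α) : ℕ :=
  (S.filter fun z => R y z).card

theorem GR4_sum {α : Type} (R : α → α → Prop) (S : Finset α) :
    m2 R S = ∑ y ∈ S, GR4_d R S y := by
  classical
  unfold m2 GR4_d
  rw [Finset.card_filter, Finset.sum_product]
  refine Finset.sum_congr rfl fun y _ => ?_
  rw [Finset.card_filter]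

theorem GR4_dins {α : Type} [DecidableEq α] (R : α → α → Prop) (S : Finset α) (y a : α)
    (hy : y ∉ S) [Decidable (R a y)] :
    GR4_d R (insert y S) a = GR4_d R S a + (if R a y then 1 else 0) := by
  classical
  unfold GR4_d
  rw [Finset.filter_insert]
  split_ifs with h
  · rw [Finset.card_insert_of_notMem (by
      intro h2; exact hy (Finset.mem_filter.mp h2).1)]
  · rfl

theorem GR4_insert {α : Type} [DecidableEq α] (R : α → α → Prop) (hs : ∀ x y, R x y → R y x)
    (hi : ∀ x, ¬ R x x) (S : Finset α) (y : α) (hy : y ∉ S) :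
    m2 R (insert y S) = m2 R S + 2 * GR4_d R S y := by
  classical
  rw [GR4_sum, GR4_sum, Finset.sum_insert hy, GR4_dins R S y y hy, if_neg (hi y)]
  have h1 : ∑ a ∈ S, GR4_d R (insert y S) a
      = ∑ a ∈ S, (GR4_d R S a + (if R a y then 1 else 0)) :=
    Finset.sum_congr rfl fun a _ => GR4_dins R S y a hy
  rw [h1, Finset.sum_add_distrib]
  have h2 : ∑ a ∈ S, (if R a y then 1 else 0) = GR4_d R S y := by
    unfold GR4_d
    rw [Finset.card_filter]
    refine Finset.sum_congr rfl fun a _ => ?_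
    by_cases h : R a y
    · rw [if_pos h, if_pos (hs _ _ h)]
    · rw [if_neg h, if_neg (fun h' => h (hs _ _ h'))]
  rw [h2]; ring

theorem GR4_mono {α : Type} (R : α → α → Prop) (S T : Finset α) (h : S ⊆ T) (y : α) :
    GR4_d R S y ≤ GR4_d R T y := by
  classical
  unfold GR4_d
  exact Finset.card_le_card (Finset.filter_subset_filter _ h)

theorem GR4_exit {α : Type} (r : α → α → Prop) (S : Finset α) (x y : α)
    (h : ReflTransGen r x y) (hx : x ∈ S) (hy : y ∉ S) : ∃ a b, r a b ∧ a ∈ S ∧ b ∉ S := by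
  induction h with
  | refl => exact absurd hx hy
  | tail h1 h2 ih =>
    rename_i b c
    by_cases hb : b ∈ S
    · exact ⟨b, c, h2, hb, hy⟩
    · exact ih hb

theorem GR4_core {α : Type} (R : α → α → Prop) (u : α) (hu : u ∈ Core R) :
    ∃ y ∈ Core R, ∃ z ∈ Core R, y ≠ z ∧ R u y ∧ R u z := by
  obtain ⟨W, hW, hall⟩ := hu
  obtain ⟨y, hy, z, hz, h1, h2, h3⟩ := hall u hW
  exact ⟨y, ⟨W, hy, hall⟩, z, ⟨W, hz, hall⟩, h1, h2, h3⟩

theorem GR4_grow {α : Type} [DecidableEq α] (R : α → α → Prop) (hs : ∀ x y, R x y → R y x)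
    (hi : ∀ x, ¬ R x x) (U : Finset α) (v x : α) (ht : Tail R U v x)
    (hcon : ∀ y ∈ U, Con R v x y) : ∀ (n : ℕ) (S : Finset α), x ∈ S → S ⊆ U →
    (U \ S).card = n → m2 R S + 2 * U.card ≤ m2 R U + 2 * S.card := by
  classical
  intro n
  induction n with
  | zero =>
    intro S hx hSU hn
    have h1 : U ⊆ S := by
      rw [Finset.card_eq_zero, Finset.sdiff_eq_empty_iff_subset] at hn; exact hn
    have h2 : S = U := Finset.Subset.antisymm hSU h1
    rw [h2]
  | succ n ih =>
    intro S hx hSU hn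
    have hne : (U \ S).Nonempty := by
      rw [← Finset.card_pos]; omega
    obtain ⟨y0, hy0⟩ := hne
    rw [Finset.mem_sdiff] at hy0
    obtain ⟨a, b, ⟨hab, hav, hbv⟩, haS, hbS⟩ := GR4_exit _ S x y0 (hcon y0 hy0.1) hx hy0.2
    have hbU : b ∈ U := by
      rcases ht.2.2.2 a (hSU haS) b hab with h | h
      · exact h
      · exact absurd h.2 hbv
    have h1 := ih (insert b S) (Finset.mem_insert_of_mem hx)
      (Finset.insert_subset hbU hSU) (by
        rw [Finset.card_sdiff_of_subset (Finset.insert_subset hbU hSU),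
          Finset.card_insert_of_notMem hbS]
        rw [Finset.card_sdiff_of_subset hSU] at hn
        omega)
    rw [GR4_insert R hs hi S b hbS, Finset.card_insert_of_notMem hbS] at h1
    have h2 : 1 ≤ GR4_d R S b := by
      unfold GR4_d
      rw [Nat.one_le_iff_ne_zero, ← Nat.pos_iff_ne_zero, Finset.card_pos]
      exact ⟨a, Finset.mem_filter.mpr ⟨haS, hs _ _ hab⟩⟩
    omega

theorem GR4_shrink {α : Type} [DecidableEq α] (R : α → α → Prop) (hs : ∀ x y, R x y → R y x)
    (hi : ∀ x, ¬ R x x) (U C : Finset α) (hC : ∀ y, y ∈ C ↔ y ∈ U ∧ y ∈ Core R) :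
    ∀ (n : ℕ) (S : Finset α), C ⊆ S → S ⊆ U →
    (S \ C).card = n → m2 R S + 2 * C.card ≤ m2 R C + 2 * S.card := by
  classical
  intro n
  induction n with
  | zero =>
    intro S hCS hSU hn
    have h1 : S ⊆ C := by
      rw [Finset.card_eq_zero, Finset.sdiff_eq_empty_iff_subset] at hn; exact hn
    have h2 : S = C := Finset.Subset.antisymm h1 hCS
    rw [h2]
  | succ n ih =>
    intro S hCS hSU hn
    have hex : ∃ y ∈ S \ C, GR4_d R S y ≤ 1 := by
      by_contra hno
      push Not at hno
      have hne : (S \ C).Nonempty := by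
        rw [← Finset.card_pos]; omega
      obtain ⟨y0, hy0⟩ := hne
      have hw : y0 ∈ Core R := by
        refine ⟨(S : Set α) ∪ Core R, Or.inl (by
          exact_mod_cast (Finset.mem_sdiff.mp hy0).1), ?_⟩
        intro u hu
        by_cases huc : u ∈ Core R
        · obtain ⟨y, hy, z, hz, h1, h2, h3⟩ := GR4_core R u huc
          exact ⟨y, Or.inr hy, z, Or.inr hz, h1, h2, h3⟩
        · have huS : u ∈ S := by
            rcases hu with h | h
            · exact_mod_cast h
            · exact absurd h huc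
          have h4 := hno u (Finset.mem_sdiff.mpr ⟨huS, fun h => huc ((hC u).mp h).2⟩)
          unfold GR4_d at h4
          obtain ⟨y, z, hy, hz, hyz⟩ := Finset.one_lt_card_iff.mp h4
          rw [Finset.mem_filter] at hy hz
          exact ⟨y, Or.inl (by exact_mod_cast hy.1), z, Or.inl (by exact_mod_cast hz.1), hyz,
            hy.2, hz.2⟩
      rw [Finset.mem_sdiff] at hy0
      exact hy0.2 ((hC y0).mpr ⟨hSU hy0.1, hw⟩)
    obtain ⟨y, hy, hd⟩ := hex
    rw [Finset.mem_sdiff] at hy
    have hCS' : C ⊆ S.erase y := by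
      intro z hz
      rw [Finset.mem_erase]
      exact ⟨fun h => hy.2 (h ▸ hz), hCS hz⟩
    have h1 := ih (S.erase y) hCS' ((Finset.erase_subset _ _).trans hSU) (by
      rw [Finset.card_sdiff_of_subset hCS', Finset.card_erase_of_mem hy.1]
      rw [Finset.card_sdiff_of_subset hCS] at hn
      omega)
    have h2 := GR4_insert R hs hi (S.erase y) y (Finset.notMem_erase y S)
    rw [Finset.insert_erase hy.1] at h2
    have h3 := GR4_mono R (S.erase y) S (Finset.erase_subset _ _) y
    have h4 := Finset.card_erase_of_mem hy.1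
    have h5 : 0 < S.card := Finset.card_pos.mpr ⟨y, hy.1⟩
    omega

theorem t_GR4 : S_GR4 := by
  classical
  intro α R U v x hG ht hv hx hcon
  obtain ⟨hvU, hxU, hvx, hcl⟩ := ht
  obtain ⟨C, hCd⟩ : ∃ C : Finset α, C = U.filter (fun y => y ∈ Core R) := ⟨_, rfl⟩
  have hC : ∀ y, y ∈ C ↔ y ∈ U ∧ y ∈ Core R := by
    intro y; rw [hCd, Finset.mem_filter]
  have hCU : C ⊆ U := fun y hy => ((hC y).mp hy).1
  have hxC : x ∈ C := (hC x).mpr ⟨hxU, hx⟩
  have h1 := GR4_grow R hG.symm hG.irrefl U v x ⟨hvU, hxU, hvx, hcl⟩ hcon _ C hxC hCU rfl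
  have h2 := GR4_shrink R hG.symm hG.irrefl U C hC _ U hCU (Finset.Subset.refl U) rfl
  have hdeg : ∀ y ∈ C, GR4_d R C y + (if y = x then 1 else 0)
      = 2 + (if Branch R y then 1 else 0) := by
    intro y hy
    obtain ⟨hyU, hyc⟩ := (hC y).mp hy
    obtain ⟨K, hK⟩ : ∃ K : Finset α, K = (insert v U).filter (fun z => z ∈ Core R ∧ R y z) :=
      ⟨_, rfl⟩
    have hKm : ∀ z, z ∈ K ↔ z ∈ Core R ∧ R y z := by
      intro z
      rw [hK, Finset.mem_filter, Finset.mem_insert]
      constructor
      · exact fun h => h.2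
      · intro h
        refine ⟨?_, h⟩
        rcases hcl y hyU z h.2 with h3 | h3
        · exact Or.inr h3
        · exact Or.inl h3.2
    have hK3 : K.card ≤ 3 := by
      have hfin : {z | R y z}.Finite := by
        refine Set.Finite.subset (insert v U).finite_toSet ?_
        intro z hz
        have : z ∈ insert v U := by
          rw [Finset.mem_insert]
          rcases hcl y hyU z hz with h3 | h3
          · exact Or.inr h3
          · exact Or.inl h3.2
        exact_mod_cast this
      have h3 : (K : Set α).ncard ≤ {z | R y z}.ncard := by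
        refine Set.ncard_le_ncard ?_ hfin
        intro z hz
        exact ((hKm z).mp (by exact_mod_cast hz)).2
      rw [Set.ncard_coe_finset] at h3
      exact h3.trans (hG.deg y)
    have hK2 : 2 ≤ K.card := by
      obtain ⟨a, ha, b, hb, hab, h3, h4⟩ := GR4_core R y hyc
      have : 1 < K.card := Finset.one_lt_card_iff.mpr
        ⟨a, b, (hKm a).mpr ⟨ha, h3⟩, (hKm b).mpr ⟨hb, h4⟩, hab⟩
      omega
    have hKB : Branch R y ↔ 2 < K.card := by
      rw [Finset.two_lt_card_iff]
      constructor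
      · rintro ⟨-, a, ha, b, hb, c, hc, hab, hac, hbc, r1, r2, r3⟩
        exact ⟨a, b, c, (hKm a).mpr ⟨ha, r1⟩, (hKm b).mpr ⟨hb, r2⟩, (hKm c).mpr ⟨hc, r3⟩,
          hab, hac, hbc⟩
      · rintro ⟨a, b, c, ha, hb, hc, hab, hac, hbc⟩
        exact ⟨hyc, a, ((hKm a).mp ha).1, b, ((hKm b).mp hb).1, c, ((hKm c).mp hc).1, hab, hac,
          hbc, ((hKm a).mp ha).2, ((hKm b).mp hb).2, ((hKm c).mp hc).2⟩
    have hKd : K.card = GR4_d R C y + (if y = x then 1 else 0) := by
      have h5 : U.filter (fun z => z ∈ Core R ∧ R y z) = C.filter (fun z => R y z) := by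
        ext z
        rw [Finset.mem_filter, Finset.mem_filter, hC]
        tauto
      rw [hK, Finset.filter_insert]
      by_cases hyx : y = x
      · have hr : v ∈ Core R ∧ R y v := ⟨hv, by rw [hyx]; exact hG.symm _ _ hvx⟩
        rw [if_pos hr, if_pos hyx, Finset.card_insert_of_notMem (by
          intro h6; exact hvU (Finset.mem_filter.mp h6).1), h5]
        rfl
      · have hr : ¬ (v ∈ Core R ∧ R y v) := by
          rintro ⟨-, h6⟩
          rcases hcl y hyU v h6 with h7 | h7
          · exact hvU h7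
          · exact hyx h7.1
        rw [if_neg hr, if_neg hyx, h5]
        rfl
    rw [← hKd]
    by_cases hB : Branch R y
    · rw [if_pos hB]
      have := hKB.mp hB
      omega
    · rw [if_neg hB]
      have : ¬ 2 < K.card := fun h => hB (hKB.mpr h)
      omega
  have hsum : m2 R C + 1 = 2 * C.card + (C.filter (fun y => Branch R y)).card := by
    have h3 : ∑ y ∈ C, (GR4_d R C y + (if y = x then 1 else 0))
        = ∑ y ∈ C, (2 + (if Branch R y then 1 else 0)) := Finset.sum_congr rfl hdeg
    rw [Finset.sum_add_distrib, Finset.sum_add_distrib, ← GR4_sum, Finset.sum_const,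
      Finset.sum_ite_eq' C x (fun _ => 1), if_pos hxC, smul_eq_mul] at h3
    rw [Finset.card_filter]
    linarith
  have hn : {y | y ∈ U ∧ Branch R y}.ncard = (C.filter (fun y => Branch R y)).card := by
    rw [← Set.ncard_coe_finset]
    congr 1
    ext y
    rw [Finset.coe_filter]
    simp only [Set.mem_ofPred_eq, hC]
    constructor
    · rintro ⟨h3, h4⟩
      exact ⟨⟨h3, h4.1⟩, h4⟩
    · rintro ⟨⟨h3, _⟩, h4⟩
      exact ⟨h3, h4⟩
  rw [hn]
  have e1 : (m2 R C : ℤ) + 2 * U.card ≤ m2 R U + 2 * C.card := by exact_mod_cast h1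
  have e2 : (m2 R U : ℤ) + 2 * C.card ≤ m2 R C + 2 * U.card := by exact_mod_cast h2
  have e3 : (m2 R C : ℤ) + 1 = 2 * C.card + (C.filter (fun y => Branch R y)).card := by
    exact_mod_cast hsum
  linarith

end Pool.Agent.R863.TG
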