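import Mathlib
import Pool.Agent.R863.TG.Stm

set_option autoImplicit false

namespace Pool.Agent.R863.TG

open Relation

namespace LVL

open Classical in
/-- indicator of a relation -/
noncomputable def ri {α : Type} (R : α → α → Prop) (x y : α) : ℕ := if R x y then 1 else 0

theorem m2_eq {α : Type} (R : α → α → Prop) (U : Finset α) :
    m2 R U = ∑ x ∈ U, ∑ y ∈ U, ri R x y := by
  classical
  unfold m2 ri
  rw [Finset.card_filter, Finset.sum_product]

open Classical in
theorem m2_insert {α : Type} (R : α → α → Prop) (hs : ∀ x y, R x y → R y x)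
    (hi : ∀ x, ¬ R x x) (U : Finset α) (z : α) (hz : z ∉ U) :
    m2 R (insert z U) = m2 R U + 2 * ∑ y ∈ U, ri R z y := by
  have hzz : ri R z z = 0 := by simp [ri, hi z]
  have hsymm : ∀ x y, ri R x y = ri R y x := by
    intro x y
    unfold ri
    by_cases h : R x y
    · rw [if_pos h, if_pos (hs x y h)]
    · rw [if_neg h, if_neg (fun h' => h (hs y x h'))]
  rw [m2_eq, m2_eq, Finset.sum_insert hz, Finset.sum_insert hz, hzz]
  have h1 : ∑ x ∈ U, ∑ y ∈ insert z U, ri R x y =
      ∑ x ∈ U, ri R z x + ∑ x ∈ U, ∑ y ∈ U, ri R x y := by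
    rw [← Finset.sum_add_distrib]
    refine Finset.sum_congr rfl fun x _ => ?_
    rw [Finset.sum_insert hz, hsymm x z]
  rw [h1]
  ring

theorem m2_even {α : Type} (R : α → α → Prop) (hs : ∀ x y, R x y → R y x)
    (hi : ∀ x, ¬ R x x) (U : Finset α) : Even (m2 R U) := by
  classical
  induction U using Finset.induction_on with
  | empty => simp [m2_eq]
  | insert z U hz ih =>
    rw [m2_insert R hs hi U z hz]
    exact ih.add (even_two_mul _)

/-- minimal dense subset -/
theorem exists_min {α : Type} (R : α → α → Prop) (hs : ∀ x y, R x y → R y x)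
    (hi : ∀ x, ¬ R x x) (U : Finset α) (hne : U.Nonempty) (hm : 2 * U.card ≤ m2 R U) :
    ∃ Z ⊆ U, Z.Nonempty ∧ (∀ Z' ⊂ Z, Z'.Nonempty → m2 R Z' < 2 * Z'.card) ∧
      ∀ z ∈ Z, 2 ≤ ∑ y ∈ Z, ri R z y := by
  classical
  obtain ⟨Z, hZ, hmin⟩ := Finset.exists_min_image
    ((U.powerset).filter (fun Z => Z.Nonempty ∧ 2 * Z.card ≤ m2 R Z)) Finset.card
    ⟨U, by simp [hne, hm]⟩
  rw [Finset.mem_filter, Finset.mem_powerset] at hZ
  obtain ⟨hZU, hZne, hZm⟩ := hZ
  have hmin' : ∀ Z' ⊂ Z, Z'.Nonempty → m2 R Z' < 2 * Z'.card := by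
    intro Z' hZ' hne'
    by_contra hcon
    push Not at hcon
    have := hmin Z' (by
      rw [Finset.mem_filter, Finset.mem_powerset]
      exact ⟨hZ'.1.trans hZU, hne', hcon⟩)
    exact absurd (Finset.card_lt_card hZ') (by omega)
  refine ⟨Z, hZU, hZne, hmin', ?_⟩
  intro z hz
  have hzz : ri R z z = 0 := by simp [ri, hi z]
  have h1 : insert z (Z.erase z) = Z := Finset.insert_erase hz
  have h2 := m2_insert R hs hi (Z.erase z) z (Finset.notMem_erase z Z)
  rw [h1] at h2
  have h3 : ∑ y ∈ Z, ri R z y = ∑ y ∈ Z.erase z, ri R z y := by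
    rw [← Finset.add_sum_erase Z _ hz, hzz, zero_add]
  have h4 : (Z.erase z).card + 1 = Z.card := Finset.card_erase_add_one hz
  rw [h3]
  by_contra hcon
  push Not at hcon
  by_cases hem : (Z.erase z).Nonempty
  · have := hmin' _ (Finset.erase_ssubset hz) hem
    omega
  · rw [Finset.not_nonempty_iff_eq_empty] at hem
    have h5 : Z.card = 1 := by
      rw [hem, Finset.card_empty] at h4
      omega
    have h6 : m2 R Z = 0 := by
      rw [h2, hem]
      simp [m2_eq]
    omega

/-- the function `f` is constant on a minimal dense subset -/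
theorem const {α : Type} (R : α → α → Prop) (hs : ∀ x y, R x y → R y x)
    (hi : ∀ x, ¬ R x x) (U Z : Finset α) (hZU : Z ⊆ U) (hne : Z.Nonempty)
    (hmin : ∀ Z' ⊂ Z, Z'.Nonempty → m2 R Z' < 2 * Z'.card)
    (hdeg : ∀ z ∈ Z, 2 ≤ ∑ y ∈ Z, ri R z y)
    (f : α → ℝ) (g : α → α → ℤ) (hg : ∀ x y, g y x = - g x y)
    (hf : ∀ x y, R x y → f y < f x → g x y ≤ -1) (hf0 : ∀ x y, ¬ R x y → g x y = 0)
    (hb : ∀ S ⊆ U, -1 ≤ ∑ x ∈ S, ∑ y ∈ U, g x y) :
    ∃ c, ∀ z ∈ Z, f z = c := by
  classical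
  obtain ⟨z0, hz0, hmax⟩ := Finset.exists_max_image Z f hne
  refine ⟨f z0, ?_⟩
  by_contra hcon
  push Not at hcon
  obtain ⟨z1, hz1, hz1'⟩ := hcon
  set Zt := Z.filter (fun z => f z0 ≤ f z) with hZt
  have hZt1 : Zt ⊂ Z := by
    refine Finset.filter_ssubset.2 ⟨z1, hz1, ?_⟩
    intro h
    exact hz1' (le_antisymm (hmax z1 hz1) h)
  have hZt2 : Zt.Nonempty := ⟨z0, by simp [hZt, hz0]⟩
  have h1 := hmin Zt hZt1 hZt2
  have h2 := m2_even R hs hi Zt
  set S := U.filter (fun z => f z0 ≤ f z) with hS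
  have hSU : S ⊆ U := Finset.filter_subset _ _
  have h3 := hb S hSU
  have h4 : ∑ x ∈ S, ∑ y ∈ S, g x y = 0 := by
    have e1 : ∑ x ∈ S, ∑ y ∈ S, g x y = ∑ x ∈ S, ∑ y ∈ S, g y x := Finset.sum_comm
    have e2 : ∑ x ∈ S, ∑ y ∈ S, g y x = - ∑ x ∈ S, ∑ y ∈ S, g x y := by
      rw [← Finset.sum_neg_distrib]
      refine Finset.sum_congr rfl fun x _ => ?_
      rw [← Finset.sum_neg_distrib]
      exact Finset.sum_congr rfl fun y _ => hg x y
    omega
  have h5 : ∑ x ∈ S, ∑ y ∈ U, g x y = ∑ x ∈ S, ∑ y ∈ S, g x y + ∑ x ∈ S, ∑ y ∈ U \ S, g x y := by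
    rw [← Finset.sum_add_distrib]
    refine Finset.sum_congr rfl fun x _ => ?_
    rw [add_comm, Finset.sum_sdiff hSU]
  -- termwise bound
  have h6 : ∀ x ∈ S, ∀ y ∈ U \ S, g x y ≤ - (ri R x y : ℤ) := by
    intro x hx y hy
    have hx' : f z0 ≤ f x := (Finset.mem_filter.1 hx).2
    have hy1 : y ∈ U := (Finset.mem_sdiff.1 hy).1
    have hy2 : f y < f z0 := by
      by_contra hle
      push Not at hle
      exact (Finset.mem_sdiff.1 hy).2 (Finset.mem_filter.2 ⟨hy1, hle⟩)
    by_cases hR : R x y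
    · have := hf x y hR (lt_of_lt_of_le hy2 hx')
      simp only [ri, if_pos hR, Nat.cast_one]
      exact this
    · simp only [ri, if_neg hR, Nat.cast_zero, neg_zero]
      exact le_of_eq (hf0 x y hR)
  have h7 : ∑ x ∈ S, ∑ y ∈ U \ S, g x y ≤ - ((∑ x ∈ S, ∑ y ∈ U \ S, ri R x y : ℕ) : ℤ) := by
    push_cast
    rw [← Finset.sum_neg_distrib]
    refine Finset.sum_le_sum fun x hx => ?_
    rw [← Finset.sum_neg_distrib]
    exact Finset.sum_le_sum fun y hy => h6 x hx y hy
  have h8 : ∑ x ∈ Zt, ∑ y ∈ Z \ Zt, ri R x y ≤ ∑ x ∈ S, ∑ y ∈ U \ S, ri R x y := by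
    have hs1 : Zt ⊆ S := by
      intro x hx
      rw [hZt, Finset.mem_filter] at hx
      exact Finset.mem_filter.2 ⟨hZU hx.1, hx.2⟩
    have hs2 : Z \ Zt ⊆ U \ S := by
      intro x hx
      rw [Finset.mem_sdiff] at hx
      refine Finset.mem_sdiff.2 ⟨hZU hx.1, fun hx' => hx.2 ?_⟩
      exact Finset.mem_filter.2 ⟨hx.1, (Finset.mem_filter.1 hx').2⟩
    refine (Finset.sum_le_sum_of_subset hs1).trans (Finset.sum_le_sum fun x _ => ?_)
    exact Finset.sum_le_sum_of_subset hs2
  have h9 : ∑ x ∈ Zt, ∑ y ∈ Z, ri R x y = m2 R Zt + ∑ x ∈ Zt, ∑ y ∈ Z \ Zt, ri R x y := by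
    rw [m2_eq, ← Finset.sum_add_distrib]
    refine Finset.sum_congr rfl fun x _ => ?_
    rw [add_comm, Finset.sum_sdiff hZt1.1]
  have h10 : 2 * Zt.card ≤ ∑ x ∈ Zt, ∑ y ∈ Z, ri R x y := by
    have : ∑ x ∈ Zt, 2 ≤ ∑ x ∈ Zt, ∑ y ∈ Z, ri R x y :=
      Finset.sum_le_sum fun x hx => hdeg x (hZt1.1 hx)
    rw [Finset.sum_const, smul_eq_mul] at this
    omega
  obtain ⟨e, he⟩ := h2
  omega

/-- `(0, u)` -/
def hat (u : Fin 3 → ℤ) : Fin 4 → ℤ := ![0, u 0, u 1, u 2]

/-- `(0, w)` -/
noncomputable def hatR (w : Pt) : Fin 4 → ℝ := ![0, w 0, w 1, w 2]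

theorem hatR_add (w w' : Pt) (l : ℝ) (u : Fin 3 → ℤ) (h : ∀ i, w' i = w i + l * u i) (i : Fin 4) :
    hatR w' i = hatR w i + l * hat u i := by
  fin_cases i <;> simp [hatR, hat, h]

theorem hat_neg (u : Fin 3 → ℤ) (i : Fin 4) : hat (-u) i = - hat u i := by
  fin_cases i <;> simp [hat]

theorem hat_ray (m i k : Fin 4) :
    hat (![![1, 1, 1], ![-1, 0, 0], ![0, -1, 0], ![0, 0, -1]] m) i -
      hat (![![1, 1, 1], ![-1, 0, 0], ![0, -1, 0], ![0, 0, -1]] m) k =
    (if m = k then 1 else 0) - (if m = i then 1 else 0) := by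
  fin_cases m <;> fin_cases i <;> fin_cases k <;> rfl

/-- faces of a cell -/
noncomputable abbrev faces (p q : TPoly) (x : Pt) : Finset (Finset Mon × Finset Mon) :=
  (p.top x).powersetCard 2 ×ˢ (q.top x).powersetCard 2

theorem line (i j k : Fin 4) (hki : k ≠ i) (hkj : k ≠ j) (hij : i ≠ j) :
    ∃ r : Fin 3 → ℤ, ∀ u : Fin 3 → ℤ, hat u i = hat u k → hat u j = hat u k →
      ∃ c : ℤ, u = c • r := by
  have key : ∃ m : Fin 4, ∀ l, l ≠ m → l = i ∨ l = j ∨ l = k := by
    revert i j k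
    decide
  obtain ⟨m, hm⟩ := key
  refine ⟨![![1, 1, 1], ![1, 0, 0], ![0, 1, 0], ![0, 0, 1]] m, ?_⟩
  intro u h1 h2
  have h3 : ∀ l, l ≠ m → hat u l = hat u k := by
    intro l hl
    rcases hm l hl with rfl | rfl | rfl
    · exact h1
    · exact h2
    · rfl
  fin_cases m
  · have a1 := h3 1 (by decide)
    have a2 := h3 2 (by decide)
    have a3 := h3 3 (by decide)
    simp [hat] at a1 a2 a3
    refine ⟨u 0, ?_⟩
    funext l
    fin_cases l <;> simp <;> omega
  · have a1 := h3 0 (by decide)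
    have a2 := h3 2 (by decide)
    have a3 := h3 3 (by decide)
    simp [hat] at a1 a2 a3
    refine ⟨u 0, ?_⟩
    funext l
    fin_cases l <;> simp <;> omega
  · have a1 := h3 0 (by decide)
    have a2 := h3 1 (by decide)
    have a3 := h3 3 (by decide)
    simp [hat] at a1 a2 a3
    refine ⟨u 1, ?_⟩
    funext l
    fin_cases l <;> simp <;> omega
  · have a1 := h3 0 (by decide)
    have a2 := h3 1 (by decide)
    have a3 := h3 2 (by decide)
    simp [hat] at a1 a2 a3
    refine ⟨u 2, ?_⟩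
    funext l
    fin_cases l <;> simp <;> omega

theorem pr_smul (c : ℤ) (r : Fin 3 → ℤ) (a : Mon) : pr (c • r) a = c * pr r a := by
  unfold pr
  rw [Finset.mul_sum]
  refine Finset.sum_congr rfl fun i _ => ?_
  simp [mul_assoc]

/-- two different `2`-subsets of a `3`-set -/
theorem two_sub {β : Type} (A F F' : Finset β) (hA : A.card = 3) (hF : F ∈ A.powersetCard 2)
    (hF' : F' ∈ A.powersetCard 2) (hne : F ≠ F') :
    ∃ b c d, b ∈ F ∧ b ∈ F' ∧ c ∈ F' ∧ c ∉ F ∧ c ∈ A ∧ d ∈ A ∧ d ∉ F' := by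
  classical
  rw [Finset.mem_powersetCard] at hF hF'
  obtain ⟨c, hc, hc'⟩ : ∃ c ∈ F', c ∉ F := by
    by_contra hcon
    push Not at hcon
    exact hne (Finset.eq_of_subset_of_card_le hcon (by omega)).symm
  obtain ⟨d, hd, hd'⟩ : ∃ d ∈ A, d ∉ F' := by
    by_contra hcon
    push Not at hcon
    have := Finset.card_le_card (show A ⊆ F' from hcon)
    omega
  have h1 : (F ∪ F').card ≤ 3 := by
    rw [← hA]
    exact Finset.card_le_card (Finset.union_subset hF.1 hF'.1)
  have h2 := Finset.card_union_add_card_inter F F'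
  have h3 : (F ∩ F').Nonempty := by
    rw [← Finset.card_pos]
    omega
  obtain ⟨b, hb⟩ := h3
  rw [Finset.mem_inter] at hb
  exact ⟨b, c, d, hb.1, hb.2, hc, hc', hF'.1 hc, hd, hd'⟩

theorem no_par (A B : Finset Mon)
    (hAB : (A.card = 3 ∧ B.card = 2) ∨ (A.card = 2 ∧ B.card = 3))
    (F F' : Finset Mon × Finset Mon) (hF : F ∈ A.powersetCard 2 ×ˢ B.powersetCard 2)
    (hF' : F' ∈ A.powersetCard 2 ×ˢ B.powersetCard 2) (hne : F ≠ F') (r : Fin 3 → ℤ) (c c' : ℤ)
    (h : IsDir A B F (c • r)) (h' : IsDir A B F' (c' • r)) : False := by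
  rw [Finset.mem_product] at hF hF'
  obtain ⟨d1, d2, d3, d4⟩ := h
  obtain ⟨e1, e2, e3, e4⟩ := h'
  simp only [pr_smul] at d1 d2 d3 d4 e1 e2 e3 e4
  rcases hAB with ⟨h3, h2⟩ | ⟨h2, h3⟩
  · have hB : F.2 = F'.2 := by
      have a1 := Finset.mem_powersetCard.1 hF.2
      have a2 := Finset.mem_powersetCard.1 hF'.2
      rw [Finset.eq_of_subset_of_card_le a1.1 (by omega),
        Finset.eq_of_subset_of_card_le a2.1 (by omega)]
    have hne1 : F.1 ≠ F'.1 := fun h => hne (Prod.ext h hB)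
    obtain ⟨b, x, d, hb, hb', hx, hx', hxA, hd, hd'⟩ := two_sub A F.1 F'.1 h3 hF.1 hF'.1 hne1
    have k1 := d3 b hb x hxA hx'
    have k2 := e1 b hb' x hx
    have k3 := e3 b hb' d hd hd'
    have hc' : c' ≠ 0 := by
      rintro rfl
      simp at k3
    have k4 : pr r b = pr r x := mul_left_cancel₀ hc' k2
    rw [k4] at k1
    omega
  · have hB : F.1 = F'.1 := by
      have a1 := Finset.mem_powersetCard.1 hF.1
      have a2 := Finset.mem_powersetCard.1 hF'.1
      rw [Finset.eq_of_subset_of_card_le a1.1 (by omega),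
        Finset.eq_of_subset_of_card_le a2.1 (by omega)]
    have hne1 : F.2 ≠ F'.2 := fun h => hne (Prod.ext hB h)
    obtain ⟨b, x, d, hb, hb', hx, hx', hxA, hd, hd'⟩ := two_sub B F.2 F'.2 h3 hF.2 hF'.2 hne1
    have k1 := d4 b hb x hxA hx'
    have k2 := e2 b hb' x hx
    have k3 := e4 b hb' d hd hd'
    have hc' : c' ≠ 0 := by
      rintro rfl
      simp at k3
    have k4 : pr r b = pr r x := mul_left_cancel₀ hc' k2
    rw [k4] at k1
    omega

end LVL

open LVL in
/-- LVL -/
theorem t_LVL : S_VC → S_DIR → S_NB → S_FIN → S_TAIL → S_LVL := by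
  classical
  intro hVC hDIR hNB hFIN _ p q hp hq hsm U v t hT hU hex
  obtain ⟨k, i, j, hki, hkj, hij, hnk, hni, hnj⟩ := hex
  by_contra hcon
  push Not at hcon
  have hcell : ∀ x, IsVert p q x → IsCell (p.top x) (q.top x) := hVC p q hp hq hsm
  obtain ⟨hfinV, hsymA, -⟩ := hFIN p q hp hq hsm
  have hirr : ∀ x, ¬ Adj p q x x := fun x h => h.1 rfl
  have hNB2 : ∀ x y, Adj p q x y → ∃ F : Finset Mon × Finset Mon, ∃ (u : Fin 3 → ℤ) (l : ℝ),
      F ∈ faces p q x ∧
      (∀ a, a ∈ F.1 ↔ a ∈ p.top x ∧ a ∈ p.top y) ∧ (∀ b, b ∈ F.2 ↔ b ∈ q.top x ∧ b ∈ q.top y) ∧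
      0 < l ∧ IsDir (p.top x) (q.top x) F u ∧
      IsDir (p.top y) (q.top y) F (-u) ∧ ∀ i, y i = x i + l * u i := by
    intro x y h
    obtain ⟨F, h1, h2, h3, u, l, h4, h5, h6, h7⟩ := (hNB p q hp hq hsm x h.2.1).2 y h
    exact ⟨F, u, l, h1, h2, h3, h4, h5, h6, h7⟩
  choose! F u l hF hF1 hF2 hl hu hu' hw using hNB2
  have huniq : ∀ x, IsVert p q x → ∀ G ∈ faces p q x, ∀ u1 u2,
      IsDir (p.top x) (q.top x) G u1 → IsDir (p.top x) (q.top x) G u2 → u1 = u2 := by
    intro x hx G hG u1 u2 h1 h2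
    exact ((hDIR _ _ (hcell x hx)).1 G hG).unique h1 h2
  have hFsymm : ∀ x y, Adj p q x y → F y x = F x y := by
    intro x y h
    have h' := hsymA x y h
    refine Prod.ext (Finset.ext fun a => ?_) (Finset.ext fun a => ?_)
    · rw [hF1 y x h', hF1 x y h, and_comm]
    · rw [hF2 y x h', hF2 x y h, and_comm]
  have hanti : ∀ x y, Adj p q x y → u y x = - u x y := by
    intro x y h
    have h' := hsymA x y h
    refine huniq y h.2.2.1 (F y x) (hF y x h') _ _ (hu y x h') ?_
    rw [hFsymm x y h]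
    exact hu' x y h
  -- neighbours and faces
  have hnb : ∀ x y, Adj p q x y → (∀ m, ¬ InFacet (F x y) m) ∧
      ∀ y', Adj p q x y' → F x y' = F x y → y' = y := by
    intro x y h
    have hsub : ∀ y', Adj p q x y' → F x y' = F x y →
        (F x y).1 ⊆ p.top y' ∧ (F x y).2 ⊆ q.top y' := by
      intro y' h1 h2
      rw [← h2]
      exact ⟨fun a ha => ((hF1 x y' h1 a).1 ha).2, fun a ha => ((hF2 x y' h1 a).1 ha).2⟩
    rcases (hNB p q hp hq hsm x h.2.1).1 (F x y) (hF x y h) with h1 | h1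
    · exact absurd (hsub y h rfl) (h1.2 y h)
    · refine ⟨h1.1, fun y' h2 h3 => ?_⟩
      exact h1.2.unique ⟨h2, hsub y' h2 h3⟩ ⟨h, hsub y h rfl⟩
  have hsurj : ∀ x, IsVert p q x → ∀ G ∈ faces p q x, (∀ m, ¬ InFacet G m) →
      ∃ y, Adj p q x y ∧ F x y = G := by
    intro x hx G hG hm
    rcases (hNB p q hp hq hsm x hx).1 G hG with h1 | h1
    · obtain ⟨⟨m, hm'⟩, -⟩ := h1
      exact absurd hm' (hm m)
    · obtain ⟨y, ⟨hy, hy1, hy2⟩, -⟩ := h1.2
      refine ⟨y, hy, ?_⟩
      have hFF := Finset.mem_product.1 (hF x y hy)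
      have hGG := Finset.mem_product.1 hG
      have e1 := Finset.mem_powersetCard.1 hFF.1
      have e2 := Finset.mem_powersetCard.1 hFF.2
      have e3 := Finset.mem_powersetCard.1 hGG.1
      have e4 := Finset.mem_powersetCard.1 hGG.2
      refine Prod.ext ?_ ?_
      · refine (Finset.eq_of_subset_of_card_le (fun a ha => ?_) (by omega)).symm
        exact (hF1 x y hy a).2 ⟨e3.1 ha, hy1 ha⟩
      · refine (Finset.eq_of_subset_of_card_le (fun a ha => ?_) (by omega)).symm
        exact (hF2 x y hy a).2 ⟨e4.1 ha, hy2 ha⟩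
  -- the vertices
  set T : Finset Pt := hfinV.toFinset with hTdef
  have hTmem : ∀ x, x ∈ T ↔ IsVert p q x := fun x => by simp [hTdef]
  -- conservation
  have hcons : ∀ i' : Fin 4, k ≠ i' → ∀ x ∈ U,
      ∑ y ∈ T.filter (fun y => Adj p q x y), (hat (u x y) i' - hat (u x y) k) =
        (nb p q x i' : ℤ) := by
    intro i' hki' x hx
    have hxv := hU x hx
    have hc := hcell x hxv
    obtain ⟨d1, d2, d3⟩ := hDIR _ _ hc
    -- directions of all the faces
    have hD : ∀ G : Finset Mon × Finset Mon, ∃ w : Fin 3 → ℤ, G ∈ faces p q x →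
        IsDir (p.top x) (q.top x) G w := by
      intro G
      by_cases hG : G ∈ faces p q x
      · obtain ⟨w, hw, -⟩ := d1 G hG
        exact ⟨w, fun _ => hw⟩
      · exact ⟨0, fun h => absurd h hG⟩
    choose D hD using hD
    have hbal := (d2 D (fun G hG => hD G hG)).1
    have hbal' : ∀ m : Fin 4, ∑ G ∈ faces p q x, hat (D G) m = 0 := by
      intro m
      fin_cases m
      · simp [hat]
      · exact hbal 0
      · exact hbal 1
      · exact hbal 2
    have hsum : ∑ G ∈ faces p q x, (hat (D G) i' - hat (D G) k) = 0 := by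
      rw [Finset.sum_sub_distrib, hbal', hbal', sub_zero]
    have hnk' : nb p q x k = 0 := by
      have := (Finset.sum_eq_zero_iff.1 hnk) x hx
      exact this
    have hnk'' : ∀ G ∈ faces p q x, ¬ InFacet G k := by
      intro G hG hcon'
      unfold nb at hnk'
      rw [Finset.card_eq_zero] at hnk'
      have : G ∈ (∅ : Finset (Finset Mon × Finset Mon)) := by
        rw [← hnk']
        exact Finset.mem_filter.2 ⟨hG, hcon'⟩
      exact absurd this (Finset.notMem_empty _)
    have hsplit := Finset.sum_filter_add_sum_filter_not (faces p q x)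
      (fun G => ∃ m, InFacet G m) (fun G => hat (D G) i' - hat (D G) k)
    rw [hsum] at hsplit
    have hfac : ∑ G ∈ (faces p q x).filter (fun G => ∃ m, InFacet G m),
        (hat (D G) i' - hat (D G) k) = - (nb p q x i' : ℤ) := by
      have e1 : ∀ G ∈ (faces p q x).filter (fun G => ∃ m, InFacet G m),
          hat (D G) i' - hat (D G) k = - (if InFacet G i' then 1 else 0) := by
        intro G hG
        obtain ⟨hG1, m, hm⟩ := Finset.mem_filter.1 hG
        obtain ⟨hm1, hm2⟩ := d3 G hG1 m hm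
        rw [huniq x hxv G hG1 _ _ (hD G hG1) hm1, hat_ray]
        have hmk : m ≠ k := by
          rintro rfl
          exact hnk'' G hG1 hm
        rw [if_neg hmk, zero_sub]
        by_cases hmi : m = i'
        · subst hmi
          rw [if_pos rfl, if_pos hm]
        · rw [if_neg hmi, if_neg (fun h => hmi (hm2 i' h).symm)]
      rw [Finset.sum_congr rfl e1, Finset.sum_neg_distrib]
      congr 1
      rw [← Finset.sum_filter, Finset.filter_filter, Finset.sum_const, nsmul_eq_mul, mul_one]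
      unfold nb
      congr 2
      refine Finset.filter_congr fun G _ => ?_
      constructor
      · rintro ⟨-, h⟩
        exact h
      · intro h
        exact ⟨⟨i', h⟩, h⟩
    rw [hfac] at hsplit
    have hnf : ∑ y ∈ T.filter (fun y => Adj p q x y), (hat (u x y) i' - hat (u x y) k) =
        ∑ G ∈ (faces p q x).filter (fun G => ¬ ∃ m, InFacet G m),
          (hat (D G) i' - hat (D G) k) := by
      refine Finset.sum_bij (fun y _ => F x y) ?_ ?_ ?_ ?_
      · intro y hy
        have hy' := (Finset.mem_filter.1 hy).2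
        refine Finset.mem_filter.2 ⟨hF x y hy', ?_⟩
        rintro ⟨m, hm⟩
        exact (hnb x y hy').1 m hm
      · intro y hy y' hy' hyy
        exact (hnb x y' (Finset.mem_filter.1 hy').2).2 y (Finset.mem_filter.1 hy).2 hyy
      · intro G hG
        obtain ⟨hG1, hG2⟩ := Finset.mem_filter.1 hG
        obtain ⟨y, hy, hy'⟩ := hsurj x hxv G hG1 (fun m hm => hG2 ⟨m, hm⟩)
        exact ⟨y, Finset.mem_filter.2 ⟨(hTmem y).2 hy.2.2.1, hy⟩, hy'⟩
      · intro y hy
        have hy' := (Finset.mem_filter.1 hy).2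
        rw [huniq x hxv (F x y) (hF x y hy') _ _ (hu x y hy') (hD _ (hF x y hy'))]
    rw [hnf]
    omega
  obtain ⟨hvU, htU, hvt, htail⟩ := hT
  have htv : Adj p q t v := hsymA v t hvt
  have hUT : U ⊆ T := fun x hx => (hTmem x).2 (hU x hx)
  -- constancy for one functional
  obtain ⟨Z, hZU, hZne, hmin, hdeg⟩ := exists_min (Adj p q) hsymA hirr U ⟨t, htU⟩ hcon
  have hconst : ∀ i' : Fin 4, k ≠ i' → nray p q U i' ≤ 1 →
      ∃ c, ∀ z ∈ Z, hatR z i' - hatR z k = c := by
    intro i' hki' hn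
    set g : Pt → Pt → ℤ := fun x y => if Adj p q x y then hat (u x y) i' - hat (u x y) k else 0
      with hgdef
    have hg : ∀ x y, g y x = - g x y := by
      intro x y
      simp only [hgdef]
      by_cases h : Adj p q x y
      · rw [if_pos h, if_pos (hsymA x y h), hanti x y h, hat_neg, hat_neg]
        ring
      · rw [if_neg h, if_neg (fun h' => h (hsymA y x h'))]
        rfl
    have hcons' : ∀ x ∈ U, ∑ y ∈ U, g x y + (if x = t then g t v else 0) = (nb p q x i' : ℤ) := by
      intro x hx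
      rw [← hcons i' hki' x hx, Finset.sum_filter]
      have hvT : v ∈ T \ U := Finset.mem_sdiff.2 ⟨(hTmem v).2 hvt.2.1, hvU⟩
      have e1 : ∑ y ∈ T, g x y = ∑ y ∈ T \ U, g x y + ∑ y ∈ U, g x y :=
        (Finset.sum_sdiff hUT).symm
      have e2 : ∑ y ∈ T \ U, g x y = (if x = t then g t v else 0) := by
        rw [Finset.sum_eq_single_of_mem v hvT]
        · by_cases hxt : x = t
          · rw [if_pos hxt, hxt]
          · rw [if_neg hxt]
            have : ¬ Adj p q x v := by
              intro h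
              rcases htail x hx v h with h1 | h1
              · exact hvU h1
              · exact hxt h1.1
            simp only [hgdef, if_neg this]
        · intro y hy hyv
          have : ¬ Adj p q x y := by
            intro h
            rcases htail x hx y h with h1 | h1
            · exact (Finset.mem_sdiff.1 hy).2 h1
            · exact hyv h1.2
          simp only [hgdef, if_neg this]
      show ∑ y ∈ U, g x y + (if x = t then g t v else 0) = ∑ y ∈ T, g x y
      rw [e1, e2, add_comm]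
    have hUU : ∑ x ∈ U, ∑ y ∈ U, g x y = 0 := by
      have e1 : ∑ x ∈ U, ∑ y ∈ U, g x y = ∑ x ∈ U, ∑ y ∈ U, g y x := Finset.sum_comm
      have e2 : ∑ x ∈ U, ∑ y ∈ U, g y x = - ∑ x ∈ U, ∑ y ∈ U, g x y := by
        rw [← Finset.sum_neg_distrib]
        refine Finset.sum_congr rfl fun x _ => ?_
        rw [← Finset.sum_neg_distrib]
        exact Finset.sum_congr rfl fun y _ => hg x y
      omega
    have hsig : g t v ≤ 1 := by
      have e1 := Finset.sum_congr (rfl : U = U) hcons'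
      rw [Finset.sum_add_distrib, hUU, zero_add, Finset.sum_ite_eq' U t, if_pos htU] at e1
      have e2 : (∑ x ∈ U, (nb p q x i' : ℤ)) = (nray p q U i' : ℤ) := by
        unfold nray
        push_cast
        rfl
      rw [e1, e2]
      exact_mod_cast hn
    have hsig0 : 0 ≤ g t v := by
      have e1 := Finset.sum_congr (rfl : U = U) hcons'
      rw [Finset.sum_add_distrib, hUU, zero_add, Finset.sum_ite_eq' U t, if_pos htU] at e1
      rw [e1]
      exact Finset.sum_nonneg fun x _ => Int.natCast_nonneg _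
    refine const (Adj p q) hsymA hirr U Z hZU hZne hmin hdeg
      (fun z => hatR z i' - hatR z k) g hg ?_ ?_ ?_
    · intro x y h hlt
      simp only [hgdef, if_pos h]
      have e1 := hatR_add x y (l x y) (u x y) (hw x y h) i'
      have e2 := hatR_add x y (l x y) (u x y) (hw x y h) k
      have e3 : (l x y) * (((hat (u x y) i' - hat (u x y) k : ℤ)) : ℝ) < 0 := by
        push_cast
        rw [e1, e2] at hlt
        nlinarith [hlt]
      have e4 : ((hat (u x y) i' - hat (u x y) k : ℤ) : ℝ) < 0 := by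
        by_contra h0
        push Not at h0
        exact absurd e3 (not_lt.2 (mul_nonneg (hl x y h).le h0))
      have e5 : (hat (u x y) i' - hat (u x y) k : ℤ) < 0 := by exact_mod_cast e4
      omega
    · intro x y h
      simp only [hgdef, if_neg h]
    · intro S hS
      have e1 : ∑ x ∈ S, ∑ y ∈ U, g x y + ∑ x ∈ S, (if x = t then g t v else 0) =
          ∑ x ∈ S, (nb p q x i' : ℤ) := by
        rw [← Finset.sum_add_distrib]
        exact Finset.sum_congr rfl fun x hx => hcons' x (hS hx)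
      have e2 : ∑ x ∈ S, (if x = t then g t v else 0) ≤ 1 := by
        rw [Finset.sum_ite_eq' S t]
        split_ifs
        · exact hsig
        · norm_num
      have e3 : 0 ≤ ∑ x ∈ S, (nb p q x i' : ℤ) :=
        Finset.sum_nonneg fun x _ => Int.natCast_nonneg _
      omega
  obtain ⟨ci, hci⟩ := hconst i hki hni
  obtain ⟨cj, hcj⟩ := hconst j hkj hnj
  obtain ⟨x, hx⟩ := hZne
  -- two neighbours in `Z`
  have h2 := hdeg x hx
  have hcard : 1 < (Z.filter (fun y => Adj p q x y)).card := by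
    rw [Finset.card_filter]
    exact h2
  obtain ⟨y, hy, y', hy', hne⟩ := Finset.one_lt_card.1 hcard
  obtain ⟨hyZ, hxy⟩ := Finset.mem_filter.1 hy
  obtain ⟨hyZ', hxy'⟩ := Finset.mem_filter.1 hy'
  have hflat : ∀ z ∈ Z, Adj p q x z → hat (u x z) i = hat (u x z) k ∧
      hat (u x z) j = hat (u x z) k := by
    intro z hz h
    have e0 := hatR_add x z (l x z) (u x z) (hw x z h) i
    have e1 := hatR_add x z (l x z) (u x z) (hw x z h) j
    have e2 := hatR_add x z (l x z) (u x z) (hw x z h) k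
    have f1 := hci z hz
    have f2 := hci x hx
    have f3 := hcj z hz
    have f4 := hcj x hx
    have hl0 := hl x z h
    constructor
    · have : (l x z) * ((hat (u x z) i : ℝ) - (hat (u x z) k : ℝ)) = 0 := by linarith
      have := (mul_eq_zero.1 this).resolve_left hl0.ne'
      have : (hat (u x z) i : ℝ) = (hat (u x z) k : ℝ) := by linarith
      exact_mod_cast this
    · have : (l x z) * ((hat (u x z) j : ℝ) - (hat (u x z) k : ℝ)) = 0 := by linarith
      have := (mul_eq_zero.1 this).resolve_left hl0.ne'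
      have : (hat (u x z) j : ℝ) = (hat (u x z) k : ℝ) := by linarith
      exact_mod_cast this
  obtain ⟨r, hr⟩ := line i j k hki hkj hij
  obtain ⟨c, hc⟩ := hr (u x y) (hflat y hyZ hxy).1 (hflat y hyZ hxy).2
  obtain ⟨c', hc'⟩ := hr (u x y') (hflat y' hyZ' hxy').1 (hflat y' hyZ' hxy').2
  have hFne : F x y ≠ F x y' := fun h => hne ((hnb x y' hxy').2 y hxy h)
  have g1 := hu x y hxy
  have g2 := hu x y' hxy'
  rw [hc] at g1
  rw [hc'] at g2
  exact no_par (p.top x) (q.top x) (hcell x hxy.2.1).2.2.1 (F x y) (F x y') (hF x y hxy)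
    (hF x y' hxy') hFne r c c' g1 g2

end Pool.Agent.R863.TG
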