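import Pool.Agent.R863.TG.Stm

/-! Piece TG-NB (MP_3ce8eb_ag), by helper86. -/

set_option autoImplicit false

namespace Pool.Agent.R863.TG

/-- the value changes linearly along `u` -/
theorem nb_val (p : TPoly) (w w' : Pt) (u : Fin 3 → ℤ) (l : ℝ) (h : ∀ i, w' i = w i + l * u i)
    (a : Mon) : p.val w' a = p.val w a + l * (pr u a : ℝ) := by
  unfold TPoly.val pr
  simp only [h]
  push_cast
  rw [Finset.mul_sum, add_assoc, ← Finset.sum_add_distrib]
  congr 1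
  apply Finset.sum_congr rfl
  intro i _
  ring

theorem nb_top {p : TPoly} {w : Pt} {a : Mon} (h : a ∈ p.top w) :
    a ∈ p.supp ∧ ∀ b ∈ p.supp, p.val w b ≤ p.val w a := by
  unfold TPoly.top at h
  exact Finset.mem_filter.1 h

theorem nb_pr_neg (u : Fin 3 → ℤ) (a : Mon) : pr (-u) a = - pr u a := by
  unfold pr
  simp only [Pi.neg_apply, neg_mul, Finset.sum_neg_distrib]

theorem nb_far (p : TPoly) (w' w'' : Pt) (u : Fin 3 → ℤ) (d : ℝ) (hd : 0 < d)
    (h : ∀ i, w'' i = w' i + d * u i) (a c : Mon) (ha : a ∈ p.top w') (ha' : a ∈ p.top w'')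
    (hc : c ∈ p.top w') (hp : pr (-u) c = pr (-u) a - 1) : False := by
  rw [nb_pr_neg, nb_pr_neg] at hp
  have h1 : pr u c = pr u a + 1 := by omega
  have hv : p.val w' c = p.val w' a :=
    le_antisymm ((nb_top ha).2 c (nb_top hc).1) ((nb_top hc).2 a (nb_top ha).1)
  have h2 := (nb_top ha').2 c (nb_top hc).1
  rw [nb_val p w' w'' u d h c, nb_val p w' w'' u d h a, hv, h1] at h2
  push_cast at h2
  nlinarith

theorem nb_facet (d : ℕ) (a c : Mon) (i : Fin 4) (ha : hom d a i = 0) (hc : ∑ j, c j ≤ d)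
    (hp : pr (-((![![1, 1, 1], ![-1, 0, 0], ![0, -1, 0], ![0, 0, -1]] : Fin 4 → Fin 3 → ℤ) i)) c
      = pr (-((![![1, 1, 1], ![-1, 0, 0], ![0, -1, 0], ![0, 0, -1]] : Fin 4 → Fin 3 → ℤ) i)) a - 1) :
    False := by
  rw [nb_pr_neg, nb_pr_neg] at hp
  unfold pr at hp
  unfold hom at ha
  rw [Fin.sum_univ_three] at hc hp
  rw [Fin.sum_univ_three] at hp
  rw [Fin.sum_univ_three] at ha
  fin_cases i <;> simp at hp ha <;> omega

theorem t_NB (hVC : S_VC) (hDIR : S_DIR) (hNBA : S_NBA) (hNBE : S_NBE) : S_NB := by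
  intro p q hp hq hs w hw
  refine ⟨?_, fun w' h => hNBA p q hp hq hs w w' h⟩
  intro F hF
  have hcell := hVC p q hp hq hs w hw
  obtain ⟨hD1, -, hD3⟩ := hDIR _ _ hcell
  have hF' := hF
  rw [Finset.mem_product, Finset.mem_powersetCard, Finset.mem_powersetCard] at hF'
  obtain ⟨⟨hF1, hc1⟩, hF2, hc2⟩ := hF'
  have key : ∀ w', Adj p q w w' → F.1 ⊆ p.top w' → F.2 ⊆ q.top w' →
      ∃ (u : Fin 3 → ℤ) (l : ℝ), 0 < l ∧ IsDir (p.top w) (q.top w) F u ∧
      IsDir (p.top w') (q.top w') F (-u) ∧ ∀ i, w' i = w i + l * u i := by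
    intro w' hadj h1 h2
    obtain ⟨G, hG, hG1, hG2, u, l, hl, hu, hu', hw'⟩ := hNBA p q hp hq hs w w' hadj
    rw [Finset.mem_product, Finset.mem_powersetCard, Finset.mem_powersetCard] at hG
    have e1 : F.1 = G.1 := Finset.eq_of_subset_of_card_le
      (fun a ha => (hG1 a).2 ⟨hF1 ha, h1 ha⟩) (by rw [hG.1.2, hc1])
    have e2 : F.2 = G.2 := Finset.eq_of_subset_of_card_le
      (fun a ha => (hG2 a).2 ⟨hF2 ha, h2 ha⟩) (by rw [hG.2.2, hc2])
    have e : F = G := Prod.ext e1 e2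
    subst e
    exact ⟨u, l, hl, hu, hu', hw'⟩
  obtain ⟨a0, ha0⟩ : ∃ a, a ∈ F.1 := Finset.card_pos.1 (by omega)
  obtain ⟨b0, hb0⟩ : ∃ a, a ∈ F.2 := Finset.card_pos.1 (by omega)
  have fifth : ∀ w', Adj p q w w' →
      (∃ c ∈ p.top w', c ∉ F.1) ∨ (∃ c ∈ q.top w', c ∉ F.2) := by
    intro w' hadj
    obtain ⟨-, -, hcard, -⟩ := hVC p q hp hq hs w' hadj.2.2.1
    rcases hcard with ⟨h, -⟩ | ⟨-, h⟩
    · left
      exact Finset.exists_mem_notMem_of_card_lt_card (by omega)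
    · right
      exact Finset.exists_mem_notMem_of_card_lt_card (by omega)
  by_cases hin : ∃ i, InFacet F i
  · left
    refine ⟨hin, ?_⟩
    obtain ⟨i, hi⟩ := hin
    rintro w' hadj ⟨h1, h2⟩
    obtain ⟨u, l, hl, hu, hu', hw'⟩ := key w' hadj h1 h2
    have hr := (hD3 F hF i hi).1
    have hur := (hD1 F hF).unique hu hr
    rw [hur] at hu'
    rcases fifth w' hadj with ⟨c, hc, hcF⟩ | ⟨c, hc, hcF⟩
    · exact nb_facet 2 a0 c i (hi.1 a0 ha0) (hp.1 c (nb_top hc).1)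
        (hu'.2.2.1 a0 ha0 c hc hcF)
    · exact nb_facet 3 b0 c i (hi.2 b0 hb0) (hq.1 c (nb_top hc).1)
        (hu'.2.2.2 b0 hb0 c hc hcF)
  · right
    push Not at hin
    refine ⟨hin, ?_⟩
    obtain ⟨w', h0, h1, h2⟩ := hNBE p q hp hq hs w hw F hF hin
    refine ⟨w', ⟨h0, h1, h2⟩, ?_⟩
    rintro w'' ⟨g0, g1, g2⟩
    obtain ⟨u, l, hl, hu, hu', hw'⟩ := key w' h0 h1 h2
    obtain ⟨v, m, hm, hv, hv', hw''⟩ := key w'' g0 g1 g2
    have huv : u = v := (hD1 F hF).unique hu hv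
    subst huv
    rcases lt_trichotomy l m with hlt | heq | hgt
    · exfalso
      have hh : ∀ i, w'' i = w' i + (m - l) * u i := fun i => by rw [hw', hw'']; ring
      rcases fifth w' h0 with ⟨c, hc, hcF⟩ | ⟨c, hc, hcF⟩
      · exact nb_far p w' w'' u (m - l) (by linarith) hh a0 c (h1 ha0) (g1 ha0) hc
          (hu'.2.2.1 a0 ha0 c hc hcF)
      · exact nb_far q w' w'' u (m - l) (by linarith) hh b0 c (h2 hb0) (g2 hb0) hc
          (hu'.2.2.2 b0 hb0 c hc hcF)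
    · funext i
      rw [hw', hw'', heq]
    · exfalso
      have hh : ∀ i, w' i = w'' i + (l - m) * u i := fun i => by rw [hw', hw'']; ring
      rcases fifth w'' g0 with ⟨c, hc, hcF⟩ | ⟨c, hc, hcF⟩
      · exact nb_far p w'' w' u (l - m) (by linarith) hh a0 c (g1 ha0) (h1 ha0) hc
          (hv'.2.2.1 a0 ha0 c hc hcF)
      · exact nb_far q w'' w' u (l - m) (by linarith) hh b0 c (g2 hb0) (h2 hb0) hc
          (hv'.2.2.2 b0 hb0 c hc hcF)

end Pool.Agent.R863.TG
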