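import Mathlib
import Pool.Agent.R863.TG.Stm

/-! Piece NBA of the project TG (MP_3ce8eb_ag): adjacent vertices (helper890). -/

set_option autoImplicit false

namespace Pool.Agent.R863.TG

namespace NBA

/-- pairing of a real vector and an exponent -/
def pv (v : Pt) (a : Mon) : ℝ := ∑ i, (a i : ℝ) * v i

theorem val_eq (p : TPoly) (w : Pt) (a : Mon) : p.val w a = p.coeff a + pv w a := rfl

theorem pv_sub (v v' : Pt) (a : Mon) : pv (v - v') a = pv v a - pv v' a := by
  simp only [pv, Pi.sub_apply, mul_sub, Finset.sum_sub_distrib]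

theorem pv_smul (l : ℝ) (v : Pt) (a : Mon) : pv (l • v) a = l * pv v a := by
  simp only [pv, Pi.smul_apply, smul_eq_mul, Finset.mul_sum]
  exact Finset.sum_congr rfl fun i _ => by ring

/-- the real vector of an integral direction -/
def re (u : Fin 3 → ℤ) : Pt := fun i => (u i : ℝ)

theorem pv_re (u : Fin 3 → ℤ) (a : Mon) : pv (re u) a = (pr u a : ℝ) := by
  simp only [pv, re, pr]
  push_cast
  exact Finset.sum_congr rfl fun i _ => by ring

theorem mem_top (p : TPoly) (w : Pt) (a : Mon) :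
    a ∈ p.top w ↔ a ∈ p.supp ∧ ∀ b ∈ p.supp, p.val w b ≤ p.val w a := by
  simp [TPoly.top]

theorem top_eq (p : TPoly) (w : Pt) {a b : Mon} (ha : a ∈ p.top w) (hb : b ∈ p.top w) :
    p.val w a = p.val w b := by
  rw [mem_top] at ha hb
  exact le_antisymm (hb.2 a ha.1) (ha.2 b hb.1)

theorem top_lt (p : TPoly) (w : Pt) {a c : Mon} (ha : a ∈ p.top w) (hc : c ∈ p.supp)
    (hc' : c ∉ p.top w) : p.val w c < p.val w a := by
  by_contra h
  push Not at h
  rw [mem_top] at ha
  exact hc' ((mem_top p w c).mpr ⟨hc, fun b hb => (ha.2 b hb).trans h⟩)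

/-- the five points of a cell are linearly independent -/
theorem cell_ker {A B : Finset Mon} (h : IsCell A B) (v : Pt) (mP mQ : ℝ)
    (h1 : ∀ a ∈ A, pv v a = mP) (h2 : ∀ b ∈ B, pv v b = mQ) : v = 0 := by
  obtain ⟨-, -, -, f, -, hr, hd⟩ := h
  have hd' : (Matrix.of fun i => cay (f i)).det ≠ 0 := by
    intro h0
    rw [h0] at hd
    simp at hd
  have hL : (Matrix.of fun i => cay (f i)).mulVec ![v 0, v 1, v 2, -mP, -mQ] = 0 := by
    funext i
    have hi : f i ∈ {x : Bool × Mon | (x.1 = false ∧ x.2 ∈ A) ∨ (x.1 = true ∧ x.2 ∈ B)} := by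
      rw [← hr]
      exact Set.mem_range_self i
    rcases hi with ⟨e1, e2⟩ | ⟨e1, e2⟩
    · have e3 := h1 _ e2
      simp only [pv, Fin.sum_univ_three] at e3
      simp [Matrix.mulVec, dotProduct, Fin.sum_univ_five, cay, e1]
      linarith
    · have e3 := h2 _ e2
      simp only [pv, Fin.sum_univ_three] at e3
      simp [Matrix.mulVec, dotProduct, Fin.sum_univ_five, cay, e1]
      linarith
  have h0 := Matrix.eq_zero_of_mulVec_eq_zero hd' hL
  funext i
  fin_cases i
  · simpa using congrFun h0 0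
  · simpa using congrFun h0 1
  · simpa using congrFun h0 2

/-- a set with three elements that contains a set with two elements -/
theorem fifth {A F : Finset Mon} (hF : F ⊆ A) (h3 : A.card = 3) (h2 : F.card = 2) :
    ∃ c ∈ A, c ∉ F ∧ ∀ a ∈ A, a ∈ F ∨ a = c := by
  have h1 : (A \ F).card = 1 := by
    rw [Finset.card_sdiff_of_subset hF]
    omega
  obtain ⟨c, hc⟩ := Finset.card_eq_one.mp h1
  have hc' : c ∈ A \ F := by rw [hc]; exact Finset.mem_singleton_self c
  rw [Finset.mem_sdiff] at hc'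
  refine ⟨c, hc'.1, hc'.2, fun a ha => ?_⟩
  by_cases h : a ∈ F
  · exact Or.inl h
  · right
    have : a ∈ A \ F := Finset.mem_sdiff.mpr ⟨ha, h⟩
    rw [hc] at this
    exact Finset.mem_singleton.mp this

theorem step (p q : TPoly) (w w' : Pt) (hc : IsCell (p.top w) (q.top w))
    (F : Finset Mon × Finset Mon) (hF1 : ∀ a, a ∈ F.1 ↔ a ∈ p.top w ∧ a ∈ p.top w')
    (hF2 : ∀ b, b ∈ F.2 ↔ b ∈ q.top w ∧ b ∈ q.top w') (c1 : F.1.card = 2) (c2 : F.2.card = 2)
    (u : Fin 3 → ℤ) (hu : IsDir (p.top w) (q.top w) F u) :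
    ∃ l : ℝ, 0 < l ∧ (∀ i, w' i = w i + l * u i) ∧ ∃ a c : Mon, pr u a - pr u c = 1 := by
  obtain ⟨u1, u2, u3, u4⟩ := hu
  have s1 : F.1 ⊆ p.top w := fun a ha => ((hF1 a).mp ha).1
  have s2 : F.2 ⊆ q.top w := fun a ha => ((hF2 a).mp ha).1
  have n1 : F.1.Nonempty := Finset.card_pos.mp (by omega)
  have n2 : F.2.Nonempty := Finset.card_pos.mp (by omega)
  obtain ⟨a0, ha0⟩ := n1
  obtain ⟨b0, hb0⟩ := n2
  have k1 : ∀ a ∈ F.1, pv (w' - w) a = pv (w' - w) a0 := by
    intro a ha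
    have e1 := top_eq p w ((hF1 a).mp ha).1 ((hF1 a0).mp ha0).1
    have e2 := top_eq p w' ((hF1 a).mp ha).2 ((hF1 a0).mp ha0).2
    rw [val_eq, val_eq] at e1 e2
    rw [pv_sub, pv_sub]
    linarith
  have k2 : ∀ b ∈ F.2, pv (w' - w) b = pv (w' - w) b0 := by
    intro a ha
    have e1 := top_eq q w ((hF2 a).mp ha).1 ((hF2 b0).mp hb0).1
    have e2 := top_eq q w' ((hF2 a).mp ha).2 ((hF2 b0).mp hb0).2
    rw [val_eq, val_eq] at e1 e2
    rw [pv_sub, pv_sub]
    linarith
  -- the conclusion from an equation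
  have fin : ∀ l : ℝ, 0 < l → (w' - w) - l • re u = 0 →
      ∀ i, w' i = w i + l * u i := by
    intro l _ h i
    have := congrFun h i
    simp only [Pi.sub_apply, Pi.smul_apply, smul_eq_mul, re, Pi.zero_apply] at this
    linarith
  rcases hc.2.2.1 with ⟨hA, hB⟩ | ⟨hA, hB⟩
  · obtain ⟨c, hcA, hcF, hcc⟩ := fifth s1 hA c1
    have hB' : ∀ b ∈ q.top w, b ∈ F.2 := by
      have : F.2 = q.top w := Finset.eq_of_subset_of_card_le s2 (by omega)
      rw [this]
      exact fun b hb => hb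
    have hc' : c ∉ p.top w' := fun h => hcF ((hF1 c).mpr ⟨hcA, h⟩)
    have hl : 0 < pv (w' - w) a0 - pv (w' - w) c := by
      have e1 := top_eq p w hcA ((hF1 a0).mp ha0).1
      have e2 := top_lt p w' ((hF1 a0).mp ha0).2 ((mem_top p w c).mp hcA).1 hc'
      rw [val_eq, val_eq] at e1 e2
      rw [pv_sub, pv_sub]
      linarith
    refine ⟨_, hl, fin _ hl ?_, a0, c, ?_⟩
    · have hu0 := u3 a0 ha0 c hcA hcF
      refine cell_ker hc _ (pv (w' - w) a0 - (pv (w' - w) a0 - pv (w' - w) c) * (pr u a0 : ℝ))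
        (pv (w' - w) b0 - (pv (w' - w) a0 - pv (w' - w) c) * (pr u b0 : ℝ)) ?_ ?_
      · intro a ha
        rw [pv_sub, pv_smul, pv_re]
        rcases hcc a ha with h | rfl
        · rw [k1 a h, u1 a h a0 ha0]
        · rw [hu0]
          push_cast
          ring
      · intro b hb
        rw [pv_sub, pv_smul, pv_re, k2 b (hB' b hb), u2 b (hB' b hb) b0 hb0]
    · rw [u3 a0 ha0 c hcA hcF]
      ring
  · obtain ⟨c, hcA, hcF, hcc⟩ := fifth s2 hB c2
    have hA' : ∀ a ∈ p.top w, a ∈ F.1 := by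
      have : F.1 = p.top w := Finset.eq_of_subset_of_card_le s1 (by omega)
      rw [this]
      exact fun b hb => hb
    have hc' : c ∉ q.top w' := fun h => hcF ((hF2 c).mpr ⟨hcA, h⟩)
    have hl : 0 < pv (w' - w) b0 - pv (w' - w) c := by
      have e1 := top_eq q w hcA ((hF2 b0).mp hb0).1
      have e2 := top_lt q w' ((hF2 b0).mp hb0).2 ((mem_top q w c).mp hcA).1 hc'
      rw [val_eq, val_eq] at e1 e2
      rw [pv_sub, pv_sub]
      linarith
    refine ⟨_, hl, fin _ hl ?_, b0, c, ?_⟩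
    · have hu0 := u4 b0 hb0 c hcA hcF
      refine cell_ker hc _ (pv (w' - w) a0 - (pv (w' - w) b0 - pv (w' - w) c) * (pr u a0 : ℝ))
        (pv (w' - w) b0 - (pv (w' - w) b0 - pv (w' - w) c) * (pr u b0 : ℝ)) ?_ ?_
      · intro a ha
        rw [pv_sub, pv_smul, pv_re, k1 a (hA' a ha), u1 a (hA' a ha) a0 ha0]
      · intro b hb
        rw [pv_sub, pv_smul, pv_re]
        rcases hcc b hb with h | rfl
        · rw [k2 b h, u2 b h b0 hb0]
        · rw [hu0]
          push_cast
          ring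
    · rw [u4 b0 hb0 c hcA hcF]
      ring

/-- two vertices with the same cell are equal -/
theorem vert_inj (p q : TPoly) (w w' : Pt) (hc : IsCell (p.top w) (q.top w))
    (h1 : ∀ a ∈ p.top w, a ∈ p.top w') (h2 : ∀ b ∈ q.top w, b ∈ q.top w') : w = w' := by
  have n1 : (p.top w).Nonempty := Finset.card_pos.mp (by rcases hc.2.2.1 with h | h <;> omega)
  have n2 : (q.top w).Nonempty := Finset.card_pos.mp (by rcases hc.2.2.1 with h | h <;> omega)
  obtain ⟨a0, ha0⟩ := n1
  obtain ⟨b0, hb0⟩ := n2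
  have h := cell_ker hc (w - w') (pv (w - w') a0) (pv (w - w') b0) ?_ ?_
  · exact sub_eq_zero.mp h
  · intro a ha
    have e1 := top_eq p w ha ha0
    have e2 := top_eq p w' (h1 a ha) (h1 a0 ha0)
    rw [val_eq, val_eq] at e1 e2
    rw [pv_sub, pv_sub]
    linarith
  · intro a ha
    have e1 := top_eq q w ha hb0
    have e2 := top_eq q w' (h2 a ha) (h2 b0 hb0)
    rw [val_eq, val_eq] at e1 e2
    rw [pv_sub, pv_sub]
    linarith

theorem inter_card {A A' B B' : Finset Mon}
    (h : (A.card = 3 ∧ B.card = 2) ∨ (A.card = 2 ∧ B.card = 3))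
    (h' : (A'.card = 3 ∧ B'.card = 2) ∨ (A'.card = 2 ∧ B'.card = 3))
    (hA : 2 ≤ (A ∩ A').card) (hB : 2 ≤ (B ∩ B').card)
    (hn : ¬ ((∀ a ∈ A, a ∈ A') ∧ ∀ b ∈ B, b ∈ B')) :
    (A ∩ A').card = 2 ∧ (B ∩ B').card = 2 := by
  have a1 : (A ∩ A').card ≤ A.card := Finset.card_le_card Finset.inter_subset_left
  have a2 : (A ∩ A').card ≤ A'.card := Finset.card_le_card Finset.inter_subset_right
  have b1 : (B ∩ B').card ≤ B.card := Finset.card_le_card Finset.inter_subset_left
  have b2 : (B ∩ B').card ≤ B'.card := Finset.card_le_card Finset.inter_subset_right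
  have hs : ∀ X X' : Finset Mon, X.card ≤ (X ∩ X').card → ∀ a ∈ X, a ∈ X' := by
    intro X X' hX a ha
    have : X ∩ X' = X := Finset.eq_of_subset_of_card_le Finset.inter_subset_left hX
    rw [← this] at ha
    exact (Finset.mem_inter.mp ha).2
  constructor
  · by_contra hc
    exact hn ⟨hs A A' (by omega), hs B B' (by omega)⟩
  · by_contra hc
    exact hn ⟨hs A A' (by omega), hs B B' (by omega)⟩

end NBA

open NBA

theorem t_NBA : S_VC → S_DIR → S_NBA := by
  intro hVC hDIR p q hp hq hS w w' hadj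
  obtain ⟨hne, hv, hv', i1, i2⟩ := hadj
  have hc := hVC p q hp hq hS w hv
  have hc' := hVC p q hp hq hS w' hv'
  have hn : ¬ ((∀ a ∈ p.top w, a ∈ p.top w') ∧ ∀ b ∈ q.top w, b ∈ q.top w') :=
    fun h => hne (vert_inj p q w w' hc h.1 h.2)
  obtain ⟨c1, c2⟩ := inter_card (A := p.top w) (A' := p.top w') (B := q.top w) (B' := q.top w')
    hc.2.2.1 hc'.2.2.1 (by convert i1) (by convert i2) hn
  have hF : ((p.top w ∩ p.top w', q.top w ∩ q.top w') : Finset Mon × Finset Mon) ∈
      (p.top w).powersetCard 2 ×ˢ (q.top w).powersetCard 2 := by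
    rw [Finset.mem_product, Finset.mem_powersetCard, Finset.mem_powersetCard]
    exact ⟨⟨Finset.inter_subset_left, c1⟩, Finset.inter_subset_left, c2⟩
  have hF' : ((p.top w ∩ p.top w', q.top w ∩ q.top w') : Finset Mon × Finset Mon) ∈
      (p.top w').powersetCard 2 ×ˢ (q.top w').powersetCard 2 := by
    rw [Finset.mem_product, Finset.mem_powersetCard, Finset.mem_powersetCard]
    exact ⟨⟨Finset.inter_subset_right, c1⟩, Finset.inter_subset_right, c2⟩
  obtain ⟨u, hu, -⟩ := (hDIR _ _ hc).1 _ hF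
  obtain ⟨u', hu', -⟩ := (hDIR _ _ hc').1 _ hF'
  obtain ⟨l, hl, e1, a, c, hac⟩ := step p q w w' hc (p.top w ∩ p.top w', q.top w ∩ q.top w')
    (fun a => Finset.mem_inter) (fun a => Finset.mem_inter) c1 c2 u hu
  obtain ⟨l', hl', e1', a', c', hac'⟩ := step p q w' w hc'
    (p.top w ∩ p.top w', q.top w ∩ q.top w')
    (fun a => by rw [and_comm]; exact Finset.mem_inter)
    (fun a => by rw [and_comm]; exact Finset.mem_inter) c1 c2 u' hu'
  have e2 : ∀ i, l * (u i : ℝ) = -(l' * (u' i : ℝ)) := by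
    intro i
    have := e1 i
    have := e1' i
    linarith
  have e3 : ∀ x : Mon, l * (pr u x : ℝ) = -(l' * (pr u' x : ℝ)) := by
    intro x
    simp only [pr]
    push_cast
    rw [Finset.mul_sum, Finset.mul_sum, ← Finset.sum_neg_distrib]
    refine Finset.sum_congr rfl fun i _ => ?_
    have := e2 i
    calc l * ((u i : ℝ) * (x i : ℝ)) = (l * (u i : ℝ)) * (x i : ℝ) := by ring
      _ = -(l' * ((u' i : ℝ) * (x i : ℝ))) := by rw [this]; ring
  obtain ⟨k, hk⟩ : ∃ k : ℤ, k = -(pr u' a - pr u' c) := ⟨_, rfl⟩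
  obtain ⟨k', hk'⟩ : ∃ k : ℤ, k = -(pr u a' - pr u c') := ⟨_, rfl⟩
  have f1 : l = l' * (k : ℝ) := by
    have g1 := e3 a
    have g2 := e3 c
    have g3 : (pr u a : ℝ) - (pr u c : ℝ) = 1 := by exact_mod_cast hac
    have g4 : (k : ℝ) = -((pr u' a : ℝ) - (pr u' c : ℝ)) := by rw [hk]; push_cast; ring
    rw [g4]
    linear_combination g1 - g2 - l * g3
  have f2 : l' = l * (k' : ℝ) := by
    have g1 := e3 a'
    have g2 := e3 c'
    have g3 : (pr u' a' : ℝ) - (pr u' c' : ℝ) = 1 := by exact_mod_cast hac'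
    have g4 : (k' : ℝ) = -((pr u a' : ℝ) - (pr u c' : ℝ)) := by rw [hk']; push_cast; ring
    rw [g4]
    linear_combination g1 - g2 - l' * g3
  have f3 : (k : ℝ) * (k' : ℝ) = 1 := by
    have : l * ((k : ℝ) * (k' : ℝ)) = l * 1 := by
      calc l * ((k : ℝ) * (k' : ℝ)) = (l * (k' : ℝ)) * k := by ring
        _ = l' * k := by rw [← f2]
        _ = l * 1 := by rw [← f1, mul_one]
    exact mul_left_cancel₀ hl.ne' this
  have f4 : k * k' = 1 := by exact_mod_cast f3
  have f5 : (0 : ℝ) < k := by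
    by_contra h
    push Not at h
    have : l' * (k : ℝ) ≤ 0 := mul_nonpos_of_nonneg_of_nonpos hl'.le h
    linarith
  have f6 : 0 < k := by exact_mod_cast f5
  have f7 : k = 1 := by
    rcases Int.eq_one_or_neg_one_of_mul_eq_one f4 with h | h
    · exact h
    · omega
  have f8 : l = l' := by rw [f1, f7]; push_cast; ring
  have f9 : u' = -u := by
    funext i
    have := e2 i
    rw [← f8] at this
    have h1 : l * ((u i : ℝ) + (u' i : ℝ)) = l * 0 := by linarith
    have h2 : (u i : ℝ) + (u' i : ℝ) = 0 := mul_left_cancel₀ hl.ne' h1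
    have h3 : u i + u' i = 0 := by exact_mod_cast h2
    simp only [Pi.neg_apply]
    omega
  rw [f9] at hu'
  exact ⟨_, hF, fun a => Finset.mem_inter, fun a => Finset.mem_inter, u, l, hl, hu, hu', e1⟩

end Pool.Agent.R863.TG
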