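import Pool.Agent.R863.TG.Stm

/-! Piece TG-NBE (helper801): pivoting. -/

set_option autoImplicit false

namespace Pool.Agent.R863.TG

namespace NBE

open Submodule

lemma mem_top (p : TPoly) (w : Pt) (a : Mon) :
    a ∈ p.top w ↔ a ∈ p.supp ∧ ∀ b ∈ p.supp, p.val w b ≤ p.val w a := by
  unfold TPoly.top
  rw [Finset.mem_filter]

lemma mem_cell (p q : TPoly) (w : Pt) (x : Bool × Mon) :
    x ∈ cell p q w ↔ (x.1 = false ∧ x.2 ∈ p.top w) ∨ (x.1 = true ∧ x.2 ∈ q.top w) := by
  unfold cell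
  rw [Finset.mem_union, Finset.mem_image, Finset.mem_image]
  constructor
  · rintro (⟨a, ha, rfl⟩ | ⟨a, ha, rfl⟩)
    · exact Or.inl ⟨rfl, ha⟩
    · exact Or.inr ⟨rfl, ha⟩
  · rintro (⟨h, ha⟩ | ⟨h, ha⟩)
    · exact Or.inl ⟨x.2, ha, by rw [← h]⟩
    · exact Or.inr ⟨x.2, ha, by rw [← h]⟩

lemma val_move (p : TPoly) (w : Pt) (u : Fin 3 → ℤ) (t : ℝ) (a : Mon) :
    p.val (fun i => w i + t * (u i : ℝ)) a = p.val w a + t * (pr u a : ℝ) := by
  unfold TPoly.val pr
  push_cast
  simp only [Fin.sum_univ_three]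
  ring

lemma face_top (p : TPoly) (w : Pt) (u : Fin 3 → ℤ) (t : ℝ) (a0 : Mon)
    (ht : ∀ a' ∈ p.supp, t * ((pr u a' : ℝ) - pr u a0) ≤ p.val w a0 - p.val w a')
    (a : Mon) (ha : a ∈ p.supp)
    (hav : p.val w a0 - p.val w a = t * ((pr u a : ℝ) - pr u a0)) :
    a ∈ p.top (fun i => w i + t * (u i : ℝ)) := by
  rw [mem_top]
  refine ⟨ha, fun b hb => ?_⟩
  rw [val_move, val_move]
  have := ht b hb
  linarith

/-- the vector `(0, u)` -/
def uh (u : Fin 3 → ℤ) : Fin 4 → ℤ := ![0, u 0, u 1, u 2]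

lemma corner (p : TPoly) (d : ℕ) (hp : p.HasDeg d) (u : Fin 3 → ℤ) (m : ℤ)
    (h : ∀ a' ∈ p.supp, pr u a' ≤ m) (a : Mon) (ha : a ∈ p.supp) (ham : pr u a = m)
    (i jM : Fin 4) (hM : ∀ j, uh u j ≤ uh u jM) (hi : uh u i < uh u jM) : hom d a i = 0 := by
  have hv : ∀ j : Fin 4, (d : ℤ) * uh u j ≤ m := by
    intro j
    have h0 := h 0 hp.2.1
    have h1 := h _ (hp.2.2 0)
    have h2 := h _ (hp.2.2 1)
    have h3 := h _ (hp.2.2 2)
    simp only [pr, Fin.sum_univ_three, Pi.zero_apply, Nat.cast_zero, mul_zero, add_zero] at h0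
    simp [pr, Fin.sum_univ_three, Pi.single_apply] at h1 h2 h3
    fin_cases j
    · simpa [uh] using h0
    · simp only [uh]
      show (d : ℤ) * u 0 ≤ m
      linarith
    · show (d : ℤ) * u 1 ≤ m
      linarith
    · show (d : ℤ) * u 2 ≤ m
      linarith
  have hs : ∑ j, uh u j * hom d a j = m := by
    rw [← ham]
    simp [uh, hom, pr, Fin.sum_univ_four, Fin.sum_univ_three]
  have h1 : ∑ j, hom d a j = d := by
    simp [hom, Fin.sum_univ_four, Fin.sum_univ_three]
    ring
  have hd := hp.1 a ha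
  have hn : ∀ j, 0 ≤ hom d a j := by
    intro j
    have hd' : (∑ i, (a i : ℤ)) ≤ d := by exact_mod_cast hd
    fin_cases j
    · show 0 ≤ (d : ℤ) - ∑ i, (a i : ℤ)
      linarith
    · show 0 ≤ ((a 0 : ℕ) : ℤ)
      positivity
    · show 0 ≤ ((a 1 : ℕ) : ℤ)
      positivity
    · show 0 ≤ ((a 2 : ℕ) : ℤ)
      positivity
  have hsum : ∑ j, (uh u jM - uh u j) * hom d a j ≤ 0 := by
    have e : ∑ j, (uh u jM - uh u j) * hom d a j = (d : ℤ) * uh u jM - m := by
      rw [← hs, ← h1, Finset.sum_mul, ← Finset.sum_sub_distrib]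
      refine Finset.sum_congr rfl fun j _ => by ring
    rw [e]
    have := hv jM
    linarith
  have hterm : (uh u jM - uh u i) * hom d a i ≤ ∑ j, (uh u jM - uh u j) * hom d a j :=
    Finset.single_le_sum (f := fun j => (uh u jM - uh u j) * hom d a j)
      (fun j _ => mul_nonneg (by have := hM j; linarith) (hn j)) (Finset.mem_univ i)
  have h2 : 0 < uh u jM - uh u i := by linarith
  have h3 := hn i
  nlinarith

/-- the linear functional -/
noncomputable def ell (u : Fin 3 → ℤ) (mP mQ : ℤ) : (Fin 5 → ℝ) →ₗ[ℝ] ℝ where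
  toFun y := u 0 * y 0 + u 1 * y 1 + u 2 * y 2 - mP * y 3 - mQ * y 4
  map_add' y z := by simp only [Pi.add_apply]; ring
  map_smul' r y := by simp only [Pi.smul_apply, smul_eq_mul, RingHom.id_apply]; ring

lemma ell_false (u : Fin 3 → ℤ) (mP mQ : ℤ) (a : Mon) :
    ell u mP mQ (cay (false, a)) = (pr u a : ℝ) - mP := by
  simp [ell, cay, pr, Fin.sum_univ_three]

lemma ell_true (u : Fin 3 → ℤ) (mP mQ : ℤ) (a : Mon) :
    ell u mP mQ (cay (true, a)) = (pr u a : ℝ) - mQ := by
  simp [ell, cay, pr, Fin.sum_univ_three]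

end NBE

open NBE in
theorem t_NBE (hVC : S_VC) (hDIR : S_DIR) : S_NBE := by
  classical
  intro p q hp hq hS w hw F hF hnf
  have hcell := hVC p q hp hq hS w hw
  obtain ⟨u, hu, -⟩ := (hDIR _ _ hcell).1 F hF
  obtain ⟨u1, u2, u3, u4⟩ := hu
  obtain ⟨-, -, hcard, -⟩ := hcell
  rw [Finset.mem_product, Finset.mem_powersetCard, Finset.mem_powersetCard] at hF
  obtain ⟨⟨hF1, hc1⟩, hF2, hc2⟩ := hF
  obtain ⟨a0, ha0⟩ : F.1.Nonempty := Finset.card_pos.1 (by omega)
  obtain ⟨b0, hb0⟩ : F.2.Nonempty := Finset.card_pos.1 (by omega)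
  have ha0t := hF1 ha0
  have hb0t := hF2 hb0
  rw [mem_top] at ha0t hb0t
  -- the fifth point
  obtain ⟨c0, hc0, hcl, hell⟩ : ∃ c0 : Bool × Mon, c0 ∈ cell p q w ∧
      (∀ x ∈ cell p q w, (x.1 = false ∧ x.2 ∈ F.1) ∨ (x.1 = true ∧ x.2 ∈ F.2) ∨ x = c0) ∧
      ell u (pr u a0) (pr u b0) (cay c0) = -1 := by
    rcases hcard with ⟨hA, hB⟩ | ⟨hA, hB⟩
    · obtain ⟨c, hc⟩ : (p.top w \ F.1).Nonempty := by
        rw [← Finset.card_pos, Finset.card_sdiff_of_subset hF1]; omega
      rw [Finset.mem_sdiff] at hc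
      have hB' : F.2 = q.top w := Finset.eq_of_subset_of_card_le hF2 (by omega)
      have hA' : insert c F.1 = p.top w := by
        apply Finset.eq_of_subset_of_card_le
        · exact Finset.insert_subset hc.1 hF1
        · rw [Finset.card_insert_of_notMem hc.2]; omega
      refine ⟨(false, c), (mem_cell _ _ _ _).2 (Or.inl ⟨rfl, hc.1⟩), ?_, ?_⟩
      · intro x hx
        rcases (mem_cell _ _ _ _).1 hx with ⟨h, hx2⟩ | ⟨h, hx2⟩
        · rw [← hA', Finset.mem_insert] at hx2
          rcases hx2 with h2 | h2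
          · right; right
            exact Prod.ext h h2
          · exact Or.inl ⟨h, h2⟩
        · exact Or.inr (Or.inl ⟨h, by rw [hB']; exact hx2⟩)
      · rw [ell_false, u3 a0 ha0 c hc.1 hc.2]
        push_cast
        ring
    · obtain ⟨c, hc⟩ : (q.top w \ F.2).Nonempty := by
        rw [← Finset.card_pos, Finset.card_sdiff_of_subset hF2]; omega
      rw [Finset.mem_sdiff] at hc
      have hA' : F.1 = p.top w := Finset.eq_of_subset_of_card_le hF1 (by omega)
      have hB' : insert c F.2 = q.top w := by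
        apply Finset.eq_of_subset_of_card_le
        · exact Finset.insert_subset hc.1 hF2
        · rw [Finset.card_insert_of_notMem hc.2]; omega
      refine ⟨(true, c), (mem_cell _ _ _ _).2 (Or.inr ⟨rfl, hc.1⟩), ?_, ?_⟩
      · intro x hx
        rcases (mem_cell _ _ _ _).1 hx with ⟨h, hx2⟩ | ⟨h, hx2⟩
        · exact Or.inl ⟨h, by rw [hA']; exact hx2⟩
        · rw [← hB', Finset.mem_insert] at hx2
          rcases hx2 with h2 | h2
          · right; right
            exact Prod.ext h h2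
          · exact Or.inr (Or.inl ⟨h, h2⟩)
      · rw [ell_true, u4 b0 hb0 c hc.1 hc.2]
        push_cast
        ring
  have hun : u ≠ 0 := by
    rintro rfl
    have h1 : pr 0 a0 = 0 := by simp [pr]
    have h2 : pr 0 b0 = 0 := by simp [pr]
    rw [h1, h2] at hell
    simp [ell] at hell
  have hpA : ∀ a ∈ p.top w, pr u a ≤ pr u a0 := by
    intro a ha
    by_cases haF : a ∈ F.1
    · exact (u1 a haF a0 ha0).le
    · rw [u3 a0 ha0 a ha haF]; omega
  have hqB : ∀ b ∈ q.top w, pr u b ≤ pr u b0 := by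
    intro b hb
    by_cases hbF : b ∈ F.2
    · exact (u2 b hbF b0 hb0).le
    · rw [u4 b0 hb0 b hb hbF]; omega
  -- points beyond
  set Sp := p.supp.filter fun a => pr u a0 < pr u a with hSp
  set Sq := q.supp.filter fun b => pr u b0 < pr u b with hSq
  by_cases hcase : Sp = ∅ ∧ Sq = ∅
  · exfalso
    obtain ⟨h1, h2⟩ := hcase
    have hp1 : ∀ a ∈ p.supp, pr u a ≤ pr u a0 := by
      intro a ha
      by_contra hcon
      push Not at hcon
      have : a ∈ Sp := Finset.mem_filter.2 ⟨ha, hcon⟩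
      rw [h1] at this
      simp at this
    have hq1 : ∀ b ∈ q.supp, pr u b ≤ pr u b0 := by
      intro b hb
      by_contra hcon
      push Not at hcon
      have : b ∈ Sq := Finset.mem_filter.2 ⟨hb, hcon⟩
      rw [h2] at this
      simp at this
    obtain ⟨jM, hM⟩ := Finite.exists_max (uh u)
    obtain ⟨i, hi⟩ : ∃ i, uh u i < uh u jM := by
      by_contra hcon
      push Not at hcon
      apply hun
      have e0 : uh u 0 = 0 := rfl
      have hall : ∀ j, uh u j = 0 := by
        intro j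
        have a1 := hcon j
        have a2 := hM j
        have a3 := hcon 0
        have a4 := hM 0
        rw [e0] at a3 a4
        omega
      funext j
      fin_cases j
      · exact hall 1
      · exact hall 2
      · exact hall 3
    apply hnf i
    constructor
    · intro a ha
      exact corner p 2 hp u _ hp1 a ((mem_top _ _ _).1 (hF1 ha)).1 (u1 a ha a0 ha0) i jM hM hi
    · intro b hb
      exact corner q 3 hq u _ hq1 b ((mem_top _ _ _).1 (hF2 hb)).1 (u2 b hb b0 hb0) i jM hM hi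
  -- pivot
  set fp : Mon → ℝ := fun a => (p.val w a0 - p.val w a) / ((pr u a : ℝ) - pr u a0) with hfp
  set fq : Mon → ℝ := fun b => (q.val w b0 - q.val w b) / ((pr u b : ℝ) - pr u b0) with hfq
  set TT := Sp.image fp ∪ Sq.image fq with hTT
  have hTne : TT.Nonempty := by
    rw [hTT, Finset.union_nonempty, Finset.image_nonempty, Finset.image_nonempty]
    by_contra hcon
    push Not at hcon
    exact hcase hcon
  obtain ⟨t, htmem, htmin⟩ : ∃ t ∈ TT, ∀ s ∈ TT, t ≤ s := ⟨TT.min' hTne, TT.min'_mem hTne,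
    fun s hs => TT.min'_le s hs⟩
  have hpos : ∀ s ∈ TT, 0 < s := by
    intro s hs
    rw [hTT, Finset.mem_union, Finset.mem_image, Finset.mem_image] at hs
    rcases hs with ⟨a, ha, rfl⟩ | ⟨b, hb, rfl⟩
    · rw [hSp, Finset.mem_filter] at ha
      have h1 : (pr u a0 : ℝ) < pr u a := by exact_mod_cast ha.2
      apply div_pos _ (by linarith)
      have h2 : p.val w a ≤ p.val w a0 := ha0t.2 a ha.1
      rcases h2.lt_or_eq with h3 | h3
      · linarith
      · exfalso
        have h4 : a ∈ p.top w := (mem_top _ _ _).2 ⟨ha.1, fun b hb => by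
          rw [h3]; exact ha0t.2 b hb⟩
        have := hpA a h4
        omega
    · rw [hSq, Finset.mem_filter] at hb
      have h1 : (pr u b0 : ℝ) < pr u b := by exact_mod_cast hb.2
      apply div_pos _ (by linarith)
      have h2 : q.val w b ≤ q.val w b0 := hb0t.2 b hb.1
      rcases h2.lt_or_eq with h3 | h3
      · linarith
      · exfalso
        have h4 : b ∈ q.top w := (mem_top _ _ _).2 ⟨hb.1, fun b' hb' => by
          rw [h3]; exact hb0t.2 b' hb'⟩
        have := hqB b h4
        omega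
  have ht0 := hpos t htmem
  have hP : ∀ a' ∈ p.supp, t * ((pr u a' : ℝ) - pr u a0) ≤ p.val w a0 - p.val w a' := by
    intro a' ha'
    by_cases h1 : pr u a0 < pr u a'
    · have h2 : fp a' ∈ TT := Finset.mem_union_left _ (Finset.mem_image_of_mem _
        (Finset.mem_filter.2 ⟨ha', h1⟩))
      have h3 := htmin _ h2
      have h4 : (pr u a0 : ℝ) < pr u a' := by exact_mod_cast h1
      rw [hfp] at h3
      exact (le_div_iff₀ (by linarith)).1 h3
    · push Not at h1
      have h4 : (pr u a' : ℝ) ≤ pr u a0 := by exact_mod_cast h1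
      have h5 := ha0t.2 a' ha'
      nlinarith
  have hQ : ∀ b' ∈ q.supp, t * ((pr u b' : ℝ) - pr u b0) ≤ q.val w b0 - q.val w b' := by
    intro b' hb'
    by_cases h1 : pr u b0 < pr u b'
    · have h2 : fq b' ∈ TT := Finset.mem_union_right _ (Finset.mem_image_of_mem _
        (Finset.mem_filter.2 ⟨hb', h1⟩))
      have h3 := htmin _ h2
      have h4 : (pr u b0 : ℝ) < pr u b' := by exact_mod_cast h1
      rw [hfq] at h3
      exact (le_div_iff₀ (by linarith)).1 h3
    · push Not at h1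
      have h4 : (pr u b' : ℝ) ≤ pr u b0 := by exact_mod_cast h1
      have h5 := hb0t.2 b' hb'
      nlinarith
  set w' : Pt := fun i => w i + t * (u i : ℝ) with hw'
  have hF1' : F.1 ⊆ p.top w' := by
    intro a ha
    have h1 := (mem_top _ _ _).1 (hF1 ha)
    apply face_top p w u t a0 hP a h1.1
    rw [u1 a ha a0 ha0]
    have := h1.2 a0 ha0t.1
    have := ha0t.2 a h1.1
    linarith
  have hF2' : F.2 ⊆ q.top w' := by
    intro b hb
    have h1 := (mem_top _ _ _).1 (hF2 hb)
    apply face_top q w u t b0 hQ b h1.1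
    rw [u2 b hb b0 hb0]
    have := h1.2 b0 hb0t.1
    have := hb0t.2 b h1.1
    linarith
  -- the new point
  obtain ⟨x1, hx1, hx1l⟩ : ∃ x1 : Bool × Mon, x1 ∈ cell p q w' ∧
      0 < ell u (pr u a0) (pr u b0) (cay x1) := by
    have h := htmem
    rw [hTT, Finset.mem_union, Finset.mem_image, Finset.mem_image] at h
    rcases h with ⟨a, ha, hat⟩ | ⟨b, hb, hbt⟩
    · rw [hSp, Finset.mem_filter] at ha
      have h1 : (pr u a0 : ℝ) < pr u a := by exact_mod_cast ha.2
      refine ⟨(false, a), (mem_cell _ _ _ _).2 (Or.inl ⟨rfl, ?_⟩), ?_⟩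
      · apply face_top p w u t a0 hP a ha.1
        rw [← hat, hfp]
        have : (pr u a : ℝ) - pr u a0 ≠ 0 := by
          have : 0 < (pr u a : ℝ) - pr u a0 := by linarith
          exact this.ne'
        simp only
        field_simp
      · rw [ell_false]; linarith
    · rw [hSq, Finset.mem_filter] at hb
      have h1 : (pr u b0 : ℝ) < pr u b := by exact_mod_cast hb.2
      refine ⟨(true, b), (mem_cell _ _ _ _).2 (Or.inr ⟨rfl, ?_⟩), ?_⟩
      · apply face_top q w u t b0 hQ b hb.1
        rw [← hbt, hfq]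
        have : (pr u b : ℝ) - pr u b0 ≠ 0 := by
          have : 0 < (pr u b : ℝ) - pr u b0 := by linarith
          exact this.ne'
        simp only
        field_simp
      · rw [ell_true]; linarith
  -- fullness
  set FP : Set (Bool × Mon) := {x | (x.1 = false ∧ x.2 ∈ F.1) ∨ (x.1 = true ∧ x.2 ∈ F.2)} with hFP
  have hFPz : ∀ y ∈ Submodule.span ℝ (cay '' FP), ell u (pr u a0) (pr u b0) y = 0 := by
    intro y hy
    have : Submodule.span ℝ (cay '' FP) ≤ LinearMap.ker (ell u (pr u a0) (pr u b0)) := by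
      rw [Submodule.span_le]
      rintro _ ⟨x, hx, rfl⟩
      rw [SetLike.mem_coe, LinearMap.mem_ker]
      obtain ⟨x1, x2⟩ := x
      rcases hx with ⟨h1, h2⟩ | ⟨h1, h2⟩
      · simp only at h1 h2
        subst h1
        rw [ell_false, u1 x2 h2 a0 ha0, sub_self]
      · simp only at h1 h2
        subst h1
        rw [ell_true, u2 x2 h2 b0 hb0, sub_self]
    exact this hy
  have hFPle : Submodule.span ℝ (cay '' FP) ≤
      Submodule.span ℝ (cay '' (cell p q w' : Set (Bool × Mon))) := by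
    apply Submodule.span_mono
    apply Set.image_mono
    intro x hx
    rw [Finset.mem_coe, mem_cell]
    rcases hx with ⟨h1, h2⟩ | ⟨h1, h2⟩
    · exact Or.inl ⟨h1, hF1' h2⟩
    · exact Or.inr ⟨h1, hF2' h2⟩
  have hx1W : cay x1 ∈ Submodule.span ℝ (cay '' (cell p q w' : Set (Bool × Mon))) :=
    Submodule.subset_span ⟨x1, hx1, rfl⟩
  have hsup : (⊤ : Submodule ℝ (Fin 5 → ℝ)) ≤
      Submodule.span ℝ (cay '' FP) ⊔ Submodule.span ℝ {cay c0} := by
    rw [← hw.1, Submodule.span_le]
    rintro _ ⟨x, hx, rfl⟩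
    rcases hcl x hx with h | h | h
    · exact Submodule.mem_sup_left (Submodule.subset_span ⟨x, Or.inl h, rfl⟩)
    · exact Submodule.mem_sup_left (Submodule.subset_span ⟨x, Or.inr h, rfl⟩)
    · rw [h]
      exact Submodule.mem_sup_right (Submodule.mem_span_singleton_self _)
  have hfull : Full p q w' := by
    unfold Full
    rw [eq_top_iff]
    refine hsup.trans (sup_le hFPle ?_)
    rw [Submodule.span_singleton_le_iff_mem]
    obtain ⟨f, hf, z, hz, hfz⟩ := Submodule.mem_sup.1 (hsup (Submodule.mem_top (x := cay x1)))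
    obtain ⟨κ, rfl⟩ := Submodule.mem_span_singleton.1 hz
    have h1 := congrArg (ell u (pr u a0) (pr u b0)) hfz
    rw [map_add, hFPz f hf, map_smul, hell, smul_eq_mul] at h1
    have hκ : κ ≠ 0 := by
      rintro rfl
      rw [zero_mul, add_zero] at h1
      linarith
    have h2 : cay c0 = κ⁻¹ • (cay x1 - f) := by
      rw [← hfz, add_sub_cancel_left, smul_smul, inv_mul_cancel₀ hκ, one_smul]
    rw [h2]
    exact Submodule.smul_mem _ _ (Submodule.sub_mem _ hx1W (hFPle hf))
  have hvert : IsVert p q w' := by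
    refine ⟨hfull, ?_, ?_⟩
    · rw [← hc1]; exact Finset.card_le_card hF1'
    · rw [← hc2]; exact Finset.card_le_card hF2'
  refine ⟨w', ⟨?_, hw, hvert, ?_, ?_⟩, hF1', hF2'⟩
  · intro h
    apply hun
    funext i
    have h1 := congrFun h i
    rw [hw'] at h1
    have h2 : t * (u i : ℝ) = 0 := by linarith
    rcases mul_eq_zero.1 h2 with h3 | h3
    · exact absurd h3 ht0.ne'
    · exact_mod_cast h3
  · rw [← hc1]
    exact Finset.card_le_card (Finset.subset_inter hF1 hF1')
  · rw [← hc2]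
    exact Finset.card_le_card (Finset.subset_inter hF2 hF2')

end Pool.Agent.R863.TG
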