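import Pool.Agent.R863.TG.Stm

/-!
# TG-NO: no sprawling graph occurs (assembly)
-/

set_option autoImplicit false

namespace Pool.Agent.R863.TG

open Relation

theorem t_EN : S_EN32 → S_EN23 → S_EN := by
  intro h32 h23 A B hAB
  rcases hAB.2.2.1 with h | h
  · exact h32 A B hAB h.1
  · exact h23 A B hAB h.1

theorem t_NO : S_VC → S_DIR → S_NB → S_FIN → S_REG → S_TAIL → S_LVL → S_EN → S_GR → S_NO := by
  intro hVC _hDIR hNB hFIN hREG hTAIL hLVL hEN hGR A hA hocc hsp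
  obtain ⟨p, q, hp, hq, hs, hsk⟩ := hocc
  obtain ⟨hfin, hsym, hdeg⟩ := hFIN p q hp hq hs
  obtain ⟨v, x, U, g, hx, hT, hm, hk, hUz, hcon⟩ :=
    hGR Pt (Adj p q) A (fun x y h => hsym x y h) (fun x h => h.1 rfl)
      (hfin.subset (fun x hx => hx.choose_spec.2.1)) hdeg hsk hA hsp
  have hadj : ∀ j, Adj p q v (x j) := fun j => (hT j).2.2.1
  have hv : IsVert p q v := (hadj 0).2.1
  have hcell := hVC p q hp hq hs v hv
  have hcommon : ∀ a ∈ p.top v, ∀ b ∈ q.top v, ∃ i, hom 2 a i = 0 ∧ hom 3 b i = 0 := by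
    intro a ha b hb
    by_contra hne
    have hne' : ∀ i, ¬ (hom 2 a i = 0 ∧ hom 3 b i = 0) := fun i hi => hne ⟨i, hi⟩
    obtain ⟨y, z, hyz, hvy, hvz, hc⟩ := hREG p q hp hq hs v hv a ha b hb hne'
    exact hcon y z hyz hvy hvz hc
  obtain ⟨hNB1, hNB2⟩ := hNB p q hp hq hs v hv
  choose F hF hF1 hF2 u l _hl hdir _hdir' _hw using fun j => hNB2 (x j) (hadj j)
  have hs1 : ∀ j, (F j).1 ⊆ p.top (x j) := fun j a ha => ((hF1 j a).1 ha).2
  have hs2 : ∀ j, (F j).2 ⊆ q.top (x j) := fun j b hb => ((hF2 j b).1 hb).2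
  have hFnb : ∀ j, (∀ i, ¬ InFacet (F j) i) ∧
      ∃! w', Adj p q v w' ∧ (F j).1 ⊆ p.top w' ∧ (F j).2 ⊆ q.top w' := by
    intro j
    rcases hNB1 (F j) (hF j) with h | h
    · exact absurd ⟨hs1 j, hs2 j⟩ (h.2 (x j) (hadj j))
    · exact h
  have hinj : Function.Injective F := by
    intro i j hij
    apply hx
    have h1 := (hFnb j).2
    exact h1.unique ⟨hadj i, by rw [← hij]; exact hs1 i, by rw [← hij]; exact hs2 i⟩
      ⟨hadj j, hs1 j, hs2 j⟩
  have hUvert : ∀ j, ∀ y ∈ U j, IsVert p q y := by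
    intro j y hy
    obtain ⟨z, hz⟩ := hUz j y hy
    exact hz.2.1
  have htail := fun j => hTAIL p q hp hq hs (U j) v (x j) (hT j) (hUvert j) (F j) (u j) (hF j)
    (hs1 j) (hs2 j) (hdir j)
  obtain ⟨j, hgj, k, i, i', hki, hki', hii', hnk, hni, hni'⟩ :=
    hEN (p.top v) (q.top v) hcell hcommon F u (fun j => nray p q (U j)) g hinj hF
      (fun j => (hFnb j).1) hdir (fun j i => (htail j).1 i)
      (by
        intro j a ha b hb
        obtain ⟨_, h2, h3⟩ := htail j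
        have h4 := h2 a ha b hb
        have h5 := hm j
        have h3' : (3 : ℤ) * (U j).card = m2 (Adj p q) (U j) +
            ∑ i, (nray p q (U j) i : ℤ) + 1 := by
          exact_mod_cast h3
        linarith) hk
  have hlt := hLVL p q hp hq hs (U j) v (x j) (hT j) (hUvert j)
    ⟨k, i, i', hki, hki', hii', hnk, hni, hni'⟩
  have hlt' : (m2 (Adj p q) (U j) : ℤ) < 2 * (U j).card := by exact_mod_cast hlt
  have h5 := hm j
  linarith

end Pool.Agent.R863.TG
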