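import Pool.Agent.R863.TG.Stm2

/-! TG-OCC: the certificates give existence (helper300). -/

set_option autoImplicit false

namespace Pool.Agent.R863.TG

theorem t_OCC : S_SND → S_WALK → S_TRF → S_OCC := by
  intro hS hW hT c g A hc ha hg
  obtain ⟨p, q, W, hp, hq, hsm, hinj, hadj⟩ := hS c hc
  -- the adjacency lists
  have hlen : g.adj.length = 65 := by
    have h := ha
    unfold achk at h
    rw [Bool.and_eq_true] at h
    exact beq_iff_eq.mp h.1
  have hall := ha
  unfold achk at hall
  rw [Bool.and_eq_true] at hall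
  have h2 := hall.2
  rw [List.all_eq_true] at h2
  have hlt : ∀ i j : ℕ, j ∈ nbL g i → i < 65 := by
    intro i j hj
    by_contra hi
    unfold nbL at hj
    rw [List.getD_eq_default _ _ (by omega)] at hj
    exact absurd hj List.not_mem_nil
  have hb : ∀ i, i < 65 → (∀ j ∈ nbL g i, j < 65) ∧
      ∀ j, j < 65 → (adjB c i j = true ↔ j ∈ nbL g i) := by
    intro i hi
    have h3 := h2 i (List.mem_range.mpr hi)
    rw [Bool.and_eq_true, List.all_eq_true, List.all_eq_true] at h3
    refine ⟨fun j hj => of_decide_eq_true (h3.1 j hj), fun j hj => ?_⟩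
    have h4 := beq_iff_eq.mp (h3.2 j (List.mem_range.mpr hj))
    rw [h4, List.contains_iff_mem]
  have hsymm : ∀ i j : ℕ, j ∈ nbL g i → i ∈ nbL g j := by
    intro i j hj
    have h := hg
    unfold gchk at h
    simp only [Bool.and_eq_true] at h
    have h3 := h.1.1.1.1.1.1.2
    rw [List.all_eq_true] at h3
    have h4 := h3 i (List.mem_range.mpr (hlt i j hj))
    rw [Bool.and_eq_true, List.all_eq_true] at h4
    have h5 := h4.2 j hj
    rw [Bool.and_eq_true] at h5
    exact List.contains_iff_mem.mp h5.2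
  refine ⟨p, q, hp, hq, hsm, hT Pt ℕ (Adj p q) (fun i j => j ∈ nbL g i) W A ?_ hsymm ?_ (hW g A hg)⟩
  · intro i j i' j' h h' hW'
    exact hinj i i' (hlt i j h) (hlt i' j' h') hW'
  · intro x y
    rw [hadj x y]
    constructor
    · rintro ⟨i, j, hi, hj, hx, hy, hB⟩
      exact ⟨i, j, hx, hy, ((hb i hi).2 j hj).mp hB⟩
    · rintro ⟨i, j, hx, hy, hB⟩
      have hi := hlt i j hB
      have hj := (hb i hi).1 j hB
      exact ⟨i, j, hi, hj, hx, hy, ((hb i hi).2 j hj).mpr hB⟩

end Pool.Agent.R863.TG
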