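import Pool.Agent.R863.TG.Stm

set_option autoImplicit false

namespace Pool.Agent.R863.TG

open Relation

namespace REG

theorem graph {α : Type} (R : α → α → Prop) (V : Finset α) (hs : ∀ x y, R x y → R y x)
    (hi : ∀ x, ¬ R x x)
    (h2 : ∀ x ∈ V, ∃ y z, y ≠ z ∧ ∀ w, (R x w ∧ w ∈ V) ↔ (w = y ∨ w = z)) (v : α)
    (hv : v ∈ V) (y z : α) (hN : ∀ w, (R v w ∧ w ∈ V) ↔ (w = y ∨ w = z)) :
    ReflTransGen (fun s t => R s t ∧ s ≠ v ∧ t ≠ v) y z := by
  classical
  by_contra hz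
  set P : α → α → Prop := fun s t => R s t ∧ s ≠ v ∧ t ≠ v with hP
  set C : Finset α := V.filter (fun x => x ≠ v ∧ ReflTransGen P y x) with hC
  have hyV : R v y ∧ y ∈ V := (hN y).2 (Or.inl rfl)
  have hyv : y ≠ v := fun e => hi v (by have := hyV.1; rwa [e] at this)
  have hyC : y ∈ C := by
    rw [hC, Finset.mem_filter]
    exact ⟨hyV.2, hyv, ReflTransGen.refl⟩
  have step : ∀ s t, s ∈ C → R s t → t ∈ V → t ≠ v → t ∈ C := by
    intro s t hsC hst htV htv
    rw [hC, Finset.mem_filter] at hsC ⊢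
    exact ⟨htV, htv, hsC.2.2.tail ⟨hst, hsC.2.1, htv⟩⟩
  let G : SimpleGraph {x // x ∈ C} :=
    { Adj := fun s t => R s.1 t.1
      symm := ⟨fun s t h => hs _ _ h⟩
      loopless := ⟨fun s h => hi _ h⟩ }
  have hodd : Odd (G.degree ⟨y, hyC⟩) := by
    obtain ⟨c, d, hcd, hcd'⟩ := h2 y hyV.2
    have key : ∃ d, d ≠ v ∧ ∀ w, (R y w ∧ w ∈ V) ↔ (w = v ∨ w = d) := by
      rcases (hcd' v).1 ⟨hs _ _ hyV.1, hv⟩ with rfl | rfl
      · exact ⟨d, hcd.symm, hcd'⟩
      · exact ⟨c, hcd, fun w => by rw [hcd' w, or_comm]⟩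
    obtain ⟨d, hdv, hd⟩ := key
    have hd1 := (hd d).2 (Or.inr rfl)
    have hdC : d ∈ C := step y d hyC hd1.1 hd1.2 hdv
    have : G.neighborFinset ⟨y, hyC⟩ = {⟨d, hdC⟩} := by
      ext ⟨t, ht⟩
      rw [SimpleGraph.mem_neighborFinset, Finset.mem_singleton, Subtype.mk.injEq]
      change R y t ↔ t = d
      constructor
      · intro h
        rw [hC, Finset.mem_filter] at ht
        rcases (hd t).1 ⟨h, ht.1⟩ with h' | h'
        · exact absurd h' ht.2.1
        · exact h'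
      · rintro rfl
        exact hd1.1
    rw [← SimpleGraph.card_neighborFinset_eq_degree, this, Finset.card_singleton]
    exact odd_one
  obtain ⟨⟨w, hwC⟩, hw, hwodd⟩ := G.exists_ne_odd_degree_of_exists_odd_degree ⟨y, hyC⟩ hodd
  have hwy : w ≠ y := fun e => hw (Subtype.ext e)
  have hwC' := hwC
  rw [hC, Finset.mem_filter] at hwC'
  have hwz : w ≠ z := by
    rintro rfl
    exact hz hwC'.2.2
  have hwv : ¬ R w v := by
    intro h
    rcases (hN w).1 ⟨hs _ _ h, hwC'.1⟩ with h' | h'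
    · exact hwy h'
    · exact hwz h'
  obtain ⟨c, d, hcd, hcd'⟩ := h2 w hwC'.1
  have hc1 := (hcd' c).2 (Or.inl rfl)
  have hd1 := (hcd' d).2 (Or.inr rfl)
  have hcC : c ∈ C := step w c hwC hc1.1 hc1.2 (by rintro rfl; exact hwv hc1.1)
  have hdC : d ∈ C := step w d hwC hd1.1 hd1.2 (by rintro rfl; exact hwv hd1.1)
  have : G.neighborFinset ⟨w, hwC⟩ = {⟨c, hcC⟩, ⟨d, hdC⟩} := by
    ext ⟨t, ht⟩
    rw [SimpleGraph.mem_neighborFinset, Finset.mem_insert, Finset.mem_singleton,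
      Subtype.mk.injEq, Subtype.mk.injEq]
    change R w t ↔ t = c ∨ t = d
    constructor
    · intro h
      rw [hC, Finset.mem_filter] at ht
      exact (hcd' t).1 ⟨h, ht.1⟩
    · rintro (rfl | rfl)
      · exact hc1.1
      · exact hd1.1
  rw [← SimpleGraph.card_neighborFinset_eq_degree, this, Finset.card_pair (by
    intro e
    exact hcd (congrArg Subtype.val e))] at hwodd
  exact absurd hwodd (by decide)

theorem pairs {β : Type} [DecidableEq β] (A : Finset β) (a : β) (ha : a ∈ A) :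
    ((A.powersetCard 2).filter (fun s => a ∈ s)).card = A.card - 1 := by
  have : (A.powersetCard 2).filter (fun s => a ∈ s) = (A.erase a).image (fun x => {a, x}) := by
    ext s
    simp only [Finset.mem_filter, Finset.mem_powersetCard, Finset.mem_image, Finset.mem_erase]
    constructor
    · rintro ⟨⟨h1, h2⟩, h3⟩
      obtain ⟨x, hx⟩ := Finset.card_eq_one.1
        (show (s.erase a).card = 1 by rw [Finset.card_erase_of_mem h3, h2])
      have hx' : x ∈ s.erase a := by rw [hx]; simp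
      rw [Finset.mem_erase] at hx'
      exact ⟨x, ⟨hx'.1, h1 hx'.2⟩, by rw [← hx, Finset.insert_erase h3]⟩
    · rintro ⟨x, ⟨h1, h2⟩, rfl⟩
      refine ⟨⟨?_, Finset.card_pair h1.symm⟩, by simp⟩
      intro z hz
      simp only [Finset.mem_insert, Finset.mem_singleton] at hz
      rcases hz with rfl | rfl <;> assumption
  rw [this, Finset.card_image_of_injOn, Finset.card_erase_of_mem ha]
  intro x hx x' hx' he
  simp only [Finset.coe_erase, Set.mem_sdiff, Finset.mem_coe, Set.mem_singleton_iff] at hx hx'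
  have : x ∈ ({a, x'} : Finset β) := by
    have h : ({a, x} : Finset β) = {a, x'} := he
    rw [← h]; simp
  simpa [hx.2] using this

end REG

open REG in
theorem t_REG : S_VC → S_NB → S_FIN → S_REG := by
  classical
  intro hVC hNB hFIN p q hp hq hsm v hv a ha b hb hab
  obtain ⟨hfin, hsymm, -⟩ := hFIN p q hp hq hsm
  have hsub : {w | IsVert p q w ∧ a ∈ p.top w ∧ b ∈ q.top w}.Finite :=
    hfin.subset fun w hw => hw.1
  set V : Finset Pt := hsub.toFinset with hVdef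
  have memV : ∀ w, w ∈ V ↔ IsVert p q w ∧ a ∈ p.top w ∧ b ∈ q.top w := by
    intro w
    rw [hVdef, Set.Finite.mem_toFinset]
    rfl
  have h2 : ∀ x ∈ V, ∃ y z, y ≠ z ∧ ∀ w, (Adj p q x w ∧ w ∈ V) ↔ (w = y ∨ w = z) := by
    intro x hx
    rw [memV] at hx
    obtain ⟨hxv, hxa, hxb⟩ := hx
    obtain ⟨hF, hA⟩ := hNB p q hp hq hsm x hxv
    have hcard : (((p.top x).powersetCard 2).filter (fun s => a ∈ s) ×ˢ
        ((q.top x).powersetCard 2).filter (fun s => b ∈ s)).card = 2 := by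
      rw [Finset.card_product, pairs _ _ hxa, pairs _ _ hxb]
      rcases (hVC p q hp hq hsm x hxv).2.2.1 with ⟨h1, h2⟩ | ⟨h1, h2⟩ <;> rw [h1, h2]
    obtain ⟨F1, F2, hne, hFF⟩ := Finset.card_eq_two.1 hcard
    have hmem : ∀ F : Finset Mon × Finset Mon, (F ∈ (p.top x).powersetCard 2 ×ˢ
        (q.top x).powersetCard 2 ∧ a ∈ F.1 ∧ b ∈ F.2) ↔ (F = F1 ∨ F = F2) := by
      intro F
      have : F ∈ (((p.top x).powersetCard 2).filter (fun s => a ∈ s) ×ˢ
        ((q.top x).powersetCard 2).filter (fun s => b ∈ s)) ↔ F ∈ ({F1, F2} : Finset _) := by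
        rw [hFF]
      rw [Finset.mem_insert, Finset.mem_singleton, Finset.mem_product, Finset.mem_filter,
        Finset.mem_filter] at this
      rw [← this, Finset.mem_product]
      tauto
    have hex : ∀ F : Finset Mon × Finset Mon, (F = F1 ∨ F = F2) →
        ∃ w', (Adj p q x w' ∧ F.1 ⊆ p.top w' ∧ F.2 ⊆ q.top w') ∧
          ∀ w'', Adj p q x w'' ∧ F.1 ⊆ p.top w'' ∧ F.2 ⊆ q.top w'' → w'' = w' := by
      intro F hFm
      obtain ⟨hFm1, hFa, hFb⟩ := (hmem F).2 hFm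
      rcases hF F hFm1 with ⟨⟨i, hi⟩, -⟩ | ⟨-, w', hw', hu⟩
      · exact absurd ⟨hi.1 a hFa, hi.2 b hFb⟩ (hab i)
      · exact ⟨w', hw', hu⟩
    obtain ⟨y, hy, hyu⟩ := hex F1 (Or.inl rfl)
    obtain ⟨z, hz, hzu⟩ := hex F2 (Or.inr rfl)
    have adjV : ∀ w, Adj p q x w → IsVert p q w := fun w h => h.2.2.1
    have hin : ∀ (F : Finset Mon × Finset Mon) (w : Pt), (F = F1 ∨ F = F2) →
        Adj p q x w → F.1 ⊆ p.top w → F.2 ⊆ q.top w →
        F.1 = (p.top x) ∩ (p.top w) ∧ F.2 = (q.top x) ∩ (q.top w) := by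
      intro F w hFm hadj hw1 hw2
      obtain ⟨hFm1, hFa, hFb⟩ := (hmem F).2 hFm
      obtain ⟨F', hF', hF1, hF2, -⟩ := hA w hadj
      rw [Finset.mem_product, Finset.mem_powersetCard, Finset.mem_powersetCard] at hFm1 hF'
      have e1 : F'.1 = (p.top x) ∩ (p.top w) := by
        ext c
        rw [hF1, Finset.mem_inter]
      have e2 : F'.2 = (q.top x) ∩ (q.top w) := by
        ext c
        rw [hF2, Finset.mem_inter]
      constructor
      · rw [← e1]
        apply Finset.eq_of_subset_of_card_le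
        · rw [e1]
          exact Finset.subset_inter hFm1.1.1 hw1
        · rw [hFm1.1.2, hF'.1.2]
      · rw [← e2]
        apply Finset.eq_of_subset_of_card_le
        · rw [e2]
          exact Finset.subset_inter hFm1.2.1 hw2
        · rw [hFm1.2.2, hF'.2.2]
    refine ⟨y, z, ?_, ?_⟩
    · rintro rfl
      obtain ⟨k1, k2⟩ := hin F1 y (Or.inl rfl) hy.1 hy.2.1 hy.2.2
      obtain ⟨k3, k4⟩ := hin F2 y (Or.inr rfl) hz.1 hz.2.1 hz.2.2
      exact hne (Prod.ext (k1.trans k3.symm) (k2.trans k4.symm))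
    · intro w
      constructor
      · rintro ⟨hadj, hwV⟩
        rw [memV] at hwV
        obtain ⟨F', hF', hF1, hF2, -⟩ := hA w hadj
        have hFm : F' = F1 ∨ F' = F2 :=
          (hmem F').1 ⟨hF', (hF1 a).2 ⟨hxa, hwV.2.1⟩, (hF2 b).2 ⟨hxb, hwV.2.2⟩⟩
        have s1 : F'.1 ⊆ p.top w := fun c hc => ((hF1 c).1 hc).2
        have s2 : F'.2 ⊆ q.top w := fun c hc => ((hF2 c).1 hc).2
        rcases hFm with rfl | rfl
        · exact Or.inl (hyu w ⟨hadj, s1, s2⟩)
        · exact Or.inr (hzu w ⟨hadj, s1, s2⟩)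
      · rintro (rfl | rfl)
        · obtain ⟨-, hFa, hFb⟩ := (hmem F1).2 (Or.inl rfl)
          exact ⟨hy.1, (memV _).2 ⟨adjV _ hy.1, hy.2.1 hFa, hy.2.2 hFb⟩⟩
        · obtain ⟨-, hFa, hFb⟩ := (hmem F2).2 (Or.inr rfl)
          exact ⟨hz.1, (memV _).2 ⟨adjV _ hz.1, hz.2.1 hFa, hz.2.2 hFb⟩⟩
  have hvV : v ∈ V := (memV v).2 ⟨hv, ha, hb⟩
  obtain ⟨y, z, hyz, hN⟩ := h2 v hvV
  exact ⟨y, z, hyz, ((hN y).2 (Or.inl rfl)).1, ((hN z).2 (Or.inr rfl)).1,
    graph (Adj p q) V hsymm (fun x h => h.1 rfl) h2 v hvV y z hN⟩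

end Pool.Agent.R863.TG
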