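import Mathlib

/-! Abstract completeness lemma for certificates of regular triangulations. -/

set_option autoImplicit false

namespace Pool.Agent.R863.TG

open Matrix

/-- If the cells `s i` with functionals `L i` satisfy the local conditions, every functional
`M` that dominates the heights and touches them in a spanning set is one of the `L i`. -/
theorem complete_of_local {N : ℕ} (hN : 0 < N) {ι : Type} [Fintype ι]
    (P : ι → (Fin 5 → ℝ)) (h : ι → ℝ) (L : Fin N → (Fin 5 → ℝ))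
    (s : Fin N → Fin 5 → ι) (μ : Fin N → Fin 5 → (Fin 5 → ℝ))
    (hdom : ∀ i j, h j ≤ L i ⬝ᵥ P j)
    (heq : ∀ i j, h j = L i ⬝ᵥ P j ↔ j ∈ Set.range (s i))
    (hpos : ∀ i k, 0 < μ i k ⬝ᵥ P (s i k))
    (hzero : ∀ i k k', k' ≠ k → μ i k ⬝ᵥ P (s i k') = 0)
    (hmu : ∀ i k, (∀ j, 0 ≤ μ i k ⬝ᵥ P j) ∨ ∃ i', μ i k = L i' - L i)
    (M : Fin 5 → ℝ) (hM : ∀ j, h j ≤ M ⬝ᵥ P j)
    (hspan : Submodule.span ℝ (P '' {j | h j = M ⬝ᵥ P j}) = ⊤) :
    ∃ i, M = L i ∧ ∀ j, h j = M ⬝ᵥ P j ↔ j ∈ Set.range (s i) := by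
  classical
  haveI : Nonempty (Fin N) := ⟨⟨0, hN⟩⟩
  set S : Finset ι := Finset.univ.filter fun j => h j = M ⬝ᵥ P j with hS
  set u : Fin 5 → ℝ := ∑ j ∈ S, P j with hu
  obtain ⟨i, hi⟩ := Finite.exists_min (fun i => L i ⬝ᵥ u)
  have hsum : ∀ X : Fin 5 → ℝ, X ⬝ᵥ u = ∑ j ∈ S, X ⬝ᵥ P j := by
    intro X; rw [hu, dotProduct_sum]
  -- basis
  have hli : LinearIndependent ℝ (fun k => P (s i k)) := by
    rw [Fintype.linearIndependent_iff]
    intro g hg k
    have h1 : μ i k ⬝ᵥ (∑ k', g k' • P (s i k')) = g k * (μ i k ⬝ᵥ P (s i k)) := by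
      rw [dotProduct_sum, Finset.sum_eq_single k]
      · rw [dotProduct_smul, smul_eq_mul]
      · intro k' _ hk'
        rw [dotProduct_smul, hzero i k k' hk', smul_zero]
      · intro hk; exact absurd (Finset.mem_univ k) hk
    rw [hg, dotProduct_zero] at h1
    rcases mul_eq_zero.mp h1.symm with h2 | h2
    · exact h2
    · exact absurd h2 (ne_of_gt (hpos i k))
  let b := basisOfLinearIndependentOfCardEqFinrank hli (by simp)
  have hb : ∀ k, b k = P (s i k) := fun k => by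
    simp [b]
  set c : Fin 5 → ℝ := fun k => b.repr u k with hc
  have hrep : u = ∑ k, c k • P (s i k) := by
    conv_lhs => rw [← b.sum_repr u]
    exact Finset.sum_congr rfl fun k _ => by rw [hb k]
  have hdotu : ∀ X : Fin 5 → ℝ, X ⬝ᵥ u = ∑ k, c k * (X ⬝ᵥ P (s i k)) := by
    intro X
    conv_lhs => rw [hrep]
    rw [dotProduct_sum]
    exact Finset.sum_congr rfl fun k _ => by rw [dotProduct_smul, smul_eq_mul]
  have hck : ∀ k, 0 ≤ c k := by
    intro k
    have h1 : μ i k ⬝ᵥ u = c k * (μ i k ⬝ᵥ P (s i k)) := by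
      rw [hdotu, Finset.sum_eq_single k]
      · intro k' _ hk'
        rw [hzero i k k' hk', mul_zero]
      · intro hk; exact absurd (Finset.mem_univ k) hk
    have h2 : 0 ≤ μ i k ⬝ᵥ u := by
      rcases hmu i k with h3 | ⟨i', h3⟩
      · rw [hsum]; exact Finset.sum_nonneg fun j _ => h3 j
      · rw [h3, sub_dotProduct]; linarith [hi i']
    rw [h1] at h2
    exact nonneg_of_mul_nonneg_left h2 (hpos i k)
  have hge : L i ⬝ᵥ u ≤ M ⬝ᵥ u := by
    rw [hdotu, hdotu]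
    refine Finset.sum_le_sum fun k _ => ?_
    have h1 : h (s i k) = L i ⬝ᵥ P (s i k) := (heq i (s i k)).mpr ⟨k, rfl⟩
    rw [← h1]
    exact mul_le_mul_of_nonneg_left (hM _) (hck k)
  have hle : ∑ j ∈ S, (L i ⬝ᵥ P j - M ⬝ᵥ P j) ≤ 0 := by
    rw [Finset.sum_sub_distrib, ← hsum, ← hsum]; linarith
  have hnn : ∀ j ∈ S, 0 ≤ L i ⬝ᵥ P j - M ⬝ᵥ P j := by
    intro j hj
    have h1 : h j = M ⬝ᵥ P j := (Finset.mem_filter.mp hj).2
    rw [← h1]; linarith [hdom i j]
  have hzz : ∀ j ∈ S, L i ⬝ᵥ P j - M ⬝ᵥ P j = 0 := by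
    have h0 : ∑ j ∈ S, (L i ⬝ᵥ P j - M ⬝ᵥ P j) = 0 :=
      le_antisymm hle (Finset.sum_nonneg hnn)
    exact (Finset.sum_eq_zero_iff_of_nonneg hnn).mp h0
  have hML : M = L i := by
    have h1 : ∀ x ∈ Submodule.span ℝ (P '' {j | h j = M ⬝ᵥ P j}), (L i - M) ⬝ᵥ x = 0 := by
      intro x hx
      induction hx using Submodule.span_induction with
      | mem x hx =>
        obtain ⟨j, hj, rfl⟩ := hx
        rw [sub_dotProduct]
        exact hzz j (Finset.mem_filter.mpr ⟨Finset.mem_univ _, hj⟩)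
      | zero => rw [dotProduct_zero]
      | add x y _ _ hx hy => rw [dotProduct_add, hx, hy, add_zero]
      | smul a x _ hx => rw [dotProduct_smul, hx, smul_zero]
    have h2 : (L i - M) ⬝ᵥ (L i - M) = 0 := h1 _ (by rw [hspan]; trivial)
    have h3 : L i - M = 0 := dotProduct_self_eq_zero.mp h2
    exact (sub_eq_zero.mp h3).symm
  refine ⟨i, hML, fun j => ?_⟩
  rw [hML]; exact heq i j

end Pool.Agent.R863.TG
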