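import Pool.Agent.R863.TG.Stm

/-! Existence part: certificates, checkers and the exact statements of the pieces. -/

set_option autoImplicit false

namespace Pool.Agent.R863.TG

open Relation

/-- integral vectors of length five -/
abbrev V5 : Type := ℤ × ℤ × ℤ × ℤ × ℤ

/-- scalar product -/
def dot (l x : V5) : ℤ :=
  l.1 * x.1 + (l.2.1 * x.2.1 + (l.2.2.1 * x.2.2.1 + (l.2.2.2.1 * x.2.2.2.1 +
    l.2.2.2.2 * x.2.2.2.2)))

/-- difference -/
def sub5 (l x : V5) : V5 :=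
  (l.1 - x.1, l.2.1 - x.2.1, l.2.2.1 - x.2.2.1, l.2.2.2.1 - x.2.2.2.1, l.2.2.2.2 - x.2.2.2.2)

/-- the monomials of degree at most `d`, in lexicographic order -/
def monL (d : ℕ) : List (ℕ × ℕ × ℕ) :=
  (List.range (d + 1)).flatMap fun x => (List.range (d + 1 - x)).flatMap fun y =>
    (List.range (d + 1 - x - y)).map fun z => (x, y, z)

/-- the 30 points of the Cayley configuration: the first 10 belong to `p` -/
def ptsZ : List V5 :=
  (monL 2).map (fun m => ((m.1 : ℤ), (m.2.1 : ℤ), (m.2.2 : ℤ), 1, 0)) ++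
    (monL 3).map (fun m => ((m.1 : ℤ), (m.2.1 : ℤ), (m.2.2 : ℤ), 0, 1))

/-- the facets of the Cayley polytope -/
def bdL : List V5 :=
  [(1, 0, 0, 0, 0), (0, 1, 0, 0, 0), (0, 0, 1, 0, 0), (-1, -1, -1, 2, 3), (0, 0, 0, 1, 0),
    (0, 0, 0, 0, 1)]

/-- certificate: the heights of the 30 points; for each of the 65 maximal cells the functional
`L = (-w, M_p, M_q)`, the indices of the five points and the neighbours (`n < 65`: the cell `n`
is the neighbour opposite to the point; `n = 65 + m`: the facet `m` of the Cayley polytope) -/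
structure Cert where
  h : List ℤ
  cells : List (V5 × List ℕ × List ℕ)

/-- the functional that vanishes on the face opposite to the point number `i` of the cell `x` -/
def mu (c : Cert) (x : V5 × List ℕ × List ℕ) (i : ℕ) : V5 :=
  if x.2.2.getD i 0 < 65 then sub5 (c.cells.getD (x.2.2.getD i 0) default).1 x.1
  else bdL.getD (x.2.2.getD i 0 - 65) default

/-- the point number `i` of the cell `x` -/
def ptc (x : V5 × List ℕ × List ℕ) (i : ℕ) : V5 := ptsZ.getD (x.2.1.getD i 0) default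

/-- the check for one cell -/
def chkC (c : Cert) (x : V5 × List ℕ × List ℕ) : Bool :=
  (x.2.1.length == 5) && (List.range 5).all (fun i => decide (x.2.1.getD i 0 < 30)) &&
  (List.range 30).all (fun j => let a := c.h.getD j 0; let b := dot x.1 (ptsZ.getD j default)
    if x.2.1.contains j then a == b else decide (a < b)) &&
  (List.range 5).all (fun i => let m := mu c x i; let t := dot m (ptc x i)
    decide (0 < t) && (m.1 % t == 0) && (m.2.1 % t == 0) && (m.2.2.1 % t == 0) &&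
    (m.2.2.2.1 % t == 0) && (m.2.2.2.2 % t == 0) &&
    (List.range 5).all (fun j => (j == i) || (dot m (ptc x j) == 0)))

/-- the check of the certificate -/
def chk (c : Cert) : Bool :=
  (c.h.length == 30) && (c.cells.length == 65) && c.cells.all (chkC c) &&
  (List.range 65).all (fun i => (List.range i).all fun j =>
    (c.cells.getD i default).1 != (c.cells.getD j default).1)

/-- the cells `i` and `j` share at least two points of `p` and at least two points of `q` -/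
def adjB (c : Cert) (i j : ℕ) : Bool :=
  let s := (c.cells.getD i default).2.1.filter fun x => (c.cells.getD j default).2.1.contains x
  (i != j) && decide (2 ≤ (s.filter fun x => decide (x < 10)).length) &&
    decide (2 ≤ (s.filter fun x => decide (10 ≤ x)).length)

/-- certificate for the skeleton: adjacency lists, the vertices of the core, a rank function for
the others, the six branch vertices -/
structure GCert where
  adj : List (List ℕ)
  core : List ℕ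
  rk : List ℕ
  ph : List ℕ

/-- neighbours -/
def nbL (g : GCert) (i : ℕ) : List ℕ := g.adj.getD i []
/-- neighbours in the core -/
def cnb (g : GCert) (i : ℕ) : List ℕ := (nbL g i).filter fun j => g.core.contains j
/-- branch vertex -/
def isBr (g : GCert) (i : ℕ) : Bool := g.core.contains i && decide (3 ≤ (cnb g i).length)

/-- follow a path of 2-valent vertices of the core -/
def walk (g : GCert) : ℕ → ℕ → ℕ → Option ℕ
  | 0, _, _ => none
  | f + 1, u, x => if isBr g x then some x else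
      match (cnb g x).filter (fun y => y != u) with
      | [y] => walk g f x y
      | _ => none

/-- the adjacency lists agree with `adjB` -/
def achk (c : Cert) (g : GCert) : Bool :=
  (g.adj.length == 65) &&
  (List.range 65).all (fun i => (nbL g i).all (fun j => decide (j < 65)) &&
    (List.range 65).all fun j => adjB c i j == (nbL g i).contains j)

/-- the check of the skeleton -/
def gchk (g : GCert) (A : Matrix (Fin 6) (Fin 6) ℕ) : Bool :=
  (g.adj.length == 65) && (g.ph.length == 6) &&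
  (List.range 65).all (fun i => decide (nbL g i).Nodup &&
    (nbL g i).all (fun j => decide (j < 65) && (j != i) && (nbL g j).contains i)) &&
  g.core.all (fun i => decide (i < 65) && decide (2 ≤ (cnb g i).length)) &&
  (List.range 65).all (fun i => g.core.contains i ||
    decide (((nbL g i).filter fun j => g.core.contains j ||
      decide (g.rk.getD i 0 ≤ g.rk.getD j 0)).length ≤ 1)) &&
  decide g.ph.Nodup && g.ph.all (isBr g) &&
  (List.range 65).all (fun i => !(isBr g i) || g.ph.contains i) &&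
  (List.finRange 6).all (fun i => (cnb g (g.ph.getD i 0)).all (fun x =>
      (walk g 40 (g.ph.getD i 0) x).isSome) &&
    (List.finRange 6).all fun j => ((cnb g (g.ph.getD i 0)).filter fun x =>
      walk g 40 (g.ph.getD i 0) x == some (g.ph.getD j 0)).length == A i j)

/-- TG-SND: soundness of the certificate for the subdivision -/
def S_SND : Prop := ∀ c : Cert, chk c = true → ∃ (p q : TPoly) (W : ℕ → Pt),
  p.HasDeg 2 ∧ q.HasDeg 3 ∧ SmoothC p q ∧
  (∀ i j, i < 65 → j < 65 → W i = W j → i = j) ∧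
  ∀ x y, Adj p q x y ↔ ∃ i j, i < 65 ∧ j < 65 ∧ x = W i ∧ y = W j ∧ adjB c i j = true

/-- TG-WALK: soundness of the certificate for the skeleton -/
def S_WALK : Prop := ∀ (g : GCert) (A : Matrix (Fin 6) (Fin 6) ℕ), gchk g A = true →
  HasSkeleton (fun i j : ℕ => j ∈ nbL g i) A

/-- TG-TRF: transport of skeletons -/
def S_TRF : Prop := ∀ (α β : Type) (R : α → α → Prop) (R' : β → β → Prop) (W : β → α)
  (A : Matrix (Fin 6) (Fin 6) ℕ),
  (∀ i j i' j', R' i j → R' i' j' → W i = W i' → i = i') →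
  (∀ i j, R' i j → R' j i) →
  (∀ x y, R x y ↔ ∃ i j, x = W i ∧ y = W j ∧ R' i j) → HasSkeleton R' A → HasSkeleton R A

/-- adjacency matrices of the 14 graphs -/
def canon : Fin 14 → Matrix (Fin 6) (Fin 6) ℕ := ![
  !![0, 1, 1, 1, 0, 0; 1, 0, 0, 0, 1, 1; 1, 0, 0, 0, 1, 1; 1, 0, 0, 0, 1, 1; 0, 1, 1, 1, 0, 0; 0, 1, 1, 1, 0, 0],
  !![0, 1, 1, 1, 0, 0; 1, 0, 1, 0, 1, 0; 1, 1, 0, 0, 0, 1; 1, 0, 0, 0, 1, 1; 0, 1, 0, 1, 0, 1; 0, 0, 1, 1, 1, 0],
  !![0, 2, 1, 0, 0, 0; 2, 0, 0, 1, 0, 0; 1, 0, 0, 0, 1, 1; 0, 1, 0, 0, 1, 1; 0, 0, 1, 1, 0, 1; 0, 0, 1, 1, 1, 0],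
  !![0, 2, 1, 0, 0, 0; 2, 0, 0, 1, 0, 0; 1, 0, 0, 0, 2, 0; 0, 1, 0, 0, 0, 2; 0, 0, 2, 0, 0, 1; 0, 0, 0, 2, 1, 0],
  !![0, 2, 1, 0, 0, 0; 2, 0, 0, 1, 0, 0; 1, 0, 0, 1, 1, 0; 0, 1, 1, 0, 0, 1; 0, 0, 1, 0, 0, 2; 0, 0, 0, 1, 2, 0],
  !![0, 2, 1, 0, 0, 0; 2, 0, 1, 0, 0, 0; 1, 1, 0, 1, 0, 0; 0, 0, 1, 0, 1, 1; 0, 0, 0, 1, 0, 2; 0, 0, 0, 1, 2, 0],
  !![2, 1, 0, 0, 0, 0; 1, 0, 1, 1, 0, 0; 0, 1, 0, 0, 1, 1; 0, 1, 0, 0, 1, 1; 0, 0, 1, 1, 0, 1; 0, 0, 1, 1, 1, 0],
  !![2, 1, 0, 0, 0, 0; 1, 0, 1, 1, 0, 0; 0, 1, 0, 0, 2, 0; 0, 1, 0, 0, 0, 2; 0, 0, 2, 0, 0, 1; 0, 0, 0, 2, 1, 0],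
  !![2, 1, 0, 0, 0, 0; 1, 0, 1, 1, 0, 0; 0, 1, 0, 0, 2, 0; 0, 1, 0, 0, 1, 1; 0, 0, 2, 1, 0, 0; 0, 0, 0, 1, 0, 2],
  !![2, 1, 0, 0, 0, 0; 1, 0, 1, 1, 0, 0; 0, 1, 0, 1, 1, 0; 0, 1, 1, 0, 0, 1; 0, 0, 1, 0, 0, 2; 0, 0, 0, 1, 2, 0],
  !![2, 1, 0, 0, 0, 0; 1, 0, 1, 1, 0, 0; 0, 1, 0, 1, 1, 0; 0, 1, 1, 0, 0, 1; 0, 0, 1, 0, 2, 0; 0, 0, 0, 1, 0, 2],
  !![2, 1, 0, 0, 0, 0; 1, 0, 1, 1, 0, 0; 0, 1, 0, 1, 1, 0; 0, 1, 1, 0, 1, 0; 0, 0, 1, 1, 0, 1; 0, 0, 0, 0, 1, 2],
  !![2, 1, 0, 0, 0, 0; 1, 0, 2, 0, 0, 0; 0, 2, 0, 1, 0, 0; 0, 0, 1, 0, 1, 1; 0, 0, 0, 1, 0, 2; 0, 0, 0, 1, 2, 0],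
  !![2, 1, 0, 0, 0, 0; 1, 0, 2, 0, 0, 0; 0, 2, 0, 1, 0, 0; 0, 0, 1, 0, 2, 0; 0, 0, 0, 2, 0, 1; 0, 0, 0, 0, 1, 2]
]

/-- TG-CLS: every non-sprawling connected trivalent graph of genus 4 is one of the 14 graphs -/
def S_CLS : Prop := ∀ A : Matrix (Fin 6) (Fin 6) ℕ, Cubic4 A → ¬ Sprawling A →
  ∃ (k : Fin 14) (σ : Equiv.Perm (Fin 6)), ∀ i j, A (σ i) (σ j) = canon k i j

/-- TG-PERM: `Occurs` is invariant under relabelling -/
def S_PERM : Prop := ∀ (A B : Matrix (Fin 6) (Fin 6) ℕ) (σ : Equiv.Perm (Fin 6)),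
  (∀ i j, A (σ i) (σ j) = B i j) → Occurs B → Occurs A

/-- TG-OCC: the certificates give existence -/
def S_OCC : Prop := ∀ (c : Cert) (g : GCert) (A : Matrix (Fin 6) (Fin 6) ℕ),
  chk c = true → achk c g = true → gchk g A = true → Occurs A

end Pool.Agent.R863.TG
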