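import Pool.Agent.R863.TG.Stm

/-! TG-TAIL: sums over a tail. -/

set_option autoImplicit false

namespace Pool.Agent.R863.TG

namespace TAIL

open Relation Finset

/-- the faces of the cell at `x` -/
noncomputable def N (p q : TPoly) (x : Pt) : Finset (Finset Mon × Finset Mon) :=
  (p.top x).powersetCard 2 ×ˢ (q.top x).powersetCard 2

open Classical in
/-- the common face -/
noncomputable def cf (p q : TPoly) (x y : Pt) : Finset Mon × Finset Mon :=
  (p.top x ∩ p.top y, q.top x ∩ q.top y)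

lemma cf_comm (p q : TPoly) (x y : Pt) : cf p q x y = cf p q y x := by
  unfold cf
  rw [Finset.inter_comm (p.top x), Finset.inter_comm (q.top x)]

/-- conclusion of `S_NB` for one pair `p, q` -/
def NBpq (p q : TPoly) : Prop := ∀ w, IsVert p q w →
  (∀ F ∈ (p.top w).powersetCard 2 ×ˢ (q.top w).powersetCard 2,
    ((∃ i, InFacet F i) ∧ ∀ w', Adj p q w w' → ¬ (F.1 ⊆ p.top w' ∧ F.2 ⊆ q.top w')) ∨
    ((∀ i, ¬ InFacet F i) ∧ ∃! w', Adj p q w w' ∧ F.1 ⊆ p.top w' ∧ F.2 ⊆ q.top w')) ∧
  (∀ w', Adj p q w w' → ∃ F ∈ (p.top w).powersetCard 2 ×ˢ (q.top w).powersetCard 2,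
    (∀ a, a ∈ F.1 ↔ a ∈ p.top w ∧ a ∈ p.top w') ∧ (∀ b, b ∈ F.2 ↔ b ∈ q.top w ∧ b ∈ q.top w') ∧
    ∃ (u : Fin 3 → ℤ) (l : ℝ), 0 < l ∧ IsDir (p.top w) (q.top w) F u ∧
      IsDir (p.top w') (q.top w') F (-u) ∧ ∀ i, w' i = w i + l * u i)

lemma cf_spec {p q : TPoly} (hNB : NBpq p q) {x y : Pt} (hx : IsVert p q x)
    (hxy : Adj p q x y) : cf p q x y ∈ N p q x ∧
    ∃ u : Fin 3 → ℤ, IsDir (p.top x) (q.top x) (cf p q x y) u ∧
      IsDir (p.top y) (q.top y) (cf p q x y) (-u) := by
  classical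
  obtain ⟨F, hF, h1, h2, u, l, hl, hu, hu', -⟩ := (hNB x hx).2 y hxy
  have hFe : F = cf p q x y := by
    apply Prod.ext
    · ext a; rw [h1 a]; simp [cf]
    · ext a; rw [h2 a]; simp [cf]
  subst hFe
  exact ⟨hF, u, hu, hu'⟩

lemma cf_sub_right (p q : TPoly) (x y : Pt) :
    (cf p q x y).1 ⊆ p.top y ∧ (cf p q x y).2 ⊆ q.top y := by
  classical
  exact ⟨Finset.inter_subset_right, Finset.inter_subset_right⟩

/-- a face of `x` that is contained in the tops of the neighbour `y` is the common face -/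
lemma eq_cf {p q : TPoly} (hNB : NBpq p q) {x y : Pt} (hx : IsVert p q x)
    (hxy : Adj p q x y) {F : Finset Mon × Finset Mon} (hF : F ∈ N p q x)
    (h1 : F.1 ⊆ p.top y) (h2 : F.2 ⊆ q.top y) : F = cf p q x y := by
  classical
  have hc := (cf_spec hNB hx hxy).1
  unfold N at hF hc
  rw [Finset.mem_product, Finset.mem_powersetCard, Finset.mem_powersetCard] at hF hc
  apply Prod.ext
  · apply Finset.eq_of_subset_of_card_le
    · intro a ha
      exact Finset.mem_inter.2 ⟨hF.1.1 ha, h1 ha⟩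
    · rw [hF.1.2, hc.1.2]
  · apply Finset.eq_of_subset_of_card_le
    · intro a ha
      exact Finset.mem_inter.2 ⟨hF.2.1 ha, h2 ha⟩
    · rw [hF.2.2, hc.2.2]

open Classical in
/-- splitting of the sum over the faces of `x` -/
lemma key {p q : TPoly} (hNB : NBpq p q)
    (hfac : ∀ x, IsVert p q x → ∀ F ∈ N p q x, ∀ i j : Fin 4, InFacet F i → InFacet F j → j = i)
    {U : Finset Pt} {v t : Pt} (hT : Tail (Adj p q) U v t) {x : Pt} (hxU : x ∈ U)
    (hx : IsVert p q x) (f : Finset Mon × Finset Mon → ℤ) :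
    ∑ G ∈ N p q x, f G = (∑ i : Fin 4, ∑ G ∈ (N p q x).filter (fun G => InFacet G i), f G) +
      ∑ y ∈ (insert v U).filter (fun y => Adj p q x y), f (cf p q x y) := by
  rw [← Finset.sum_filter_add_sum_filter_not (N p q x) (fun G => ∃ i, InFacet G i)]
  congr 1
  · simp_rw [Finset.sum_filter]
    rw [Finset.sum_comm]
    apply Finset.sum_congr rfl
    intro G hG
    by_cases h : ∃ i, InFacet G i
    · rw [if_pos h]
      obtain ⟨i, hi⟩ := h
      rw [Finset.sum_eq_single i]
      · rw [if_pos hi]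
      · intro j _ hj
        rw [if_neg]
        intro hj'
        exact hj (hfac x hx G hG i j hi hj')
      · intro hh
        exact absurd (Finset.mem_univ _) hh
    · rw [if_neg h]
      symm
      apply Finset.sum_eq_zero
      intro i _
      rw [if_neg]
      intro hi
      exact h ⟨i, hi⟩
  · symm
    refine Finset.sum_bij (fun y _ => cf p q x y) ?_ ?_ ?_ ?_
    · intro y hy
      rw [Finset.mem_filter] at hy
      rw [Finset.mem_filter]
      have hc := (cf_spec hNB hx hy.2).1
      refine ⟨hc, ?_⟩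
      rintro ⟨i, hi⟩
      rcases (hNB x hx).1 _ hc with ⟨-, h⟩ | ⟨h, -⟩
      · exact h y hy.2 (cf_sub_right p q x y)
      · exact h i hi
    · intro y hy z hz hyz
      rw [Finset.mem_filter] at hy hz
      have hc := (cf_spec hNB hx hy.2).1
      rcases (hNB x hx).1 _ hc with ⟨-, h⟩ | ⟨-, h⟩
      · exact absurd (cf_sub_right p q x y) (h y hy.2)
      · apply h.unique
        · exact ⟨hy.2, cf_sub_right p q x y⟩
        · refine ⟨hz.2, ?_⟩
          have := cf_sub_right p q x z
          rw [← hyz] at this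
          exact this
    · intro G hG
      rw [Finset.mem_filter] at hG
      rcases (hNB x hx).1 G hG.1 with ⟨h, -⟩ | ⟨-, h⟩
      · exact absurd h hG.2
      · obtain ⟨y, ⟨hy, h1, h2⟩, -⟩ := h
        refine ⟨y, ?_, ?_⟩
        · rw [Finset.mem_filter]
          refine ⟨?_, hy⟩
          rcases hT.2.2.2 x hxU y hy with h | h
          · exact Finset.mem_insert_of_mem h
          · rw [h.2]; exact Finset.mem_insert_self _ _
        · exact (eq_cf hNB hx hy hG.1 h1 h2).symm
    · intro y hy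
      rfl

open Classical in
/-- total sum over the tail -/
lemma total {p q : TPoly} (hNB : NBpq p q)
    (hfac : ∀ x, IsVert p q x → ∀ F ∈ N p q x, ∀ i j : Fin 4, InFacet F i → InFacet F j → j = i)
    (hsymm : ∀ x y, Adj p q x y → Adj p q y x)
    {U : Finset Pt} {v t : Pt} (hT : Tail (Adj p q) U v t) 
    (hU : ∀ x ∈ U, IsVert p q x) (f : Pt → Finset Mon × Finset Mon → ℤ) (c : Fin 4 → ℤ)
    (hc : ∀ x ∈ U, ∀ G ∈ N p q x, ∀ i, InFacet G i → f x G = c i) :
    ∑ x ∈ U, ∑ G ∈ N p q x, f x G = (∑ i : Fin 4, (nray p q U i : ℤ) * c i) +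
      (∑ x ∈ U, ∑ y ∈ U, if Adj p q x y then f x (cf p q x y) else 0) + f t (cf p q t v) := by
  have h1 : ∀ x ∈ U, ∑ G ∈ N p q x, f x G = (∑ i : Fin 4, (nb p q x i : ℤ) * c i) +
      ((∑ y ∈ U, if Adj p q x y then f x (cf p q x y) else 0) +
        if x = t then f t (cf p q t v) else 0) := by
    intro x hxU
    rw [key hNB hfac hT hxU (hU x hxU) (f x)]
    congr 1
    · apply Finset.sum_congr rfl
      intro i _
      rw [Finset.sum_congr rfl (g := fun _ => c i)]
      · rw [Finset.sum_const, nsmul_eq_mul]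
        rfl
      · intro G hG
        rw [Finset.mem_filter] at hG
        exact hc x hxU G hG.1 i hG.2
    · rw [Finset.sum_filter, Finset.sum_insert hT.1, add_comm]
      congr 1
      by_cases hxt : x = t
      · subst hxt
        rw [if_pos rfl, if_pos (hsymm _ _ hT.2.2.1)]
      · rw [if_neg hxt, if_neg]
        intro hh
        rcases hT.2.2.2 x hxU v hh with h | h
        · exact hT.1 h
        · exact hxt h.1
  rw [Finset.sum_congr rfl h1, Finset.sum_add_distrib, Finset.sum_add_distrib, ← add_assoc]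
  congr 1
  · congr 1
    rw [Finset.sum_comm]
    apply Finset.sum_congr rfl
    intro i _
    rw [← Finset.sum_mul]
    unfold nray
    push_cast
    rfl
  · rw [Finset.sum_ite_eq' U t, if_pos hT.2.1]

open Classical in
/-- an antisymmetric double sum vanishes -/
lemma anti {p q : TPoly} (hsymm : ∀ x y, Adj p q x y → Adj p q y x) (U : Finset Pt)
    (f : Pt → Finset Mon × Finset Mon → ℤ)
    (hf : ∀ x ∈ U, ∀ y ∈ U, Adj p q x y → f y (cf p q y x) = - f x (cf p q x y)) :
    (∑ x ∈ U, ∑ y ∈ U, if Adj p q x y then f x (cf p q x y) else 0) = 0 := by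
  have h : (∑ x ∈ U, ∑ y ∈ U, if Adj p q x y then f x (cf p q x y) else 0) =
      -(∑ x ∈ U, ∑ y ∈ U, if Adj p q x y then f x (cf p q x y) else 0) := by
    conv_lhs => rw [Finset.sum_comm]
    rw [← Finset.sum_neg_distrib]
    apply Finset.sum_congr rfl
    intro x hx
    rw [← Finset.sum_neg_distrib]
    apply Finset.sum_congr rfl
    intro y hy
    by_cases h : Adj p q x y
    · rw [if_pos h, if_pos (hsymm _ _ h), hf x hx y hy h]
    · rw [if_neg h, if_neg (fun h' => h (hsymm _ _ h')), neg_zero]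
  omega

open Classical in
/-- the direction of the face `G` at `x` -/
noncomputable def dir (p q : TPoly) (x : Pt) (G : Finset Mon × Finset Mon) : Fin 3 → ℤ :=
  if h : ∃ u, IsDir (p.top x) (q.top x) G u then h.choose else 0

lemma dir_spec {p q : TPoly} {x : Pt} {G : Finset Mon × Finset Mon}
    (h : ∃! u, IsDir (p.top x) (q.top x) G u) : IsDir (p.top x) (q.top x) G (dir p q x G) := by
  unfold dir
  rw [dif_pos h.exists]
  exact h.exists.choose_spec

lemma dir_eq {p q : TPoly} {x : Pt} {G : Finset Mon × Finset Mon}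
    (h : ∃! u, IsDir (p.top x) (q.top x) G u) {u : Fin 3 → ℤ}
    (hu : IsDir (p.top x) (q.top x) G u) : dir p q x G = u :=
  h.unique (dir_spec h) hu

open Classical in
/-- a sum of exponents, chosen for each face -/
noncomputable def sm (G : Finset Mon × Finset Mon) : Mon :=
  if h : G.1.Nonempty ∧ G.2.Nonempty then h.1.choose + h.2.choose else 0

lemma sm_spec {G : Finset Mon × Finset Mon} (h : G.1.Nonempty ∧ G.2.Nonempty) :
    ∃ a ∈ G.1, ∃ b ∈ G.2, sm G = a + b := by
  refine ⟨h.1.choose, h.1.choose_spec, h.2.choose, h.2.choose_spec, ?_⟩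
  unfold sm
  rw [dif_pos h]

lemma pr_add (u : Fin 3 → ℤ) (a b : Mon) : pr u (a + b) = pr u a + pr u b := by
  unfold pr
  rw [← Finset.sum_add_distrib]
  apply Finset.sum_congr rfl
  intro i _
  simp only [Pi.add_apply]
  push_cast
  ring

lemma pr_neg (u : Fin 3 → ℤ) (a : Mon) : pr (-u) a = - pr u a := by
  unfold pr
  rw [← Finset.sum_neg_distrib]
  apply Finset.sum_congr rfl
  intro i _
  simp only [Pi.neg_apply]
  ring

lemma N_nonempty {p q : TPoly} {x : Pt} {G : Finset Mon × Finset Mon} (hG : G ∈ N p q x) :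
    G.1.Nonempty ∧ G.2.Nonempty := by
  unfold N at hG
  rw [Finset.mem_product, Finset.mem_powersetCard, Finset.mem_powersetCard] at hG
  constructor
  · rw [← Finset.card_pos, hG.1.2]; norm_num
  · rw [← Finset.card_pos, hG.2.2]; norm_num

/-- the directions of the rays -/
def r (i : Fin 4) : Fin 3 → ℤ := ![![1, 1, 1], ![-1, 0, 0], ![0, -1, 0], ![0, 0, -1]] i

lemma pr_r_facet (G : Finset Mon × Finset Mon) (i : Fin 4) (hi : InFacet G i)
    (a b : Mon) (ha : a ∈ G.1) (hb : b ∈ G.2) :
    pr (r i) (a + b) = if i = 0 then 5 else 0 := by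
  have h1 := hi.1 a ha
  have h2 := hi.2 b hb
  fin_cases i <;> simp [hom, Fin.sum_univ_three, pr, r] at h1 h2 ⊢ <;> omega

end TAIL

open TAIL in
theorem t_TAIL : S_VC → S_DIR → S_NB → S_FIN → S_TAIL := by
  classical
  intro hVC hDIR hNB hFIN p q hp hq hS U v t hT hU F u hF hF1 hF2 hu
  have hNB' : NBpq p q := hNB p q hp hq hS
  have hcell : ∀ x, IsVert p q x → IsCell (p.top x) (q.top x) := hVC p q hp hq hS
  have hsymm : ∀ x y, Adj p q x y → Adj p q y x := (hFIN p q hp hq hS).2.1
  have hfac : ∀ x, IsVert p q x → ∀ F ∈ N p q x, ∀ i j : Fin 4, InFacet F i →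
      InFacet F j → j = i := by
    intro x hx G hG i j hi hj
    exact ((hDIR _ _ (hcell x hx)).2.2 G hG i hi).2 j hj
  have hdir : ∀ x, IsVert p q x → ∀ G ∈ N p q x, ∃! u, IsDir (p.top x) (q.top x) G u := by
    intro x hx G hG
    exact (hDIR _ _ (hcell x hx)).1 G hG
  have hv : IsVert p q v := hT.2.2.1.2.1
  have ht : IsVert p q t := hT.2.2.1.2.2.1
  have htv : Adj p q t v := hsymm _ _ hT.2.2.1
  have hFe : F = cf p q v t := eq_cf hNB' hv hT.2.2.1 hF hF1 hF2
  -- opposite directions
  have hopp : ∀ x y, IsVert p q x → IsVert p q y → Adj p q x y →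
      dir p q y (cf p q y x) = - dir p q x (cf p q x y) := by
    intro x y hx hy hxy
    obtain ⟨hc, u', hu1, hu2⟩ := cf_spec hNB' hx hxy
    have hc' := (cf_spec hNB' hy (hsymm _ _ hxy)).1
    rw [dir_eq (hdir x hx _ hc) hu1]
    apply dir_eq (hdir y hy _ hc')
    rw [cf_comm p q y x]
    exact hu2
  have hdt : dir p q t (cf p q t v) = -u := by
    rw [hopp v t hv ht hT.2.2.1, ← hFe, dir_eq (hdir v hv F hF) hu]
  have hfc : ∀ x, IsVert p q x → ∀ G ∈ N p q x, ∀ i, InFacet G i → dir p q x G = r i := by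
    intro x hx G hG i hi
    exact dir_eq (hdir x hx G hG) ((hDIR _ _ (hcell x hx)).2.2 G hG i hi).1
  have hbal : ∀ x, IsVert p q x → _ := fun x hx => (hDIR _ _ (hcell x hx)).2.1 (dir p q x)
    (fun G hG => dir_spec (hdir x hx G hG))
  refine ⟨?_, ?_, ?_⟩
  · intro i
    have h := total hNB' hfac hsymm hT hU (fun x G => dir p q x G i) (fun k => r k i)
      (fun x hx G hG k hk => by
        show dir p q x G i = r k i
        rw [hfc x (hU x hx) G hG k hk])
    rw [anti hsymm U (fun x G => dir p q x G i) (fun x hx y hy hxy => by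
      show dir p q y (cf p q y x) i = - dir p q x (cf p q x y) i
      rw [hopp x y (hU x hx) (hU y hy) hxy]; rfl)] at h
    have hz : ∑ x ∈ U, ∑ G ∈ N p q x, dir p q x G i = 0 :=
      Finset.sum_eq_zero (fun x hx => (hbal x (hU x hx)).1 i)
    rw [hz] at h
    simp only [hdt] at h
    rw [Fin.sum_univ_four] at h
    fin_cases i <;> simp [r] at h ⊢ <;> linarith
  · intro a ha b hb
    have hcs : ∀ G, G.1.Nonempty ∧ G.2.Nonempty → ∃ a ∈ G.1, ∃ b ∈ G.2, sm G = a + b :=
      fun G hG => sm_spec hG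
    have h := total hNB' hfac hsymm hT hU (fun x G => pr (dir p q x G) (sm G))
      (fun k => if k = 0 then 5 else 0)
      (fun x hx G hG k hk => by
        show pr (dir p q x G) (sm G) = if k = 0 then 5 else 0
        rw [hfc x (hU x hx) G hG k hk]
        obtain ⟨a, ha, b, hb, hab⟩ := sm_spec (N_nonempty hG)
        rw [hab]
        exact pr_r_facet G k hk a b ha hb)
    rw [anti hsymm U (fun x G => pr (dir p q x G) (sm G)) (fun x hx y hy hxy => by
      show pr (dir p q y (cf p q y x)) (sm (cf p q y x)) =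
        - pr (dir p q x (cf p q x y)) (sm (cf p q x y))
      rw [hopp x y (hU x hx) (hU y hy) hxy, pr_neg, cf_comm p q y x])] at h
    have hz : ∑ x ∈ U, ∑ G ∈ N p q x, pr (dir p q x G) (sm G) = ∑ x ∈ U, (1 : ℤ) :=
      Finset.sum_congr rfl (fun x hx => (hbal x (hU x hx)).2 sm
        (fun G hG => sm_spec (N_nonempty hG)))
    rw [hz] at h
    simp only [hdt, pr_neg] at h
    rw [cf_comm p q t v, ← hFe] at h
    obtain ⟨a', ha', b', hb', hab⟩ := sm_spec (N_nonempty (p := p) (q := q) (x := v) hF)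
    have e1 : pr u (sm F) = pr u (a + b) := by
      rw [hab, pr_add, pr_add, hu.1 a' ha' a ha, hu.2.1 b' hb' b hb]
    rw [e1] at h
    simp only [Finset.sum_const, nsmul_eq_mul, mul_one] at h
    rw [h]
    rw [Fin.sum_univ_four]
    simp
    ring
  · have h := total hNB' hfac hsymm hT hU (fun x G => 1) (fun k => 1)
      (fun x hx G hG k hk => rfl)
    have h3 : ∀ x ∈ U, ∑ G ∈ N p q x, (1 : ℤ) = 3 := by
      intro x hx
      have hc := (hcell x (hU x hx)).2.2.1
      rw [Finset.sum_const, nsmul_eq_mul, mul_one]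
      unfold N
      rw [Finset.card_product, Finset.card_powersetCard, Finset.card_powersetCard]
      rcases hc with ⟨h1, h2⟩ | ⟨h1, h2⟩ <;> rw [h1, h2] <;> rfl
    rw [Finset.sum_congr rfl h3] at h
    have hm : (∑ x ∈ U, ∑ y ∈ U, if Adj p q x y then (1 : ℤ) else 0) = m2 (Adj p q) U := by
      unfold m2
      rw [← Finset.sum_product' U U (fun x y => if Adj p q x y then (1 : ℤ) else 0)]
      rw [Finset.card_filter]
      push_cast
      rfl
    rw [hm] at h
    simp only [Finset.sum_const, nsmul_eq_mul, mul_one] at h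
    have : (3 * U.card : ℤ) = m2 (Adj p q) U + (∑ i, (nray p q U i : ℤ)) + 1 := by
      rw [mul_comm, h]; ring
    exact_mod_cast this

end Pool.Agent.R863.TG
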