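import Pool.Agent.R863.TG.Stm2

/-! TG-TRF and TG-PERM: transport of skeletons, relabelling. -/

set_option autoImplicit false

namespace Pool.Agent.R863.TG

open Relation

namespace TRF

section

variable {α β : Type} {R : α → α → Prop} {R' : β → β → Prop} {W : β → α}
  (h1 : ∀ i j i' j', R' i j → R' i' j' → W i = W i' → i = i')
  (h2 : ∀ i j, R' i j → R' j i)
  (h3 : ∀ x y, R x y ↔ ∃ i j, x = W i ∧ y = W j ∧ R' i j)

include h1 in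
theorem inj {i k : β} (hi : ∃ j, R' i j) (hk : ∃ j, R' k j) (h : W i = W k) : i = k := by
  obtain ⟨j, hj⟩ := hi
  obtain ⟨l, hl⟩ := hk
  exact h1 i j k l hj hl h

include h1 h3 in
theorem rel {i : β} (hi : ∃ j, R' i j) (y : α) : R (W i) y ↔ ∃ j, y = W j ∧ R' i j := by
  constructor
  · intro h
    obtain ⟨i', j', hW, hy, hR⟩ := (h3 _ _).1 h
    have : i = i' := inj h1 hi ⟨j', hR⟩ hW
    subst this
    exact ⟨j', hy, hR⟩
  · rintro ⟨j, hy, hR⟩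
    exact (h3 _ _).2 ⟨i, j, rfl, hy, hR⟩

include h1 h3 in
theorem rel' {i j : β} (hi : ∃ k, R' i k) (hj : ∃ k, R' j k) (h2 : ∀ i j, R' i j → R' j i) :
    R (W i) (W j) ↔ R' i j := by
  rw [rel h1 h3 hi]
  constructor
  · rintro ⟨k, hk, hR⟩
    have : j = k := inj h1 hj ⟨i, h2 _ _ hR⟩ hk
    subst this
    exact hR
  · intro h
    exact ⟨j, rfl, h⟩

theorem core_supp {i : β} (hi : i ∈ Core R') : ∃ j, R' i j := by
  obtain ⟨U, hU, h⟩ := hi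
  obtain ⟨y, _, _, _, _, hR, _⟩ := h i hU
  exact ⟨y, hR⟩

include h1 h2 h3 in
theorem core_eq : Core R = W '' Core R' := by
  ext x
  constructor
  · rintro ⟨U, hx, hU⟩
    have hs : ∀ u ∈ U, ∃ i, (∃ j, R' i j) ∧ u = W i := by
      intro u hu
      obtain ⟨y, _, _, _, _, hR, _⟩ := hU u hu
      obtain ⟨i, j, hi, _, hR'⟩ := (h3 _ _).1 hR
      exact ⟨i, ⟨j, hR'⟩, hi⟩
    obtain ⟨i, hi, rfl⟩ := hs x hx
    refine ⟨i, ⟨{k | (∃ j, R' k j) ∧ W k ∈ U}, ⟨hi, hx⟩, ?_⟩, rfl⟩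
    rintro k ⟨hk, hkU⟩
    obtain ⟨y, hy, z, hz, hne, hRy, hRz⟩ := hU _ hkU
    obtain ⟨a, rfl, ha⟩ := (rel h1 h3 hk _).1 hRy
    obtain ⟨b, rfl, hb⟩ := (rel h1 h3 hk _).1 hRz
    refine ⟨a, ⟨⟨k, h2 _ _ ha⟩, hy⟩, b, ⟨⟨k, h2 _ _ hb⟩, hz⟩, ?_, ha, hb⟩
    rintro rfl
    exact hne rfl
  · rintro ⟨i, ⟨U, hi, hU⟩, rfl⟩
    refine ⟨W '' U, ⟨i, hi, rfl⟩, ?_⟩
    rintro _ ⟨k, hk, rfl⟩
    obtain ⟨y, hy, z, hz, hne, hRy, hRz⟩ := hU k hk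
    refine ⟨W y, ⟨y, hy, rfl⟩, W z, ⟨z, hz, rfl⟩, ?_, (h3 _ _).2 ⟨k, y, rfl, rfl, hRy⟩,
      (h3 _ _).2 ⟨k, z, rfl, rfl, hRz⟩⟩
    intro h
    exact hne (inj h1 ⟨k, h2 _ _ hRy⟩ ⟨k, h2 _ _ hRz⟩ h)

include h1 h2 h3 in
theorem mem_core {i : β} (hi : ∃ j, R' i j) : W i ∈ Core R ↔ i ∈ Core R' := by
  rw [core_eq h1 h2 h3]
  constructor
  · rintro ⟨k, hk, hW⟩
    have : k = i := inj h1 (core_supp hk) hi hW
    subst this
    exact hk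
  · intro h
    exact ⟨i, h, rfl⟩

include h1 h2 h3 in
theorem branch_iff {i : β} (hi : ∃ j, R' i j) : Branch R (W i) ↔ Branch R' i := by
  have key : ∀ y, y ∈ Core R → R (W i) y → ∃ a ∈ Core R', y = W a ∧ R' i a := by
    intro y hy hR
    obtain ⟨a, rfl, ha⟩ := (rel h1 h3 hi _).1 hR
    exact ⟨a, (mem_core h1 h2 h3 ⟨i, h2 _ _ ha⟩).1 hy, rfl, ha⟩
  have back : ∀ a, a ∈ Core R' → R' i a → W a ∈ Core R ∧ R (W i) (W a) := by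
    intro a ha hR
    exact ⟨(mem_core h1 h2 h3 ⟨i, h2 _ _ hR⟩).2 ha, (h3 _ _).2 ⟨i, a, rfl, rfl, hR⟩⟩
  constructor
  · rintro ⟨hc, y, hy, z, hz, t, ht, hyz, hyt, hzt, hRy, hRz, hRt⟩
    obtain ⟨a, ha, rfl, hRa⟩ := key y hy hRy
    obtain ⟨b, hb, rfl, hRb⟩ := key z hz hRz
    obtain ⟨c, hc', rfl, hRc⟩ := key t ht hRt
    exact ⟨(mem_core h1 h2 h3 hi).1 hc, a, ha, b, hb, c, hc', fun h => hyz (by rw [h]),
      fun h => hyt (by rw [h]), fun h => hzt (by rw [h]), hRa, hRb, hRc⟩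
  · rintro ⟨hc, y, hy, z, hz, t, ht, hyz, hyt, hzt, hRy, hRz, hRt⟩
    refine ⟨(mem_core h1 h2 h3 hi).2 hc, W y, (back y hy hRy).1, W z, (back z hz hRz).1, W t,
      (back t ht hRt).1, ?_, ?_, ?_, (back y hy hRy).2, (back z hz hRz).2, (back t ht hRt).2⟩
    · exact fun h => hyz (inj h1 ⟨i, h2 _ _ hRy⟩ ⟨i, h2 _ _ hRz⟩ h)
    · exact fun h => hyt (inj h1 ⟨i, h2 _ _ hRy⟩ ⟨i, h2 _ _ hRt⟩ h)
    · exact fun h => hzt (inj h1 ⟨i, h2 _ _ hRz⟩ ⟨i, h2 _ _ hRt⟩ h)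

include h1 h2 h3 in
theorem leads_of {u x v : β} (h : Leads R' u x v) : Leads R (W u) (W x) (W v) := by
  induction h with
  | stop u x hR hb =>
    exact Leads.stop _ _ ((h3 _ _).2 ⟨u, x, rfl, rfl, hR⟩)
      ((branch_iff h1 h2 h3 ⟨u, h2 _ _ hR⟩).2 hb)
  | step u x y v hR hb hR2 hy hne _ ih =>
    refine Leads.step _ _ (W y) _ ((h3 _ _).2 ⟨u, x, rfl, rfl, hR⟩)
      (fun h => hb ((branch_iff h1 h2 h3 ⟨u, h2 _ _ hR⟩).1 h))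
      ((h3 _ _).2 ⟨x, y, rfl, rfl, hR2⟩) ((mem_core h1 h2 h3 ⟨x, h2 _ _ hR2⟩).2 hy) ?_ ih
    exact fun h => hne (inj h1 ⟨x, h2 _ _ hR2⟩ ⟨x, hR⟩ h)

include h1 h2 h3 in
theorem of_leads {a b c : α} (h : Leads R a b c) : ∀ u x : β, (∃ j, R' u j) → (∃ j, R' x j) →
    a = W u → b = W x → ∃ v, c = W v ∧ (∃ j, R' v j) ∧ Leads R' u x v := by
  induction h with
  | stop a b hR hb =>
    rintro u x hu hx rfl rfl
    exact ⟨x, rfl, hx, Leads.stop _ _ ((rel' h1 h3 hu hx h2).1 hR) ((branch_iff h1 h2 h3 hx).1 hb)⟩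
  | step a b y c hR hb hR2 hy hne _ ih =>
    rintro u x hu hx rfl rfl
    obtain ⟨k, rfl, hk⟩ := (rel h1 h3 hx _).1 hR2
    have hks : ∃ j, R' k j := ⟨x, h2 _ _ hk⟩
    obtain ⟨v, hv, hvs, hL⟩ := ih x k hx hks rfl rfl
    refine ⟨v, hv, hvs, Leads.step _ _ k _ ((rel' h1 h3 hu hx h2).1 hR)
      (fun h => hb ((branch_iff h1 h2 h3 hx).2 h)) hk ((mem_core h1 h2 h3 hks).1 hy) ?_ hL⟩
    rintro rfl
    exact hne rfl

end

end TRF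

open TRF in
theorem t_TRF : S_TRF := by
  rintro α β R R' W A h1 h2 h3 ⟨φ, hinj, hbr, hcard⟩
  have hφs : ∀ i, ∃ j, R' (φ i) j := fun i => core_supp ((hbr (φ i)).2 ⟨i, rfl⟩).1
  refine ⟨fun i => W (φ i), ?_, ?_, ?_⟩
  · intro i j h
    exact hinj (inj h1 (hφs i) (hφs j) h)
  · intro x
    constructor
    · intro hx
      have hc : x ∈ Core R := hx.1
      rw [core_eq h1 h2 h3] at hc
      obtain ⟨k, hk, rfl⟩ := hc
      obtain ⟨i, rfl⟩ := (hbr k).1 ((branch_iff h1 h2 h3 (core_supp hk)).1 hx)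
      exact ⟨i, rfl⟩
    · rintro ⟨i, rfl⟩
      exact (branch_iff h1 h2 h3 (hφs i)).2 ((hbr _).2 ⟨i, rfl⟩)
  · intro i j
    rw [← hcard i j]
    have himg : {x | x ∈ Core R ∧ Leads R (W (φ i)) x (W (φ j))} =
        W '' {x | x ∈ Core R' ∧ Leads R' (φ i) x (φ j)} := by
      ext x
      constructor
      · rintro ⟨hc, hL⟩
        rw [core_eq h1 h2 h3] at hc
        obtain ⟨k, hk, rfl⟩ := hc
        obtain ⟨v, hv, hvs, hL'⟩ := of_leads h1 h2 h3 hL (φ i) k (hφs i) (core_supp hk) rfl rfl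
        have : φ j = v := inj h1 (hφs j) hvs hv
        subst this
        exact ⟨k, ⟨hk, hL'⟩, rfl⟩
      · rintro ⟨k, ⟨hk, hL⟩, rfl⟩
        exact ⟨(mem_core h1 h2 h3 (core_supp hk)).2 hk, leads_of h1 h2 h3 hL⟩
    rw [himg]
    apply Set.ncard_image_of_injOn
    rintro k ⟨hk, _⟩ l ⟨hl, _⟩ h
    exact inj h1 (core_supp hk) (core_supp hl) h

theorem t_PERM : S_PERM := by
  rintro A B σ hAB ⟨p, q, hp, hq, hS, φ, hinj, hbr, hcard⟩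
  refine ⟨p, q, hp, hq, hS, fun i => φ (σ.symm i), ?_, ?_, ?_⟩
  · exact hinj.comp σ.symm.injective
  · intro x
    rw [hbr]
    constructor
    · rintro ⟨i, rfl⟩
      exact ⟨σ i, by simp⟩
    · rintro ⟨i, rfl⟩
      exact ⟨σ.symm i, rfl⟩
  · intro i j
    rw [hcard, ← hAB]
    simp

end Pool.Agent.R863.TG
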