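import Pool.Agent.R863.TG.Stm

/-!
# TG-VC: the cell of a vertex
-/

set_option autoImplicit false

namespace Pool.Agent.R863.TG

theorem VC_top_subset (p : TPoly) (w : Pt) {a : Mon} (ha : a ∈ p.top w) : a ∈ p.supp := by
  unfold TPoly.top at ha
  exact (Finset.mem_filter.1 ha).1

theorem VC_mem_cell {p q : TPoly} {w : Pt} {x : Bool × Mon} : x ∈ cell p q w ↔
    (x.1 = false ∧ x.2 ∈ p.top w) ∨ (x.1 = true ∧ x.2 ∈ q.top w) := by
  unfold cell
  simp only [Finset.mem_union, Finset.mem_image]
  constructor
  · rintro (⟨a, ha, rfl⟩ | ⟨a, ha, rfl⟩)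
    · exact Or.inl ⟨rfl, ha⟩
    · exact Or.inr ⟨rfl, ha⟩
  · rintro (⟨h1, h2⟩ | ⟨h1, h2⟩)
    · exact Or.inl ⟨x.2, h2, by rw [← h1]⟩
    · exact Or.inr ⟨x.2, h2, by rw [← h1]⟩

theorem t_VC : S_VC := by
  classical
  intro p q hp hq hs w hw
  obtain ⟨hfull, h1, h2⟩ := hw
  obtain ⟨f, hf, hrange, hdet⟩ := hs w hfull
  have hcard : (p.top w).card + (q.top w).card = 5 := by
    have e1 : (cell p q w).card = (p.top w).card + (q.top w).card := by
      unfold cell
      rw [Finset.card_union_of_disjoint, Finset.card_image_of_injective, Finset.card_image_of_injective]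
      · intro a b h
        exact (Prod.mk.inj h).2
      · intro a b h
        exact (Prod.mk.inj h).2
      · rw [Finset.disjoint_left]
        intro x hx hx'
        rw [Finset.mem_image] at hx hx'
        obtain ⟨a, -, rfl⟩ := hx
        obtain ⟨b, -, hb⟩ := hx'
        have := (Prod.mk.inj hb).1
        exact absurd this (by decide)
    have e2 : cell p q w = Finset.univ.image f := by
      ext x
      rw [← Finset.mem_coe, ← hrange]
      simp
    have e3 : (Finset.univ.image f).card = 5 := by
      rw [Finset.card_image_of_injective _ hf]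
      rfl
    rw [← e1, e2, e3]
  refine ⟨fun a ha => hp.1 a (VC_top_subset p w ha), fun b hb => hq.1 b (VC_top_subset q w hb),
    by omega, f, hf, ?_, hdet⟩
  rw [hrange]
  ext x
  rw [Finset.mem_coe, VC_mem_cell]
  rfl

end Pool.Agent.R863.TG
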