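import Pool.Agent.R863.TG.Stm2

/-! TG-WALK: soundness of the certificate for the skeleton. -/

set_option autoImplicit false

namespace Pool.Agent.R863.TG

open Relation

namespace TWALK

/-- the content of the check of the skeleton, as propositions -/
structure GOk (g : GCert) (A : Matrix (Fin 6) (Fin 6) ℕ) : Prop where
  len : g.adj.length = 65
  phl : g.ph.length = 6
  nd : ∀ i < 65, (nbL g i).Nodup
  lt : ∀ i < 65, ∀ j ∈ nbL g i, j < 65
  ne : ∀ i < 65, ∀ j ∈ nbL g i, j ≠ i
  sym : ∀ i < 65, ∀ j ∈ nbL g i, i ∈ nbL g j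
  clt : ∀ i ∈ g.core, i < 65
  cn : ∀ i ∈ g.core, 2 ≤ (cnb g i).length
  rk : ∀ i < 65, i ∉ g.core → ((nbL g i).filter fun j => g.core.contains j ||
      decide (g.rk.getD i 0 ≤ g.rk.getD j 0)).length ≤ 1
  phn : g.ph.Nodup
  phb : ∀ i ∈ g.ph, isBr g i = true
  brp : ∀ i < 65, isBr g i = true → i ∈ g.ph
  ws : ∀ i : Fin 6, ∀ x ∈ cnb g (g.ph.getD i 0), (walk g 40 (g.ph.getD i 0) x).isSome = true
  wc : ∀ i j : Fin 6, ((cnb g (g.ph.getD i 0)).filter fun x =>
      walk g 40 (g.ph.getD i 0) x == some (g.ph.getD j 0)).length = A i j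

theorem gok (g : GCert) (A : Matrix (Fin 6) (Fin 6) ℕ) (h : gchk g A = true) : GOk g A := by
  unfold gchk at h
  simp only [Bool.and_eq_true, List.all_eq_true, decide_eq_true_eq, beq_iff_eq, bne_iff_ne,
    List.mem_range, Bool.or_eq_true, Bool.not_eq_true', List.mem_finRange, forall_const] at h
  obtain ⟨⟨⟨⟨⟨⟨⟨⟨h1, h2⟩, h3⟩, h4⟩, h5⟩, h6⟩, h7⟩, h8⟩, h9⟩ := h
  refine ⟨h1, h2, fun i hi => (h3 i hi).1, fun i hi j hj => ((h3 i hi).2 j hj).1.1,
    fun i hi j hj => ((h3 i hi).2 j hj).1.2, fun i hi j hj => ?_,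
    fun i hi => (h4 i hi).1, fun i hi => (h4 i hi).2, fun i hi hn => ?_, h6, h7, fun i hi hb => ?_,
    fun i => (h9 i).1, fun i j => (h9 i).2 j⟩
  · have := ((h3 i hi).2 j hj).2
    simpa using this
  · rcases h5 i hi with h | h
    · exact absurd (by simpa using h) hn
    · exact h
  · rcases h8 i hi with h | h
    · rw [h] at hb
      exact absurd hb (by simp)
    · simpa using h

section

variable {g : GCert} {A : Matrix (Fin 6) (Fin 6) ℕ}

theorem mem_cnb {i j : ℕ} : j ∈ cnb g i ↔ j ∈ nbL g i ∧ j ∈ g.core := by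
  unfold cnb
  rw [List.mem_filter]
  simp

theorem nbL_lt (H : GOk g A) {i j : ℕ} (h : j ∈ nbL g i) : i < 65 := by
  by_contra hc
  unfold nbL at h
  rw [List.getD_eq_default _ _ (by rw [H.len]; omega)] at h
  simp at h

theorem two_of_len {l : List ℕ} (hn : l.Nodup) (h : 2 ≤ l.length) :
    ∃ y ∈ l, ∃ z ∈ l, y ≠ z := by
  match l, hn, h with
  | y :: z :: t, hn, _ =>
    refine ⟨y, by simp, z, by simp, ?_⟩
    rintro rfl
    simp at hn

theorem len_of_two {l : List ℕ} {y z : ℕ} (hy : y ∈ l) (hz : z ∈ l) (hyz : y ≠ z) :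
    2 ≤ l.length := by
  match l, hy, hz with
  | [], hy, _ => simp at hy
  | [a], hy, hz =>
    simp at hy hz
    exact absurd (hy.trans hz.symm) hyz
  | a :: b :: t, _, _ => simp

theorem three_of_len {l : List ℕ} (hn : l.Nodup) (h : 3 ≤ l.length) :
    ∃ y ∈ l, ∃ z ∈ l, ∃ t ∈ l, y ≠ z ∧ y ≠ t ∧ z ≠ t := by
  match l, hn, h with
  | y :: z :: t :: s, hn, _ =>
    refine ⟨y, by simp, z, by simp, t, by simp, ?_, ?_, ?_⟩
    · rintro rfl
      simp at hn
    · rintro rfl
      simp at hn
    · rintro rfl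
      simp at hn

theorem len_of_three {l : List ℕ} {y z t : ℕ} (hy : y ∈ l) (hz : z ∈ l) (ht : t ∈ l)
    (h1 : y ≠ z) (h2 : y ≠ t) (h3 : z ≠ t) : 3 ≤ l.length := by
  have hs : ({y, z, t} : Finset ℕ) ⊆ l.toFinset := by
    intro x hx
    simp only [Finset.mem_insert, Finset.mem_singleton] at hx
    rw [List.mem_toFinset]
    rcases hx with rfl | rfl | rfl <;> assumption
  have hc : ({y, z, t} : Finset ℕ).card = 3 := by
    rw [Finset.card_eq_three]
    exact ⟨y, z, t, h1, h2, h3, rfl⟩
  calc 3 = ({y, z, t} : Finset ℕ).card := hc.symm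
    _ ≤ l.toFinset.card := Finset.card_le_card hs
    _ ≤ l.length := List.toFinset_card_le l

/-- the relation -/
abbrev R (g : GCert) : ℕ → ℕ → Prop := fun i j => j ∈ nbL g i

theorem cnb_nodup (H : GOk g A) {i : ℕ} (hi : i < 65) : (cnb g i).Nodup :=
  (H.nd i hi).filter _

theorem core_iff (H : GOk g A) (x : ℕ) : x ∈ Core (R g) ↔ x ∈ g.core := by
  constructor
  · rintro ⟨U, hx, hU⟩
    by_contra hc
    have key : ∀ n x, x ∈ U → x ∉ g.core → g.rk.getD x 0 = n → False := by
      intro n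
      induction n using Nat.strong_induction_on with
      | _ n ih =>
        intro x hx hc hn
        obtain ⟨y, hy, z, hz, hyz, hxy, hxz⟩ := hU x hx
        have hlt := nbL_lt H hxy
        have hr := H.rk x hlt hc
        by_cases h1 : y ∈ g.core ∨ g.rk.getD x 0 ≤ g.rk.getD y 0
        · by_cases h2 : z ∈ g.core ∨ g.rk.getD x 0 ≤ g.rk.getD z 0
          · have := len_of_two (l := (nbL g x).filter fun j => g.core.contains j ||
              decide (g.rk.getD x 0 ≤ g.rk.getD j 0)) (y := y) (z := z)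
              (by rw [List.mem_filter]; exact ⟨hxy, by simpa using h1⟩)
              (by rw [List.mem_filter]; exact ⟨hxz, by simpa using h2⟩) hyz
            omega
          · push Not at h2
            exact ih (g.rk.getD z 0) (by omega) z hz h2.1 rfl
        · push Not at h1
          exact ih (g.rk.getD y 0) (by omega) y hy h1.1 rfl
    exact key _ x hx hc rfl
  · intro hx
    refine ⟨{y | y ∈ g.core}, hx, ?_⟩
    intro u hu
    obtain ⟨y, hy, z, hz, hyz⟩ := two_of_len (cnb_nodup H (H.clt u hu)) (H.cn u hu)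
    rw [mem_cnb] at hy hz
    exact ⟨y, hy.2, z, hz.2, hyz, hy.1, hz.1⟩

theorem isBr_iff {x : ℕ} : isBr g x = true ↔ x ∈ g.core ∧ 3 ≤ (cnb g x).length := by
  unfold isBr
  simp

theorem branch_iff (H : GOk g A) (x : ℕ) : Branch (R g) x ↔ isBr g x = true := by
  rw [isBr_iff]
  unfold Branch
  rw [core_iff H]
  constructor
  · rintro ⟨hx, y, hy, z, hz, t, ht, h1, h2, h3, h4, h5, h6⟩
    rw [core_iff H] at hy hz ht
    exact ⟨hx, len_of_three (mem_cnb.2 ⟨h4, hy⟩) (mem_cnb.2 ⟨h5, hz⟩) (mem_cnb.2 ⟨h6, ht⟩) h1 h2 h3⟩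
  · rintro ⟨hx, hl⟩
    obtain ⟨y, hy, z, hz, t, ht, h1, h2, h3⟩ := three_of_len (cnb_nodup H (H.clt x hx)) hl
    rw [mem_cnb] at hy hz ht
    exact ⟨hx, y, (core_iff H y).2 hy.2, z, (core_iff H z).2 hz.2, t, (core_iff H t).2 ht.2,
      h1, h2, h3, hy.1, hz.1, ht.1⟩

theorem leads_nb {α : Type} {R : α → α → Prop} {u x v : α} (h : Leads R u x v) : R u x := by
  cases h with
  | stop _ _ h _ => exact h
  | step _ _ _ _ h _ _ _ _ _ => exact h

theorem leads_iff (H : GOk g A) : ∀ (f u x v : ℕ), walk g f u x = some v → x ∈ g.core →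
    u ∈ g.core → x ∈ nbL g u → ∀ w, Leads (R g) u x w ↔ w = v := by
  intro f
  induction f with
  | zero =>
    intro u x v h
    simp [walk] at h
  | succ f ih =>
    intro u x v h hx hu hux w
    rw [walk] at h
    by_cases hb : isBr g x = true
    · rw [if_pos hb] at h
      have hxv : x = v := by simpa using h
      subst hxv
      have hB := (branch_iff H x).2 hb
      constructor
      · intro hl
        cases hl with
        | stop _ _ _ _ => rfl
        | step _ _ y _ _ hnb _ _ _ _ => exact absurd hB hnb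
      · rintro rfl
        exact Leads.stop u w hux hB
    · rw [if_neg hb] at h
      have hnB : ¬ Branch (R g) x := fun hh => hb ((branch_iff H x).1 hh)
      split at h
      · rename_i y hy
        have hmem : ∀ y', y' ∈ cnb g x ∧ y' ≠ u ↔ y' = y := by
          intro y'
          have : y' ∈ (cnb g x).filter (fun y => y != u) ↔ y' = y := by
            rw [hy]; simp
          rw [← this, List.mem_filter]
          simp
        have hyc := (hmem y).2 rfl
        have hyc' := mem_cnb.1 hyc.1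
        have hrec := ih x y v h hyc'.2 hx hyc'.1 w
        constructor
        · intro hl
          cases hl with
          | stop _ _ _ hB => exact absurd hB hnB
          | step _ _ y' _ _ _ hxy hyC hyu hl' =>
            have : y' = y := (hmem y').1 ⟨mem_cnb.2 ⟨hxy, (core_iff H y').1 hyC⟩, hyu⟩
            subst this
            exact hrec.1 hl'
        · intro hw
          exact Leads.step u x y w hux hnB hyc'.1 ((core_iff H y).2 hyc'.2) hyc.2 (hrec.2 hw)
      · simp at h

end

end TWALK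

open TWALK in
/-- TG-WALK -/
theorem t_WALK : S_WALK := by
  intro g A h
  have H := gok g A h
  have hget : ∀ i : Fin 6, g.ph.getD i 0 ∈ g.ph := by
    intro i
    have hi : (i : ℕ) < g.ph.length := by rw [H.phl]; exact i.2
    rw [List.getD_eq_getElem _ _ hi]
    exact List.getElem_mem hi
  refine ⟨fun i => g.ph.getD i 0, ?_, ?_, ?_⟩
  · intro i j hij
    have hi : (i : ℕ) < g.ph.length := by rw [H.phl]; exact i.2
    have hj : (j : ℕ) < g.ph.length := by rw [H.phl]; exact j.2
    simp only at hij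
    rw [List.getD_eq_getElem _ _ hi, List.getD_eq_getElem _ _ hj] at hij
    exact Fin.ext ((H.phn.getElem_inj_iff).1 hij)
  · intro x
    rw [branch_iff H]
    constructor
    · intro hb
      have hx := H.brp x (H.clt x (isBr_iff.1 hb).1) hb
      obtain ⟨n, hn, hnx⟩ := List.getElem_of_mem hx
      refine ⟨⟨n, by rw [← H.phl]; exact hn⟩, ?_⟩
      simp only
      rw [List.getD_eq_getElem _ _ hn, hnx]
    · rintro ⟨i, rfl⟩
      exact H.phb _ (hget i)
  · intro i j
    have hbi := H.phb _ (hget i)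
    have hci := (isBr_iff.1 hbi).1
    rw [← H.wc i j]
    have hset : {x | x ∈ Core (fun i j : ℕ => j ∈ nbL g i) ∧
        Leads (fun i j : ℕ => j ∈ nbL g i) (g.ph.getD i 0) x (g.ph.getD j 0)} =
        ((((cnb g (g.ph.getD i 0)).filter fun x =>
          walk g 40 (g.ph.getD i 0) x == some (g.ph.getD j 0)).toFinset : Finset ℕ) : Set ℕ) := by
      ext x
      simp only [Set.mem_ofPred_eq, List.coe_toFinset, List.mem_filter, beq_iff_eq]
      constructor
      · rintro ⟨hxC, hl⟩
        have hxc := (core_iff H x).1 hxC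
        have hR : x ∈ nbL g (g.ph.getD i 0) := leads_nb hl
        have hcn : x ∈ cnb g (g.ph.getD i 0) := mem_cnb.2 ⟨hR, hxc⟩
        refine ⟨hcn, ?_⟩
        obtain ⟨v, hv⟩ := Option.isSome_iff_exists.1 (H.ws i x hcn)
        rw [hv, (leads_iff H 40 _ x v hv hxc hci hR _).1 hl]
      · rintro ⟨hcn, hw⟩
        have hm := mem_cnb.1 hcn
        exact ⟨(core_iff H x).2 hm.2, (leads_iff H 40 _ x _ hw hm.2 hci hm.1 _).2 rfl⟩
    rw [hset, Set.ncard_coe_finset, List.toFinset_card_of_nodup]
    exact (cnb_nodup H (H.clt _ hci)).filter _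

end Pool.Agent.R863.TG
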